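import Mathlib

/-!
# Definitions for the statement

* `VS o` is the rank-initial segment `V_{o+1}`, with the membership relation of `ZFSet`;
* `Sat` is satisfaction of first-order formulas of set theory (`Fml`) in `(V_{o+1}, ∈)`;
* `IsI1 lam` says that there is an `I1`-embedding `j : V_{lam+1} → V_{lam+1}`, `lam` being the
  supremum of its critical sequence;
* `SO τ` are the second-order formulas of a finite vocabulary `τ`, `SO.Sat` is full
  second-order satisfaction, and `Complete`, `Categorical`, `CategoricalIn` are as usual.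
-/

namespace SOCat

universe u

/-! ### First-order formulas of set theory and the structures `(V_{o+1}, ∈)` -/

/-- First-order formulas in the language `{∈}`, with de Bruijn indices as variables. -/
inductive Fml : Type
  | mem (i j : ℕ)
  | eq (i j : ℕ)
  | neg (φ : Fml)
  | and (φ ψ : Fml)
  | all (φ : Fml)

/-- `VS o` is `V_{o+1}`: the sets of rank at most `o`. -/
abbrev VS (o : Ordinal.{u}) : Type (u + 1) := {x : ZFSet.{u} // x.rank ≤ o}

/-- Put `a` in front of the sequence `v`. -/
def cons {M : Type*} (a : M) (v : ℕ → M) : ℕ → M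
  | 0 => a
  | n + 1 => v n

/-- Satisfaction in the structure `(V_{o+1}, ∈)`. -/
def Sat {o : Ordinal.{u}} : Fml → (ℕ → VS o) → Prop
  | .mem i j, v => (v i).1 ∈ (v j).1
  | .eq i j, v => v i = v j
  | .neg φ, v => ¬ Sat φ v
  | .and φ ψ, v => Sat φ v ∧ Sat ψ v
  | .all φ, v => ∀ a : VS o, Sat φ (cons a v)

/-- `j` is an elementary embedding of `(V_{o+1}, ∈)` into itself. -/
def Elem {o : Ordinal.{u}} (j : VS o → VS o) : Prop :=
  ∀ (φ : Fml) (v : ℕ → VS o), Sat φ v ↔ Sat φ (fun n => j (v n))

/-- `j` is an `I1`-embedding `V_{o+1} → V_{o+1}` with critical sequence `κ`: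
`j` is elementary, `κ 0` is the critical point of `j` (the least ordinal moved by `j`),
`κ (n+1) = j (κ n)`, and `o` is the supremum of the `κ n`. -/
structure IsI1Emb {o : Ordinal.{u}} (j : VS o → VS o) (κ : ℕ → Ordinal.{u}) : Prop where
  el : Elem j
  crit : ∀ (x : VS o) (a : Ordinal.{u}), a < κ 0 → x.1 = a.toZFSet → j x = x
  moved : ∀ x : VS o, x.1 = (κ 0).toZFSet → j x ≠ x
  next : ∀ (n : ℕ) (x : VS o), x.1 = (κ n).toZFSet → (j x).1 = (κ (n+1)).toZFSet
  sup : ∀ a : Ordinal.{u}, a < o ↔ ∃ n, a < κ n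

/-- `lam` is an `I1`-cardinal: there is a non-trivial elementary embedding of `V_{lam+1}` into
itself, `lam` being the supremum of its critical sequence. -/
def IsI1 (lam : Cardinal.{u}) : Prop :=
  ∃ (j : VS lam.ord → VS lam.ord) (κ : ℕ → Ordinal.{u}), IsI1Emb j κ

/-! ### Second-order logic -/

/-- A finite vocabulary: finitely many relation symbols and finitely many function symbols,
each with its arity (constants are function symbols of arity `0`). -/
structure Voc where
  nR : ℕ
  aR : Fin nR → ℕ
  nF : ℕ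
  aF : Fin nF → ℕ

/-- A structure with domain `M`. -/
structure Str (τ : Voc) (M : Type u) where
  rel : ∀ R : Fin τ.nR, (Fin (τ.aR R) → M) → Prop
  fn : ∀ f : Fin τ.nF, (Fin (τ.aF f) → M) → M

/-- Second-order formulas of the vocabulary `τ` (with unnested atomic formulas
`x = y`, `R(xs)`, `f(xs) = y`, `X(xs)`).
First-order variables are `0, 1, 2, ...`; the second-order variables are the pairs `(r, i)`,
`(r, i)` being the `i`-th variable for `r`-ary relations. -/
inductive SO (τ : Voc) : Type
  | eq (x y : ℕ)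
  | rel (R : Fin τ.nR) (xs : Fin (τ.aR R) → ℕ)
  | fn (f : Fin τ.nF) (xs : Fin (τ.aF f) → ℕ) (y : ℕ)
  | var (r i : ℕ) (xs : Fin r → ℕ)
  | neg (φ : SO τ)
  | and (φ ψ : SO τ)
  | all (x : ℕ) (φ : SO τ)
  | allR (r i : ℕ) (φ : SO τ)

/-- Assignments for the second-order variables. -/
abbrev Asg (M : Type u) := ∀ r : ℕ, ℕ → (Fin r → M) → Prop

/-- Change the value of the variable `(r, i)` to `A`. -/
def Asg.upd {M : Type u} (W : Asg M) (r i : ℕ) (A : (Fin r → M) → Prop) : Asg M :=
  Function.update W r (Function.update (W r) i A)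

variable {τ : Voc}

/-- Full (standard) second-order satisfaction. -/
def SO.Sat {M : Type u} (S : Str τ M) : SO τ → (ℕ → M) → Asg M → Prop
  | .eq x y, v, _ => v x = v y
  | .rel R xs, v, _ => S.rel R (fun k => v (xs k))
  | .fn f xs y, v, _ => S.fn f (fun k => v (xs k)) = v y
  | .var r i xs, v, W => W r i (fun k => v (xs k))
  | .neg φ, v, W => ¬ φ.Sat S v W
  | .and φ ψ, v, W => φ.Sat S v W ∧ ψ.Sat S v W
  | .all x φ, v, W => ∀ m : M, φ.Sat S (Function.update v x m) W
  | .allR r i φ, v, W => ∀ A : (Fin r → M) → Prop, φ.Sat S v (W.upd r i A)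

/-- A sentence: a formula whose truth in a structure does not depend on the assignment. -/
def SO.IsSentence (φ : SO τ) : Prop :=
  ∀ (M : Type u) (S : Str τ M) (v v' : ℕ → M) (W W' : Asg M), φ.Sat S v W → φ.Sat S v' W'

/-- The structure `S` satisfies the sentence `φ`. -/
def Models {M : Type u} (S : Str τ M) (φ : SO τ) : Prop :=
  ∀ (v : ℕ → M) (W : Asg M), φ.Sat S v W

/-- `S` is a model of the theory `T`. -/
def IsModel {M : Type u} (S : Str τ M) (T : Set (SO τ)) : Prop := ∀ φ ∈ T, Models S φ

/-- `T` is complete: for each sentence `φ`, all models of `T` satisfy `φ` or all models of `T`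
satisfy `¬φ`. -/
def Complete (T : Set (SO τ)) : Prop :=
  ∀ φ : SO τ, SO.IsSentence.{u} φ →
    (∀ (M : Type u) [Nonempty M] (S : Str τ M), IsModel S T → Models S φ) ∨
    (∀ (M : Type u) [Nonempty M] (S : Str τ M), IsModel S T → Models S (.neg φ))

/-- Isomorphism of structures. -/
def Isom {M N : Type u} (S : Str τ M) (S' : Str τ N) : Prop :=
  ∃ e : M ≃ N, (∀ R xs, S.rel R xs ↔ S'.rel R (fun k => e (xs k))) ∧
    ∀ f xs, e (S.fn f xs) = S'.fn f (fun k => e (xs k))

/-- `T` is categorical: any two models are isomorphic. -/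
def Categorical (T : Set (SO τ)) : Prop :=
  ∀ (M N : Type u) [Nonempty M] [Nonempty N] (S : Str τ M) (S' : Str τ N),
    IsModel S T → IsModel S' T → Isom S S'

/-- `T` is categorical in the cardinality `μ`. -/
def CategoricalIn (μ : Cardinal.{u}) (T : Set (SO τ)) : Prop :=
  ∀ (M N : Type u) [Nonempty M] [Nonempty N] (S : Str τ M) (S' : Str τ N),
    Cardinal.mk M = μ → Cardinal.mk N = μ → IsModel S T → IsModel S' T → Isom S S'

/-- `T` has a model of cardinality `μ`. -/
def HasModelOfCard (μ : Cardinal.{u}) (T : Set (SO τ)) : Prop :=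
  ∃ (M : Type u) (_ : Nonempty M) (S : Str τ M), Cardinal.mk M = μ ∧ IsModel S T

end SOCat
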