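import Pool.Agent.SOCat.SO

namespace SOCat

universe u

variable {τ : Voc} {o : Ordinal.{u}}

theorem Dfn.allU (x : ℕ) {R : ∀ o : Ordinal.{u}, (ℕ → VS o) → Prop} (h : Dfn R) :
    Dfn fun o v => ∀ a : VS o, R o (Function.update v x a) := by
  obtain ⟨φ, hφ⟩ := (h.ren (fun n => if n = x then 0 else n+1)).all
  refine ⟨φ, fun o v => ?_⟩
  rw [hφ]
  have : ∀ a : VS o, (fun n => cons a v (if n = x then 0 else n+1)) = Function.update v x a := by
    intro a
    funext n
    by_cases hn : n = x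
    · subst hn
      simp only [if_true, Function.update_self]
      rfl
    · rw [if_neg hn, Function.update_of_ne hn]
      rfl
  simp only [this]

/-- the slots -/
abbrev Slot (τ : Voc) := ℕ ⊕ ((ℕ × ℕ) ⊕ (Fin τ.nR ⊕ Fin τ.nF))

def enc (s : Slot τ) : ℕ := Encodable.encode s

theorem enc_inj {s t : Slot τ} (h : enc s = enc t) : s = t := Encodable.encode_injective h

theorem upd_enc {M : Type*} (w : ℕ → M) (s t : Slot τ) (a : M) (h : t ≠ s) :
    Function.update w (enc s) a (enc t) = w (enc t) :=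
  Function.update_of_ne (fun e => h (enc_inj e)) _ _

abbrev fo (τ : Voc) (x : ℕ) : Slot τ := Sum.inl x
abbrev so (τ : Voc) (r i : ℕ) : Slot τ := Sum.inr (Sum.inl (r, i))
abbrev rs {τ : Voc} (R : Fin τ.nR) : Slot τ := Sum.inr (Sum.inr (Sum.inl R))
abbrev fs {τ : Voc} (f : Fin τ.nF) : Slot τ := Sum.inr (Sum.inr (Sum.inr f))

/-- translation of second-order formulas into set theory -/
def SR : ∀ (_ : SO τ) {o : Ordinal.{u}}, (ℕ → VS o) → Prop
  | .eq x y, _, w => w (enc (fo τ x)) = w (enc (fo τ y))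
  | .rel R xs, o, w => ∃ z : VS o, IsTup _ (fun k => w (enc (fo τ (xs k)))) z ∧ z.1 ∈ (w (enc (rs R))).1
  | .fn f xs y, o, w => ∃ z : VS o, IsTup _ (fun k => w (enc (fo τ (xs k)))) z ∧
      App (w (enc (fs f))) z (w (enc (fo τ y)))
  | .var r i xs, o, w => ∃ z : VS o, IsTup _ (fun k => w (enc (fo τ (xs k)))) z ∧
      z.1 ∈ (w (enc (so τ r i))).1
  | .neg φ, _, w => ¬ SR φ w
  | .and φ ψ, _, w => SR φ w ∧ SR ψ w
  | .all x φ, o, w => ∀ a : VS o, dom a → SR φ (Function.update w (enc (fo τ x)) a)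
  | .allR r i φ, o, w => ∀ a : VS o, SR φ (Function.update w (enc (so τ r i)) a)

theorem d_SR : ∀ φ : SO τ, Dfn.{u} fun _ w => SR φ w
  | .eq x y => Dfn.eq _ _
  | .rel R xs => ((d_IsTup _ (fun k => enc (fo τ (xs k)) + 1) 0).and (Dfn.mem 0 (_ + 1))).ex
  | .fn f xs y => ((d_IsTup _ (fun k => enc (fo τ (xs k)) + 1) 0).and (d_App (_ + 1) 0 (_ + 1))).ex
  | .var r i xs => ((d_IsTup _ (fun k => enc (fo τ (xs k)) + 1) 0).and (Dfn.mem 0 (_ + 1))).ex
  | .neg φ => (d_SR φ).not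
  | .and φ ψ => (d_SR φ).and (d_SR ψ)
  | .all x φ => by
    obtain ⟨ψ, hψ⟩ := ((d_dom (enc (fo τ x))).imp (d_SR φ)).allU (enc (fo τ x))
    refine ⟨ψ, fun o v => ?_⟩
    rw [hψ]
    simp only [Function.update_self]
    rfl
  | .allR r i φ => (d_SR φ).allU _

section sem

variable {M : Type u} (e : M ≃ {x : VS o // dom x}) (S : Str τ M)

/-- code of a tuple -/
noncomputable def T {n : ℕ} (xs : Fin n → M) : ZFSet.{u} := tup n (fun k => (e (xs k)).1.1)

theorem T_inj {n : ℕ} {xs ys : Fin n → M} (h : T e xs = T e ys) : xs = ys := by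
  funext k
  have := congrFun (tup_inj h) k
  exact e.injective (Subtype.ext (Subtype.ext this))

theorem rank_T (ho : Lim o) {n : ℕ} (xs : Fin n → M) : (T e xs).rank < o :=
  rank_tup ho (fun k => ((dom_iff ho).1 (e (xs k)).2).1)

structure Dec (w : ℕ → VS o) (v : ℕ → M) (W : Asg M) : Prop where
  fo : ∀ x, w (enc (fo τ x)) = (e (v x)).1
  so : ∀ r i (xs : Fin r → M), W r i xs ↔ T e xs ∈ (w (enc (so τ r i))).1
  rs : ∀ R xs, S.rel R xs ↔ T e xs ∈ (w (enc (rs R))).1
  fs : ∀ f xs y, S.fn f xs = y ↔ ZFSet.pair (T e xs) (e y).1.1 ∈ (w (enc (fs f))).1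

theorem tup_mem_iff {n : ℕ} {a : Fin n → VS o} {c : VS o} :
    (∃ z : VS o, IsTup n a z ∧ z.1 ∈ c.1) ↔ tup n (fun k => (a k).1) ∈ c.1 := by
  constructor
  · rintro ⟨z, h1, h2⟩
    rw [IsTup_iff] at h1
    rwa [← h1]
  · intro h
    exact ⟨down h, IsTup_iff.2 rfl, h⟩

theorem tup_app_iff {n : ℕ} {a : Fin n → VS o} {c y : VS o} :
    (∃ z : VS o, IsTup n a z ∧ App c z y) ↔ ZFSet.pair (tup n (fun k => (a k).1)) y.1 ∈ c.1 := by
  constructor
  · rintro ⟨z, h1, h2⟩
    rw [IsTup_iff] at h1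
    rw [← h1]
    exact App_iff.1 h2
  · intro h
    have hr : (tup n (fun k => (a k).1)).rank ≤ o :=
      (rank_left_lt _ _).le.trans ((ZFSet.rank_lt_of_mem h).le.trans c.2)
    exact ⟨⟨_, hr⟩, IsTup_iff.2 rfl, App_iff.2 h⟩

variable {e S}

theorem Dec.tup {w : ℕ → VS o} {v : ℕ → M} {W : Asg M} (h : Dec e S w v W) {n : ℕ}
    (xs : Fin n → ℕ) : SOCat.tup n (fun k => (w (enc (SOCat.fo τ (xs k)))).1) = T e (fun k => v (xs k)) := by
  unfold T
  congr 1
  funext k
  rw [h.fo]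

/-- the code of a relation -/
noncomputable def relCode (e : M ≃ {x : VS o // dom x}) {n : ℕ} (A : (Fin n → M) → Prop) : VS o :=
  ⟨ZFSet.sep (fun z => ∃ xs : Fin n → M, A xs ∧ z = T e xs) (ZFSet.vonNeumann o), by
    rw [← ZFSet.subset_vonNeumann]
    intro z hz
    exact (ZFSet.mem_sep.1 hz).1⟩

theorem mem_relCode (ho : Lim o) {n : ℕ} (A : (Fin n → M) → Prop) (xs : Fin n → M) :
    A xs ↔ T e xs ∈ (relCode e A).1 := by
  unfold relCode
  rw [ZFSet.mem_sep, ZFSet.mem_vonNeumann]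
  constructor
  · intro h
    exact ⟨rank_T e ho xs, xs, h, rfl⟩
  · rintro ⟨_, ys, h1, h2⟩
    rwa [T_inj e h2]

theorem SR_iff (ho : Lim o) (φ : SO τ) : ∀ (w : ℕ → VS o) (v : ℕ → M) (W : Asg M),
    Dec e S w v W → (SR φ w ↔ φ.Sat S v W) := by
  induction φ with
  | eq x y =>
    intro w v W h
    show w _ = w _ ↔ v x = v y
    rw [h.fo, h.fo]
    constructor
    · intro h; exact e.injective (Subtype.ext h)
    · intro h; rw [h]
  | rel R xs =>
    intro w v W h
    show (∃ z : VS o, _ ∧ _) ↔ S.rel R _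
    rw [tup_mem_iff, h.rs, h.tup]
  | fn f xs y =>
    intro w v W h
    show (∃ z : VS o, _ ∧ _) ↔ S.fn f _ = _
    rw [tup_app_iff, h.fs, h.tup, h.fo]
  | var r i xs =>
    intro w v W h
    show (∃ z : VS o, _ ∧ _) ↔ W r i _
    rw [tup_mem_iff, h.so, h.tup]
  | neg φ ih => intro w v W h; exact not_congr (ih w v W h)
  | and φ ψ ih1 ih2 => intro w v W h; exact and_congr (ih1 w v W h) (ih2 w v W h)
  | all x φ ih =>
    intro w v W h
    have key : ∀ m : M, Dec e S (Function.update w (enc (fo τ x)) (e m).1) (Function.update v x m) W := by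
      intro m
      refine ⟨fun y => ?_, fun r i xs => ?_, fun R xs => ?_, fun f xs y => ?_⟩
      · by_cases hy : y = x
        · subst hy; rw [Function.update_self, Function.update_self]
        · rw [upd_enc _ _ _ _ (by intro e; exact hy (Sum.inl.inj e)), Function.update_of_ne hy, h.fo]
      · rw [upd_enc _ _ _ _ (by simp), h.so]
      · rw [upd_enc _ _ _ _ (by simp), h.rs]
      · rw [upd_enc _ _ _ _ (by simp), h.fs]
    constructor
    · intro hs m
      exact (ih _ _ _ (key m)).1 (hs _ (e m).2)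
    · intro hs a ha
      obtain ⟨m, hm⟩ := e.surjective ⟨a, ha⟩
      have := (ih _ _ _ (key m)).2 (hs m)
      rw [hm] at this
      exact this
  | allR r i φ ih =>
    intro w v W h
    have key : ∀ (a : VS o) (A : (Fin r → M) → Prop), (∀ xs, A xs ↔ T e xs ∈ a.1) →
        Dec e S (Function.update w (enc (so τ r i)) a) v (W.upd r i A) := by
      intro a A hA
      refine ⟨fun y => ?_, fun r' i' xs => ?_, fun R xs => ?_, fun f xs y => ?_⟩
      · rw [upd_enc _ _ _ _ (by simp), h.fo]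
      · by_cases hr : r' = r ∧ i' = i
        · obtain ⟨rfl, rfl⟩ := hr
          rw [W.upd_same, Function.update_self, hA]
        · rw [W.upd_ne _ _ _ hr, upd_enc, h.so]
          intro e
          have := Sum.inl.inj (Sum.inr.inj e)
          rw [Prod.mk.injEq] at this
          exact hr this
      · rw [upd_enc _ _ _ _ (by simp), h.rs]
      · rw [upd_enc _ _ _ _ (by simp), h.fs]
    constructor
    · intro hs A
      exact (ih _ _ _ (key (relCode e A) A (mem_relCode ho A))).1 (hs _)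
    · intro hs a
      exact (ih _ _ _ (key a (fun xs => T e xs ∈ a.1) (fun _ => Iff.rfl))).2 (hs _)

theorem TupN_iff : ∀ {n : ℕ} {t : VS o}, TupN n t ↔ ∃ xs : Fin n → M, t.1 = T e xs
  | 0, t => by
    show Emp t ↔ _
    rw [Emp_iff]
    constructor
    · intro h; exact ⟨fun k => k.elim0, h⟩
    · rintro ⟨xs, h⟩; exact h
  | n + 1, t => by
    constructor
    · rintro ⟨a, ha, s, hs, hp⟩
      rw [TupN_iff (n := n) (t := s)] at hs
      obtain ⟨xs, hxs⟩ := hs
      obtain ⟨m, hm⟩ := e.surjective ⟨a, ha⟩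
      refine ⟨Fin.cons m xs, ?_⟩
      rw [IsP_iff] at hp
      rw [hp, hxs]
      show _ = ZFSet.pair (e m).1.1 (tup n (fun k => (e (xs k)).1.1))
      rw [hm]
      rfl
    · rintro ⟨xs, h⟩
      have hr : (T e (fun k => xs k.succ)).rank ≤ o :=
        (rank_right_lt (e (xs 0)).1.1 _).le.trans (by have h2 := t.2; rw [h] at h2; exact h2)
      exact ⟨(e (xs 0)).1, (e (xs 0)).2, ⟨_, hr⟩, TupN_iff.2 ⟨_, rfl⟩, IsP_iff.2 h⟩

end sem

end SOCat
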