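import Pool.Agent.SOCat.Down

namespace SOCat

universe u

variable {τ : Voc} {o : Ordinal.{u}}

theorem qr_ren : ∀ (g : ℕ → ℕ) (φ : Fml), qr (ren g φ) = qr φ
  | _, .mem _ _ => rfl
  | _, .eq _ _ => rfl
  | g, .neg φ => qr_ren g φ
  | g, .and φ ψ => by unfold ren qr; rw [qr_ren g φ, qr_ren g ψ]
  | g, .all φ => by unfold ren qr; rw [qr_ren (lift g) φ]

theorem exists_equiv (ho : Lim o) (M : Type u) (hM : Cardinal.mk M = o.card) :
    Nonempty (M ≃ {x : VS o // dom x}) := by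
  rw [← Cardinal.lift_mk_eq', dom_card ho, hM]
  simp

/-- code of a function -/
noncomputable def fnCode {M : Type u} (e : M ≃ {x : VS o // dom x}) {n : ℕ} (f : (Fin n → M) → M) :
    VS o :=
  ⟨ZFSet.sep (fun z => ∃ xs : Fin n → M, z = ZFSet.pair (T e xs) (e (f xs)).1.1)
    (ZFSet.vonNeumann o), by
    rw [← ZFSet.subset_vonNeumann]
    intro z hz
    exact (ZFSet.mem_sep.1 hz).1⟩

theorem mem_fnCode (ho : Lim o) {M : Type u} (e : M ≃ {x : VS o // dom x}) {n : ℕ}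
    (f : (Fin n → M) → M) (xs : Fin n → M) (y : M) :
    f xs = y ↔ ZFSet.pair (T e xs) (e y).1.1 ∈ (fnCode e f).1 := by
  unfold fnCode
  rw [ZFSet.mem_sep, ZFSet.mem_vonNeumann]
  constructor
  · intro h
    subst h
    exact ⟨ho.rank_pair_lt (rank_T e ho xs) ((dom_iff ho).1 (e (f xs)).2).1, xs, rfl⟩
  · rintro ⟨_, ys, h1⟩
    rw [ZFSet.pair_inj] at h1
    obtain ⟨h1, h2⟩ := h1
    rw [T_inj e h1]
    exact (e.injective (Subtype.ext (Subtype.ext h2))).symm

theorem Wit.down {j : VS o → VS o} {κ : ℕ → Ordinal.{u}} (wt : Wit j κ) (θ : SO τ)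
    (M : Type u) (hM : Cardinal.mk M = o.card) (S : Str τ M) (v : ℕ → M) (W : Asg M)
    (hθ : θ.Sat S v W) :
    ∃ (p : Ordinal.{u}) (M' : Type u) (S' : Str τ M') (v' : ℕ → M') (W' : Asg M'),
      p < o ∧ Cardinal.mk M' = p.card ∧ θ.Sat S' v' W' := by
  have ho := wt.lim
  obtain ⟨e⟩ := exists_equiv ho M hM
  let val : Slot τ → VS o := fun s => match s with
    | .inl x => (e (v x)).1
    | .inr (.inl q) => relCode e (W q.1 q.2)
    | .inr (.inr (.inl R)) => relCode e (S.rel R)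
    | .inr (.inr (.inr f)) => fnCode e (S.fn f)
  let w : ℕ → VS o := fun n => ((Encodable.decode n : Option (Slot τ)).map val).getD (val (.inl 0))
  have hw : ∀ s : Slot τ, w (enc s) = val s := by
    intro s
    simp only [w, enc, Encodable.encodek, Option.map_some, Option.getD_some]
  have hdec : Dec e S w v W := by
    refine ⟨fun x => ?_, fun r i xs => ?_, fun R xs => ?_, fun f xs y => ?_⟩
    · rw [hw]
    · rw [hw]; exact mem_relCode ho (W r i) xs
    · rw [hw]; exact mem_relCode ho (S.rel R) xs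
    · rw [hw]; exact mem_fnCode ho e (S.fn f) xs y
  have h1 : SR θ w := (SR_iff ho θ w v W hdec).2 hθ
  have h2 : ∀ x, dom (w (enc (fo τ x))) := by
    intro x
    rw [hw]
    exact (e (v x)).2
  have h3 : ∀ f : Fin τ.nF, Func (τ.aF f) (w (enc (fs f))) := by
    intro f t ht
    rw [TupN_iff (e := e)] at ht
    obtain ⟨xs, hxs⟩ := ht
    refine ⟨(e (S.fn f xs)).1, ⟨(e (S.fn f xs)).2, ?_⟩, ?_⟩
    · rw [App_iff, hxs, ← hdec.fs]
    · rintro y' ⟨hy', hy2⟩
      obtain ⟨m, hm⟩ := e.surjective ⟨y', hy'⟩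
      have e1 : (e m).1 = y' := congrArg Subtype.val hm
      rw [App_iff, hxs, ← e1, ← hdec.fs] at hy2
      rw [hy2, e1]
  obtain ⟨φθ, hφθ⟩ := d_SR.{u} θ
  obtain ⟨φd, hφd⟩ := d_dom.{u} 0
  have hF := fun f : Fin τ.nF => d_Func.{u} (τ.aF f) (enc (fs f))
  choose φf hφf using hF
  obtain ⟨p, hpo, hp, w', hw'⟩ := wt.reflection
    (max (qr φθ) (max (qr φd) (Finset.univ.sup fun f => qr (φf f)))) w
  have g1 : SR θ w' := (hφθ _ _).1 ((hw' φθ (le_max_left _ _)).1 ((hφθ _ _).2 h1))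
  have g2 : ∀ x, dom (w' (enc (fo τ x))) := by
    intro x
    have e1 := hw' (ren (fun _ => enc (fo τ x)) φd) (by
      rw [qr_ren]; exact (le_max_left _ _).trans (le_max_right _ _))
    rw [sat_ren, sat_ren] at e1
    exact (hφd _ _).1 (e1.1 ((hφd _ _).2 (h2 x)))
  have g3 : ∀ f : Fin τ.nF, Func (τ.aF f) (w' (enc (fs f))) := by
    intro f
    have := Finset.le_sup (f := fun f => qr (φf f)) (Finset.mem_univ f)
    exact (hφf f _ _).1 ((hw' (φf f) (this.trans ((le_max_right _ _).trans (le_max_right _ _)))).1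
      ((hφf f _ _).2 (h3 f)))
  obtain ⟨e'⟩ := exists_equiv hp p.ToType (Cardinal.mk_toType p)
  have g4 : ∀ (f : Fin τ.nF) (xs : Fin (τ.aF f) → p.ToType), ∃ y : p.ToType,
      ∀ y' : p.ToType, (y = y' ↔ ZFSet.pair (T e' xs) (e' y').1.1 ∈ (w' (enc (fs f))).1) := by
    intro f xs
    obtain ⟨y, ⟨hy1, hy2⟩, hy3⟩ := g3 f ⟨T e' xs, (rank_T e' hp xs).le⟩
      ((TupN_iff (e := e')).2 ⟨xs, rfl⟩)
    obtain ⟨m, hm⟩ := e'.surjective ⟨y, hy1⟩
    have e1 : (e' m).1 = y := congrArg Subtype.val hm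
    refine ⟨m, fun y' => ?_⟩
    constructor
    · rintro rfl
      rw [e1]
      exact App_iff.1 hy2
    · intro h
      have := hy3 (e' y').1 ⟨(e' y').2, App_iff.2 h⟩
      rw [← e1] at this
      exact (e'.injective (Subtype.ext this)).symm
  choose F' hF' using g4
  refine ⟨p, p.ToType, ⟨fun R xs => T e' xs ∈ (w' (enc (rs R))).1, F'⟩,
    fun x => e'.symm ⟨w' (enc (fo τ x)), g2 x⟩,
    fun r i xs => T e' xs ∈ (w' (enc (so τ r i))).1, hpo, Cardinal.mk_toType p, ?_⟩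
  rw [← SR_iff (e := e') hp θ w']
  · exact g1
  · refine ⟨fun x => ?_, fun r i xs => Iff.rfl, fun R xs => Iff.rfl, fun f xs y => hF' f xs y⟩
    rw [Equiv.apply_symm_apply]

end SOCat
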