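import Pool.Agent.SOCat.Defs

/-!
# Definitions for the perfect set theorem under `I1`
-/

namespace SOCat

universe u

/-- The elements of `V_o`. -/
abbrev Sm (o : Ordinal.{u}) : Type (u+1) := {x : ZFSet.{u} // x.rank < o}

/-- The power set of the ordinal `o`. -/
abbrev Pow (o : Ordinal.{u}) : Type (u+1) := {A : VS o // A.1 ⊆ o.toZFSet}

/-- The topology of `^ω o`: basic open sets are the sets of all extensions of a finite sequence. -/
def seqTop (o : Ordinal.{u}) : TopologicalSpace (ℕ → Set.Iio o) :=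
  TopologicalSpace.generateFrom
    {U | ∃ (n : ℕ) (s : Fin n → Set.Iio o), U = {x | ∀ k : Fin n, x k = s k}}

/-- The topology of `P(o)`: basic open sets are `{y : y ∩ η = a}` for `η < o` and `a ⊆ η`. -/
def powTop (o : Ordinal.{u}) : TopologicalSpace (Pow o) :=
  TopologicalSpace.generateFrom
    {U | ∃ η < o, ∃ a : ZFSet.{u}, a ⊆ η.toZFSet ∧ U = {y | y.1.1 ∩ η.toZFSet = a}}

/-- A perfect embedding of `^ω o` into `P(o)`: a homeomorphism onto its range. -/
def IsPerfectEmbedding {o : Ordinal.{u}} (ι : (ℕ → Set.Iio o) → Pow o) : Prop :=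
  @Topology.IsEmbedding _ _ (seqTop o) (powTop o) ι

/-- Second-order formulas over `(V_o, ∈)`: atomic formulas `x ∈ y`, `x = y` for first-order
variables and `x ∈ A` for a first-order variable `x` and a second-order variable `A`. -/
inductive SF : Type
  | mem (x y : ℕ)
  | eq (x y : ℕ)
  | inn (x A : ℕ)
  | neg (φ : SF)
  | and (φ ψ : SF)
  | all (x : ℕ) (φ : SF)
  | allS (A : ℕ) (φ : SF)

/-- Satisfaction over `(V_o, ∈)`: first-order variables range over `V_o`, second-order variables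
over `V_{o+1}`. -/
def SF.Sat {o : Ordinal.{u}} : SF → (ℕ → Sm o) → (ℕ → VS o) → Prop
  | .mem x y, v, _ => (v x).1 ∈ (v y).1
  | .eq x y, v, _ => v x = v y
  | .inn x A, v, W => (v x).1 ∈ (W A).1
  | .neg φ, v, W => ¬ φ.Sat v W
  | .and φ ψ, v, W => φ.Sat v W ∧ ψ.Sat v W
  | .all x φ, v, W => ∀ a : Sm o, φ.Sat (Function.update v x a) W
  | .allS A φ, v, W => ∀ Y : VS o, φ.Sat v (Function.update W A Y)

/-- Formulas without second-order quantifiers. -/
def SF.IsFO : SF → Prop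
  | .mem _ _ => True
  | .eq _ _ => True
  | .inn _ _ => True
  | .neg φ => φ.IsFO
  | .and φ ψ => φ.IsFO ∧ ψ.IsFO
  | .all _ φ => φ.IsFO
  | .allS _ _ => False

/-- Existential second-order quantification. -/
def SF.exS (A : ℕ) (φ : SF) : SF := .neg (.allS A (.neg φ))

/-- `SF.Cls true n` are the `Σ^1_n`-formulas, `SF.Cls false n` the `Π^1_n`-formulas. -/
inductive SF.Cls : Bool → ℕ → SF → Prop
  | fo {b : Bool} {φ : SF} : φ.IsFO → SF.Cls b 0 φ
  | up {b : Bool} {n : ℕ} {φ : SF} : SF.Cls (!b) n φ → SF.Cls b (n+1) φ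
  | ex {n A : ℕ} {φ : SF} : SF.Cls true (n+1) φ → SF.Cls true (n+1) (SF.exS A φ)
  | all {n A : ℕ} {φ : SF} : SF.Cls false (n+1) φ → SF.Cls false (n+1) (.allS A φ)

/-- `X ⊆ P(o)` is `Σ^1_n`-definable over `V_o` with parameters in `V_{o+1}`. -/
def SigmaDef {o : Ordinal.{u}} (n : ℕ) (X : Set (Pow o)) : Prop :=
  ∃ ψ : SF, SF.Cls true n ψ ∧ ∃ (v : ℕ → Sm o) (B : ℕ → VS o),
    X = {A | ψ.Sat v (cons A.1 B)}

end SOCat
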