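import Pool.Agent.SOCat.Init

namespace SOCat

universe u v

theorem Asg.upd_same {M : Type u} (W : Asg M) (r i : ℕ) (A : (Fin r → M) → Prop) :
    W.upd r i A r i = A := by
  unfold Asg.upd
  rw [Function.update_self, Function.update_self]

theorem Asg.upd_ne {M : Type u} (W : Asg M) (r i : ℕ) (A : (Fin r → M) → Prop) {r' i' : ℕ}
    (h : ¬ (r' = r ∧ i' = i)) : W.upd r i A r' i' = W r' i' := by
  unfold Asg.upd
  by_cases hr : r' = r
  · subst hr
    have : i' ≠ i := fun e => h ⟨rfl, e⟩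
    rw [Function.update_self, Function.update_of_ne this]
  · rw [Function.update_of_ne hr]

/-! ### translation into set theory -/

section dom

variable {o : Ordinal.{u}}

def Trn (x : VS o) : Prop := ∀ y : VS o, y.1 ∈ x.1 → Sub y x

/-- the domain: the ordinals below `o` -/
def dom (x : VS o) : Prop := sm x ∧ Trn x ∧ ∀ y : VS o, y.1 ∈ x.1 → Trn y

theorem d_Trn (i : ℕ) : Dfn.{u} fun _ v => Trn (v i) :=
  ((Dfn.mem 0 (i+1)).imp (d_Sub 0 (i+1))).all

theorem d_dom (i : ℕ) : Dfn.{u} fun _ v => dom (v i) :=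
  (d_sm i).and ((d_Trn i).and ((Dfn.mem 0 (i+1)).imp (d_Trn 0)).all)

theorem Trn_iff {x : VS o} : Trn x ↔ x.1.IsTransitive := by
  unfold Trn
  simp only [sub_iff]
  constructor
  · intro h y hy
    exact h (down hy) hy
  · intro h y hy
    exact h _ hy

theorem dom_iff (_ho : Lim o) {x : VS o} : dom x ↔ x.1.rank < o ∧ x.1.IsOrdinal := by
  unfold dom
  rw [ZFSet.isOrdinal_iff_forall_mem_isTransitive, Trn_iff]
  have h1 : sm x ↔ x.1.rank < o := by
    constructor
    · rintro ⟨y, hy⟩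
      exact (ZFSet.rank_lt_of_mem hy).trans_le y.2
    · intro h
      refine ⟨⟨{x.1}, ?_⟩, ZFSet.mem_singleton.2 rfl⟩
      rw [ZFSet.rank_singleton]
      exact Order.succ_le_of_lt h
  rw [h1]
  constructor
  · rintro ⟨h2, h3, h4⟩
    exact ⟨h2, h3, fun y hy => Trn_iff.1 (h4 (down hy) hy)⟩
  · rintro ⟨h2, h3, h4⟩
    exact ⟨h2, h3, fun y hy => Trn_iff.2 (h4 _ hy)⟩

/-- the domain has the cardinality of `o` -/
theorem dom_card (ho : Lim o) : Cardinal.mk {x : VS o // dom x} = Cardinal.lift.{u+1} o.card := by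
  rw [← Cardinal.mk_Iio_ordinal]
  apply Cardinal.mk_congr
  exact {
    toFun := fun x => ⟨x.1.1.rank, ((dom_iff ho).1 x.2).1⟩
    invFun := fun a => ⟨⟨a.1.toZFSet, by rw [Ordinal.rank_toZFSet]; exact a.2.le⟩,
      (dom_iff ho).2 ⟨by rw [Ordinal.rank_toZFSet]; exact a.2, ZFSet.isOrdinal_toZFSet a.1⟩⟩
    left_inv := by
      intro x
      apply Subtype.ext
      apply Subtype.ext
      exact ((dom_iff ho).1 x.2).2.toZFSet_rank_eq
    right_inv := by
      intro a
      apply Subtype.ext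
      exact Ordinal.rank_toZFSet a.1 }

def IsTup : ∀ (n : ℕ), (Fin n → VS o) → VS o → Prop
  | 0, _, z => Emp z
  | n + 1, a, z => ∃ s : VS o, IsTup n (fun k => a k.succ) s ∧ IsP z (a 0) s

theorem d_IsTup : ∀ (n : ℕ) (g : Fin n → ℕ) (i : ℕ),
    Dfn.{u} fun _ v => IsTup n (fun k => v (g k)) (v i)
  | 0, _, i => d_Emp i
  | n + 1, g, i => ((d_IsTup n (fun k => g k.succ + 1) 0).and (d_IsP (i+1) (g 0 + 1) 0)).ex

/-- tuples as sets -/
noncomputable def tup : ∀ (n : ℕ), (Fin n → ZFSet.{u}) → ZFSet.{u}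
  | 0, _ => ∅
  | n + 1, a => ZFSet.pair (a 0) (tup n (fun k => a k.succ))

theorem tup_inj : ∀ {n : ℕ} {a b : Fin n → ZFSet.{u}}, tup n a = tup n b → a = b
  | 0, a, b, _ => by funext k; exact k.elim0
  | n + 1, a, b, h => by
    unfold tup at h
    rw [ZFSet.pair_inj] at h
    funext k
    refine Fin.cases h.1 (fun k => ?_) k
    exact congrFun (tup_inj h.2) k

theorem rank_tup (ho : Lim o) : ∀ {n : ℕ} {a : Fin n → ZFSet.{u}}, (∀ k, (a k).rank < o) →
    (tup n a).rank < o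
  | 0, _, _ => by unfold tup; rw [ZFSet.rank_empty]; exact ho.1
  | n + 1, _, h => ho.rank_pair_lt (h 0) (rank_tup ho (fun k => h k.succ))

theorem IsTup_iff : ∀ {n : ℕ} {a : Fin n → VS o} {z : VS o},
    IsTup n a z ↔ z.1 = tup n (fun k => (a k).1)
  | 0, _, _ => Emp_iff
  | n + 1, a, z => by
    unfold IsTup tup
    constructor
    · rintro ⟨s, hs, hz⟩
      rw [IsTup_iff] at hs
      rw [IsP_iff] at hz
      rw [hz, hs]
    · intro h
      have hr : (tup n (fun k => (a k.succ).1)).rank ≤ o :=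
        (rank_right_lt _ _).le.trans (h ▸ z.2)
      exact ⟨⟨_, hr⟩, IsTup_iff.2 rfl, IsP_iff.2 h⟩

/-- codes of tuples of domain elements -/
def TupN : ∀ (_ : ℕ), VS o → Prop
  | 0, z => Emp z
  | n + 1, z => ∃ a : VS o, dom a ∧ ∃ s : VS o, TupN n s ∧ IsP z a s

theorem d_TupN : ∀ (n : ℕ) (i : ℕ), Dfn.{u} fun _ v => TupN n (v i)
  | 0, i => d_Emp i
  | n + 1, i => ((d_dom 0).and ((d_TupN n 0).and (d_IsP (i+2) 1 0)).ex).ex

/-- the set codes a function on `n`-tuples of domain elements -/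
def Func (n : ℕ) (F : VS o) : Prop :=
  ∀ t : VS o, TupN n t → ∃ y : VS o, (dom y ∧ App F t y) ∧
    ∀ y' : VS o, (dom y' ∧ App F t y') → y' = y

theorem d_Func (n i : ℕ) : Dfn.{u} fun _ v => Func n (v i) :=
  ((d_TupN n 0).imp (((d_dom 0).and (d_App (i+2) 1 0)).and
    ((((d_dom 0).and (d_App (i+3) 2 0)).imp (Dfn.eq 0 1)).all)).ex).all

end dom

end SOCat
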