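import Pool.Agent.SOCat.P3
import Pool.Agent.SOCat.PSDefs
import Pool.Agent.SOCat.SO

namespace SOCat

universe u

open ZFSet

variable {o : Ordinal.{u}}

theorem Elem.mem_iff {j : VS o → VS o} (hj : Elem j) (x y : VS o) :
    x.1 ∈ y.1 ↔ (j x).1 ∈ (j y).1 :=
  hj.d3 (Q := fun x y _ => x.1 ∈ y.1) (Dfn.mem 0 1) x y x

/-- `y = x ∪ {x}` -/
def Suc (x y : VS o) : Prop := ∀ z : VS o, z.1 ∈ y.1 ↔ (z.1 ∈ x.1 ∨ z = x)

theorem d_Suc (i k : ℕ) : Dfn.{u} fun _ v => Suc (v i) (v k) :=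
  ((Dfn.mem 0 (k+1)).iff ((Dfn.mem 0 (i+1)).or (Dfn.eq 0 (i+1)))).all

theorem Suc_iff {x y : VS o} : Suc x y ↔ y.1 = insert x.1 x.1 := by
  constructor
  · intro h
    ext z
    rw [ZFSet.mem_insert_iff]
    constructor
    · intro hz
      rcases (h (down hz)).1 hz with h1 | h1
      · exact Or.inr h1
      · exact Or.inl (congrArg Subtype.val h1)
    · rintro (rfl | h1)
      · exact (h x).2 (Or.inr rfl)
      · exact (h (down h1)).2 (Or.inl h1)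
  · intro h z
    rw [h, ZFSet.mem_insert_iff, Subtype.ext_iff]
    tauto

/-- `r` is a rank function on the transitive set `t` -/
def RF (r t : VS o) : Prop :=
  Trn t ∧ (∀ y : VS o, y.1 ∈ t.1 → ∃ w : VS o, App r y w) ∧
  ∀ y : VS o, y.1 ∈ t.1 → ∀ w : VS o, App r y w → ∀ s : VS o, (s.1 ∈ w.1 ↔
    ∃ z : VS o, z.1 ∈ y.1 ∧ ∃ q : VS o, App r z q ∧ (s.1 ∈ q.1 ∨ s = q))

theorem d_RF (i k : ℕ) : Dfn.{u} fun _ v => RF (v i) (v k) :=
  (d_Trn k).and ((((Dfn.mem 0 (k+1)).imp (d_App (i+2) 1 0).ex).all).and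
    (((Dfn.mem 0 (k+1)).imp ((d_App (i+2) 1 0).imp ((Dfn.mem 0 1).iff
      (((Dfn.mem 0 3).and ((d_App (i+5) 1 0).and ((Dfn.mem 2 0).or (Dfn.eq 2 0))).ex).ex)).all).all).all))

/-- `a` is the rank of `x` -/
def Rk (x a : VS o) : Prop := ∃ t : VS o, ∃ r : VS o, RF r t ∧ x.1 ∈ t.1 ∧ App r x a

theorem d_Rk (i k : ℕ) : Dfn.{u} fun _ v => Rk (v i) (v k) :=
  ((d_RF 0 1).and ((Dfn.mem (i+2) 1).and (d_App 0 (i+2) (k+2)))).ex.ex

theorem lt_rank_iff' {a : Ordinal.{u}} {y : ZFSet.{u}} : a < y.rank ↔ ∃ z ∈ y, a ≤ z.rank := by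
  rw [← not_le, rank_le_iff]
  push Not
  rfl

theorem mem_rank_toZFSet {s y : ZFSet.{u}} : s ∈ y.rank.toZFSet ↔
    ∃ z ∈ y, (s ∈ z.rank.toZFSet ∨ s = z.rank.toZFSet) := by
  rw [Ordinal.mem_toZFSet_iff]
  constructor
  · rintro ⟨a, ha, rfl⟩
    obtain ⟨z, hz, haz⟩ := lt_rank_iff'.1 ha
    refine ⟨z, hz, ?_⟩
    rcases eq_or_lt_of_le haz with h | h
    · right; rw [h]
    · left; exact Ordinal.toZFSet_mem_toZFSet_iff.2 h
  · rintro ⟨z, hz, h | h⟩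
    · obtain ⟨a, ha, rfl⟩ := Ordinal.mem_toZFSet_iff.1 h
      exact ⟨a, ha.trans (rank_lt_of_mem hz), rfl⟩
    · exact ⟨z.rank, rank_lt_of_mem hz, h.symm⟩

theorem RF_sound {r t : VS o} (h : RF r t) : ∀ (y : ZFSet.{u}) (hy : y.rank ≤ o), y ∈ t.1 →
    ∀ w : VS o, App r ⟨y, hy⟩ w → w.1 = y.rank.toZFSet := by
  intro y
  induction y using ZFSet.inductionOn with
  | _ y ih =>
  intro hy hyt w hw
  ext s
  rw [mem_rank_toZFSet]
  have htr := Trn_iff.1 h.1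
  constructor
  · intro hs
    obtain ⟨z, hz, q, hq, h3⟩ := (h.2.2 ⟨y, hy⟩ hyt w hw (down hs)).1 hs
    have h4 := ih z.1 hz z.2 (htr y hyt hz) q hq
    refine ⟨z.1, hz, ?_⟩
    rw [← h4]
    rcases h3 with h3 | h3
    · exact Or.inl h3
    · exact Or.inr (congrArg Subtype.val h3)
  · rintro ⟨z, hz, h3⟩
    have hzt := htr y hyt hz
    have hzo : z.rank ≤ o := vs_mem_rank hzt
    obtain ⟨q, hq⟩ := h.2.1 ⟨z, hzo⟩ hzt
    have h4 := ih z hz hzo hzt q hq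
    rw [← h4] at h3
    have hso : s.rank ≤ o := by
      rcases h3 with h3 | h3
      · exact vs_mem_rank h3
      · rw [h3]; exact q.2
    refine (h.2.2 ⟨y, hy⟩ hyt w hw ⟨s, hso⟩).2 ⟨⟨z, hzo⟩, hz, q, hq, ?_⟩
    rcases h3 with h3 | h3
    · exact Or.inl h3
    · exact Or.inr (Subtype.ext h3)

theorem Rk_sound {x a : VS o} (h : Rk x a) : x.1.rank < o ∧ a.1 = x.1.rank.toZFSet := by
  obtain ⟨t, r, h1, h2, h3⟩ := h
  exact ⟨(rank_lt_of_mem h2).trans_le t.2, RF_sound h1 x.1 x.2 h2 a h3⟩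

theorem Rk_complete (ho : Lim o) {x a : VS o} (hx : x.1.rank < o) (ha : a.1 = x.1.rank.toZFSet) :
    Rk x a := by
  have hxo : x.1.rank + 1 ≤ o := (ho.2 _ hx).le
  let r : VS o := ⟨ZFSet.sep (fun z => ∃ y : ZFSet.{u}, y.rank ≤ x.1.rank ∧
    z = pair y y.rank.toZFSet) (ZFSet.vonNeumann o), by
      rw [← ZFSet.subset_vonNeumann]
      intro z hz
      exact (ZFSet.mem_sep.1 hz).1⟩
  have hr : ∀ y w : VS o, App r y w ↔ y.1.rank ≤ x.1.rank ∧ w.1 = y.1.rank.toZFSet := by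
    intro y w
    rw [App_iff]
    show pair y.1 w.1 ∈ (ZFSet.sep (fun z => ∃ y : ZFSet.{u}, y.rank ≤ x.1.rank ∧
      z = pair y y.rank.toZFSet) (ZFSet.vonNeumann o)) ↔ _
    rw [ZFSet.mem_sep, ZFSet.mem_vonNeumann]
    constructor
    · rintro ⟨_, y', hy', h⟩
      rw [ZFSet.pair_inj] at h
      obtain ⟨h1, h2⟩ := h
      rw [← h1] at hy' h2
      exact ⟨hy', h2⟩
    · rintro ⟨h1, h2⟩
      refine ⟨ho.rank_pair_lt (h1.trans_lt hx) ?_, y.1, h1, by rw [h2]⟩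
      rw [h2, Ordinal.rank_toZFSet]
      exact h1.trans_lt hx
  have ht : ∀ y : ZFSet.{u}, y ∈ (Vv (x.1.rank + 1) hxo).1 ↔ y.rank ≤ x.1.rank := by
    intro y
    show y ∈ ZFSet.vonNeumann _ ↔ _
    rw [ZFSet.mem_vonNeumann, Order.lt_add_one_iff]
  refine ⟨Vv (x.1.rank + 1) hxo, r, ⟨?_, ?_, ?_⟩, (ht _).2 le_rfl, (hr _ _).2 ⟨le_rfl, ha⟩⟩
  · exact Trn_iff.2 (isTransitive_vonNeumann _)
  · intro y hy
    rw [ht] at hy
    refine ⟨⟨y.1.rank.toZFSet, by rw [Ordinal.rank_toZFSet]; exact y.2⟩, (hr _ _).2 ⟨hy, rfl⟩⟩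
  · intro y hy w hw s
    rw [ht] at hy
    rw [hr] at hw
    rw [hw.2, mem_rank_toZFSet]
    constructor
    · rintro ⟨z, hz, h3⟩
      have hzo : z.rank ≤ o := vs_mem_rank hz
      refine ⟨⟨z, hzo⟩, hz, ⟨z.rank.toZFSet, by rw [Ordinal.rank_toZFSet]; exact hzo⟩,
        (hr _ _).2 ⟨((rank_lt_of_mem hz).le).trans hy, rfl⟩, ?_⟩
      rcases h3 with h3 | h3
      · exact Or.inl h3
      · exact Or.inr (Subtype.ext h3)
    · rintro ⟨z, hz, q, hq, h3⟩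
      rw [hr] at hq
      refine ⟨z.1, hz, ?_⟩
      rw [← hq.2]
      rcases h3 with h3 | h3
      · exact Or.inl h3
      · exact Or.inr (congrArg Subtype.val h3)

/-- `x = V_a` -/
def VV (x a : VS o) : Prop := ∀ y : VS o, y.1 ∈ x.1 ↔ ∃ b : VS o, b.1 ∈ a.1 ∧ Rk y b

theorem d_VV (i k : ℕ) : Dfn.{u} fun _ v => VV (v i) (v k) :=
  ((Dfn.mem 0 (i+1)).iff ((Dfn.mem 0 (k+2)).and (d_Rk 1 0)).ex).all

theorem VV_iff (ho : Lim o) {x a : VS o} {α : Ordinal.{u}} (ha : a.1 = α.toZFSet) :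
    VV x a ↔ x.1 = ZFSet.vonNeumann α := by
  have hα : α ≤ o := by
    have := a.2
    rw [ha, Ordinal.rank_toZFSet] at this
    exact this
  have key : ∀ y : VS o, (∃ b : VS o, b.1 ∈ a.1 ∧ Rk y b) ↔ y.1.rank < α := by
    intro y
    constructor
    · rintro ⟨b, hb, hy⟩
      have h1 := (Rk_sound hy).2
      rw [ha, h1, Ordinal.toZFSet_mem_toZFSet_iff] at hb
      exact hb
    · intro h
      refine ⟨⟨y.1.rank.toZFSet, by rw [Ordinal.rank_toZFSet]; exact y.2⟩, ?_, ?_⟩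
      · rw [ha, Ordinal.toZFSet_mem_toZFSet_iff]
        exact h
      · exact Rk_complete ho (h.trans_le hα) rfl
  constructor
  · intro h
    ext y
    rw [ZFSet.mem_vonNeumann]
    constructor
    · intro hy
      exact (key (down hy)).1 ((h (down hy)).1 hy)
    · intro hy
      have hyo : y.rank ≤ o := (hy.trans_le hα).le
      exact (h ⟨y, hyo⟩).2 ((key ⟨y, hyo⟩).2 hy)
  · intro h y
    rw [key, h, ZFSet.mem_vonNeumann]

namespace IsI1Emb

variable {j : VS o → VS o} {κ : ℕ → Ordinal.{u}} (h : IsI1Emb j κ)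
include h

theorem le (n : ℕ) : κ n ≤ o := by
  by_contra hc
  exact absurd ((h.sup o).2 ⟨n, not_le.1 hc⟩) (lt_irrefl o)

omit h in
/-- ordinals as elements of `V_{o+1}` -/
noncomputable def xo (a : Ordinal.{u}) (ha : a ≤ o) : VS o :=
  ⟨a.toZFSet, by rw [Ordinal.rank_toZFSet]; exact ha⟩

theorem lt01 : κ 0 < κ 1 := by
  have h1 : (j (xo (κ 0) (h.le 0))).1 = (κ 1).toZFSet := h.next 0 _ rfl
  have h2 : κ 0 ≤ κ 1 := by
    rw [← Ordinal.toZFSet_subset_toZFSet_iff, ← h1]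
    intro z hz
    obtain ⟨a, ha, rfl⟩ := Ordinal.mem_toZFSet_iff.1 hz
    have h3 := (h.el.mem_iff (xo a (ha.le.trans (h.le 0))) (xo (κ 0) (h.le 0))).1 hz
    rw [h.crit (xo a (ha.le.trans (h.le 0))) a ha rfl] at h3
    exact h3
  refine lt_of_le_of_ne h2 (fun e => ?_)
  apply h.moved (xo (κ 0) (h.le 0)) rfl
  apply Subtype.ext
  rw [h1, ← e]
  rfl

theorem mono' (n : ℕ) : κ n < κ (n+1) := by
  induction n with
  | zero => exact h.lt01
  | succ n ih =>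
    have h1 := (h.el.mem_iff (xo (κ n) (h.le n)) (xo (κ (n+1)) (h.le (n+1)))).1
      (Ordinal.toZFSet_mem_toZFSet_iff.2 ih)
    rw [h.next n (xo (κ n) (h.le n)) rfl, h.next (n+1) (xo (κ (n+1)) (h.le (n+1))) rfl,
      Ordinal.toZFSet_mem_toZFSet_iff] at h1
    exact h1

theorem nat_lt (n : ℕ) : (n : Ordinal.{u}) < κ 0 := by
  induction n with
  | zero =>
    by_contra hc
    have h0 : κ 0 = 0 := by
      rw [Nat.cast_zero] at hc
      exact le_antisymm (not_lt.1 hc) zero_le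
    apply h.moved (xo (κ 0) (h.le 0)) rfl
    have h1 : (xo (κ 0) (h.le 0)).1 = ∅ := by
      show (κ 0).toZFSet = ∅
      rw [h0, Ordinal.toZFSet_zero]
    have h2 : (j (xo (κ 0) (h.le 0))).1 = ∅ :=
      Emp_iff.1 ((h.el.d3 (Q := fun x _ _ => Emp x) (d_Emp 0) _ (xo (κ 0) (h.le 0))
        (xo (κ 0) (h.le 0))).1 (Emp_iff.2 h1))
    exact Subtype.ext (h2.trans h1.symm)
  | succ n ih =>
    have h1 : (n : Ordinal.{u}) + 1 ≤ κ 0 := Order.add_one_le_of_lt ih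
    rw [Nat.cast_succ]
    refine lt_of_le_of_ne h1 (fun e => ?_)
    apply h.moved (xo (κ 0) (h.le 0)) rfl
    have hn : (n : Ordinal.{u}) ≤ o := ih.le.trans (h.le 0)
    have h2 : (xo (κ 0) (h.le 0)).1 = insert (xo (n : Ordinal.{u}) hn).1 (xo (n : Ordinal.{u}) hn).1 := by
      show (κ 0).toZFSet = _
      rw [← e, Ordinal.toZFSet_add_one]
      rfl
    have h3 := Suc_iff.1 ((h.el.d3 (Q := fun x y _ => Suc x y) (d_Suc 0 1)
      (xo (n : Ordinal.{u}) hn) (xo (κ 0) (h.le 0)) (xo (κ 0) (h.le 0))).1 (Suc_iff.2 h2))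
    rw [h.crit (xo (n : Ordinal.{u}) hn) n ih rfl] at h3
    exact Subtype.ext (h3.trans h2.symm)

theorem omega_le : Ordinal.omega0 ≤ κ 0 := by
  rw [Ordinal.omega0_le]
  exact fun n => (h.nat_lt n).le

theorem lim : Lim o := by
  constructor
  · exact (h.sup 0).2 ⟨0, by simpa using h.nat_lt 0⟩
  · intro a ha
    obtain ⟨n, hn⟩ := (h.sup a).1 ha
    exact (h.sup _).2 ⟨n+1, (Order.add_one_le_of_lt hn).trans_lt (h.mono' n)⟩

theorem rk {x a : VS o} (ha : Rk x a) : Rk (j x) (j a) :=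
  (h.el.d3 (Q := fun x y _ => Rk x y) (d_Rk 0 1) x a a).1 ha

theorem fix' : ∀ (α : Ordinal.{u}), α < κ 0 → ∀ x : VS o, x.1.rank = α → j x = x := by
  intro α
  induction α using WellFoundedLT.induction with
  | _ α ih =>
  intro hα x hx
  have hxo : x.1.rank < o := by
    rw [hx]; exact (h.sup _).2 ⟨0, hα⟩
  have hαo : α ≤ o := hα.le.trans (h.le 0)
  have h1 : Rk x (xo α hαo) := Rk_complete h.lim hxo (by rw [hx]; rfl)
  have h2 := (Rk_sound (h.rk h1)).2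
  rw [h.crit (xo α hαo) α hα rfl] at h2
  have h3 : (j x).1.rank = α := (Ordinal.toZFSet_injective h2).symm
  apply vs_ext
  intro y
  constructor
  · intro hy
    have h4 : y.rank < α := by rw [← h3]; exact rank_lt_of_mem hy
    have h5 := ih y.rank h4 (h4.trans hα) (down hy) rfl
    refine (h.el.mem_iff (down hy) x).2 ?_
    rw [h5]
    exact hy
  · intro hy
    have h4 : y.rank < α := by rw [← hx]; exact rank_lt_of_mem hy
    have h5 := ih y.rank h4 (h4.trans hα) (down hy) rfl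
    have h6 := (h.el.mem_iff (down hy) x).1 hy
    rw [h5] at h6
    exact h6

theorem wit : Wit j κ where
  el := h.el
  mono := strictMono_nat_of_lt_succ h.mono'
  lt n := (h.sup _).2 ⟨n+1, h.mono' n⟩
  cof a ha := (h.sup a).1 ha
  fix x hx := h.fix' _ hx x rfl
  V n x hx := by
    have h1 : VV x (xo (κ n) (h.le n)) := (VV_iff h.lim rfl).2 hx
    have h2 := (h.el.d3 (Q := fun x y _ => VV x y) (d_VV 0 1) x (xo (κ n) (h.le n))
      (xo (κ n) (h.le n))).1 h1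
    exact (VV_iff h.lim (h.next n _ rfl)).1 h2

end IsI1Emb

end SOCat
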