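import Pool.Agent.SOCat.Sigma2
import Pool.Agent.SOCat.I1

namespace SOCat

universe u

variable {τ : Voc}

open SO in
theorem sentence_conj {L : List (SO τ)} (hL : ∀ φ ∈ L, SO.IsSentence.{u} φ) :
    SO.IsSentence.{u} (conj L) := by
  intro M S v v' W W' h
  rw [sat_conj] at h ⊢
  exact fun φ hφ => hL φ hφ M S v v' W W' (h φ hφ)

theorem models_of_sat {φ : SO τ} (hφ : SO.IsSentence.{u} φ) {M : Type u} {S : Str τ M}
    {v : ℕ → M} {W : Asg M} (h : φ.Sat S v W) : Models S φ :=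
  fun v' W' => hφ M S v v' W W' h

/-- the key: downward reflection from an `I1`-cardinal, and least cardinality of a model -/
theorem no_model {o : Ordinal.{u}} {j : VS o → VS o} {κ : ℕ → Ordinal.{u}} (wt : Wit j κ)
    (T : Set (SO τ)) (hfin : T.Finite) (hsent : ∀ φ ∈ T, SO.IsSentence.{u} φ)
    (hT : Complete.{u} T) (hcard : ∀ p < o, p.card < o.card) : ¬ HasModelOfCard.{u} o.card T := by
  classical
  rintro ⟨M, hM, S, hMc, hS⟩
  set θ : SO τ := SO.conj hfin.toFinset.toList with hθdef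
  have hθs : SO.IsSentence.{u} θ := sentence_conj (fun φ hφ => hsent φ (by simpa using hφ))
  have hθm : ∀ (N : Type u) (S' : Str τ N) (v : ℕ → N) (W : Asg N), θ.Sat S' v W ↔
      IsModel S' T := by
    intro N S' v W
    rw [hθdef, SO.sat_conj]
    constructor
    · intro h φ hφ
      exact models_of_sat (hsent φ hφ) (h φ (by simpa using hφ))
    · intro h φ hφ
      exact h φ (by simpa using hφ) v W
  -- sigma
  have hσ := fun (N : Type u) (S' : Str τ N) (v : ℕ → N) (W : Asg N) =>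
    SO.sat_sigma (θ := θ) hθs (M := N) (S := S') (v := v) (W := W)
  have hσs : SO.IsSentence.{u} (SO.sigma θ) := by
    intro N S' v v' W W' h
    rw [hσ] at h ⊢
    exact h
  -- a model of least cardinality
  obtain ⟨m⟩ := hM
  let W0 : Asg M := fun _ _ _ => False
  have h0 : θ.Sat S (fun _ => m) W0 := (hθm M S _ _).2 hS
  let C : Set Cardinal.{u} := {c | ∃ (N : Type u) (_ : Nonempty N) (S' : Str τ N),
    Cardinal.mk N = c ∧ IsModel S' T}
  have hC : C.Nonempty := ⟨_, M, ⟨m⟩, S, rfl, hS⟩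
  obtain ⟨c, ⟨N, ⟨n⟩, S', hNc, hS'⟩, hmin⟩ := WellFounded.has_min Cardinal.lt_wf C hC
  have hnot : ¬ (SO.sigma θ).Sat S' (fun _ => n) (fun _ _ _ => False) := by
    rw [hσ]
    rintro ⟨N', S'', v', W', hlt, hsat⟩
    rw [hNc] at hlt
    exact hmin _ ⟨N', ⟨v' 0⟩, S'', rfl, (hθm _ _ _ _).1 hsat⟩ hlt
  have hyes : (SO.sigma θ).Sat S (fun _ => m) W0 := by
    rw [hσ]
    obtain ⟨p, M', S'', v', W', hpo, hM', hsat⟩ := wt.down θ M hMc S (fun _ => m) W0 h0
    exact ⟨M', S'', v', W', by rw [hM', hMc]; exact hcard p hpo, hsat⟩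
  have : Nonempty N := ⟨n⟩
  have : Nonempty M := ⟨m⟩
  rcases hT (SO.sigma θ) hσs with h | h
  · exact hnot (h N S' hS' _ _)
  · exact h M S hS _ _ hyes

theorem no_model_card (lam : Cardinal.{u}) (hlam : IsI1 lam)
    (T : Set (SO τ)) (hfin : T.Finite) (hsent : ∀ φ ∈ T, SO.IsSentence.{u} φ)
    (hT : Complete.{u} T) : ¬ HasModelOfCard.{u} lam T := by
  obtain ⟨j, κ, hj⟩ := hlam
  have h := no_model hj.wit T hfin hsent hT (fun p hp => by
    rw [Cardinal.card_ord]
    exact Cardinal.lt_ord.1 hp)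
  rwa [Cardinal.card_ord] at h

end SOCat
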