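import Pool.Agent.SOCat.Defs

namespace SOCat

universe u

/-- quantifier rank -/
def qr : Fml → ℕ
  | .mem _ _ => 0
  | .eq _ _ => 0
  | .neg φ => qr φ
  | .and φ ψ => max (qr φ) (qr ψ)
  | .all φ => qr φ + 1

/-- lift a renaming under a binder -/
def lift (g : ℕ → ℕ) : ℕ → ℕ
  | 0 => 0
  | n + 1 => g n + 1

def ren : (ℕ → ℕ) → Fml → Fml
  | g, .mem i j => .mem (g i) (g j)
  | g, .eq i j => .eq (g i) (g j)
  | g, .neg φ => .neg (ren g φ)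
  | g, .and φ ψ => .and (ren g φ) (ren g ψ)
  | g, .all φ => .all (ren (lift g) φ)

theorem cons_lift {M : Type*} (a : M) (v : ℕ → M) (g : ℕ → ℕ) :
    (fun n => cons a v (lift g n)) = cons a (fun n => v (g n)) := by
  funext n
  cases n <;> rfl

theorem sat_ren {o : Ordinal.{u}} (φ : Fml) : ∀ (g : ℕ → ℕ) (v : ℕ → VS o),
    Sat (ren g φ) v ↔ Sat φ (fun n => v (g n)) := by
  induction φ with
  | mem i j => intro g v; rfl
  | eq i j => intro g v; rfl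
  | neg φ ih => intro g v; simp only [ren, Sat, ih]
  | and φ ψ ih1 ih2 => intro g v; simp only [ren, Sat, ih1, ih2]
  | all φ ih =>
    intro g v
    simp only [ren, Sat, ih, cons_lift]

/-- A relation on `V_{o+1}`, uniformly in `o`, is definable if it is given by one formula. -/
def Dfn (R : ∀ o : Ordinal.{u}, (ℕ → VS o) → Prop) : Prop :=
  ∃ φ : Fml, ∀ (o : Ordinal.{u}) (v : ℕ → VS o), Sat φ v ↔ R o v

namespace Dfn

variable {R Q : ∀ o : Ordinal.{u}, (ℕ → VS o) → Prop}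

theorem not (h : Dfn R) : Dfn fun o v => ¬ R o v := by
  obtain ⟨φ, hφ⟩ := h
  exact ⟨.neg φ, fun o v => by simp only [Sat, hφ]⟩

theorem and (h : Dfn R) (h' : Dfn Q) : Dfn fun o v => R o v ∧ Q o v := by
  obtain ⟨φ, hφ⟩ := h
  obtain ⟨ψ, hψ⟩ := h'
  exact ⟨.and φ ψ, fun o v => by simp only [Sat, hφ, hψ]⟩

theorem imp (h : Dfn R) (h' : Dfn Q) : Dfn fun o v => R o v → Q o v := by
  obtain ⟨φ, hφ⟩ := h
  obtain ⟨ψ, hψ⟩ := h'
  exact ⟨.neg (.and φ (.neg ψ)), fun o v => by simp only [Sat, hφ, hψ]; tauto⟩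

theorem or (h : Dfn R) (h' : Dfn Q) : Dfn fun o v => R o v ∨ Q o v := by
  obtain ⟨φ, hφ⟩ := h
  obtain ⟨ψ, hψ⟩ := h'
  exact ⟨.neg (.and (.neg φ) (.neg ψ)), fun o v => by simp only [Sat, hφ, hψ]; tauto⟩

theorem iff (h : Dfn R) (h' : Dfn Q) : Dfn fun o v => (R o v ↔ Q o v) := by
  obtain ⟨φ, hφ⟩ := h.imp h'
  obtain ⟨ψ, hψ⟩ := h'.imp h
  exact ⟨.and φ ψ, fun o v => by simp only [Sat, hφ, hψ]; tauto⟩

theorem all (h : Dfn R) : Dfn fun o v => ∀ a : VS o, R o (cons a v) := by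
  obtain ⟨φ, hφ⟩ := h
  exact ⟨.all φ, fun o v => by simp only [Sat, hφ]⟩

theorem ex (h : Dfn R) : Dfn fun o v => ∃ a : VS o, R o (cons a v) := by
  obtain ⟨φ, hφ⟩ := h.not.all.not
  exact ⟨φ, fun o v => by rw [hφ]; push Not; rfl⟩

theorem ren (g : ℕ → ℕ) (h : Dfn R) : Dfn fun o v => R o (fun n => v (g n)) := by
  obtain ⟨φ, hφ⟩ := h
  exact ⟨SOCat.ren g φ, fun o v => by rw [sat_ren, hφ]⟩

theorem mem (i j : ℕ) : Dfn fun _ v => (v i).1 ∈ (v j).1 := ⟨.mem i j, fun _ _ => Iff.rfl⟩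

theorem eq (i j : ℕ) : Dfn fun _ v => v i = v j := ⟨.eq i j, fun _ _ => Iff.rfl⟩

end Dfn

section rels
variable {o : Ordinal.{u}}

/-- small: element of an element -/
def sm (x : VS o) : Prop := ∃ y : VS o, x.1 ∈ y.1
def Sub (x y : VS o) : Prop := ∀ z : VS o, z.1 ∈ x.1 → z.1 ∈ y.1
def Emp (x : VS o) : Prop := ∀ z : VS o, ¬ z.1 ∈ x.1
/-- `d = {a, b}` -/
def UP (d a b : VS o) : Prop := ∀ z : VS o, z.1 ∈ d.1 ↔ (z = a ∨ z = b)
/-- `p = (a, b)` -/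
def IsP (p a b : VS o) : Prop := ∃ s : VS o, UP s a a ∧ ∃ d : VS o, UP d a b ∧ UP p s d
def App (u a b : VS o) : Prop := ∃ p : VS o, IsP p a b ∧ p.1 ∈ u.1
def Ext (u X Y : VS o) : Prop := ∀ y : VS o, y.1 ∈ Y.1 ↔
  ∃ a : VS o, Sub a X ∧ ∃ b : VS o, App u a b ∧ y.1 ∈ b.1
def Inter (X Y Z : VS o) : Prop := ∀ z : VS o, z.1 ∈ Z.1 ↔ (z.1 ∈ X.1 ∧ z.1 ∈ Y.1)
/-- `S = {x : (t, x) ∈ C}` -/
def Slice (t C S : VS o) : Prop := ∀ x : VS o, x.1 ∈ S.1 ↔ App C t x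
def Fix (u F : VS o) : Prop := ∀ a : VS o, Sub a F → Ext u a a

end rels

theorem d_sm (i : ℕ) : Dfn.{u} fun _ v => sm (v i) := (Dfn.mem (i+1) 0).ex

theorem d_Sub (i j : ℕ) : Dfn.{u} fun _ v => Sub (v i) (v j) :=
  ((Dfn.mem 0 (i+1)).imp (Dfn.mem 0 (j+1))).all

theorem d_Emp (i : ℕ) : Dfn.{u} fun _ v => Emp (v i) := (Dfn.mem 0 (i+1)).not.all

theorem d_UP (i j k : ℕ) : Dfn.{u} fun _ v => UP (v i) (v j) (v k) :=
  ((Dfn.mem 0 (i+1)).iff ((Dfn.eq 0 (j+1)).or (Dfn.eq 0 (k+1)))).all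

theorem d_IsP (i j k : ℕ) : Dfn.{u} fun _ v => IsP (v i) (v j) (v k) :=
  ((d_UP 0 (j+1) (j+1)).and ((d_UP 0 (j+2) (k+2)).and (d_UP (i+2) 1 0)).ex).ex

theorem d_App (i j k : ℕ) : Dfn.{u} fun _ v => App (v i) (v j) (v k) :=
  ((d_IsP 0 (j+1) (k+1)).and (Dfn.mem 0 (i+1))).ex

theorem d_Ext (i j k : ℕ) : Dfn.{u} fun _ v => Ext (v i) (v j) (v k) :=
  ((Dfn.mem 0 (k+1)).iff
    ((d_Sub 0 (j+2)).and ((d_App (i+3) 1 0).and (Dfn.mem 2 0)).ex).ex).all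

theorem d_Inter (i j k : ℕ) : Dfn.{u} fun _ v => Inter (v i) (v j) (v k) :=
  ((Dfn.mem 0 (k+1)).iff ((Dfn.mem 0 (i+1)).and (Dfn.mem 0 (j+1)))).all

theorem d_Slice (i j k : ℕ) : Dfn.{u} fun _ v => Slice (v i) (v j) (v k) :=
  ((Dfn.mem 0 (k+1)).iff (d_App (j+1) (i+1) 0)).all

theorem d_Fix (i j : ℕ) : Dfn.{u} fun _ v => Fix (v i) (v j) :=
  ((d_Sub 0 (j+1)).imp (d_Ext (i+1) 0 0)).all

/-- `u` preserves the ternary relation `Q` -/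
def Pres {o : Ordinal.{u}} (Q : ∀ {o : Ordinal.{u}}, VS o → VS o → VS o → Prop) (u : VS o) : Prop :=
  ∀ x x' y y' z z' : VS o, Ext u x x' → Ext u y y' → Ext u z z' → (Q x y z ↔ Q x' y' z')

theorem d_Pres {Q : ∀ {o : Ordinal.{u}}, VS o → VS o → VS o → Prop}
    (h : ∀ i j k, Dfn.{u} fun _ v => Q (v i) (v j) (v k)) (i : ℕ) :
    Dfn.{u} fun _ v => Pres Q (v i) :=
  ((((((((d_Ext (i+6) 5 4).imp ((d_Ext (i+6) 3 2).imp ((d_Ext (i+6) 1 0).imp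
    ((h 5 3 1).iff (h 4 2 0))))).all).all).all).all).all).all)

def E0 {o : Ordinal.{u}} (u : VS o) : Prop :=
  Pres (fun x y _ => x.1 ∈ y.1) u ∧ Pres (fun x _ _ => Emp x) u ∧ Pres (fun x y z => Inter x y z) u ∧
  Pres (fun x y z => UP x y z) u ∧ Pres (fun x y z => Slice x y z) u

theorem d_E0 (i : ℕ) : Dfn.{u} fun _ v => E0 (v i) :=
  (d_Pres (Q := fun x y _ => x.1 ∈ y.1) (fun i j _ => Dfn.mem i j) i).and
  ((d_Pres (Q := fun x _ _ => Emp x) (fun i _ _ => d_Emp i) i).and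
  ((d_Pres (Q := fun x y z => Inter x y z) d_Inter i).and
  ((d_Pres (Q := fun x y z => UP x y z) d_UP i).and
  (d_Pres (Q := fun x y z => Slice x y z) d_Slice i))))

def SS {o : Ordinal.{u}} (E : VS o → Prop) (Z X X' F : VS o) : Prop :=
  ∃ k : VS o, E k ∧ Ext k X X' ∧ Fix k F ∧ ∃ Z1 : VS o, Ext k Z1 Z

def EE : ℕ → ∀ {o : Ordinal.{u}}, VS o → Prop
  | 0, _, u => E0 u
  | n + 1, o, u => EE n u ∧ ∀ Z Z' : VS o, Ext u Z Z' → ∀ X Y : VS o, Ext u X Y →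
      ∀ X' Y' : VS o, Ext u X' Y' → ∀ F F' : VS o, Ext u F F' →
      SS (fun k => EE n k) Z' Y Y' F' → SS (fun k => EE n k) Z X X' F

theorem d_SS {E : ∀ {o : Ordinal.{u}}, VS o → Prop} (hE : ∀ i, Dfn.{u} fun _ v => E (v i))
    (a b c d : ℕ) : Dfn.{u} fun _ v => SS (fun k => E k) (v a) (v b) (v c) (v d) :=
  ((hE 0).and ((d_Ext 0 (b+1) (c+1)).and ((d_Fix 0 (d+1)).and
    (d_Ext 1 0 (a+2)).ex))).ex

theorem d_EE : ∀ (n i : ℕ), Dfn.{u} fun _ v => EE n (v i)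
  | 0, i => d_E0 i
  | n + 1, i => by
    have hS := d_SS (E := fun k => EE n k) (d_EE n)
    have h2 := ((d_Ext (i+8) 1 0).imp ((hS 6 4 2 0).imp (hS 7 5 3 1))).all.all
    have h3 := ((d_Ext (i+6) 1 0).imp h2).all.all
    have h4 := ((d_Ext (i+4) 1 0).imp h3).all.all
    have h5 := ((d_Ext (i+2) 1 0).imp h4).all.all
    exact (d_EE n i).and h5

end SOCat
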