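import Pool.Agent.SOCat.I1

namespace SOCat

universe u

open ZFSet Cardinal

variable {o : Ordinal.{u}}

/-- `f` is a (partial) function mapping `a` onto `b` -/
def Surj (f a b : VS o) : Prop :=
  (∀ y : VS o, y.1 ∈ b.1 → ∃ x : VS o, x.1 ∈ a.1 ∧ App f x y) ∧
  ∀ x : VS o, ∀ y : VS o, ∀ y' : VS o, App f x y → App f x y' → y = y'

theorem d_Surj (i k l : ℕ) : Dfn.{u} fun _ v => Surj (v i) (v k) (v l) :=
  (((Dfn.mem 0 (l+1)).imp ((Dfn.mem 0 (k+2)).and (d_App (i+2) 0 1)).ex).all).and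
  (((d_App (i+3) 2 1).imp ((d_App (i+3) 2 0).imp (Dfn.eq 1 0))).all.all.all)

/-- no `V_a`, `a ∈ k`, can be mapped onto `k` -/
def NS (k : VS o) : Prop :=
  ∀ a : VS o, a.1 ∈ k.1 → ∀ v : VS o, VV v a → ∀ f : VS o, ¬ Surj f v k

theorem d_NS (k : ℕ) : Dfn.{u} fun _ v => NS (v k) :=
  ((Dfn.mem 0 (k+1)).imp ((d_VV 0 1).imp (d_Surj 0 1 (k+3)).not.all).all).all

/-- `x` has a value in `k` under `f` -/
def HV (f x k : VS o) : Prop := ∃ y : VS o, y.1 ∈ k.1 ∧ App f x y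

theorem d_HV (i l k : ℕ) : Dfn.{u} fun _ v => HV (v i) (v l) (v k) :=
  ((Dfn.mem 0 (k+1)).and (d_App (i+1) (l+1) 0)).ex

theorem rank_pair_le {a b : ZFSet.{u}} {c : Ordinal.{u}} (ha : a.rank ≤ c) (hb : b.rank ≤ c) :
    (pair a b).rank ≤ c + 1 + 1 := by
  have h1 : ({a} : ZFSet.{u}).rank ≤ c + 1 := by
    rw [rank_singleton]
    exact Order.succ_le_succ ha
  have h2 : ({a, b} : ZFSet.{u}).rank ≤ c + 1 := by
    rw [rank_insert, rank_singleton]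
    exact max_le (Order.succ_le_succ ha) (Order.succ_le_succ hb)
  rw [pair, rank_insert, rank_singleton ({a, b} : ZFSet.{u})]
  exact max_le (Order.succ_le_succ h1) (Order.succ_le_succ h2)

namespace IsI1Emb

variable {j : VS o → VS o} {κ : ℕ → Ordinal.{u}} (h : IsI1Emb j κ)
include h

theorem ns0 : NS (xo (κ 0) (h.le 0)) := by
  intro a ha v hv f hf
  obtain ⟨α, hα, hα2⟩ := Ordinal.mem_toZFSet_iff.1 ha
  have hv1 := (VV_iff h.lim hα2.symm).1 hv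
  have hvr : v.1.rank = α := by rw [hv1, rank_vonNeumann]
  have hjv : j v = v := h.fix' α hα v hvr
  have h1 := (h.el.d3 (Q := fun x y z => Surj x y z) (d_Surj 0 1 2) f v (xo (κ 0) (h.le 0))).1 hf
  have hk : (j (xo (κ 0) (h.le 0))).1 = (κ 1).toZFSet := h.next 0 _ rfl
  rw [hjv] at h1
  have hk2 : (xo (κ 0) (h.le 0)).1 ∈ (j (xo (κ 0) (h.le 0))).1 := by
    rw [hk]; exact Ordinal.toZFSet_mem_toZFSet_iff.2 h.lt01
  obtain ⟨x, hx, hfx⟩ := h1.1 (xo (κ 0) (h.le 0)) hk2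
  have hxr : x.1.rank < κ 0 := by
    rw [hv1, mem_vonNeumann] at hx
    exact hx.trans hα
  have hjx : j x = x := h.fix' _ hxr x rfl
  have h2 : HV (j f) (j x) (j (xo (κ 0) (h.le 0))) := by
    rw [hjx]; exact ⟨_, hk2, hfx⟩
  rw [← h.el.d3 (Q := fun x y z => HV x y z) (d_HV 0 1 2) f x (xo (κ 0) (h.le 0))] at h2
  obtain ⟨y, hy, hy2⟩ := h2
  obtain ⟨β, hβ, hβ2⟩ := Ordinal.mem_toZFSet_iff.1 hy
  have hjy : j y = y := h.crit y β hβ hβ2.symm
  have h3 := (h.el.d3 (Q := fun x y z => App x y z) (d_App 0 1 2) f x y).1 hy2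
  rw [hjx, hjy] at h3
  have h4 := h1.2 x y _ h3 hfx
  rw [h4] at hy
  exact ZFSet.mem_irrefl _ hy

theorem ns (n : ℕ) : NS (xo (κ n) (h.le n)) := by
  induction n with
  | zero => exact h.ns0
  | succ n ih =>
    have h1 := (h.el.d3 (Q := fun x _ _ => NS x) (d_NS 0) (xo (κ n) (h.le n))
      (xo (κ n) (h.le n)) (xo (κ n) (h.le n))).1 ih
    have h2 : j (xo (κ n) (h.le n)) = xo (κ (n+1)) (h.le (n+1)) := Subtype.ext (h.next n _ rfl)
    rw [h2] at h1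
    exact h1

theorem card_Sm_lt {γ : Ordinal.{u}} {n : ℕ} (hγ : γ < κ n) :
    #(Sm γ) < #(Set.Iio (κ n)) := by
  by_contra hc
  rw [not_lt] at hc
  obtain ⟨ι⟩ := (Cardinal.le_def _ _).1 hc
  have hno : κ n < o := (h.sup _).2 ⟨n+1, h.mono' n⟩
  let f : VS o := ⟨ZFSet.sep (fun z => ∃ β : Set.Iio (κ n), z = pair (ι β).1 β.1.toZFSet)
    (ZFSet.vonNeumann o), by
      rw [← ZFSet.subset_vonNeumann]
      intro z hz
      exact (ZFSet.mem_sep.1 hz).1⟩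
  have hf : ∀ x y : VS o, App f x y ↔ ∃ β : Set.Iio (κ n), x.1 = (ι β).1 ∧ y.1 = β.1.toZFSet := by
    intro x y
    rw [App_iff]
    show pair x.1 y.1 ∈ (ZFSet.sep (fun z => ∃ β : Set.Iio (κ n), z = pair (ι β).1 β.1.toZFSet)
      (ZFSet.vonNeumann o)) ↔ _
    rw [ZFSet.mem_sep, ZFSet.mem_vonNeumann]
    constructor
    · rintro ⟨_, β, h1⟩
      rw [ZFSet.pair_inj] at h1
      exact ⟨β, h1.1, h1.2⟩
    · rintro ⟨β, h1, h2⟩
      refine ⟨?_, β, by rw [h1, h2]⟩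
      rw [h1, h2]
      refine h.lim.rank_pair_lt ((ι β).2.trans (hγ.trans hno)) ?_
      rw [Ordinal.rank_toZFSet]
      exact lt_trans β.2 hno
  refine h.ns n (xo γ (hγ.trans hno).le) (Ordinal.toZFSet_mem_toZFSet_iff.2 hγ)
    (Vv γ (hγ.trans hno).le) ((VV_iff h.lim rfl).2 rfl) f ⟨?_, ?_⟩
  · intro y hy
    obtain ⟨β, hβ, hβ2⟩ := Ordinal.mem_toZFSet_iff.1 hy
    refine ⟨⟨(ι ⟨β, hβ⟩).1, ((ι ⟨β, hβ⟩).2.trans (hγ.trans hno)).le⟩, ?_,
      (hf _ _).2 ⟨⟨β, hβ⟩, rfl, hβ2.symm⟩⟩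
    exact ZFSet.mem_vonNeumann.2 (ι ⟨β, hβ⟩).2
  · intro x y y' h1 h2
    obtain ⟨β, h3, h4⟩ := (hf _ _).1 h1
    obtain ⟨β', h5, h6⟩ := (hf _ _).1 h2
    have : β = β' := ι.injective (Subtype.ext (h3.symm.trans h5))
    subst this
    exact Subtype.ext (h4.trans h6.symm)

theorem card_Sm : #(Sm o) = #(Set.Iio o) := by
  apply le_antisymm
  · have h0 : ℵ₀ ≤ #(Set.Iio o) := by
      rw [Cardinal.aleph0_le_mk_iff]
      exact Infinite.of_injective (fun n : ℕ => (⟨n, h.lim.nat_lt n⟩ : Set.Iio o))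
        (fun a b hab => by
          have h1 : (a : Ordinal.{u}) = (b : Ordinal.{u}) := Subtype.mk.inj hab
          exact_mod_cast h1)
    have h1 : #(⋃ n : ULift.{u+1} ℕ, {x : Sm o | x.1.rank < κ n.down} : Set (Sm o)) ≤ #(Set.Iio o) := by
      refine (Cardinal.mk_iUnion_le _).trans ?_
      refine (mul_le_mul' (?_ : _ ≤ #(Set.Iio o)) (ciSup_le' (a := #(Set.Iio o)) (fun n => ?_))).trans ?_
      · simpa using h0
      · have h2 : #({x : Sm o | x.1.rank < κ n.down} : Set (Sm o)) ≤ #(Sm (κ n.down)) :=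
          Cardinal.mk_le_of_injective (f := fun x => (⟨x.1.1, x.2⟩ : Sm (κ n.down)))
            (fun x y hxy => Subtype.ext (Subtype.ext (Subtype.mk.inj hxy)))
        refine h2.trans ((h.card_Sm_lt (h.mono' n.down)).le.trans ?_)
        exact Cardinal.mk_le_mk_of_subset (fun x hx => lt_of_lt_of_le hx (h.le _))
      · exact (Cardinal.mul_eq_self h0).le
    have h2 : (⋃ n : ULift.{u+1} ℕ, {x : Sm o | x.1.rank < κ n.down} : Set (Sm o)) = Set.univ := by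
      rw [Set.eq_univ_iff_forall]
      intro x
      obtain ⟨n, hn⟩ := (h.sup _).1 x.2
      rw [Set.mem_iUnion]
      exact ⟨⟨n⟩, hn⟩
    rw [h2, Cardinal.mk_univ] at h1
    exact h1
  · refine Cardinal.mk_le_of_injective (f := fun a : Set.Iio o => (⟨a.1.toZFSet, by
      rw [Ordinal.rank_toZFSet]; exact a.2⟩ : Sm o)) ?_
    intro a b hab
    exact Subtype.ext (Ordinal.toZFSet_injective (Subtype.mk.inj hab))

theorem card_seq (q : ℕ) : #(ℕ → Set.Iio (κ q)) ≤ #(Sm o) := by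
  have hqo : κ q < o := (h.sup _).2 ⟨q+1, h.mono' q⟩
  have hc : κ q + 1 + 1 + 1 < o := h.lim.2 _ (h.lim.2 _ (h.lim.2 _ hqo))
  have hω : ∀ n : ℕ, (n : Ordinal.{u}) ≤ κ q := fun n =>
    (h.nat_lt n).le.trans ((strictMono_nat_of_lt_succ h.mono').monotone (Nat.zero_le q))
  let g : (ℕ → Set.Iio (κ q)) → Sm o := fun x =>
    ⟨ZFSet.sep (fun z => ∃ n, z = pair (tag n) (x n).1.toZFSet) (ZFSet.vonNeumann (κ q + 1 + 1 + 1)), by
      refine lt_of_le_of_lt ?_ hc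
      rw [← ZFSet.subset_vonNeumann]
      intro z hz
      exact (ZFSet.mem_sep.1 hz).1⟩
  refine Cardinal.mk_le_of_injective (f := g) ?_
  intro x y hxy
  funext n
  have h1 : pair (tag n) (x n).1.toZFSet ∈ (g x).1 := by
    show _ ∈ ZFSet.sep (fun z => ∃ n, z = pair (tag n) (x n).1.toZFSet)
      (ZFSet.vonNeumann (κ q + 1 + 1 + 1))
    rw [ZFSet.mem_sep, ZFSet.mem_vonNeumann]
    refine ⟨Order.lt_add_one_iff.2 (rank_pair_le ?_ ?_), n, rfl⟩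
    · rw [rank_tag]; exact hω n
    · rw [Ordinal.rank_toZFSet]; exact (x n).2.le
  rw [hxy] at h1
  have h2 : pair (tag n) (x n).1.toZFSet ∈ ZFSet.sep (fun z => ∃ n, z = pair (tag n) (y n).1.toZFSet)
      (ZFSet.vonNeumann (κ q + 1 + 1 + 1)) := h1
  rw [ZFSet.mem_sep] at h2
  obtain ⟨_, m, h3⟩ := h2
  rw [ZFSet.pair_inj] at h3
  have h4 := tag_inj h3.1
  subst h4
  exact Subtype.ext (Ordinal.toZFSet_injective h3.2)

end IsI1Emb

end SOCat
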