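import Pool.Agent.SOCat.Main

namespace SOCat

universe u

open ZFSet

variable {o : Ordinal.{u}}

theorem Elem.dfn {j : VS o → VS o} (hj : Elem j) {R : ∀ o : Ordinal.{u}, (ℕ → VS o) → Prop}
    (h : Dfn R) (v : ℕ → VS o) : R o v ↔ R o (fun n => j (v n)) := by
  obtain ⟨φ, hφ⟩ := h
  rw [← hφ, ← hφ]
  exact hj φ v

theorem Elem.d4 {j : VS o → VS o} (hj : Elem j)
    {Q : ∀ {o : Ordinal.{u}}, VS o → VS o → VS o → VS o → Prop}
    (h : Dfn.{u} fun _ v => Q (v 0) (v 1) (v 2) (v 3)) (x y z t : VS o) :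
    Q x y z t ↔ Q (j x) (j y) (j z) (j t) :=
  hj.dfn h (cons x (cons y (cons z (fun _ => t))))

theorem Elem.d3 {j : VS o → VS o} (hj : Elem j)
    {Q : ∀ {o : Ordinal.{u}}, VS o → VS o → VS o → Prop}
    (h : Dfn.{u} fun _ v => Q (v 0) (v 1) (v 2)) (x y z : VS o) :
    Q x y z ↔ Q (j x) (j y) (j z) :=
  hj.dfn h (cons x (cons y (fun _ => z)))

/-- the set `V_a` as an element of `V_{o+1}` -/
noncomputable def Vv (a : Ordinal.{u}) (ha : a ≤ o) : VS o :=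
  ⟨ZFSet.vonNeumann a, by rw [ZFSet.rank_vonNeumann]; exact ha⟩

/-- `j : V_{o+1} → V_{o+1}` is an elementary embedding whose critical sequence `κ 0 < κ 1 < ...`
is cofinal in `o`: `j` is the identity on `V_{κ 0}` and `j (V_{κ n}) = V_{κ (n+1)}`. -/
structure Wit {o : Ordinal.{u}} (j : VS o → VS o) (κ : ℕ → Ordinal.{u}) : Prop where
  el : Elem j
  mono : StrictMono κ
  lt : ∀ n, κ n < o
  cof : ∀ a < o, ∃ n, a < κ n
  fix : ∀ x : VS o, x.1.rank < κ 0 → j x = x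
  V : ∀ (n : ℕ) (x : VS o), x.1 = ZFSet.vonNeumann (κ n) → (j x).1 = ZFSet.vonNeumann (κ (n+1))

variable {j : VS o → VS o} {κ : ℕ → Ordinal.{u}} (w : Wit j κ)
include w

theorem Wit.lim : Lim o := by
  refine ⟨zero_le.trans_lt (w.lt 0), ?_⟩
  intro a ha
  obtain ⟨n, hn⟩ := w.cof a ha
  exact (Order.add_one_le_of_lt hn).trans_lt (w.lt n)

theorem Wit.j_Vv (n : ℕ) : j (Vv (κ n) (w.lt n).le) = Vv (κ (n+1)) (w.lt (n+1)).le :=
  Subtype.ext (w.V n _ rfl)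

theorem Wit.mem_iff (x y : VS o) : x.1 ∈ y.1 ↔ (j x).1 ∈ (j y).1 :=
  w.el.d3 (Q := fun x y _ => x.1 ∈ y.1) (Dfn.mem 0 1) x y x

theorem Wit.sub {x y : VS o} (h : x.1 ⊆ y.1) : (j x).1 ⊆ (j y).1 :=
  sub_iff.1 ((w.el.d3 (Q := fun x y _ => Sub x y) (d_Sub 0 1) x y x).1 (sub_iff.2 h))

theorem Wit.rank_lt {x : VS o} (h : x.1.rank < o) : (j x).1.rank < o := by
  obtain ⟨n, hn⟩ := w.cof _ h
  have h1 : x.1 ⊆ (Vv (κ n) (w.lt n).le).1 := ZFSet.subset_vonNeumann.2 hn.le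
  have h2 := w.sub h1
  rw [w.j_Vv] at h2
  exact (ZFSet.subset_vonNeumann.1 h2).trans_lt (w.lt (n+1))

omit w in
/-- the code of `j` -/
noncomputable def code (j : VS o → VS o) : VS o :=
  ⟨ZFSet.sep (fun p => ∃ a : VS o, a.1.rank < o ∧ p = pair a.1 (j a).1) (ZFSet.vonNeumann o), by
    rw [← ZFSet.subset_vonNeumann]
    intro z hz
    exact (ZFSet.mem_sep.1 hz).1⟩

theorem Wit.ext_code (X : VS o) : ext (code j) X = j X := by
  apply vs_ext
  intro y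
  rw [mem_ext]
  constructor
  · rintro ⟨a, b, ha, hb, hy⟩
    unfold code at hb
    rw [ZFSet.mem_sep] at hb
    obtain ⟨_, a', ha', hp⟩ := hb
    rw [ZFSet.pair_inj] at hp
    obtain ⟨rfl, rfl⟩ := hp
    exact w.sub ha hy
  · intro hy
    obtain ⟨n, hn⟩ := w.cof y.rank ((rank_lt_of_mem hy).trans_le (j X).2)
    let V := Vv (κ n) (w.lt n).le
    have h1 : ∀ t : ZFSet.{u}, t ∈ (j (inter X V)).1 ↔ (t ∈ (j X).1 ∧ t ∈ (j V).1) :=
      Inter_iff.1 ((w.el.d3 (Q := fun x y z => Inter x y z) (d_Inter 0 1 2) X V (inter X V)).1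
        (Inter_iff.2 (mem_inter X V)))
    have hy2 : y ∈ (j V).1 := by
      rw [w.j_Vv]
      show y ∈ ZFSet.vonNeumann _
      rw [ZFSet.mem_vonNeumann]
      exact hn.trans (w.mono (Nat.lt_succ_self n))
    have hr : (inter X V).1.rank < o := by
      have : (inter X V).1 ⊆ ZFSet.vonNeumann (κ n) := fun t ht => ((mem_inter X V t).1 ht).2
      exact (ZFSet.subset_vonNeumann.1 this).trans_lt (w.lt n)
    refine ⟨(inter X V).1, (j (inter X V)).1, fun t ht => ((mem_inter X V t).1 ht).1, ?_,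
      (h1 y).2 ⟨hy, hy2⟩⟩
    unfold code
    rw [ZFSet.mem_sep]
    refine ⟨?_, inter X V, hr, rfl⟩
    rw [ZFSet.mem_vonNeumann]
    exact w.lim.rank_pair_lt hr (w.rank_lt hr)

theorem Wit.pres {Q : ∀ {o : Ordinal.{u}}, VS o → VS o → VS o → Prop}
    (h : Dfn.{u} fun _ v => Q (v 0) (v 1) (v 2)) : Pres Q (code j) := by
  rw [Pres_iff]
  intro x y z
  rw [w.ext_code, w.ext_code, w.ext_code]
  exact w.el.d3 h x y z

theorem Wit.E0_code : E0 (code j) :=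
  ⟨w.pres (Q := fun x y _ => x.1 ∈ y.1) (Dfn.mem 0 1),
    w.pres (Q := fun x _ _ => Emp x) (d_Emp 0),
    w.pres (Q := fun x y z => Inter x y z) (d_Inter 0 1 2),
    w.pres (Q := fun x y z => UP x y z) (d_UP 0 1 2),
    w.pres (Q := fun x y z => Slice x y z) (d_Slice 0 1 2)⟩

theorem Wit.EE_code (n : ℕ) : EE n (code j) := by
  induction n with
  | zero => exact w.E0_code
  | succ n ih =>
    rw [EE_succ_iff]
    refine ⟨ih, fun Z X X' F h => ?_⟩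
    rw [w.ext_code, w.ext_code, w.ext_code, w.ext_code] at h
    exact (w.el.d4 (Q := fun a b c d => SS (fun k => EE n k) a b c d)
      (d_SS (E := fun k => EE n k) (d_EE n) 0 1 2 3) Z X X' F).2 h

omit w in
def Psi (n : ℕ) {o : Ordinal.{u}} (F W C C' : VS o) : Prop :=
  ∃ G : VS o, G.1 ∈ W.1 ∧ ∃ u : VS o, EE n u ∧ Fix u F ∧ Ext u C C' ∧
    ∃ g : VS o, Ext u G g ∧ Sub W g

omit w in
theorem d_Psi (n : ℕ) : Dfn.{u} fun _ v => Psi n (v 0) (v 1) (v 2) (v 3) :=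
  ((Dfn.mem 0 2).and ((d_EE n 0).and ((d_Fix 0 2).and ((d_Ext 0 4 5).and
    ((d_Ext 1 2 0).and (d_Sub 4 0)).ex))).ex).ex

/-- `W m = V_{κ m}` -/
noncomputable def Wit.W (m : ℕ) : VS o := Vv (κ m) (w.lt m).le

theorem Wit.psi (n : ℕ) (F : VS o) (hF : F.1.rank < κ 0) (C : VS o) :
    Psi n F (w.W 0) C (j C) := by
  rw [w.el.d4 (Q := fun a b c d => Psi n a b c d) (d_Psi n) F (w.W 0) C (j C)]
  have hW : j (w.W 0) = w.W 1 := w.j_Vv 0
  rw [w.fix F hF, hW]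
  refine ⟨w.W 0, ?_, code j, w.EE_code n, ?_, ?_, w.W 1, ?_, ?_⟩
  · show ZFSet.vonNeumann (κ 0) ∈ ZFSet.vonNeumann (κ 1)
    rw [ZFSet.vonNeumann_mem_vonNeumann_iff]
    exact w.mono (by norm_num)
  · rw [Fix_iff]
    intro a ha
    rw [w.ext_code]
    exact w.fix a ((rank_mono ha).trans_lt hF)
  · rw [Ext_iff, w.ext_code]
  · rw [Ext_iff, w.ext_code]
    exact hW
  · exact fun z hz => hz

theorem Wit.next (n : ℕ) (b : Ordinal.{u}) (hb : b < κ 0) :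
    ∃ b' : Ordinal.{u}, b ≤ b' ∧ b' < κ 0 ∧ ∃ u : VS o, EE n u ∧
      (∀ a : VS o, a.1 ⊆ ZFSet.vonNeumann b → ext u a = a) ∧
      (∀ g : VS o, g.1 = ZFSet.vonNeumann b' → ZFSet.vonNeumann (κ 0) ⊆ (ext u g).1) ∧
      ∀ m, ext u (w.W m) = w.W (m+1) := by
  have hbo : b ≤ o := (hb.trans (w.lt 0)).le
  have hr : (Vv b hbo).1.rank < κ 0 := by
    show (ZFSet.vonNeumann b).rank < κ 0
    rw [ZFSet.rank_vonNeumann]; exact hb
  obtain ⟨G, hG, u, hu, hfix, hC, g, hg, hWg⟩ := w.psi n (Vv b hbo) hr (fam w.W)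
  rw [Fix_iff] at hfix
  rw [Ext_iff] at hC hg
  rw [sub_iff] at hWg
  have hG2 : G.1.rank < κ 0 := ZFSet.mem_vonNeumann.1 hG
  refine ⟨max b G.1.rank, le_max_left _ _, max_lt hb hG2, u, hu, hfix, ?_, ?_⟩
  · intro g' hg'
    have h1 : G.1 ⊆ g'.1 := by
      rw [hg', ZFSet.subset_vonNeumann]
      exact le_max_right _ _
    have h2 := ext_mono (w := u) h1
    rw [hg] at h2
    exact fun z hz => h2 (hWg hz)
  · intro m
    have e1 : ∀ x, x ∈ (ext u (w.W m)).1 ↔ _ :=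
      ext_slice (EE_E0 hu) (t := tagv w.lim m) (C := fam w.W) (S := w.W m) (mem_fam w.lim w.W m)
    have e2 : ∀ x, x ∈ (ext (code j) (w.W m)).1 ↔ _ :=
      ext_slice w.E0_code (t := tagv w.lim m) (C := fam w.W) (S := w.W m) (mem_fam w.lim w.W m)
    have e3 : ext u (w.W m) = ext (code j) (w.W m) := by
      apply vs_ext
      intro x
      rw [e1, e2, ext_tag w.lim (EE_E0 hu), ext_tag w.lim w.E0_code, hC, w.ext_code]
    rw [e3, w.ext_code]
    exact w.j_Vv m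

theorem Wit.pos : 0 < κ 0 := by
  by_contra h
  have h0 : κ 0 = 0 := by
    rcases eq_or_lt_of_le (zero_le (a := κ 0)) with h1 | h1
    · exact h1.symm
    · exact absurd h1 h
  have h1 : (w.W 0).1 = ∅ := by
    show ZFSet.vonNeumann (κ 0) = ∅
    rw [h0, ZFSet.vonNeumann_zero]
  have h2 : (j (w.W 0)).1 = ∅ :=
    Emp_iff.1 ((w.el.d3 (Q := fun x _ _ => Emp x) (d_Emp 0) (w.W 0) (w.W 0) (w.W 0)).1
      (Emp_iff.2 h1))
  have h3 : (j (w.W 0)).1 = ZFSet.vonNeumann (κ 1) := congrArg Subtype.val (w.j_Vv 0)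
  have h4 : ZFSet.vonNeumann (κ 0) ∈ ZFSet.vonNeumann (κ 1) :=
    ZFSet.vonNeumann_mem_vonNeumann_iff.2 (w.mono (by norm_num))
  rw [← h3, h2] at h4
  exact ZFSet.notMem_empty _ h4

theorem Wit.init (n : ℕ) : ∃ (k F : ℕ → VS o) (p : Ordinal.{u}), p < o ∧ Lim p ∧
    (∀ x : ZFSet.{u}, x.rank < p ↔ ∃ i, x ∈ (F i).1) ∧ Good n k F w.W := by
  have key : ∀ b : {b : Ordinal.{u} // b < κ 0}, ∃ q : {b : Ordinal.{u} // b < κ 0} × VS o,
      b.1 ≤ q.1.1 ∧ EE n q.2 ∧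
      (∀ a : VS o, a.1 ⊆ ZFSet.vonNeumann b.1 → ext q.2 a = a) ∧
      (∀ g : VS o, g.1 = ZFSet.vonNeumann q.1.1 → ZFSet.vonNeumann (κ 0) ⊆ (ext q.2 g).1) ∧
      ∀ m, ext q.2 (w.W m) = w.W (m+1) := by
    intro b
    obtain ⟨b', h1, h2, u, h3, h4, h5, h6⟩ := w.next n b.1 b.2
    exact ⟨(⟨b', h2⟩, u), h1, h3, h4, h5, h6⟩
  choose q hq using key
  let b : ℕ → {b : Ordinal.{u} // b < κ 0} := fun i => Nat.rec ⟨0, w.pos⟩ (fun _ b => (q b).1) i
  have hbo : ∀ i, (b i).1 ≤ o := fun i => ((b i).2.trans (w.lt 0)).le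
  let F : ℕ → VS o := fun i => Vv (b i).1 (hbo i)
  have hb1 : ∀ i, (b i).1 ≤ (b (i+1)).1 := fun i => (hq (b i)).1
  have hb2 : ∀ i, (b i).1 < (b (i+1)).1 := by
    intro i
    refine lt_of_le_of_ne (hb1 i) ?_
    intro e
    have h1 := (hq (b i)).2.2.2.1 (F i) (by
      show ZFSet.vonNeumann (b i).1 = ZFSet.vonNeumann (b (i+1)).1
      rw [e])
    have h2 : ext (q (b i)).2 (F i) = F i := (hq (b i)).2.2.1 (F i) (fun _ h => h)
    rw [h2] at h1
    have h3 := ZFSet.vonNeumann_subset_vonNeumann_iff.1 h1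
    exact absurd (b i).2 (not_lt.2 h3)
  have hsup : ∀ a : Ordinal.{u}, a < (⨆ i, (b i).1) ↔ ∃ i, a < (b i).1 := fun a =>
    Ordinal.lt_iSup_iff
  refine ⟨fun i => (q (b i)).2, F, ⨆ i, (b i).1, ?_, ?_, ?_, ?_⟩
  · refine lt_of_le_of_lt ?_ (w.lt 0)
    apply Ordinal.iSup_le
    intro i
    exact (b i).2.le
  · constructor
    · rw [hsup]
      exact ⟨1, zero_le.trans_lt (hb2 0)⟩
    · intro a ha
      rw [hsup] at ha ⊢
      obtain ⟨i, hi⟩ := ha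
      exact ⟨i+1, (Order.add_one_le_of_lt hi).trans_lt (hb2 i)⟩
  · intro x
    rw [hsup]
    constructor
    · rintro ⟨i, hi⟩
      exact ⟨i, ZFSet.mem_vonNeumann.2 hi⟩
    · rintro ⟨i, hi⟩
      exact ⟨i, ZFSet.mem_vonNeumann.1 hi⟩
  · exact {
      E := fun i => (hq (b i)).2.1
      fix := fun i => (hq (b i)).2.2.1
      cov := fun i => (hq (b i)).2.2.2.1 (F (i+1)) rfl
      Weq := fun i m => (hq (b i)).2.2.2.2 m
      trans := fun i => ZFSet.isTransitive_vonNeumann _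
      mono := fun i => ZFSet.vonNeumann_subset_of_le (hb1 i)
      Wtr := fun m => ZFSet.isTransitive_vonNeumann _
      Wcof := by
        intro x hx
        obtain ⟨m, hm⟩ := w.cof _ hx
        exact ⟨m, ZFSet.mem_vonNeumann.2 hm⟩ }

omit w in
/-- slice -/
noncomputable def slice (t : ZFSet.{u}) (C : VS o) : VS o :=
  ⟨ZFSet.sep (fun x => pair t x ∈ C.1) (ZFSet.vonNeumann o), by
    rw [← ZFSet.subset_vonNeumann]
    intro z hz
    exact (ZFSet.mem_sep.1 hz).1⟩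

omit w in
theorem mem_slice (t : ZFSet.{u}) (C : VS o) (x : ZFSet.{u}) :
    x ∈ (slice t C).1 ↔ pair t x ∈ C.1 := by
  unfold slice
  rw [ZFSet.mem_sep, ZFSet.mem_vonNeumann]
  constructor
  · exact fun h => h.2
  · intro h
    exact ⟨(rank_right_lt _ _).trans ((rank_lt_of_mem h).trans_le C.2), h⟩

/-- reflection with countably many parameters -/
theorem Wit.reflection (n : ℕ) (a : ℕ → VS o) : ∃ p : Ordinal.{u}, p < o ∧ Lim p ∧
    ∃ a' : ℕ → VS p, ∀ ψ : Fml, qr ψ ≤ n → (Sat ψ a ↔ Sat ψ a') := by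
  obtain ⟨k, F, p, hpo, hlim, hp, hG⟩ := w.init (n+1)
  let e : VS o := ⟨∅, by rw [ZFSet.rank_empty]; exact zero_le⟩
  obtain ⟨k', hk', _, Y', hY', hY0⟩ := extend w.lim hG (fun _ _ => e)
    (fun m i => Subtype.ext (ext_empty (EE_E0 (hG.E i)) rfl)) (fam a)
  let X : ℕ → ℕ → VS o := fun m i => slice (tag m) (Y' i)
  have hX : ∀ m, Thr k' (X m) := by
    intro m i
    apply vs_ext
    intro x
    have := ext_slice (EE_E0 (hk'.E i)) (t := tagv w.lim m) (C := Y' (i+1)) (S := X m (i+1))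
      (mem_slice (tag m) (Y' (i+1))) x
    rw [this, ext_tag w.lim (EE_E0 (hk'.E i)), hY' i]
    exact (mem_slice (tag m) (Y' i) x).symm
  have hX0 : (fun m => X m 0) = a := by
    funext m
    apply vs_ext
    intro x
    show x ∈ (slice (tag m) (Y' 0)).1 ↔ _
    rw [mem_slice, hY0, mem_fam w.lim]
  refine ⟨p, hpo, hlim, fun m => SOCat.lim p F (X m), fun ψ hψ => ?_⟩
  rw [← reflect w.lim F w.W hp ψ n hψ k' hk' X hX, hX0]

end SOCat
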