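import Pool.Agent.SOCat.Sys

namespace SOCat

universe u

open ZFSet

variable {o : Ordinal.{u}} {n : ℕ} {p : Ordinal.{u}}

section limlem

variable {k F W : ℕ → VS o}

/-- `Ȳ ∩ F l` -/
noncomputable def cap (F : ℕ → VS o) (Y : ZFSet.{u}) (l : ℕ) : VS o :=
  ⟨ZFSet.sep (fun t => t ∈ Y) (F l).1, (rank_mono (fun _ h => (ZFSet.mem_sep.1 h).1)).trans (F l).2⟩

theorem mem_cap (F : ℕ → VS o) (Y : ZFSet.{u}) (l : ℕ) (t : ZFSet.{u}) :
    t ∈ (cap F Y l).1 ↔ t ∈ (F l).1 ∧ t ∈ Y := by
  unfold cap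
  rw [ZFSet.mem_sep]

theorem cap_coh (Y : ZFSet.{u}) (l : ℕ) : ∀ {k F W : ℕ → VS o}, Good n k F W → ∀ (m : ℕ)
    (t : ZFSet.{u}), t ∈ (D k l (cap F Y l)).1 ↔
      (t ∈ (D k (l+m) (cap F Y (l+m))).1 ∧ t ∈ (D k l (F l)).1) := by
  induction l with
  | zero =>
    intro k F W h m t
    show t ∈ (cap F Y 0).1 ↔ (_ ∧ t ∈ (F 0).1)
    rw [zero_add, mem_cap]
    constructor
    · rintro ⟨h1, h2⟩
      refine ⟨?_, h1⟩
      have h3 : t ∈ (cap F Y m).1 := by
        rw [mem_cap]
        have := h.mono_le 0 m h1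
        rw [zero_add] at this
        exact ⟨this, h2⟩
      have h4 := (D_mem m h ⟨t, vs_mem_rank h1⟩ (cap F Y m)).1 h3
      rwa [D_fix_mem m h (a := ⟨t, vs_mem_rank h1⟩) h1] at h4
    · rintro ⟨h1, h2⟩
      refine ⟨h2, ?_⟩
      have h4 := (D_mem m h ⟨t, vs_mem_rank h2⟩ (cap F Y m)).2
      rw [D_fix_mem m h (a := ⟨t, vs_mem_rank h2⟩) h2] at h4
      exact ((mem_cap _ _ _ _).1 (h4 h1)).2
  | succ l ih =>
    intro k F W h m t
    have := ih h.shift m
    have e := ext_inter (EE_E0 (h.E 0)) this t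
    have e2 : l + 1 + m = l + m + 1 := by omega
    rw [e2]
    exact e

theorem cap_mono (Y : ZFSet.{u}) (h : Good n k F W) (l m : ℕ) {t : ZFSet.{u}}
    (ht : t ∈ (D k l (cap F Y l)).1) : t ∈ (D k (l+m) (cap F Y (l+m))).1 :=
  ((cap_coh Y l h m t).1 ht).1

/-- union of the `D k l (Ȳ ∩ F l)` -/
noncomputable def UU (k F : ℕ → VS o) (Y : ZFSet.{u}) : VS o :=
  ⟨ZFSet.sep (fun x => ∃ l, x ∈ (D k l (cap F Y l)).1) (ZFSet.vonNeumann o), by
    rw [← ZFSet.subset_vonNeumann]
    intro z hz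
    exact (ZFSet.mem_sep.1 hz).1⟩

theorem mem_UU {Y : ZFSet.{u}} {x : ZFSet.{u}} :
    x ∈ (UU k F Y).1 ↔ ∃ l, x ∈ (D k l (cap F Y l)).1 := by
  unfold UU
  rw [ZFSet.mem_sep, ZFSet.mem_vonNeumann]
  constructor
  · exact fun h => h.2
  · rintro ⟨l, h1⟩
    exact ⟨(rank_lt_of_mem h1).trans_le (D k l (cap F Y l)).2, l, h1⟩

theorem UU_thr (h : Good n k F W) (Y : ZFSet.{u}) :
    ext (k 0) (UU (fun i => k (i+1)) (fun i => F (i+1)) Y) = UU k F Y := by
  apply vs_ext
  intro y
  constructor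
  · intro hy
    obtain ⟨a, ha, haU, hya⟩ := ext_cont hy
    obtain ⟨l, hl⟩ := h.Wcof a.1 ha
    rw [mem_UU]
    refine ⟨l + 2, ?_⟩
    have hsub : a.1 ⊆ (D (fun i => k (i+1)) (l+1) (cap (fun i => F (i+1)) Y (l+1))).1 := by
      intro z hz
      obtain ⟨m, hm⟩ := mem_UU.1 (haU hz)
      have hz2 : z ∈ (D (fun i => k (i+1)) (l+1) ((fun i => F (i+1)) (l+1))).1 :=
        W_sub l h.shift (h.Wtr l _ hl hz)
      rw [cap_coh Y (l+1) h.shift m]
      refine ⟨?_, hz2⟩
      have := cap_mono Y h.shift m (l+1) hm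
      rwa [add_comm m (l+1)] at this
    exact ext_mono hsub hya
  · intro hy
    obtain ⟨l, hl⟩ := mem_UU.1 hy
    have hl1 := cap_mono Y h l 1 hl
    have hl2 : y ∈ (ext (k 0) (D (fun i => k (i+1)) l (cap (fun i => F (i+1)) Y l))).1 := hl1
    refine ext_mono ?_ hl2
    intro z hz
    exact mem_UU.2 ⟨l, hz⟩

/-- shifting -/
def sh (k : ℕ → VS o) (i : ℕ) : ℕ → VS o := fun l => k (i + l)

theorem Good.sh (h : Good n k F W) (i : ℕ) : Good n (sh k i) (sh F i) W where
  E _ := h.E _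
  fix _ := h.fix _
  cov _ := h.cov _
  Weq _ := h.Weq _
  trans _ := h.trans _
  mono _ := h.mono _
  Wtr := h.Wtr
  Wcof := h.Wcof

theorem exists_thr (hp : ∀ x : ZFSet.{u}, x.rank < p ↔ ∃ i, x ∈ (F i).1) (h : Good n k F W)
    (Y : VS p) : ∃ X : ℕ → VS o, Thr k X ∧ lim p F X = Y := by
  refine ⟨fun i => UU (sh k i) (sh F i) Y.1, ?_, ?_⟩
  · intro i
    have := UU_thr (h.sh i) Y.1
    have e1 : (fun j => sh k i (j+1)) = sh k (i+1) := by
      funext j; unfold sh; congr 1; omega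
    have e2 : (fun j => sh F i (j+1)) = sh F (i+1) := by
      funext j; unfold sh; congr 1; omega
    rw [e1, e2] at this
    exact this
  · apply vs_ext
    intro x
    rw [mem_lim hp]
    constructor
    · rintro ⟨i, hi, hx⟩
      obtain ⟨l, hl⟩ := mem_UU.1 hx
      have h0 : x ∈ (sh F i 0).1 := hi
      have := (cap_coh Y.1 0 (h.sh i) l x).2 ⟨by rwa [zero_add], h0⟩
      exact ((mem_cap _ _ _ _).1 this).2
    · intro hx
      obtain ⟨i, hi⟩ := (hp x).1 ((rank_lt_of_mem hx).trans_le Y.2)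
      refine ⟨i, hi, mem_UU.2 ⟨0, ?_⟩⟩
      show x ∈ (cap (sh F i) Y.1 0).1
      rw [mem_cap]
      exact ⟨hi, hx⟩

end limlem

/-- extension lemma -/
theorem extend (ho : Lim o) {k F W : ℕ → VS o} (h : Good (n+1) k F W) (X : ℕ → ℕ → VS o)
    (hX : ∀ m, Thr k (X m)) (Y : VS o) :
    ∃ k' : ℕ → VS o, Good n k' F W ∧ (∀ m, Thr k' (X m)) ∧
      ∃ Y' : ℕ → VS o, Thr k' Y' ∧ Y' 0 = Y := by
  have key : ∀ (i : ℕ) (Z : VS o), ∃ q : VS o × VS o, EE n q.1 ∧
      (∀ a : VS o, a.1 ⊆ (F i).1 → ext q.1 a = a) ∧ ext q.1 q.2 = Z ∧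
      (W 0).1 ⊆ (ext q.1 (F (i+1))).1 ∧ (∀ m, ext q.1 (W m) = W (m+1)) ∧
      (∀ m, ext q.1 (X m (i+1)) = X m i) := by
    intro i Z
    let s : ℕ → VS o := fun t => if t = 0 then F (i+1) else
      (if t % 2 = 0 then W (t/2 - 1) else X (t/2) (i+1))
    obtain ⟨k', hk1, hk2, ⟨Z1, hZ1⟩, hk3⟩ := step ho (h.E i) Z (F i) (h.fix i) s
    refine ⟨(k', Z1), hk1, hk2, hZ1, ?_, ?_, ?_⟩
    · have := hk3 0
      simp only [s, if_true] at this
      show (W 0).1 ⊆ (ext k' (F (i+1))).1
      rw [this]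
      exact h.cov i
    · intro m
      have := hk3 (2 * (m+1))
      have e1 : 2 * (m+1) ≠ 0 := by omega
      have e2 : 2 * (m+1) % 2 = 0 := by omega
      have e3 : 2 * (m+1) / 2 - 1 = m := by omega
      simp only [s, e1, e2, e3, if_true, if_false] at this
      show ext k' (W m) = _
      rw [this, h.Weq i m]
    · intro m
      have := hk3 (2 * m+1)
      have e1 : 2 * m+1 ≠ 0 := by omega
      have e2 : ¬ (2 * m+1) % 2 = 0 := by omega
      have e3 : (2 * m+1) / 2 = m := by omega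
      simp only [s, e1, e2, e3, if_false] at this
      show ext k' (X m (i+1)) = _
      rw [this]
      exact hX m i
  choose q hq using key
  let Y' : ℕ → VS o := fun i => Nat.rec Y (fun i Z => (q i Z).2) i
  refine ⟨fun i => (q i (Y' i)).1, ?_, ?_, Y', ?_, rfl⟩
  · exact {
      E := fun i => (hq i (Y' i)).1
      fix := fun i => (hq i (Y' i)).2.1
      cov := fun i => (hq i (Y' i)).2.2.2.1
      Weq := fun i => (hq i (Y' i)).2.2.2.2.1
      trans := h.trans
      mono := h.mono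
      Wtr := h.Wtr
      Wcof := h.Wcof }
  · intro m i
    exact (hq i (Y' i)).2.2.2.2.2 m
  · intro i
    exact (hq i (Y' i)).2.2.1

theorem Good.anti {k F W : ℕ → VS o} (h : Good (n+1) k F W) : Good n k F W :=
  { h with E := fun i => (h.E i).1 }

theorem Good.anti_le {k F W : ℕ → VS o} {m : ℕ} (hmn : m ≤ n) (h : Good n k F W) :
    Good m k F W := by
  induction hmn with
  | refl => exact h
  | step _ ih => exact ih h.anti

/-- the inverse-limit reflection -/
theorem reflect (ho : Lim o) (F W : ℕ → VS o)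
    (hp : ∀ x : ZFSet.{u}, x.rank < p ↔ ∃ i, x ∈ (F i).1) (φ : Fml) :
    ∀ (n : ℕ), qr φ ≤ n → ∀ (k : ℕ → VS o), Good n k F W → ∀ X : ℕ → ℕ → VS o,
      (∀ m, Thr k (X m)) → (Sat φ (fun m => X m 0) ↔ Sat φ (fun m => lim p F (X m))) := by
  induction φ with
  | mem i j =>
    intro n _ k h X hX
    exact lim_mem hp h (hX i) (hX j)
  | eq i j =>
    intro n _ k h X hX
    show X i 0 = X j 0 ↔ lim p F (X i) = lim p F (X j)
    constructor
    · intro e
      apply vs_ext
      intro x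
      rw [mem_lim hp, mem_lim hp]
      have : ∀ l, X i l = X j l := by
        intro l
        rw [thr_D l (hX i), thr_D l (hX j)] at e
        apply vs_ext
        intro z
        have : ∀ (a b : VS o), D k l a = D k l b → ∀ z ∈ a.1, z ∈ b.1 := by
          intro a b hab z hz
          have h1 := (D_mem l h (down hz) a).1 hz
          rw [hab] at h1
          exact (D_mem l h (down hz) b).2 h1
        exact ⟨this _ _ e z, this _ _ e.symm z⟩
      simp only [this]
    · intro e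
      exact lim_inj hp h (hX i) (hX j) e 0
  | neg φ ih =>
    intro n hn k h X hX
    exact not_congr (ih n hn k h X hX)
  | and φ ψ ih1 ih2 =>
    intro n hn k h X hX
    exact and_congr (ih1 n ((le_max_left _ _).trans hn) k h X hX)
      (ih2 n ((le_max_right _ _).trans hn) k h X hX)
  | all φ ih =>
    intro n hn k h X hX
    obtain ⟨n, rfl⟩ : ∃ n', n = n' + 1 := ⟨n - 1, by unfold qr at hn; omega⟩
    have hn' : qr φ ≤ n := by unfold qr at hn; omega
    constructor
    · intro hs Y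
      obtain ⟨Y', hY', hYlim⟩ := exists_thr hp h Y
      have h1 := ih n hn' k h.anti (cons Y' X) (by
        intro m
        cases m with
        | zero => exact hY'
        | succ m => exact hX m)
      have e1 : (fun m => (cons Y' X) m 0) = cons (Y' 0) (fun m => X m 0) := by
        funext m
        cases m <;> rfl
      have e2 : (fun m => lim p F ((cons Y' X) m)) = cons Y (fun m => lim p F (X m)) := by
        funext m
        cases m with
        | zero => exact hYlim
        | succ m => rfl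
      rw [e1, e2] at h1
      exact h1.1 (hs (Y' 0))
    · intro hs Y
      obtain ⟨k', hk', hXk', Y', hY', hY0⟩ := extend ho h X hX Y
      have h1 := ih n hn' k' hk' (cons Y' X) (by
        intro m
        cases m with
        | zero => exact hY'
        | succ m => exact hXk' m)
      have e1 : (fun m => (cons Y' X) m 0) = cons Y (fun m => X m 0) := by
        funext m
        cases m with
        | zero => exact hY0
        | succ m => rfl
      have e2 : (fun m => lim p F ((cons Y' X) m)) = cons (lim p F Y') (fun m => lim p F (X m)) := by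
        funext m
        cases m <;> rfl
      rw [e1, e2] at h1
      exact h1.2 (hs _)

end SOCat
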