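import Pool.Agent.SOCat.Init

namespace SOCat

universe u

open ZFSet

variable {o : Ordinal.{u}} {n : ℕ} {p : Ordinal.{u}}

/-- extension lemma with arbitrary parameters -/
theorem extendR (ho : Lim o) {k F W : ℕ → VS o} (h : Good (n+1) k F W) (R : ℕ → ℕ → VS o)
    (Y : VS o) :
    ∃ k' : ℕ → VS o, Good n k' F W ∧ (∀ i m, ext (k' i) (R i m) = ext (k i) (R i m)) ∧
      ∃ Y' : ℕ → VS o, Thr k' Y' ∧ Y' 0 = Y := by
  have key : ∀ (i : ℕ) (Z : VS o), ∃ q : VS o × VS o, EE n q.1 ∧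
      (∀ a : VS o, a.1 ⊆ (F i).1 → ext q.1 a = a) ∧ ext q.1 q.2 = Z ∧
      (W 0).1 ⊆ (ext q.1 (F (i+1))).1 ∧ (∀ m, ext q.1 (W m) = W (m+1)) ∧
      (∀ m, ext q.1 (R i m) = ext (k i) (R i m)) := by
    intro i Z
    let s : ℕ → VS o := fun t => if t = 0 then F (i+1) else
      (if t % 2 = 0 then W (t/2 - 1) else R i (t/2))
    obtain ⟨k', hk1, hk2, ⟨Z1, hZ1⟩, hk3⟩ := step ho (h.E i) Z (F i) (h.fix i) s
    refine ⟨(k', Z1), hk1, hk2, hZ1, ?_, ?_, ?_⟩
    · have := hk3 0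
      simp only [s, if_true] at this
      show (W 0).1 ⊆ (ext k' (F (i+1))).1
      rw [this]
      exact h.cov i
    · intro m
      have := hk3 (2 * (m+1))
      have e1 : 2 * (m+1) ≠ 0 := by omega
      have e2 : 2 * (m+1) % 2 = 0 := by omega
      have e3 : 2 * (m+1) / 2 - 1 = m := by omega
      simp only [s, e1, e2, e3, if_true, if_false] at this
      show ext k' (W m) = _
      rw [this, h.Weq i m]
    · intro m
      have := hk3 (2 * m+1)
      have e1 : 2 * m+1 ≠ 0 := by omega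
      have e2 : ¬ (2 * m+1) % 2 = 0 := by omega
      have e3 : (2 * m+1) / 2 = m := by omega
      simp only [s, e1, e2, e3, if_false] at this
      exact this
  choose q hq using key
  let Y' : ℕ → VS o := fun i => Nat.rec Y (fun i Z => (q i Z).2) i
  refine ⟨fun i => (q i (Y' i)).1, ?_, ?_, Y', ?_, rfl⟩
  · exact {
      E := fun i => (hq i (Y' i)).1
      fix := fun i => (hq i (Y' i)).2.1
      cov := fun i => (hq i (Y' i)).2.2.2.1
      Weq := fun i => (hq i (Y' i)).2.2.2.2.1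
      trans := h.trans
      mono := h.mono
      Wtr := h.Wtr
      Wcof := h.Wcof }
  · intro i m
    exact (hq i (Y' i)).2.2.2.2.2 m
  · intro i
    exact (hq i (Y' i)).2.2.1

/-- local condition on the `i`-th embedding -/
structure Loc (n : ℕ) (F W : ℕ → VS o) (B : ℕ → ℕ → VS o) (i : ℕ) (k : VS o) : Prop where
  E : EE n k
  fix : ∀ a : VS o, a.1 ⊆ (F i).1 → ext k a = a
  cov : (W 0).1 ⊆ (ext k (F (i+1))).1
  Weq : ∀ m, ext k (W m) = W (m+1)
  thr : ∀ m, ext k (B m (i+1)) = B m i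

structure Base (F W : ℕ → VS o) : Prop where
  trans : ∀ i, (F i).1.IsTransitive
  mono : ∀ i, (F i).1 ⊆ (F (i+1)).1
  Wtr : ∀ m, (W m).1.IsTransitive
  Wcof : ∀ x : ZFSet.{u}, x.rank < o → ∃ m, x ∈ (W m).1

variable {F W : ℕ → VS o} {B : ℕ → ℕ → VS o}

theorem good_of_loc (hb : Base F W) {K : ℕ → VS o} (h : ∀ i, Loc n F W B i (K i)) :
    Good n K F W where
  E i := (h i).E
  fix i := (h i).fix
  cov i := (h i).cov
  Weq i := (h i).Weq
  trans := hb.trans
  mono := hb.mono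
  Wtr := hb.Wtr
  Wcof := hb.Wcof

theorem loc_of_good {K : ℕ → VS o} (h : Good n K F W) (hB : ∀ m, Thr K (B m)) (i : ℕ) :
    Loc n F W B i (K i) where
  E := h.E i
  fix := h.fix i
  cov := h.cov i
  Weq := h.Weq i
  thr m := hB m i

/-- the image at level `l` of `a` under the inverse limit of `K` -/
noncomputable def JJ (F : ℕ → VS o) (a : VS p) (K : ℕ → VS o) (l : ℕ) : VS o :=
  UU (sh K l) (sh F l) a.1

theorem JJ_thr {a : VS p} {K : ℕ → VS o} (h : Good n K F W) : Thr K (JJ F a K) := by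
  intro i
  have := UU_thr (h.sh i) a.1
  have e1 : (fun j => sh K i (j+1)) = sh K (i+1) := by
    funext j; unfold sh; congr 1; omega
  have e2 : (fun j => sh F i (j+1)) = sh F (i+1) := by
    funext j; unfold sh; congr 1; omega
  rw [e1, e2] at this
  exact this

theorem JJ_lim (hp : ∀ x : ZFSet.{u}, x.rank < p ↔ ∃ i, x ∈ (F i).1) {a : VS p} {K : ℕ → VS o}
    (h : Good n K F W) : lim p F (JJ F a K) = a := by
  apply vs_ext
  intro x
  rw [mem_lim hp]
  constructor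
  · rintro ⟨i, hi, hx⟩
    obtain ⟨l, hl⟩ := mem_UU.1 hx
    have h0 : x ∈ (sh F i 0).1 := hi
    have := (cap_coh a.1 0 (h.sh i) l x).2 ⟨by rwa [zero_add], h0⟩
    exact ((mem_cap _ _ _ _).1 this).2
  · intro hx
    obtain ⟨i, hi⟩ := (hp x).1 ((rank_lt_of_mem hx).trans_le a.2)
    refine ⟨i, hi, mem_UU.2 ⟨0, ?_⟩⟩
    show x ∈ (cap (sh F i) a.1 0).1
    rw [mem_cap]
    exact ⟨hi, hx⟩

/-- threads are determined by their limits -/
theorem JJ_uniq (hp : ∀ x : ZFSet.{u}, x.rank < p ↔ ∃ i, x ∈ (F i).1) {K Y : ℕ → VS o}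
    (h : Good n K F W) (hY : Thr K Y) (l : ℕ) : Y l = JJ F (lim p F Y) K l :=
  lim_inj hp h hY (JJ_thr h) (JJ_lim hp h).symm l

theorem D_congr (l : ℕ) : ∀ {K K' : ℕ → VS o}, (∀ i < l, K i = K' i) → ∀ X : VS o,
    D K l X = D K' l X := by
  induction l with
  | zero => intro K K' _ X; rfl
  | succ l ih =>
    intro K K' h X
    show ext (K 0) _ = ext (K' 0) _
    rw [h 0 (by omega), ih (fun i hi => h (i+1) (by omega))]

theorem mem_UU_iff {K F : ℕ → VS o} (h : Good n K F W) (Y : ZFSet.{u}) (l : ℕ) {t : ZFSet.{u}}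
    (ht : t ∈ (D K l (F l)).1) : t ∈ (UU K F Y).1 ↔ t ∈ (D K l (cap F Y l)).1 := by
  constructor
  · intro h1
    obtain ⟨m, hm⟩ := mem_UU.1 h1
    have h2 := cap_mono Y h m l hm
    rw [add_comm m l] at h2
    exact (cap_coh Y l h m t).2 ⟨h2, ht⟩
  · intro h1
    exact mem_UU.2 ⟨l, h1⟩

/-- the part of the image inside `W m` is determined by the next `m+1` embeddings -/
theorem JJ_agree {a : VS p} {K K' : ℕ → VS o} (h : Good n K F W) (h' : Good n K' F W)
    (l m : ℕ) (e : ∀ i, l ≤ i → i < l + (m+1) → K i = K' i) {t : ZFSet.{u}} (ht : t ∈ (W m).1) :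
    t ∈ (JJ F a K l).1 ↔ t ∈ (JJ F a K' l).1 := by
  have e1 : ∀ i < m+1, sh K l i = sh K' l i := fun i hi => e (l+i) (by omega) (by omega)
  have h1 := W_sub m (h.sh l) ht
  have h2 := W_sub m (h'.sh l) ht
  unfold JJ
  rw [mem_UU_iff (h.sh l) a.1 (m+1) h1, mem_UU_iff (h'.sh l) a.1 (m+1) h2, D_congr (m+1) e1]

theorem D_W (l : ℕ) : ∀ {K F : ℕ → VS o}, Good n K F W → ∀ m, D K l (W m) = W (m + l) := by
  induction l with
  | zero => intro K F _ m; rfl
  | succ l ih =>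
    intro K F h m
    show ext (K 0) _ = _
    rw [ih h.shift, h.Weq]
    rfl

theorem D_inj (l : ℕ) {K F : ℕ → VS o} (h : Good n K F W) {a b : VS o} (e : D K l a = D K l b) :
    a = b := by
  have : ∀ (a b : VS o), D K l a = D K l b → ∀ z ∈ a.1, z ∈ b.1 := by
    intro a b hab z hz
    have h1 := (D_mem l h (down hz) a).1 hz
    rw [hab] at h1
    exact (D_mem l h (down hz) b).2 h1
  apply vs_ext
  intro z
  exact ⟨this _ _ e z, this _ _ e.symm z⟩

/-- differences at level `l` inside `W m` give differences at level `0` inside `W (m+l)` -/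
theorem JJ_diff {a : VS p} {K K' : ℕ → VS o} (h : Good n K F W) (h' : Good n K' F W)
    (l m : ℕ) (e : ∀ i < l, K i = K' i)
    (hd : ∀ t ∈ (W (m + l)).1, (t ∈ (JJ F a K 0).1 ↔ t ∈ (JJ F a K' 0).1)) :
    ∀ t ∈ (W m).1, (t ∈ (JJ F a K l).1 ↔ t ∈ (JJ F a K' l).1) := by
  have e1 : JJ F a K 0 = D K l (JJ F a K l) := thr_D l (JJ_thr h)
  have e2 : JJ F a K' 0 = D K l (JJ F a K' l) := by
    rw [D_congr l e]
    exact thr_D l (JJ_thr h')
  have h1 := D_inter l h (mem_inter (JJ F a K l) (W m))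
  have h2 := D_inter l h (mem_inter (JJ F a K' l) (W m))
  have h3 : inter (JJ F a K l) (W m) = inter (JJ F a K' l) (W m) := by
    apply D_inj l h
    apply vs_ext
    intro z
    rw [h1, h2, ← e1, ← e2, D_W l h]
    constructor
    · rintro ⟨h4, h5⟩; exact ⟨(hd z h5).1 h4, h5⟩
    · rintro ⟨h4, h5⟩; exact ⟨(hd z h5).2 h4, h5⟩
  intro t ht
  have h4 : t ∈ (inter (JJ F a K l) (W m)).1 ↔ t ∈ (inter (JJ F a K' l) (W m)).1 := by rw [h3]
  rw [mem_inter, mem_inter] at h4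
  constructor
  · intro h5; exact (h4.1 ⟨h5, ht⟩).1
  · intro h5; exact (h4.2 ⟨h5, ht⟩).1

end SOCat
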