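import Pool.Agent.SOCat.P1
import Pool.Agent.SOCat.PSDefs

namespace SOCat

universe u

open ZFSet Cardinal

variable {o : Ordinal.{u}} {n : ℕ} {p : Ordinal.{u}}

theorem aleph0_le_Sm (ho : Lim o) : ℵ₀ ≤ #(Sm o) := by
  rw [Cardinal.aleph0_le_mk_iff]
  exact Infinite.of_injective (fun n : ℕ => (⟨tag n, by rw [rank_tag]; exact ho.nat_lt n⟩ : Sm o))
    (fun a b h => tag_inj (congrArg Subtype.val h))

theorem card_VS_le (hp : p < o) : #(VS p) ≤ #(Sm o) :=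
  Cardinal.mk_le_of_injective (f := fun x : VS p => (⟨x.1, x.2.trans_lt hp⟩ : Sm o))
    (fun _ _ h => Subtype.ext (Subtype.mk.inj h))

/-- the slices of `C` -/
def slices (C : VS o) : Set (VS o) := {Z | ∃ t : ZFSet.{u}, t.rank < o ∧ slice t C = Z}

theorem card_slices (C : VS o) : #(slices C) ≤ #(Sm o) := by
  have : slices C ⊆ Set.range (fun t : Sm o => slice t.1 C) := by
    rintro Z ⟨t, ht, rfl⟩
    exact ⟨⟨t, ht⟩, rfl⟩
  exact (Cardinal.mk_le_mk_of_subset this).trans Cardinal.mk_range_le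

theorem exists_code (ho : Lim o) (N : Set (VS o)) (hN : #N ≤ #(Sm o)) :
    ∃ C : VS o, N ⊆ slices C := by
  obtain ⟨g⟩ := (Cardinal.le_def _ _).1 hN
  let C : VS o := ⟨ZFSet.sep (fun z => ∃ (Z : N) (x : ZFSet.{u}), x ∈ Z.1.1 ∧
    z = pair (g Z).1 x) (ZFSet.vonNeumann o), by
      rw [← ZFSet.subset_vonNeumann]
      intro z hz
      exact (ZFSet.mem_sep.1 hz).1⟩
  refine ⟨C, fun Z hZ => ⟨(g ⟨Z, hZ⟩).1, (g ⟨Z, hZ⟩).2, ?_⟩⟩
  apply vs_ext
  intro x
  rw [mem_slice]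
  show pair _ x ∈ (ZFSet.sep (fun z => ∃ (Z : N) (x : ZFSet.{u}), x ∈ Z.1.1 ∧
    z = pair (g Z).1 x) (ZFSet.vonNeumann o)) ↔ _
  rw [ZFSet.mem_sep, ZFSet.mem_vonNeumann]
  constructor
  · rintro ⟨_, Z', y, hy, h⟩
    rw [ZFSet.pair_inj] at h
    obtain ⟨h1, rfl⟩ := h
    have : (⟨Z, hZ⟩ : N) = Z' := g.injective (Subtype.ext h1)
    rw [← this] at hy
    exact hy
  · intro hx
    refine ⟨ho.rank_pair_lt (g ⟨Z, hZ⟩).2 ((rank_lt_of_mem hx).trans_le Z.2), ⟨Z, hZ⟩, x, hx, rfl⟩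

theorem slices_ext {w : VS o} (hw : E0 w) {C Z : VS o} (h : Z ∈ slices C) :
    ext w Z ∈ slices (ext w C) := by
  obtain ⟨t, ht, rfl⟩ := h
  have ht' : (ext w ⟨t, ht.le⟩).1.rank < o := by
    have h1 : t ∈ ({t} : ZFSet.{u}) := mem_singleton.2 rfl
    have h2 : ({t} : ZFSet.{u}).rank ≤ o := by
      rw [rank_singleton]; exact Order.succ_le_of_lt ht
    have h3 := (ext_mem_iff hw (⟨t, ht.le⟩ : VS o) (⟨{t}, h2⟩ : VS o)).1 h1
    exact (rank_lt_of_mem h3).trans_le (ext w ⟨{t}, h2⟩).2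
  refine ⟨(ext w ⟨t, ht.le⟩).1, ht', ?_⟩
  apply vs_ext
  intro x
  rw [mem_slice]
  exact (ext_slice hw (t := ⟨t, ht.le⟩) (C := C) (S := slice t C) (mem_slice t C) x).symm

variable {F W : ℕ → VS o} {B : ℕ → ℕ → VS o}

/-- all images of `a` at level `l` -/
def SL (n : ℕ) (F W : ℕ → VS o) (B : ℕ → ℕ → VS o) (a : VS p) (l : ℕ) : Set (VS o) :=
  {Z | ∃ K : ℕ → VS o, (∀ i, Loc n F W B i (K i)) ∧ Z = JJ F a K l}

theorem exists_abar (ho : Lim o) (hpo : p < o)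
    (hp : ∀ x : ZFSet.{u}, x.rank < p ↔ ∃ i, x ∈ (F i).1) (X : Set (VS o))
    (hX : #(Sm o) < #X) {K0 : ℕ → VS o} (h0 : Good (n+1) K0 F W) (hB0 : ∀ m, Thr K0 (B m)) :
    ∃ a : VS p, (∃ K : ℕ → VS o, (∀ i, Loc n F W B i (K i)) ∧ JJ F a K 0 ∈ X) ∧
      ∀ l, #(Sm o) < #(SL n F W B a l) := by
  set μ := #(Sm o) with hμ
  have hμ0 : ℵ₀ ≤ μ := aleph0_le_Sm ho
  -- the bad sets
  let N : ℕ → Set (VS o) := fun l => ⋃ a : {a : VS p // #(SL n F W B a l) ≤ μ}, SL n F W B a.1 l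
  have hN : ∀ l, #(N l) ≤ μ := by
    intro l
    refine (Cardinal.mk_iUnion_le _).trans ?_
    refine (mul_le_mul' ((Cardinal.mk_subtype_le _).trans (card_VS_le hpo))
      (ciSup_le' (fun a => a.2))).trans ?_
    exact (Cardinal.mul_eq_self hμ0).le
  have hC := fun l => exists_code ho (N l) (hN l)
  choose C hC using hC
  -- choose Y
  have hU : #(⋃ l : ULift.{u+1} ℕ, slices (D K0 l.down (C l.down)) : Set (VS o)) ≤ μ := by
    refine (Cardinal.mk_iUnion_le _).trans ?_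
    refine (mul_le_mul' (?_ : _ ≤ μ) (ciSup_le' (fun a => card_slices _))).trans ?_
    · simpa using hμ0
    · exact (Cardinal.mul_eq_self hμ0).le
  obtain ⟨Y, hYX, hYn⟩ : ∃ Y ∈ X, Y ∉ (⋃ l : ULift.{u+1} ℕ, slices (D K0 l.down (C l.down)) : Set (VS o)) := by
    by_contra hcon
    push Not at hcon
    exact absurd ((Cardinal.mk_le_mk_of_subset hcon).trans hU) (not_le.2 hX)
  let R : ℕ → ℕ → VS o := fun i m => if m % 2 = 0 then B (m/2) (i+1)
    else D (sh K0 (i+1)) (m/2) (C (i+1+m/2))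
  obtain ⟨K, hK, hR, Y', hY', hY0⟩ := extendR ho h0 R Y
  have hKB : ∀ m, Thr K (B m) := by
    intro m i
    have := hR i (2*m)
    have e1 : 2 * m % 2 = 0 := by omega
    have e2 : 2 * m / 2 = m := by omega
    simp only [R, e1, e2, if_true] at this
    rw [this]
    exact hB0 m i
  have hKC : ∀ i m, ext (K i) (D (sh K0 (i+1)) m (C (i+1+m))) = D (sh K0 i) (m+1) (C (i+(m+1))) := by
    intro i m
    have := hR i (2*m+1)
    have e1 : ¬ (2 * m + 1) % 2 = 0 := by omega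
    have e2 : (2 * m + 1) / 2 = m := by omega
    simp only [R, e1, e2, if_false] at this
    rw [this]
    show _ = ext (K0 (i+0)) (D (fun j => sh K0 i (j+1)) m _)
    have e3 : (fun j => sh K0 i (j+1)) = sh K0 (i+1) := by
      funext j; unfold sh; congr 1; omega
    have e4 : i + (m+1) = i + 1 + m := by omega
    rw [e3, e4]
    rfl
  have hcl : ∀ i l, Y' i ∉ slices (D (sh K0 i) l (C (i+l))) := by
    intro i
    induction i with
    | zero =>
      intro l hl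
      apply hYn
      rw [Set.mem_iUnion]
      refine ⟨⟨l⟩, ?_⟩
      have e1 : sh K0 0 = K0 := by funext j; unfold sh; rw [zero_add]
      rw [e1, zero_add, hY0] at hl
      exact hl
    | succ i ih =>
      intro l hl
      apply ih (l+1)
      rw [← hKC i l, ← hY' i]
      exact slices_ext (EE_E0 (hK.E i)) hl
  have huniq : ∀ l, Y' l = JJ F (lim p F Y') K l := fun l => JJ_uniq hp hK hY' l
  refine ⟨lim p F Y', ⟨K, loc_of_good hK hKB, ?_⟩, fun l => ?_⟩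
  · rw [← huniq 0, hY0]; exact hYX
  · by_contra hcon
    rw [not_lt] at hcon
    apply hcl l 0
    show Y' l ∈ slices (C (l+0))
    rw [add_zero]
    apply hC l
    rw [Set.mem_iUnion]
    exact ⟨⟨lim p F Y', hcon⟩, K, loc_of_good hK hKB, huniq l⟩

end SOCat
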