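import Pool.Agent.SOCat.P2

namespace SOCat

universe u

open ZFSet Cardinal

variable {o : Ordinal.{u}} {n : ℕ} {p : Ordinal.{u}}
variable {F W : ℕ → VS o} {B : ℕ → ℕ → VS o}

theorem exists_family (hb : Base F W) {a : VS p} {l : ℕ}
    (hbig : #(Sm o) < #(SL n F W B a l)) (I : Type (u+1)) (hI : #(ℕ → I) ≤ #(Sm o)) :
    ∃ (m : ℕ) (fam : I → ℕ → VS o), (∀ β i, Loc n F W B i (fam β i)) ∧
      ∀ β β', β ≠ β' → ∃ t ∈ (W m).1, ¬ (t ∈ (JJ F a (fam β) l).1 ↔ t ∈ (JJ F a (fam β') l).1) := by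
  by_contra hcon
  push Not at hcon
  let R : ℕ → Set (VS o) := fun m => Set.range (fun Z : SL n F W B a l => inter Z.1 (W m))
  have hR : ∀ m, #(R m) ≤ #I := by
    intro m
    rcases le_total #(R m) #I with h | h
    · exact h
    · exfalso
      obtain ⟨g⟩ := (Cardinal.le_def _ _).1 h
      have h1 : ∀ β : I, ∃ K : ℕ → VS o, (∀ i, Loc n F W B i (K i)) ∧
          inter (JJ F a K l) (W m) = (g β).1 := by
        intro β
        obtain ⟨⟨Z, K, hK, hZ⟩, hZ2⟩ := (g β).2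
        exact ⟨K, hK, (congrArg (fun Z => inter Z (W m)) hZ.symm).trans hZ2⟩
      choose fam hf1 hf2 using h1
      obtain ⟨β, β', hne, h2⟩ := hcon m fam hf1
      apply hne
      apply g.injective
      apply Subtype.ext
      rw [← hf2, ← hf2]
      apply vs_ext
      intro z
      rw [mem_inter, mem_inter]
      constructor
      · rintro ⟨h3, h4⟩; exact ⟨(h2 z h4).1 h3, h4⟩
      · rintro ⟨h3, h4⟩; exact ⟨(h2 z h4).2 h3, h4⟩
  have hg : ∀ m, Nonempty (R m ↪ I) := fun m => (Cardinal.le_def _ _).1 (hR m)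
  have hg2 := fun m => Classical.choice (hg m)
  have hle : #(SL n F W B a l) ≤ #(ℕ → I) := by
    have g : ∀ m, R m ↪ I := fun m => Classical.choice (hg m)
    refine Cardinal.mk_le_of_injective (f := fun Z => fun m => g m ⟨inter Z.1 (W m), Z, rfl⟩) ?_
    intro Z Z' h
    apply Subtype.ext
    apply vs_ext
    have h1 : ∀ m, inter Z.1 (W m) = inter Z'.1 (W m) := fun m =>
      congrArg Subtype.val ((g m).injective (congrFun h m))
    intro t
    constructor
    · intro ht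
      obtain ⟨m, hm⟩ := hb.Wcof t ((rank_lt_of_mem ht).trans_le Z.1.2)
      have : t ∈ (inter Z.1 (W m)).1 := (mem_inter _ _ _).2 ⟨ht, hm⟩
      rw [h1 m] at this
      exact ((mem_inter _ _ _).1 this).1
    · intro ht
      obtain ⟨m, hm⟩ := hb.Wcof t ((rank_lt_of_mem ht).trans_le Z'.1.2)
      have : t ∈ (inter Z'.1 (W m)).1 := (mem_inter _ _ _).2 ⟨ht, hm⟩
      rw [← h1 m] at this
      exact ((mem_inter _ _ _).1 this).1
  exact absurd (hle.trans hI) (not_le.2 hbig)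

/-- the tree of images -/
theorem exists_tree (hb : Base F W) {a : VS p}
    (hbig : ∀ l, #(Sm o) < #(SL n F W B a l)) (I : ℕ → Type (u+1))
    (hI : ∀ q, #(ℕ → I q) ≤ #(Sm o)) :
    ∃ (G : (∀ q, I q) → ℕ → VS o) (L M : ℕ → ℕ), StrictMono L ∧
      (∀ y i, Loc n F W B i (G y i)) ∧
      (∀ y y' q m, (∀ r < q, y r = y' r) → m + 1 ≤ L q → ∀ t ∈ (W m).1,
        (t ∈ (JJ F a (G y) 0).1 ↔ t ∈ (JJ F a (G y') 0).1)) ∧
      (∀ y y' q, (∀ r < q, y r = y' r) → y q ≠ y' q → ∃ t ∈ (W (M q)).1,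
        ¬ (t ∈ (JJ F a (G y) 0).1 ↔ t ∈ (JJ F a (G y') 0).1)) := by
  have h1 := fun l q => exists_family hb (hbig l) (I q) (hI q)
  choose mm fa hloc hdiff using h1
  obtain ⟨L, hL0, hL1⟩ : ∃ L : ℕ → ℕ, L 0 = 0 ∧ ∀ q, L (q+1) = L q + (mm (L q) q + 1) :=
    ⟨fun q => Nat.rec (motive := fun _ => ℕ) 0 (fun q l => l + (mm l q + 1)) q, rfl, fun _ => rfl⟩
  have hLm : StrictMono L := strictMono_nat_of_lt_succ (fun q => by rw [hL1]; omega)
  let qi : ℕ → ℕ := fun i : ℕ => Nat.findGreatest (fun q : ℕ => L q ≤ i) i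
  have hqi1 : ∀ i, L (qi i) ≤ i := fun i =>
    Nat.findGreatest_spec (P := fun q => L q ≤ i) (m := 0) (Nat.zero_le i) (by rw [hL0]; exact Nat.zero_le i)
  have hqi : ∀ q i, L q ≤ i → i < L (q+1) → qi i = q := by
    intro q i h2 h3
    apply le_antisymm
    · by_contra h4
      have h5 : q + 1 ≤ qi i := by omega
      have h6 := hLm.monotone h5
      have h7 := hqi1 i
      omega
    · exact Nat.le_findGreatest (P := fun q => L q ≤ i) (hLm.le_apply.trans h2) h2
  have hqlt : ∀ q i, i < L q → qi i < q := by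
    intro q i h2
    by_contra h3
    have h4 := hLm.monotone (not_lt.1 h3)
    have h5 := hqi1 i
    omega
  let G : (∀ q, I q) → ℕ → VS o := fun y i => fa (L (qi i)) (qi i) (y (qi i)) i
  have hG : ∀ y i, Loc n F W B i (G y i) := fun y i => hloc _ _ _ i
  have hGg : ∀ y, Good n (G y) F W := fun y => good_of_loc hb (hG y)
  have hagree : ∀ (y y' : ∀ q, I q) q, (∀ r < q, y r = y' r) → ∀ i < L q, G y i = G y' i := by
    intro y y' q h2 i hi
    show fa _ _ (y (qi i)) i = fa _ _ (y' (qi i)) i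
    rw [h2 _ (hqlt q i hi)]
  refine ⟨G, L, fun q => mm (L q) q + L q, hLm, hG, ?_, ?_⟩
  · intro y y' q m h2 h3 t ht
    exact JJ_agree (hGg y) (hGg y') 0 m (fun i _ hi => hagree y y' q h2 i (by omega)) ht
  · intro y y' q h2 h3
    by_contra hcon
    push Not at hcon
    have h4 := JJ_diff (hGg y) (hGg y') (L q) (mm (L q) q) (hagree y y' q h2) hcon
    obtain ⟨t, ht, ht2⟩ := hdiff (L q) q (y q) (y' q) h3
    apply ht2
    have e1 : ∀ z : ∀ q, I q, ∀ i, L q ≤ i → i < L q + (mm (L q) q + 1) →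
        G z i = fa (L q) q (z q) i := by
      intro z i h5 h6
      have := hqi q i h5 (by rw [hL1]; exact h6)
      show fa (L (qi i)) (qi i) (z (qi i)) i = _
      rw [this]
    rw [← JJ_agree (hGg y) (good_of_loc hb (hloc (L q) q (y q))) (L q) (mm (L q) q) (e1 y) ht,
      ← JJ_agree (hGg y') (good_of_loc hb (hloc (L q) q (y' q))) (L q) (mm (L q) q) (e1 y') ht]
    exact h4 t ht

end SOCat
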