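import Pool.Agent.SOCat.I1card

namespace SOCat

universe u

open ZFSet Cardinal

section comb

variable {o : Ordinal.{u}} {κ : ℕ → Ordinal.{u}}

/-- a continuous coding of `ω`-sequences below `o` by elements of `∏ κ q` -/
theorem exists_coding (ho : Lim o) (hmono : StrictMono κ) (hsup : ∀ a < o, ∃ n, a < κ n)
    (hpos : 0 < κ 0) :
    ∃ e : (ℕ → Set.Iio o) → ∀ q : ℕ, Set.Iio (κ q),
      (∀ x x' q, (∀ k < q, x k = x' k) → ∀ i < q, e x i = e x' i) ∧
      (∀ x n, ∃ Q, ∀ x', (∀ i < Q, e x' i = e x i) → ∀ k < n, x' k = x k) := by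
  classical
  have hex : ∀ (P : ℕ) (a : Set.Iio o), ∃ q, P ≤ q ∧ a.1 + 1 < κ q := by
    intro P a
    obtain ⟨n, hn⟩ := hsup _ (ho.2 _ a.2)
    exact ⟨max P n, le_max_left _ _, hn.trans_le (hmono.monotone (le_max_right _ _))⟩
  choose nx hnx1 hnx2 using hex
  have hpex : ∃ pos : (ℕ → Set.Iio o) → ℕ → ℕ, (∀ x, pos x 0 = nx 0 (x 0)) ∧
      ∀ x r, pos x (r+1) = nx (pos x r + 1) (x (r+1)) :=
    ⟨fun x r => Nat.rec (motive := fun _ => ℕ) (nx 0 (x 0)) (fun r P => nx (P+1) (x (r+1))) r,
      fun _ => rfl, fun _ _ => rfl⟩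
  obtain ⟨pos, hp0, hp1⟩ := hpex
  have hpm : ∀ x, StrictMono (pos x) := fun x => strictMono_nat_of_lt_succ (fun r => by
    rw [hp1]
    exact Nat.lt_of_succ_le (hnx1 _ _))
  have hpk : ∀ x r, (x r).1 + 1 < κ (pos x r) := by
    intro x r
    cases r with
    | zero => rw [hp0]; exact hnx2 _ _
    | succ r => rw [hp1]; exact hnx2 _ _
  have hpc : ∀ x x' r, (∀ k ≤ r, x k = x' k) → pos x r = pos x' r := by
    intro x x' r
    induction r with
    | zero => intro h; rw [hp0, hp0, h 0 le_rfl]
    | succ r ih =>
      intro h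
      rw [hp1, hp1, ih (fun k hk => h k (by omega)), h (r+1) le_rfl]
  have hkpos : ∀ q, 0 < κ q := fun q => hpos.trans_le (hmono.monotone (Nat.zero_le q))
  let e : (ℕ → Set.Iio o) → ∀ q : ℕ, Set.Iio (κ q) := fun x q =>
    if h : ∃ r, pos x r = q then ⟨(x h.choose).1 + 1, by
      have h1 := hpk x h.choose
      rw [h.choose_spec] at h1
      exact h1⟩ else ⟨0, hkpos q⟩
  have he1 : ∀ x r, (e x (pos x r)).1 = (x r).1 + 1 := by
    intro x r
    have h : ∃ r', pos x r' = pos x r := ⟨r, rfl⟩
    have h2 : h.choose = r := (hpm x).injective h.choose_spec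
    simp only [e, dif_pos h]
    rw [h2]
  have he0 : ∀ x q, (¬ ∃ r, pos x r = q) → (e x q).1 = 0 := by
    intro x q h
    simp only [e, dif_neg h]
  have hne : ∀ a : Ordinal.{u}, a + 1 ≠ 0 := fun a => (Order.succ_ne_bot a)
  refine ⟨e, ?_, ?_⟩
  · have key : ∀ x x' q, (∀ k < q, x k = x' k) → ∀ i < q, (∃ r, pos x r = i) → e x i = e x' i := by
      intro x x' q h i hi hr
      obtain ⟨r, rfl⟩ := hr
      have hr : r ≤ pos x r := (hpm x).le_apply
      have h2 : pos x r = pos x' r := hpc x x' r (fun k hk => h k (by omega))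
      apply Subtype.ext
      rw [he1]
      have h3 : ∀ q', pos x r = q' → (e x' q').1 = (e x' (pos x r)).1 := by
        rintro q' rfl; rfl
      rw [← h3 _ h2, he1, h r (by omega)]
    intro x x' q h i hi
    by_cases h1 : ∃ r, pos x r = i
    · exact key x x' q h i hi h1
    · by_cases h2 : ∃ r, pos x' r = i
      · exact (key x' x q (fun k hk => (h k hk).symm) i hi h2).symm
      · apply Subtype.ext
        rw [he0 x i h1, he0 x' i h2]
  · intro x n
    have key : ∀ r, ∀ x', (∀ i ≤ pos x r, e x' i = e x i) → ∀ k ≤ r, x' k = x k := by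
      intro r
      induction r using Nat.strong_induction_on with
      | _ r ih =>
      intro x' hx' k hk
      have hlt : ∀ k < r, x' k = x k := by
        intro k hk
        exact ih k hk x' (fun i hi => hx' i (hi.trans ((hpm x).monotone hk.le))) k le_rfl
      rcases Nat.lt_or_eq_of_le hk with hk | rfl
      · exact hlt k hk
      have hposk : ∀ s < k, pos x' s = pos x s := fun s hs =>
        hpc x' x s (fun t ht => hlt t (by omega))
      have h1 : (e x' (pos x k)).1 = (x k).1 + 1 := by
        rw [hx' _ le_rfl, he1]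
      have h2 : ∃ r', pos x' r' = pos x k := by
        by_contra h2
        rw [he0 x' _ h2] at h1
        exact hne _ h1.symm
      obtain ⟨r', hr'⟩ := h2
      have h3 : r' = k := by
        rcases lt_trichotomy r' k with h3 | h3 | h3
        · rw [hposk r' h3] at hr'
          exact (hpm x).injective hr'
        · exact h3
        · exfalso
          have h4 : pos x' k < pos x k := by rw [← hr']; exact hpm x' h3
          have h5 : (e x (pos x' k)).1 = (x' k).1 + 1 := by
            rw [← hx' _ h4.le, he1]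
          have h6 : ∃ s, pos x s = pos x' k := by
            by_contra h6
            rw [he0 x _ h6] at h5
            exact hne _ h5.symm
          obtain ⟨s, hs⟩ := h6
          have h7 : s < k := by
            rw [← hs] at h4
            exact (hpm x).lt_iff_lt.1 h4
          rw [← hposk s h7] at hs
          exact absurd ((hpm x').injective hs) (by omega)
      subst h3
      rw [← hr', he1] at h1
      apply Subtype.ext
      have h8 : Order.succ (x' r').1 = Order.succ (x r').1 := h1
      exact Order.succ_injective h8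
    refine ⟨pos x n + 1, fun x' hx' k hk => key n x' (fun i hi => hx' i (by omega)) k hk.le⟩

end comb

end SOCat
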