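import Pool.Agent.SOCat.P4

namespace SOCat

universe u

open ZFSet Cardinal

variable {o : Ordinal.{u}} {j : VS o → VS o} {κ : ℕ → Ordinal.{u}}

/-- a good system with threads for given parameters -/
theorem Wit.sys (w : Wit j κ) (n : ℕ) (a : ℕ → VS o) : ∃ (k F : ℕ → VS o) (p : Ordinal.{u}),
    p < o ∧ (∀ x : ZFSet.{u}, x.rank < p ↔ ∃ i, x ∈ (F i).1) ∧ Good n k F w.W ∧
      ∃ X : ℕ → ℕ → VS o, (∀ m, Thr k (X m)) ∧ ∀ m, X m 0 = a m := by
  obtain ⟨k, F, p, hpo, _, hp, hG⟩ := w.init (n+1)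
  let e : VS o := ⟨∅, by rw [ZFSet.rank_empty]; exact zero_le⟩
  obtain ⟨k', hk', _, Y', hY', hY0⟩ := extend w.lim hG (fun _ _ => e)
    (fun m i => Subtype.ext (ext_empty (EE_E0 (hG.E i)) rfl)) (fam a)
  refine ⟨k', F, p, hpo, hp, hk', fun m i => slice (tag m) (Y' i), ?_, ?_⟩
  · intro m i
    apply vs_ext
    intro x
    have := ext_slice (EE_E0 (hk'.E i)) (t := tagv w.lim m) (C := Y' (i+1))
      (S := slice (tag m) (Y' (i+1))) (mem_slice (tag m) (Y' (i+1))) x
    rw [this, ext_tag w.lim (EE_E0 (hk'.E i)), hY' i]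
    exact (mem_slice (tag m) (Y' i) x).symm
  · intro m
    apply vs_ext
    intro x
    show x ∈ (slice (tag m) (Y' 0)).1 ↔ _
    rw [mem_slice, hY0, mem_fam w.lim]

/-- the perfect set theorem, metric form -/
theorem IsI1Emb.perfect (h : IsI1Emb j κ) (φ : Fml) (b : ℕ → VS o)
    (hX : #(Set.Iio o) < #({A : VS o | A.1 ⊆ o.toZFSet ∧ Sat φ (cons A b)} : Set (VS o))) :
    ∃ ι : (ℕ → Set.Iio o) → VS o, (∀ x, (ι x).1 ⊆ o.toZFSet ∧ Sat φ (cons (ι x) b)) ∧
      (∀ x, ∀ η < o, ∃ n : ℕ, ∀ x', (∀ k < n, x' k = x k) →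
        ∀ t ∈ η.toZFSet, (t ∈ (ι x').1 ↔ t ∈ (ι x).1)) ∧
      (∀ x (n : ℕ), ∃ η < o, ∀ x', (∀ t ∈ η.toZFSet, (t ∈ (ι x').1 ↔ t ∈ (ι x).1)) →
        ∀ k < n, x' k = x k) := by
  have w := h.wit
  have ho := h.lim
  -- the formula
  let L : VS o := IsI1Emb.xo o le_rfl
  obtain ⟨ψ1, hψ1⟩ := d_Sub.{u} 0 1
  let ψ : Fml := .and ψ1 (ren (fun n => if n = 0 then 0 else n + 1) φ)
  have hψ : ∀ A : VS o, Sat ψ (cons A (cons L b)) ↔ A.1 ⊆ o.toZFSet ∧ Sat φ (cons A b) := by
    intro A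
    show Sat ψ1 _ ∧ Sat (ren _ φ) _ ↔ _
    rw [hψ1, sat_ren]
    have e1 : (fun n => cons A (cons L b) (if n = 0 then 0 else n + 1)) = cons A b := by
      funext n
      cases n with
      | zero => rfl
      | succ n => rfl
    rw [e1]
    exact and_congr sub_iff Iff.rfl
  obtain ⟨K0, F, p, hpo, hp, hK0, B, hB, hB0⟩ := w.sys (qr ψ + 1) (cons L b)
  have hbase : Base F w.W := ⟨hK0.trans, hK0.mono, hK0.Wtr, hK0.Wcof⟩
  rw [← h.card_Sm] at hX
  obtain ⟨a, ⟨K, hK, hKX⟩, hbig⟩ := exists_abar ho hpo hp _ hX hK0 hB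
  obtain ⟨G, L', M, hLm, hG, hcont, hinv⟩ := exists_tree hbase hbig (fun q => Set.Iio (κ q))
    h.card_seq
  have hpos : 0 < κ 0 := by simpa using h.nat_lt 0
  obtain ⟨e, he1, he2⟩ := exists_coding (κ := κ) ho w.mono w.cof hpos
  -- membership
  have hmem : ∀ K' : ℕ → VS o, (∀ i, Loc (qr ψ) F w.W B i (K' i)) →
      (Sat ψ (cons (JJ F a K' 0) (cons L b)) ↔
        Sat ψ (cons a (fun m => SOCat.lim p F (B m)))) := by
    intro K' hK'
    have hg := good_of_loc hbase hK'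
    have h1 := reflect ho F w.W hp ψ (qr ψ) le_rfl K' hg (cons (JJ F a K') B) (by
      intro m
      cases m with
      | zero => exact JJ_thr hg
      | succ m => exact fun i => (hK' i).thr m)
    have e1 : (fun m => (cons (JJ F a K') B) m 0) = cons (JJ F a K' 0) (cons L b) := by
      funext m
      cases m with
      | zero => rfl
      | succ m => exact hB0 m
    have e2 : (fun m => SOCat.lim p F ((cons (JJ F a K') B) m)) =
        cons a (fun m => SOCat.lim p F (B m)) := by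
      funext m
      cases m with
      | zero => exact JJ_lim hp hg
      | succ m => rfl
    rw [e1, e2] at h1
    exact h1
  have hsat : Sat ψ (cons a (fun m => SOCat.lim p F (B m))) := by
    rw [← hmem K hK, hψ]
    exact hKX
  have hX2 : ∀ y, (JJ F a (G y) 0).1 ⊆ o.toZFSet ∧ Sat φ (cons (JJ F a (G y) 0) b) := by
    intro y
    rw [← hψ, hmem (G y) (hG y)]
    exact hsat
  have hW : ∀ (m : ℕ) (t : ZFSet.{u}), t ∈ (w.W m).1 ↔ t.rank < κ m := fun m t =>
    ZFSet.mem_vonNeumann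
  refine ⟨fun x => JJ F a (G (e x)) 0, fun x => hX2 _, ?_, ?_⟩
  · intro x η hη
    obtain ⟨m, hm⟩ := w.cof η hη
    refine ⟨m + 1, fun x' hx' t ht => ?_⟩
    have h1 : t ∈ (w.W m).1 := by
      rw [hW]
      obtain ⟨c, hc, rfl⟩ := Ordinal.mem_toZFSet_iff.1 ht
      rw [Ordinal.rank_toZFSet]
      exact hc.trans hm
    exact hcont (e x') (e x) (m+1) m (he1 x' x (m+1) hx') hLm.le_apply t h1
  · intro x n
    obtain ⟨Q, hQ⟩ := he2 x n
    -- bound for the levels
    obtain ⟨MM, hMM⟩ : ∃ MM : ℕ, ∀ q < Q, M q ≤ MM := by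
      refine ⟨(Finset.range Q).sup M, fun q hq => Finset.le_sup (Finset.mem_range.2 hq)⟩
    refine ⟨κ MM, w.lt MM, fun x' hx' => hQ x' ?_⟩
    have hx2 : ∀ t ∈ (w.W MM).1, (t ∈ (JJ F a (G (e x')) 0).1 ↔ t ∈ (JJ F a (G (e x)) 0).1) := by
      intro t ht
      rw [hW] at ht
      have key : t ∈ o.toZFSet → t ∈ (κ MM).toZFSet := by
        intro h1
        obtain ⟨c, hc, rfl⟩ := Ordinal.mem_toZFSet_iff.1 h1
        rw [Ordinal.rank_toZFSet] at ht
        exact Ordinal.toZFSet_mem_toZFSet_iff.2 ht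
      constructor
      · intro h1; exact (hx' t (key ((hX2 _).1 h1))).1 h1
      · intro h1; exact (hx' t (key ((hX2 _).1 h1))).2 h1
    have hfin : ∀ q ≤ Q, ∀ i < q, e x' i = e x i := by
      intro q
      induction q with
      | zero => intro _ i hi; omega
      | succ q ih =>
        intro hq i hi
        have hprev := ih (by omega)
        rcases Nat.lt_or_eq_of_le (Nat.le_of_lt_succ hi) with hi | rfl
        · exact hprev i hi
        · by_contra hne
          obtain ⟨t, ht, ht2⟩ := hinv (e x') (e x) i hprev hne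
          apply ht2
          apply hx2 t
          rw [hW] at ht ⊢
          exact ht.trans_le (w.mono.monotone (hMM i (by omega)))
    exact fun i hi => hfin Q le_rfl i hi

end SOCat
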