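import Pool.Agent.SOCat.P5
import Pool.Agent.SOCat.Down

namespace SOCat

universe u

open ZFSet Cardinal

variable {o : Ordinal.{u}}

theorem sm_iff {x : VS o} : sm x ↔ x.1.rank < o := by
  constructor
  · rintro ⟨y, hy⟩
    exact (ZFSet.rank_lt_of_mem hy).trans_le y.2
  · intro h
    refine ⟨⟨{x.1}, ?_⟩, ZFSet.mem_singleton.2 rfl⟩
    rw [ZFSet.rank_singleton]
    exact Order.succ_le_of_lt h

/-- translation of second-order formulas over `V_o` to formulas over `V_{o+1}` -/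
def SRF : ∀ (_ : SF) {o : Ordinal.{u}}, (ℕ → VS o) → Prop
  | .mem x y, _, w => (w (2*x)).1 ∈ (w (2*y)).1
  | .eq x y, _, w => w (2*x) = w (2*y)
  | .inn x A, _, w => (w (2*x)).1 ∈ (w (2*A+1)).1
  | .neg φ, _, w => ¬ SRF φ w
  | .and φ ψ, _, w => SRF φ w ∧ SRF ψ w
  | .all x φ, o, w => ∀ a : VS o, sm a → SRF φ (Function.update w (2*x) a)
  | .allS A φ, o, w => ∀ a : VS o, SRF φ (Function.update w (2*A+1) a)

theorem d_SRF : ∀ φ : SF, Dfn.{u} fun _ w => SRF φ w
  | .mem _ _ => Dfn.mem _ _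
  | .eq _ _ => Dfn.eq _ _
  | .inn _ _ => Dfn.mem _ _
  | .neg φ => (d_SRF φ).not
  | .and φ ψ => (d_SRF φ).and (d_SRF ψ)
  | .all x φ => by
    obtain ⟨ψ, hψ⟩ := ((d_sm (2*x)).imp (d_SRF φ)).allU (2*x)
    refine ⟨ψ, fun o v => ?_⟩
    rw [hψ]
    simp only [Function.update_self]
    rfl
  | .allS _ φ => (d_SRF φ).allU _

theorem SRF_iff (φ : SF) : ∀ (w : ℕ → VS o) (v : ℕ → Sm o) (W : ℕ → VS o),
    (∀ x, (w (2*x)).1 = (v x).1) → (∀ A, w (2*A+1) = W A) → (SRF φ w ↔ φ.Sat v W) := by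
  induction φ with
  | mem x y =>
    intro w v W h1 _
    show (w (2*x)).1 ∈ (w (2*y)).1 ↔ (v x).1 ∈ (v y).1
    rw [h1, h1]
  | eq x y =>
    intro w v W h1 _
    show w (2*x) = w (2*y) ↔ v x = v y
    rw [Subtype.ext_iff, Subtype.ext_iff, h1, h1]
  | inn x A =>
    intro w v W h1 h2
    show (w (2*x)).1 ∈ (w (2*A+1)).1 ↔ (v x).1 ∈ (W A).1
    rw [h1, h2]
  | neg φ ih => intro w v W h1 h2; exact not_congr (ih w v W h1 h2)
  | and φ ψ ih1 ih2 =>
    intro w v W h1 h2
    exact and_congr (ih1 w v W h1 h2) (ih2 w v W h1 h2)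
  | all x φ ih =>
    intro w v W h1 h2
    have key : ∀ (a : VS o) (ha : a.1.rank < o), (SRF φ (Function.update w (2*x) a) ↔
        φ.Sat (Function.update v x ⟨a.1, ha⟩) W) := by
      intro a ha
      apply ih
      · intro y
        by_cases hy : y = x
        · subst hy; rw [Function.update_self, Function.update_self]
        · rw [Function.update_of_ne (by omega), Function.update_of_ne hy, h1]
      · intro A
        rw [Function.update_of_ne (by omega), h2]
    constructor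
    · intro hs a
      exact (key ⟨a.1, a.2.le⟩ a.2).1 (hs ⟨a.1, a.2.le⟩ (sm_iff.2 a.2))
    · intro hs a ha
      rw [sm_iff] at ha
      exact (key a ha).2 (hs _)
  | allS A φ ih =>
    intro w v W h1 h2
    have key : ∀ (a : VS o), (SRF φ (Function.update w (2*A+1) a) ↔
        φ.Sat v (Function.update W A a)) := by
      intro a
      apply ih
      · intro y
        rw [Function.update_of_ne (by omega), h1]
      · intro A'
        by_cases hA : A' = A
        · subst hA; rw [Function.update_self, Function.update_self]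
        · rw [Function.update_of_ne (by omega), Function.update_of_ne hA, h2]
    exact forall_congr' key

/-- a second-order formula with parameters is a first-order formula over `V_{o+1}` with
parameters -/
theorem SF_to_Fml (ψ : SF) (v : ℕ → Sm o) (B : ℕ → VS o) :
    ∃ (φ : Fml) (b : ℕ → VS o), ∀ A : VS o, Sat φ (cons A b) ↔ ψ.Sat v (cons A B) := by
  obtain ⟨φ0, hφ0⟩ := d_SRF.{u} ψ
  let b : ℕ → VS o := fun n => if n % 2 = 0 then ⟨(v (n/2)).1, (v (n/2)).2.le⟩ else B (n/2 - 1)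
  refine ⟨ren (fun n => if n = 1 then 0 else n + 1) φ0, b, fun A => ?_⟩
  rw [sat_ren, hφ0]
  apply SRF_iff
  · intro x
    have e1 : 2 * x ≠ 1 := by omega
    have e2 : 2 * x % 2 = 0 := by omega
    have e3 : 2 * x / 2 = x := by omega
    simp only [if_neg e1]
    show (b (2*x)).1 = _
    simp only [b, e2, e3, if_true]
  · intro x
    cases x with
    | zero => rfl
    | succ x =>
      have e1 : 2 * (x+1) + 1 ≠ 1 := by omega
      have e2 : ¬ (2 * (x+1) + 1) % 2 = 0 := by omega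
      have e3 : (2 * (x+1) + 1) / 2 - 1 = x := by omega
      simp only [if_neg e1]
      show b (2*(x+1)+1) = B x
      simp only [b, e2, e3, if_false]

theorem isPerfect_of_metric (ι : (ℕ → Set.Iio o) → Pow o)
    (hcont : ∀ x, ∀ η < o, ∃ n : ℕ, ∀ x', (∀ k < n, x' k = x k) →
        ∀ t ∈ η.toZFSet, (t ∈ (ι x').1.1 ↔ t ∈ (ι x).1.1))
    (hinv : ∀ x (n : ℕ), ∃ η < o, ∀ x', (∀ t ∈ η.toZFSet, (t ∈ (ι x').1.1 ↔ t ∈ (ι x).1.1)) →
        ∀ k < n, x' k = x k) : IsPerfectEmbedding ι := by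
  have hinj : Function.Injective ι := by
    intro x x' hxx
    funext k
    obtain ⟨η, _, h⟩ := hinv x' (k+1)
    exact h x (fun t _ => by rw [hxx]) k (by omega)
  refine @Topology.IsEmbedding.mk _ _ (seqTop o) (powTop o) ι
    (@Topology.IsInducing.mk _ _ (seqTop o) (powTop o) ι ?_) hinj
  apply le_antisymm
  · rw [← continuous_iff_le_induced]
    apply continuous_generateFrom_iff.2
    rintro s ⟨η, hη, a, _, rfl⟩
    refine (@isOpen_iff_forall_mem_open _ (seqTop o) _).2 ?_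
    intro x hx
    obtain ⟨n, hn⟩ := hcont x η hη
    refine ⟨{x' | ∀ k : Fin n, x' k = x k}, ?_, ?_, fun k => rfl⟩
    · intro x' hx'
      show (ι x').1.1 ∩ η.toZFSet = a
      have hx2 : (ι x).1.1 ∩ η.toZFSet = a := hx
      rw [← hx2]
      ext t
      rw [ZFSet.mem_inter, ZFSet.mem_inter]
      constructor
      · rintro ⟨h1, h2⟩
        exact ⟨(hn x' (fun k hk => hx' ⟨k, hk⟩) t h2).1 h1, h2⟩
      · rintro ⟨h1, h2⟩
        exact ⟨(hn x' (fun k hk => hx' ⟨k, hk⟩) t h2).2 h1, h2⟩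
    · exact TopologicalSpace.isOpen_generateFrom_of_mem ⟨n, fun k => x k, rfl⟩
  · apply le_generateFrom
    rintro U ⟨n, s, rfl⟩
    have h1 := fun x => hinv x n
    choose η hη hx using h1
    refine ⟨⋃ x ∈ {x : ℕ → Set.Iio o | ∀ k : Fin n, x k = s k},
      {y : Pow o | y.1.1 ∩ (η x).toZFSet = (ι x).1.1 ∩ (η x).toZFSet}, ?_, ?_⟩
    · apply @isOpen_biUnion _ _ (powTop o)
      intro x _
      exact TopologicalSpace.isOpen_generateFrom_of_mem ⟨η x, hη x, _,
        fun t ht => (ZFSet.mem_inter.1 ht).2, rfl⟩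
    · ext x'
      rw [Set.mem_preimage, Set.mem_iUnion₂]
      constructor
      · rintro ⟨x, hxs, hx'⟩
        have h2 : ∀ t ∈ (η x).toZFSet, (t ∈ (ι x').1.1 ↔ t ∈ (ι x).1.1) := by
          intro t ht
          have h3 : t ∈ (ι x').1.1 ∩ (η x).toZFSet ↔ t ∈ (ι x).1.1 ∩ (η x).toZFSet := by
            have : (ι x').1.1 ∩ (η x).toZFSet = (ι x).1.1 ∩ (η x).toZFSet := hx'
            rw [this]
          rw [ZFSet.mem_inter, ZFSet.mem_inter] at h3
          constructor
          · intro h4; exact (h3.1 ⟨h4, ht⟩).1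
          · intro h4; exact (h3.2 ⟨h4, ht⟩).1
        have h4 := hx x x' h2
        intro k
        rw [h4 k k.2]
        exact hxs k
      · intro hx'
        exact ⟨x', hx', rfl⟩

/-- perfect set theorem for sets that are first-order definable over `V_{o+1}` -/
theorem IsI1Emb.perfectFml {j : VS o → VS o} {κ : ℕ → Ordinal.{u}} (h : IsI1Emb j κ)
    (φ : Fml) (b : ℕ → VS o) (X : Set (Pow o)) (hXd : ∀ A : Pow o, A ∈ X ↔ Sat φ (cons A.1 b))
    (hX : Cardinal.lift.{u+1} o.card < #X) :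
    ∃ ι : (ℕ → Set.Iio o) → Pow o, IsPerfectEmbedding ι ∧ Set.range ι ⊆ X := by
  rw [← Cardinal.mk_Iio_ordinal] at hX
  have hle : #X ≤ #({A : VS o | A.1 ⊆ o.toZFSet ∧ Sat φ (cons A b)} : Set (VS o)) := by
    refine Cardinal.mk_le_of_injective (f := fun A => ⟨A.1.1, A.1.2, (hXd A.1).1 A.2⟩) ?_
    intro A A' hA
    exact Subtype.ext (Subtype.ext (Subtype.mk.inj hA))
  obtain ⟨ι, h1, h2, h3⟩ := h.perfect φ b (hX.trans_le hle)
  refine ⟨fun x => ⟨ι x, (h1 x).1⟩, isPerfect_of_metric _ h2 h3, ?_⟩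
  rintro _ ⟨x, rfl⟩
  exact (hXd _).2 (h1 x).2

/-- perfect set theorem for `Σ^1_n` sets -/
theorem IsI1Emb.perfectSigma {j : VS o → VS o} {κ : ℕ → Ordinal.{u}} (h : IsI1Emb j κ)
    (n : ℕ) (X : Set (Pow o)) (hXd : SigmaDef n X) (hX : Cardinal.lift.{u+1} o.card < #X) :
    ∃ ι : (ℕ → Set.Iio o) → Pow o, IsPerfectEmbedding ι ∧ Set.range ι ⊆ X := by
  obtain ⟨ψ, _, v, B, rfl⟩ := hXd
  obtain ⟨φ, b, hφ⟩ := SF_to_Fml ψ v B
  exact h.perfectFml φ b _ (fun A => (hφ A.1).symm) hX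

end SOCat
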