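import Pool.Agent.SOCat.S1Defs
import Pool.Agent.SOCat.PSTop

/-!
# Absoluteness and the Löwenheim–Skolem argument
-/

namespace SOCat

universe u v w

open FirstOrder Cardinal

section absoluteness
variable {M : Type v} {N : Type w} {R : M → M → Prop} {R' : N → N → Prop}

/-- `f` embeds `(M, R)` onto a downward closed substructure of `(N, R')` -/
structure IniEmb (R : M → M → Prop) (R' : N → N → Prop) (f : M → N) : Prop where
  inj : Function.Injective f
  rel : ∀ a b, R a b ↔ R' (f a) (f b)
  dc : ∀ b x, R' x (f b) → ∃ a, f a = x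

theorem cons_comp (f : M → N) (a : M) (v : ℕ → M) :
    (fun n => f (cons a v n)) = cons (f a) (fun n => f (v n)) := by
  funext n
  cases n <;> rfl

theorem D0.sat_ini {f : M → N} (hf : IniEmb R R' f) (φ : D0) : ∀ v : ℕ → M,
    (φ.Sat R v ↔ φ.Sat R' (fun n => f (v n))) := by
  induction φ with
  | mem i j => intro v; exact hf.rel _ _
  | eq i j => intro v; exact hf.inj.eq_iff.symm
  | neg φ ih => intro v; exact not_congr (ih v)
  | and φ ψ ih1 ih2 => intro v; exact and_congr (ih1 v) (ih2 v)
  | ball i φ ih =>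
    intro v
    constructor
    · intro h x hx
      obtain ⟨a, rfl⟩ := hf.dc _ _ hx
      rw [← cons_comp, ← ih]
      exact h a ((hf.rel _ _).2 hx)
    · intro h a ha
      rw [ih, cons_comp]
      exact h _ ((hf.rel _ _).1 ha)

theorem S1.sat_up {f : M → N} (hf : IniEmb R R' f) (φ : S1) : ∀ v : ℕ → M,
    φ.Sat R v → φ.Sat R' (fun n => f (v n)) := by
  induction φ with
  | base φ => intro v; exact (φ.sat_ini hf v).1
  | ex φ ih =>
    rintro v ⟨x, hx⟩
    refine ⟨f x, ?_⟩
    rw [← cons_comp]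
    exact ih _ hx

theorem S1.sat_iso {f : M → N} (hf : IniEmb R R' f) (hs : Function.Surjective f) (φ : S1) :
    ∀ v : ℕ → M, φ.Sat R v ↔ φ.Sat R' (fun n => f (v n)) := by
  induction φ with
  | base φ => intro v; exact (φ.sat_ini hf v)
  | ex φ ih =>
    intro v
    constructor
    · rintro ⟨x, hx⟩
      refine ⟨f x, ?_⟩
      rw [← cons_comp, ← ih]
      exact hx
    · rintro ⟨y, hy⟩
      obtain ⟨x, rfl⟩ := hs y
      refine ⟨x, ?_⟩
      rw [ih, cons_comp]
      exact hy

end absoluteness

/-- truth of a formula in a structure `(M, R)` -/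
def GSat {M : Type v} (R : M → M → Prop) : Fml → (ℕ → M) → Prop
  | .mem i j, v => R (v i) (v j)
  | .eq i j, v => v i = v j
  | .neg φ, v => ¬ GSat R φ v
  | .and φ ψ, v => GSat R φ v ∧ GSat R ψ v
  | .all φ, v => ∀ a : M, GSat R φ (cons a v)

def D0.toF : D0 → Fml
  | .mem i j => .mem i j
  | .eq i j => .eq i j
  | .neg φ => .neg φ.toF
  | .and φ ψ => .and φ.toF ψ.toF
  | .ball i φ => .all (.neg (.and (.mem 0 (i+1)) (.neg φ.toF)))

theorem D0.toF_iff {M : Type v} (R : M → M → Prop) (φ : D0) : ∀ v : ℕ → M,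
    (GSat R φ.toF v ↔ φ.Sat R v) := by
  induction φ with
  | mem i j => intro v; exact Iff.rfl
  | eq i j => intro v; exact Iff.rfl
  | neg φ ih => intro v; exact not_congr (ih v)
  | and φ ψ ih1 ih2 => intro v; exact and_congr (ih1 v) (ih2 v)
  | ball i φ ih =>
    intro v
    apply forall_congr'
    intro a
    show ¬ (R a (v i) ∧ ¬ GSat R φ.toF (cons a v)) ↔ _
    rw [ih]
    tauto

def S1.toF : S1 → Fml
  | .base φ => φ.toF
  | .ex φ => .neg (.all (.neg φ.toF))

theorem S1.toF_iff {M : Type v} (R : M → M → Prop) (φ : S1) : ∀ v : ℕ → M,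
    (GSat R φ.toF v ↔ φ.Sat R v) := by
  induction φ with
  | base φ => intro v; exact φ.toF_iff R v
  | ex φ ih =>
    intro v
    show (¬ ∀ a, ¬ GSat R φ.toF (cons a v)) ↔ ∃ x, φ.Sat R (cons x v)
    simp only [ih]
    push Not
    rfl

/-- equality of the extensions of the variables `0` and `1` -/
def extF : Fml := .all (.and (.neg (.and (.mem 0 1) (.neg (.mem 0 2))))
  (.neg (.and (.mem 0 2) (.neg (.mem 0 1)))))

theorem extF_iff {M : Type v} (R : M → M → Prop) (v : ℕ → M) :
    GSat R extF v ↔ ∀ x, R x (v 0) ↔ R x (v 1) := by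
  apply forall_congr'
  intro a
  show (¬ (R a (v 0) ∧ ¬ R a (v 1)) ∧ ¬ (R a (v 1) ∧ ¬ R a (v 0))) ↔ _
  tauto

/-- `(M, R)` as a structure -/
@[reducible] def relStr {M : Type v} (R : M → M → Prop) : Language.order.Structure M where
  funMap := fun f => nomatch f
  RelMap := fun {n} r => match n, r with
    | 2, .le => fun x => R (x 0) (x 1)

/-- translation to Mathlib's formulas -/
def Fml.toL : Fml → Language.order.Formula ℕ
  | .mem i j => Language.Relations.formula₂ (L := Language.order) Language.leSymb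
      (Language.Term.var i) (Language.Term.var j)
  | .eq i j => Language.Term.equal (Language.Term.var i) (Language.Term.var j)
  | .neg φ => φ.toL.not
  | .and φ ψ => φ.toL ⊓ ψ.toL
  | .all φ => Language.BoundedFormula.all
      ((Language.BoundedFormula.relabel (n := 1) (k := 0)
        (fun i : ℕ => (match i with
          | 0 => Sum.inr 0
          | i + 1 => Sum.inl i : ℕ ⊕ Fin 1)) φ.toL))

theorem Fml.toL_iff {M : Type v} [Language.order.Structure M] (φ : Fml) : ∀ v : ℕ → M,
    φ.toL.Realize v ↔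
      GSat (fun a b => Language.Structure.RelMap (L := Language.order) Language.leSymb ![a, b])
        φ v := by
  induction φ with
  | mem i j =>
    intro v
    show (Language.Relations.formula₂ (L := Language.order) Language.leSymb
      (Language.Term.var i) (Language.Term.var j)).Realize v ↔ _
    rw [Language.Formula.realize_rel₂]
    exact Iff.rfl
  | eq i j =>
    intro v
    show (Language.Term.equal (Language.Term.var i) (Language.Term.var j)).Realize v ↔ _
    rw [Language.Formula.realize_equal]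
    exact Iff.rfl
  | neg φ ih =>
    intro v
    show (φ.toL.not).Realize v ↔ _
    rw [Language.Formula.realize_not, ih]
    exact Iff.rfl
  | and φ ψ ih1 ih2 =>
    intro v
    show (φ.toL ⊓ ψ.toL).Realize v ↔ _
    rw [Language.Formula.realize_inf, ih1, ih2]
    exact Iff.rfl
  | all φ ih =>
    intro v
    show Language.BoundedFormula.Realize (Language.BoundedFormula.all _) v _ ↔ _
    rw [Language.BoundedFormula.realize_all]
    apply forall_congr'
    intro a
    rw [Language.BoundedFormula.realize_relabel]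
    have e : (Sum.elim v ((Fin.snoc (default : Fin 0 → M) a : Fin 1 → M) ∘ Fin.castAdd 0) ∘
        (fun i : ℕ => (match i with
          | 0 => Sum.inr 0
          | i + 1 => Sum.inl i : ℕ ⊕ Fin 1))) = cons a v := by
      funext n
      cases n <;> rfl
    have ih' := ih (cons a v)
    rw [← ih', ← e]
    unfold Language.Formula.Realize
    have e2 : ∀ (x y : Fin 0 → M), x = y := fun x y => Subsingleton.elim _ _
    rw [e2 (_ ∘ Fin.natAdd 1) default]

theorem GSat_congr {M : Type v} {R R' : M → M → Prop} (h : ∀ a b, R a b ↔ R' a b) (φ : Fml)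
    (v : ℕ → M) : GSat R φ v ↔ GSat R' φ v := by
  have : R = R' := by
    funext a b
    exact propext (h a b)
  rw [this]

theorem GSat_iso {M : Type v} {N : Type w} {R : M → M → Prop} {R' : N → N → Prop} {f : M → N}
    (hf : Function.Injective f) (hs : Function.Surjective f) (hr : ∀ a b, R a b ↔ R' (f a) (f b))
    (φ : Fml) : ∀ v : ℕ → M, GSat R φ v ↔ GSat R' φ (fun n => f (v n)) := by
  induction φ with
  | mem i j => intro v; exact hr _ _
  | eq i j => intro v; exact hf.eq_iff.symm
  | neg φ ih => intro v; exact not_congr (ih v)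
  | and φ ψ ih1 ih2 => intro v; exact and_congr (ih1 v) (ih2 v)
  | all φ ih =>
    intro v
    constructor
    · intro h x
      obtain ⟨a, rfl⟩ := hs x
      rw [← cons_comp, ← ih]
      exact h a
    · intro h a
      rw [ih, cons_comp]
      exact h _

/-- reflection of a `Σ_1`-formula to a rank-initial segment -/
theorem S1.reflect (φ : S1) : ∀ (v : ℕ → ZFSet.{u}) (θ₀ : Ordinal.{u}), (∀ i, (v i).rank < θ₀) →
    φ.Sat (fun x y => x ∈ y) v → ∃ θ, θ₀ ≤ θ ∧ ∀ hv : ∀ i, (v i).rank < θ,
      φ.Sat (fun x y : {x : ZFSet.{u} // x.rank < θ} => x.1 ∈ y.1) (fun i => ⟨v i, hv i⟩) := by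
  induction φ with
  | base φ =>
    intro v θ₀ _ h
    refine ⟨θ₀, le_rfl, fun hv => ?_⟩
    have hi : IniEmb (fun x y : {x : ZFSet.{u} // x.rank < θ₀} => x.1 ∈ y.1)
        (fun x y : ZFSet.{u} => x ∈ y) Subtype.val :=
      ⟨Subtype.val_injective, fun a b => Iff.rfl,
        fun b x hx => ⟨⟨x, (ZFSet.rank_lt_of_mem hx).trans b.2⟩, rfl⟩⟩
    exact (φ.sat_ini hi _).2 h
  | ex φ ih =>
    rintro v θ₀ h0 ⟨x, hx⟩
    obtain ⟨θ, h1, h2⟩ := ih (cons x v) (max θ₀ (x.rank + 1)) (by
      intro i
      cases i with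
      | zero => exact lt_max_of_lt_right (Order.lt_succ x.rank)
      | succ i => exact lt_max_of_lt_left (h0 i)) hx
    have hx' : x.rank < θ := (Order.lt_succ x.rank).trans_le ((le_max_right _ _).trans h1)
    refine ⟨θ, (le_max_left _ _).trans h1, fun hv => ⟨⟨x, hx'⟩, ?_⟩⟩
    have h3 := h2 (by
      intro i
      cases i with
      | zero => exact hx'
      | succ i => exact hv i)
    convert h3 using 1
    funext i
    cases i <;> rfl

/-- the Löwenheim–Skolem argument -/
theorem S1.exists_hull {o : Ordinal.{u}} (ho : Lim o) (φ : S1) (v : ℕ → VS o)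
    (h : φ.Sat (fun x y : ZFSet.{u} => x ∈ y) (fun i => (v i).1)) :
    ∃ g : Sm o → ZFSet.{u}, Function.Injective g ∧ (∀ x : ZFSet.{u}, x.rank < o → ∃ a, g a = x) ∧
      (∀ i, ∃ a, g a = (v i).1) ∧ (∀ a b, (∀ x, g x ∈ g a ↔ g x ∈ g b) → a = b) ∧
      ∀ m : ℕ → Sm o, (∀ i, g (m i) = (v i).1) → φ.Sat (fun a b => g a ∈ g b) m := by
  obtain ⟨θ, h1, h2⟩ := φ.reflect (fun i => (v i).1) (o + 1)
    (fun i => Order.lt_succ_of_le (v i).2) h
  have hoθ : o < θ := (Order.lt_succ o).trans_le h1
  have hv : ∀ i, (v i).1.rank < θ := fun i => (v i).2.trans_lt hoθ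
  replace h2 := h2 hv
  let U : Type (u+1) := {x : ZFSet.{u} // x.rank < θ}
  let _ : Language.order.Structure U := relStr (fun x y : U => x.1 ∈ y.1)
  let s : Set U := {x | x.1.rank < o} ∪ Set.range (fun i => (⟨(v i).1, hv i⟩ : U))
  have hinf := aleph0_le_Sm ho
  have hs : #s ≤ #(Sm o) := by
    refine (Cardinal.mk_union_le _ _).trans ?_
    rw [← Cardinal.add_eq_self hinf]
    refine add_le_add ?_ ?_
    · refine Cardinal.mk_le_of_injective (f := fun x => ⟨x.1.1, x.2⟩) ?_
      intro x y hxy
      exact Subtype.ext (Subtype.ext (Subtype.mk.inj hxy))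
    · refine (Cardinal.mk_le_aleph0_iff.2 ?_).trans hinf
      exact (Set.countable_range _).to_subtype
  obtain ⟨S, hsS, hS⟩ := Language.exists_elementarySubstructure_card_eq Language.order (M := U) s
    #(Sm o) hinf (by simpa using hs) (by
      rw [Language.order.card_eq_one]
      simp only [Cardinal.lift_one]
      rw [← Cardinal.lift_one.{u+1, 0}]
      exact Cardinal.lift_le.2 ((Cardinal.one_le_aleph0).trans hinf)) (by
      apply Cardinal.lift_le.2
      refine Cardinal.mk_le_of_injective (f := fun x => ⟨x.1, x.2.trans hoθ⟩) ?_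
      intro x y hxy
      exact Subtype.ext (Subtype.mk.inj hxy))
  rw [Cardinal.lift_id, Cardinal.lift_id] at hS
  obtain ⟨e⟩ := Cardinal.eq.1 hS.symm
  have el : ∀ (ψ : Fml) (x : ℕ → Sm o),
      GSat (fun a b : Sm o => (e a).1.1 ∈ (e b).1.1) ψ x ↔
        GSat (fun a b : U => a.1 ∈ b.1) ψ (fun i => (e (x i)).1) := by
    intro ψ x
    rw [GSat_iso (R' := fun a b : S => a.1.1 ∈ b.1.1) (f := e) e.injective e.surjective
      (fun a b => Iff.rfl)]
    have h3 := S.subtype.map_formula ψ.toL (fun i => e (x i))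
    rw [ψ.toL_iff, ψ.toL_iff] at h3
    refine (GSat_congr ?_ _ _).trans (h3.symm.trans (GSat_congr ?_ _ _))
    · intro a b
      exact Iff.rfl
    · intro a b
      exact Iff.rfl
  refine ⟨fun a => (e a).1.1, ?_, ?_, ?_, ?_, ?_⟩
  · intro a b hab
    exact e.injective (Subtype.ext (Subtype.ext hab))
  · intro x hx
    have hxs : (⟨x, hx.trans hoθ⟩ : U) ∈ S := hsS (Or.inl hx)
    exact ⟨e.symm ⟨_, hxs⟩, congrArg (fun a : S => a.1.1) (e.apply_symm_apply _)⟩
  · intro i
    have hxs : (⟨(v i).1, hv i⟩ : U) ∈ S := hsS (Or.inr ⟨i, rfl⟩)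
    exact ⟨e.symm ⟨_, hxs⟩, congrArg (fun a : S => a.1.1) (e.apply_symm_apply _)⟩
  · intro a b hab
    have h3 : GSat (fun a b : Sm o => (e a).1.1 ∈ (e b).1.1) extF (cons a (fun _ => b)) :=
      (extF_iff _ _).2 hab
    rw [el, extF_iff] at h3
    apply e.injective
    apply Subtype.ext
    apply Subtype.ext
    ext y
    constructor
    · intro hy
      exact (h3 ⟨y, (ZFSet.rank_lt_of_mem hy).trans (e a).1.2⟩).1 hy
    · intro hy
      exact (h3 ⟨y, (ZFSet.rank_lt_of_mem hy).trans (e b).1.2⟩).2 hy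
  · intro m hm
    rw [← φ.toF_iff, el, φ.toF_iff]
    convert h2 using 1
    funext i
    exact Subtype.ext (hm i)

end SOCat
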