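import Pool.Agent.SOCat.S1A

/-!
# Subsets of `V_o` coding transitive structures
-/

namespace SOCat

universe u

open ZFSet

variable {o : Ordinal.{u}}

/-- extensionality of the coded relation -/
def CExt (E : VS o) : Prop := ∀ a : VS o, sm a → ∀ b : VS o, sm b →
  (∀ x : VS o, sm x → (App E x a ↔ App E x b)) → a = b

/-- well-foundedness of the coded relation -/
def CWF (E : VS o) : Prop := ∀ S : VS o, (∃ a : VS o, a.1 ∈ S.1) →
  ∃ a : VS o, a.1 ∈ S.1 ∧ ∀ b : VS o, b.1 ∈ S.1 → ¬ App E b a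

/-- `m` codes `X` -/
def Par (E c m X : VS o) : Prop := sm m ∧
  ∀ e : VS o, sm e → (App E e m ↔ ∃ z : VS o, z.1 ∈ X.1 ∧ App c z e)

/-- `c` assigns to each `x ∈ V_o` its codes -/
def Cod (E c : VS o) : Prop := ∀ x : VS o, sm x →
  ((∃ y : VS o, App c x y) ∧ ∀ y : VS o, App c x y → Par E c y x)

theorem d_CExt (i : ℕ) : Dfn.{u} fun _ v => CExt (v i) :=
  ((d_sm 0).imp ((d_sm 0).imp
    ((((d_sm 0).imp ((d_App (i+3) 0 2).iff (d_App (i+3) 0 1))).all).imp (Dfn.eq 1 0))).all).all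

theorem d_CWF (i : ℕ) : Dfn.{u} fun _ v => CWF (v i) :=
  ((Dfn.mem 0 1).ex.imp
    (((Dfn.mem 0 1).and ((Dfn.mem 0 2).imp (d_App (i+3) 0 1).not).all).ex)).all

theorem d_Par (i j k l : ℕ) : Dfn.{u} fun _ v => Par (v i) (v j) (v k) (v l) :=
  (d_sm k).and (((d_sm 0).imp ((d_App (i+1) 0 (k+1)).iff
    (((Dfn.mem 0 (l+2)).and (d_App (j+2) 0 1)).ex))).all)

theorem d_Cod (i j : ℕ) : Dfn.{u} fun _ v => Cod (v i) (v j) :=
  ((d_sm 0).imp ((d_App (j+2) 1 0).ex.and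
    ((d_App (j+2) 1 0).imp (d_Par (i+2) (j+2) 0 1)).all)).all

/-- the relation on `V_o` coded by `E` -/
def RE (E : VS o) (a b : Sm o) : Prop := pair a.1 b.1 ∈ E.1

/-- elements of `V_o` as elements of `V_{o+1}` -/
def up (a : Sm o) : VS o := ⟨a.1, a.2.le⟩

theorem sm_up (a : Sm o) : sm (up a) := sm_iff.2 a.2

theorem App_up {E : VS o} {a b : Sm o} : App E (up a) (up b) ↔ RE E a b := App_iff

theorem small_Sm : Small.{u} (Sm o) := by
  refine small_of_injective (β := ZFSet.vonNeumann o)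
    (f := fun x => ⟨x.1, ZFSet.mem_vonNeumann.2 x.2⟩) ?_
  intro x y hxy
  exact Subtype.ext (Subtype.mk.inj hxy)

/-- the set of elements of `V_o` with property `P` -/
noncomputable def smSet (P : Sm o → Prop) : VS o :=
  ⟨ZFSet.sep (fun y => ∃ h : y.rank < o, P ⟨y, h⟩) (ZFSet.vonNeumann o), by
    rw [← ZFSet.subset_vonNeumann]
    intro z hz
    exact (ZFSet.mem_sep.1 hz).1⟩

theorem mem_smSet {P : Sm o → Prop} {y : ZFSet.{u}} :
    y ∈ (smSet P).1 ↔ ∃ h : y.rank < o, P ⟨y, h⟩ := by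
  unfold smSet
  rw [ZFSet.mem_sep, ZFSet.mem_vonNeumann]
  constructor
  · exact fun h => h.2
  · rintro ⟨h, hP⟩
    exact ⟨h, h, hP⟩

theorem wf_RE {E : VS o} (h : CWF E) : WellFounded (RE E) := by
  rw [WellFounded.wellFounded_iff_has_min]
  intro s ⟨a, ha⟩
  obtain ⟨b, hb, hmin⟩ := h (smSet (fun x => x ∈ s)) ⟨up a, mem_smSet.2 ⟨a.2, ha⟩⟩
  obtain ⟨hb1, hb2⟩ := mem_smSet.1 hb
  refine ⟨⟨b.1, hb1⟩, hb2, fun x hx hxb => ?_⟩
  exact hmin (up x) (mem_smSet.2 ⟨x.2, hx⟩) (App_iff.2 hxb)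

/-- the transitive collapse -/
theorem exists_collapse {E : VS o} (h : CWF E) : ∃ π : Sm o → ZFSet.{u},
    ∀ a x, x ∈ π a ↔ ∃ b, RE E b a ∧ π b = x := by
  have hsm := small_Sm (o := o)
  let π : Sm o → ZFSet.{u} := (wf_RE h).fix
    (fun a ih => ZFSet.range (fun b : {b : Sm o // RE E b a} => ih b.1 b.2))
  refine ⟨π, fun a x => ?_⟩
  have e : π a = ZFSet.range (fun b : {b : Sm o // RE E b a} => π b.1) := (wf_RE h).fix_eq _ a
  rw [e, ZFSet.mem_range]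
  constructor
  · rintro ⟨b, hb⟩
    exact ⟨b.1, b.2, hb⟩
  · rintro ⟨b, hb, hx⟩
    exact ⟨⟨b, hb⟩, hx⟩

theorem collapse_inj {E : VS o} (h : CWF E) (he : CExt E) {π : Sm o → ZFSet.{u}}
    (hπ : ∀ a x, x ∈ π a ↔ ∃ b, RE E b a ∧ π b = x) : ∀ a b, π a = π b → a = b := by
  intro a
  induction a using (wf_RE h).induction with
  | _ a ih =>
    intro b hab
    have key : ∀ x, RE E x a ↔ RE E x b := by
      intro x
      constructor
      · intro hx
        have h1 : π x ∈ π b := by rw [← hab]; exact (hπ _ _).2 ⟨x, hx, rfl⟩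
        obtain ⟨y, hy, hxy⟩ := (hπ _ _).1 h1
        rw [ih x hx y hxy.symm]
        exact hy
      · intro hx
        have h1 : π x ∈ π a := by rw [hab]; exact (hπ _ _).2 ⟨x, hx, rfl⟩
        obtain ⟨y, hy, hxy⟩ := (hπ _ _).1 h1
        rw [← ih y hy x hxy]
        exact hy
    have h2 := he (up a) (sm_up a) (up b) (sm_up b) (by
      intro x hx
      rw [sm_iff] at hx
      rw [App_iff, App_iff]
      exact key ⟨x.1, hx⟩)
    exact Subtype.ext (Subtype.mk.inj h2)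

theorem collapse_ini {E : VS o} (h : CWF E) (he : CExt E) {π : Sm o → ZFSet.{u}}
    (hπ : ∀ a x, x ∈ π a ↔ ∃ b, RE E b a ∧ π b = x) :
    IniEmb (RE E) (fun x y : ZFSet.{u} => x ∈ y) π where
  inj := fun a b hab => collapse_inj h he hπ a b hab
  rel := by
    intro a b
    rw [hπ]
    constructor
    · intro hab
      exact ⟨a, hab, rfl⟩
    · rintro ⟨c, hc, hca⟩
      rw [← collapse_inj h he hπ _ _ hca]
      exact hc
  dc := by
    intro b x hx
    obtain ⟨a, _, ha⟩ := (hπ _ _).1 hx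
    exact ⟨a, ha⟩

theorem sm_of_App {E a b : VS o} (h : App E a b) : a.1.rank < o ∧ b.1.rank < o := by
  rw [App_iff] at h
  have h1 := (ZFSet.rank_lt_of_mem h).trans_le E.2
  exact ⟨(rank_left_lt _ _).trans h1, (rank_right_lt _ _).trans h1⟩

theorem collapse_cod {E c : VS o} (hc : Cod E c) {π : Sm o → ZFSet.{u}}
    (hπ : ∀ a x, x ∈ π a ↔ ∃ b, RE E b a ∧ π b = x) :
    ∀ x : ZFSet.{u}, ∀ (hx : x.rank < o) (y : Sm o), App c (up ⟨x, hx⟩) (up y) → π y = x := by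
  intro x
  induction x using ZFSet.inductionOn with
  | _ x ih =>
    intro hx y hy
    obtain ⟨_, h2⟩ := (hc (up ⟨x, hx⟩) (sm_up _)).2 _ hy
    ext t
    rw [hπ]
    constructor
    · rintro ⟨e, he, rfl⟩
      obtain ⟨z, hz, hze⟩ := (h2 (up e) (sm_up e)).1 (App_up.2 he)
      have hz' : z.1 ∈ x := hz
      have hzr : z.1.rank < o := (ZFSet.rank_lt_of_mem hz').trans hx
      have h3 := ih z.1 hz' hzr e hze
      rw [h3]
      exact hz'
    · intro ht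
      have htr : t.rank < o := (ZFSet.rank_lt_of_mem ht).trans hx
      obtain ⟨e, he⟩ := (hc (up ⟨t, htr⟩) (sm_up _)).1
      have her := (sm_of_App he).2
      refine ⟨⟨e.1, her⟩, ?_, ih t ht htr _ he⟩
      exact App_up.1 ((h2 e (sm_iff.2 her)).2 ⟨up ⟨t, htr⟩, ht, he⟩)

theorem collapse_par {E c : VS o} (hc : Cod E c) {π : Sm o → ZFSet.{u}}
    (hπ : ∀ a x, x ∈ π a ↔ ∃ b, RE E b a ∧ π b = x) {m : Sm o} {X : VS o}
    (hm : Par E c (up m) X) : π m = X.1 := by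
  obtain ⟨_, h2⟩ := hm
  ext t
  rw [hπ]
  constructor
  · rintro ⟨e, he, rfl⟩
    obtain ⟨z, hz, hze⟩ := (h2 (up e) (sm_up e)).1 (App_up.2 he)
    rw [collapse_cod hc hπ z.1 (sm_of_App hze).1 e hze]
    exact hz
  · intro ht
    have htr : t.rank < o := (ZFSet.rank_lt_of_mem ht).trans_le X.2
    obtain ⟨e, he⟩ := (hc (up ⟨t, htr⟩) (sm_up _)).1
    have her := (sm_of_App he).2
    refine ⟨⟨e.1, her⟩, ?_, collapse_cod hc hπ t htr _ he⟩
    exact App_up.1 ((h2 e (sm_iff.2 her)).2 ⟨up ⟨t, htr⟩, ht, he⟩)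

/-- codes give truth in `V` -/
theorem S1.sound (φ : S1) (v : ℕ → VS o) {E c : VS o} (he : CExt E) (hw : CWF E) (hc : Cod E c)
    (m : ℕ → Sm o) (hm : ∀ i, Par E c (up (m i)) (v i)) (h : φ.Sat (RE E) m) :
    φ.Sat (fun x y : ZFSet.{u} => x ∈ y) (fun i => (v i).1) := by
  obtain ⟨π, hπ⟩ := exists_collapse hw
  have h1 := φ.sat_up (collapse_ini hw he hπ) m h
  have h2 : (fun n => π (m n)) = fun i => (v i).1 := by
    funext i
    exact collapse_par hc hπ (hm i)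
  rw [h2] at h1
  exact h1

/-- truth in `V` gives codes -/
theorem S1.complete (ho : Lim o) (φ : S1) (v : ℕ → VS o)
    (h : φ.Sat (fun x y : ZFSet.{u} => x ∈ y) (fun i => (v i).1)) :
    ∃ E c : VS o, CExt E ∧ CWF E ∧ Cod E c ∧
      ∃ m : ℕ → Sm o, (∀ i, Par E c (up (m i)) (v i)) ∧ φ.Sat (RE E) m := by
  obtain ⟨g, hg1, hg2, hg3, hg4, hg5⟩ := φ.exists_hull ho v h
  let E : VS o := smSet (fun p => ∃ a b : Sm o, p.1 = pair a.1 b.1 ∧ g a ∈ g b)
  let c : VS o := smSet (fun p => ∃ a b : Sm o, p.1 = pair a.1 b.1 ∧ g b = a.1)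
  have hE : ∀ a b : Sm o, pair a.1 b.1 ∈ E.1 ↔ g a ∈ g b := by
    intro a b
    rw [mem_smSet]
    constructor
    · rintro ⟨_, a', b', hab, h'⟩
      obtain ⟨h1, h2⟩ := ZFSet.pair_injective hab
      rw [Subtype.ext h1, Subtype.ext h2]
      exact h'
    · intro h'
      exact ⟨ho.rank_pair_lt a.2 b.2, a, b, rfl, h'⟩
  have hC : ∀ a b : Sm o, pair a.1 b.1 ∈ c.1 ↔ g b = a.1 := by
    intro a b
    rw [mem_smSet]
    constructor
    · rintro ⟨_, a', b', hab, h'⟩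
      obtain ⟨h1, h2⟩ := ZFSet.pair_injective hab
      rw [Subtype.ext h1, Subtype.ext h2]
      exact h'
    · intro h'
      exact ⟨ho.rank_pair_lt a.2 b.2, a, b, rfl, h'⟩
  have hpar : ∀ (m : Sm o) (X : VS o), g m = X.1 → Par E c (up m) X := by
    intro m X hm
    refine ⟨sm_up m, fun e he => ?_⟩
    rw [sm_iff] at he
    rw [App_iff]
    constructor
    · intro h1
      have h2 := (hE ⟨e.1, he⟩ m).1 h1
      rw [hm] at h2
      have h3 : (g ⟨e.1, he⟩).rank < o := (ZFSet.rank_lt_of_mem h2).trans_le X.2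
      refine ⟨up ⟨g ⟨e.1, he⟩, h3⟩, h2, App_iff.2 ?_⟩
      exact (hC ⟨g ⟨e.1, he⟩, h3⟩ ⟨e.1, he⟩).2 rfl
    · rintro ⟨z, hz, hze⟩
      have h1 := sm_of_App hze
      have h2 := (hC ⟨z.1, h1.1⟩ ⟨e.1, he⟩).1 (App_iff.1 hze)
      apply (hE ⟨e.1, he⟩ m).2
      rw [h2, hm]
      exact hz
  choose m hm using hg3
  refine ⟨E, c, ?_, ?_, ?_, m, fun i => hpar _ _ (hm i), ?_⟩
  · intro a ha b hb hab
    rw [sm_iff] at ha hb
    have h1 := hg4 ⟨a.1, ha⟩ ⟨b.1, hb⟩ (by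
      intro x
      have h2 := hab (up x) (sm_up x)
      rw [App_iff, App_iff] at h2
      rw [← hE, ← hE]
      exact h2)
    exact Subtype.ext (Subtype.mk.inj h1)
  · rintro S ⟨a, ha⟩
    have har : a.1.rank < o := (ZFSet.rank_lt_of_mem ha).trans_le S.2
    have hwf : WellFounded (fun x y : Sm o => g x ∈ g y) := InvImage.wf g ZFSet.mem_wf
    obtain ⟨b, hb, hmin⟩ := hwf.has_min {x : Sm o | x.1 ∈ S.1} ⟨⟨a.1, har⟩, ha⟩
    refine ⟨up b, hb, fun x hx hxb => ?_⟩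
    have hxr := (sm_of_App hxb).1
    exact hmin ⟨x.1, hxr⟩ hx ((hE _ _).1 (App_iff.1 hxb))
  · intro x hx
    rw [sm_iff] at hx
    constructor
    · obtain ⟨a, ha⟩ := hg2 x.1 hx
      exact ⟨up a, App_iff.2 ((hC ⟨x.1, hx⟩ a).2 ha)⟩
    · intro y hy
      have hyr := (sm_of_App hy).2
      exact hpar ⟨y.1, hyr⟩ x ((hC ⟨x.1, hx⟩ ⟨y.1, hyr⟩).1 (App_iff.1 hy))
  · have h1 := hg5 m hm
    have h2 : (RE E) = fun a b : Sm o => g a ∈ g b := by
      funext a b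
      exact propext (hE a b)
    rw [h2]
    exact h1

end SOCat
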