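import Pool.Agent.SOCat.S1B

/-!
# `Σ_1`-formulas with parameters in `V_{o+1}` are expressible over `(V_{o+1}, ∈)`
-/

namespace SOCat

universe u

variable {o : Ordinal.{u}}

/-- `a` is the value of the variable `i` at depth `k` -/
def Val (k i : ℕ) (w : ℕ → VS o) (a : VS o) : Prop :=
  if i < k then a = w i else Par (w k) (w (k+1)) a (w (i+2))

theorem d_Val (k i r l : ℕ) : Dfn.{u} fun _ v => Val k i (fun n => v (n+r)) (v l) := by
  unfold Val
  split_ifs with h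
  · exact Dfn.eq l (i+r)
  · exact d_Par (k+r) (k+1+r) l (i+2+r)

/-- translation of the bounded formulas -/
def TT : ∀ (_ : D0) (_ : ℕ) {o : Ordinal.{u}}, (ℕ → VS o) → Prop
  | .mem i j, k, o, w => ∃ a : VS o, ∃ b : VS o, Val k i w a ∧ Val k j w b ∧ App (w k) a b
  | .eq i j, k, o, w => ∃ a : VS o, ∃ b : VS o, Val k i w a ∧ Val k j w b ∧ a = b
  | .neg φ, k, _, w => ¬ TT φ k w
  | .and φ ψ, k, _, w => TT φ k w ∧ TT ψ k w
  | .ball i φ, k, o, w => ∀ x : VS o, (sm x ∧ ∃ b : VS o, Val k i w b ∧ App (w k) x b) →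
      TT φ (k+1) (cons x w)

theorem d_TT : ∀ (φ : D0) (k : ℕ), Dfn.{u} fun _ w => TT φ k w
  | .mem i j, k => ((d_Val k i 2 1).and ((d_Val k j 2 0).and (d_App (k+2) 1 0))).ex.ex
  | .eq i j, k => ((d_Val k i 2 1).and ((d_Val k j 2 0).and (Dfn.eq 1 0))).ex.ex
  | .neg φ, k => (d_TT φ k).not
  | .and φ ψ, k => (d_TT φ k).and (d_TT ψ k)
  | .ball i φ, k => (((d_sm 0).and ((d_Val k i 2 0).and (d_App (k+2) 1 0)).ex).imp
      (d_TT φ (k+1))).all

def TS : ∀ (_ : S1) (_ : ℕ) {o : Ordinal.{u}}, (ℕ → VS o) → Prop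
  | .base φ, k, _, w => TT φ k w
  | .ex φ, k, o, w => ∃ x : VS o, sm x ∧ TS φ (k+1) (cons x w)

theorem d_TS : ∀ (φ : S1) (k : ℕ), Dfn.{u} fun _ w => TS φ k w
  | .base φ, k => d_TT φ k
  | .ex φ, k => ((d_sm 0).and (d_TS φ (k+1))).ex

theorem Val_cons {k : ℕ} {w : ℕ → VS o} {m : ℕ → Sm o}
    (h : ∀ i a, Val k i w a ↔ a = up (m i)) (x : Sm o) :
    ∀ i a, Val (k+1) i (cons (up x) w) a ↔ a = up (cons x m i) := by
  intro i a
  cases i with
  | zero =>
    unfold Val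
    rw [if_pos (Nat.succ_pos k)]
    exact Iff.rfl
  | succ i =>
    have h1 := h i a
    unfold Val at h1 ⊢
    by_cases hi : i < k
    · rw [if_pos hi] at h1
      rw [if_pos (Nat.succ_lt_succ hi)]
      exact h1
    · rw [if_neg hi] at h1
      rw [if_neg (fun h => hi (Nat.lt_of_succ_lt_succ h))]
      exact h1

theorem TT_iff (φ : D0) : ∀ (k : ℕ) (w : ℕ → VS o) (m : ℕ → Sm o),
    (∀ i a, Val k i w a ↔ a = up (m i)) → (TT φ k w ↔ φ.Sat (RE (w k)) m) := by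
  induction φ with
  | mem i j =>
    intro k w m h
    constructor
    · rintro ⟨a, b, ha, hb, hab⟩
      rw [h] at ha hb
      subst ha hb
      exact App_up.1 hab
    · intro hab
      exact ⟨_, _, (h _ _).2 rfl, (h _ _).2 rfl, App_up.2 hab⟩
  | eq i j =>
    intro k w m h
    constructor
    · rintro ⟨a, b, ha, hb, hab⟩
      rw [h] at ha hb
      subst ha hb
      exact Subtype.ext (Subtype.mk.inj hab)
    · intro hab
      have hab' : m i = m j := hab
      exact ⟨_, _, (h _ _).2 rfl, (h _ _).2 rfl, by rw [hab']⟩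
  | neg φ ih => intro k w m h; exact not_congr (ih k w m h)
  | and φ ψ ih1 ih2 => intro k w m h; exact and_congr (ih1 k w m h) (ih2 k w m h)
  | ball i φ ih =>
    intro k w m h
    constructor
    · intro h1 x hx
      have h2 := h1 (up x) ⟨sm_up x, up (m i), (h _ _).2 rfl, App_up.2 hx⟩
      exact (ih (k+1) (cons (up x) w) (cons x m) (Val_cons h x)).1 h2
    · rintro h1 x ⟨hx, b, hb, hxb⟩
      rw [h] at hb
      subst hb
      rw [sm_iff] at hx
      have h2 := h1 ⟨x.1, hx⟩ (App_iff.1 hxb)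
      exact (ih (k+1) (cons (up ⟨x.1, hx⟩) w) (cons ⟨x.1, hx⟩ m) (Val_cons h _)).2 h2

theorem TS_iff (φ : S1) : ∀ (k : ℕ) (w : ℕ → VS o) (m : ℕ → Sm o),
    (∀ i a, Val k i w a ↔ a = up (m i)) → (TS φ k w ↔ φ.Sat (RE (w k)) m) := by
  induction φ with
  | base φ => intro k w m h; exact TT_iff φ k w m h
  | ex φ ih =>
    intro k w m h
    constructor
    · rintro ⟨x, hx, h1⟩
      rw [sm_iff] at hx
      exact ⟨⟨x.1, hx⟩, (ih (k+1) (cons (up ⟨x.1, hx⟩) w) (cons ⟨x.1, hx⟩ m)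
        (Val_cons h _)).1 h1⟩
    · rintro ⟨x, hx⟩
      exact ⟨up x, sm_up x, (ih (k+1) (cons (up x) w) (cons x m) (Val_cons h x)).2 hx⟩

theorem Dfn.allLt {R : ℕ → ∀ o : Ordinal.{u}, (ℕ → VS o) → Prop} (h : ∀ i, Dfn (R i)) (N : ℕ) :
    Dfn fun o v => ∀ i < N, R i o v := by
  induction N with
  | zero =>
    obtain ⟨φ, hφ⟩ := (Dfn.eq.{u} 0 0)
    refine ⟨φ, fun o v => ?_⟩
    rw [hφ]
    exact ⟨fun _ i hi => absurd hi (Nat.not_lt_zero i), fun _ => rfl⟩
  | succ N ih =>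
    obtain ⟨φ, hφ⟩ := ih.and (h N)
    refine ⟨φ, fun o v => ?_⟩
    rw [hφ]
    constructor
    · rintro ⟨h1, h2⟩ i hi
      rcases Nat.lt_succ_iff_lt_or_eq.1 hi with h3 | rfl
      · exact h1 i h3
      · exact h2
    · intro h1
      exact ⟨fun i hi => h1 i (Nat.lt_succ_of_lt hi), h1 N (Nat.lt_succ_self N)⟩

/-- `Σ_1`-formulas in `V`, for parameters in `V_{o+1}`, are equivalent to formulas over
`V_{o+1}` -/
theorem S1.exists_Fml (φ : S1) (N : ℕ) : ∃ Φ : Fml, ∀ {o : Ordinal.{u}}, Lim o →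
    ∀ v : ℕ → VS o, (∀ i, N ≤ i → (v i).1 = ∅) →
      (SOCat.Sat Φ v ↔ φ.Sat (fun x y : ZFSet.{u} => x ∈ y) (fun i => (v i).1)) := by
  have hD : Dfn.{u} fun o w => ∃ c : VS o, ∃ E : VS o, CExt E ∧ CWF E ∧ Cod E c ∧
      (∀ i < N, ∃ m : VS o, Par E c m (w i)) ∧ TS φ 0 (cons E (cons c w)) := by
    exact ((d_CExt 0).and ((d_CWF 0).and ((d_Cod 0 1).and
      ((Dfn.allLt (R := fun i o v => ∃ m : VS o, Par (v 0) (v 1) m (v (i+2)))
        (fun i => (d_Par 1 2 0 (i+3)).ex) N).and (d_TS φ 0))))).ex.ex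
  obtain ⟨Φ, hΦ⟩ := hD
  refine ⟨Φ, fun {o} ho v hv => ?_⟩
  rw [hΦ]
  have key : ∀ (E c : VS o) (m : ℕ → Sm o), CExt E → (∀ i, Par E c (up (m i)) (v i)) →
      (TS φ 0 (cons E (cons c v)) ↔ φ.Sat (RE E) m) := by
    intro E c m hE hm
    refine TS_iff φ 0 (cons E (cons c v)) m ?_
    intro i a
    unfold Val
    rw [if_neg (Nat.not_lt_zero i)]
    show Par E c a (v i) ↔ _
    constructor
    · rintro ⟨h1, h2⟩
      refine hE a h1 _ (sm_up _) (fun x hx => ?_)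
      rw [h2 x hx, (hm i).2 x hx]
    · rintro rfl
      exact hm i
  constructor
  · rintro ⟨c, E, hE, hw, hc, hN, hT⟩
    have h1 : ∀ i, ∃ m : Sm o, Par E c (up m) (v i) := by
      intro i
      have h2 : ∃ m : VS o, Par E c m (v i) := by
        by_cases hi : i < N
        · exact hN i hi
        · have hr : (v i).1.rank < o := by
            rw [hv i (not_lt.1 hi), ZFSet.rank_empty]
            exact ho.1
          obtain ⟨y, hy⟩ := (hc (v i) (sm_iff.2 hr)).1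
          exact ⟨y, (hc (v i) (sm_iff.2 hr)).2 y hy⟩
      obtain ⟨m, hm⟩ := h2
      exact ⟨⟨m.1, sm_iff.1 hm.1⟩, hm⟩
    choose m hm using h1
    exact φ.sound v hE hw hc m hm ((key E c m hE hm).1 hT)
  · intro h
    obtain ⟨E, c, hE, hw, hc, m, hm, hφ⟩ := φ.complete ho v h
    exact ⟨c, E, hE, hw, hc, fun i _ => ⟨_, hm i⟩, (key E c m hE hm).2 hφ⟩

/-- perfect set theorem for sets that are `Σ_1`-definable in `V` with parameters in `V_{o+1}` -/
theorem IsI1Emb.perfectSigmaOne {j : VS o → VS o} {κ : ℕ → Ordinal.{u}} (h : IsI1Emb j κ)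
    (X : Set (Pow o)) (hXd : SigmaOneDef X) (hX : Cardinal.lift.{u+1} o.card < Cardinal.mk X) :
    ∃ ι : (ℕ → Set.Iio o) → Pow o, IsPerfectEmbedding ι ∧ Set.range ι ⊆ X := by
  obtain ⟨φ, k, z, rfl⟩ := hXd
  obtain ⟨Φ, hΦ⟩ := φ.exists_Fml (k+1)
  let b : ℕ → VS o := fun i => if h : i < k then z ⟨i, h⟩ else
    ⟨∅, by rw [ZFSet.rank_empty]; exact zero_le⟩
  refine h.perfectFml Φ b _ (fun A => ?_) hX
  have h1 := hΦ h.lim (cons A.1 b) (by
    intro i hi
    cases i with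
    | zero => exact absurd hi (by omega)
    | succ i =>
      show (b i).1 = ∅
      simp only [b]
      rw [dif_neg (by omega)])
  rw [h1]
  show φ.Sat _ _ ↔ _
  have e : (cons A.1.1 (fun i => if h : i < k then (z ⟨i, h⟩).1 else ∅)) =
      fun i => ((cons A.1 b) i).1 := by
    funext i
    cases i with
    | zero => rfl
    | succ i =>
      show (if h : i < k then (z ⟨i, h⟩).1 else ∅) = (b i).1
      simp only [b]
      split_ifs <;> rfl
  rw [e]

end SOCat
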