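import Pool.Agent.SOCat.PSDefs

/-!
# Levy `Σ_1`-formulas, evaluated in the universe `V` of all sets
-/

namespace SOCat

universe u

/-- The bounded (`Δ_0`) formulas of set theory, with de Bruijn indices as variables;
`ball i φ` is `∀ x ∈ v_i, φ`, the new variable `x` getting index `0`. -/
inductive D0 : Type
  | mem (i j : ℕ)
  | eq (i j : ℕ)
  | neg (φ : D0)
  | and (φ ψ : D0)
  | ball (i : ℕ) (φ : D0)

/-- Truth of a bounded formula in the structure `(M, R)`. -/
def D0.Sat {M : Type*} (R : M → M → Prop) : D0 → (ℕ → M) → Prop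
  | .mem i j, v => R (v i) (v j)
  | .eq i j, v => v i = v j
  | .neg φ, v => ¬ φ.Sat R v
  | .and φ ψ, v => φ.Sat R v ∧ ψ.Sat R v
  | .ball i φ, v => ∀ x, R x (v i) → φ.Sat R (cons x v)

/-- The `Σ_1`-formulas of the Levy hierarchy: finitely many unbounded existential quantifiers in
front of a bounded formula. -/
inductive S1 : Type
  | base (φ : D0)
  | ex (φ : S1)

/-- Truth of a `Σ_1`-formula in the structure `(M, R)`. -/
def S1.Sat {M : Type*} (R : M → M → Prop) : S1 → (ℕ → M) → Prop
  | .base φ, v => φ.Sat R v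
  | .ex φ, v => ∃ x, φ.Sat R (cons x v)

/-- `X ⊆ P(o)` is definable by a `Σ_1`-formula (evaluated in the universe `V = ZFSet` of all sets)
with finitely many parameters `z 0, ..., z (k-1)` from `V_{o+1}`: the variable `0` stands for the
element `A` of `P(o)`, the variable `i + 1` for the parameter `z i`. -/
def SigmaOneDef {o : Ordinal.{u}} (X : Set (Pow o)) : Prop :=
  ∃ (φ : S1) (k : ℕ) (z : Fin k → VS o),
    X = {A | φ.Sat (fun x y : ZFSet.{u} => x ∈ y)
      (cons A.1.1 (fun i => if h : i < k then (z ⟨i, h⟩).1 else ∅))}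

end SOCat
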