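import Pool.Agent.SOCat.Fml

namespace SOCat

universe u

open ZFSet

variable {o : Ordinal.{u}}

theorem vs_mem_rank {x : VS o} {y : ZFSet.{u}} (h : y ∈ x.1) : y.rank ≤ o :=
  (rank_lt_of_mem h).le.trans x.2

/-- element of an element of `VS o` as element of `VS o` -/
def down {x : VS o} {y : ZFSet.{u}} (h : y ∈ x.1) : VS o := ⟨y, vs_mem_rank h⟩

theorem vs_ext {x y : VS o} (h : ∀ z : ZFSet.{u}, z ∈ x.1 ↔ z ∈ y.1) : x = y :=
  Subtype.ext (ZFSet.ext h)

theorem sub_iff {x y : VS o} : Sub x y ↔ x.1 ⊆ y.1 := by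
  constructor
  · intro h z hz
    exact h (down hz) hz
  · intro h z hz
    exact h hz

theorem UP_iff {d a b : VS o} : UP d a b ↔ d.1 = {a.1, b.1} := by
  constructor
  · intro h
    ext z
    rw [ZFSet.mem_pair]
    constructor
    · intro hz
      rcases (h (down hz)).1 hz with h1 | h1
      · exact Or.inl (congrArg Subtype.val h1)
      · exact Or.inr (congrArg Subtype.val h1)
    · rintro (rfl | rfl)
      · exact (h a).2 (Or.inl rfl)
      · exact (h b).2 (Or.inr rfl)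
  · intro h z
    rw [h, ZFSet.mem_pair, Subtype.ext_iff, Subtype.ext_iff]

theorem IsP_iff {p a b : VS o} : IsP p a b ↔ p.1 = pair a.1 b.1 := by
  constructor
  · rintro ⟨s, hs, d, hd, hp⟩
    rw [UP_iff] at hs hd hp
    rw [hp, hs, hd, pair]
    simp
  · intro h
    have h1 : ({a.1} : ZFSet) ∈ p.1 := by rw [h, pair]; simp
    have h2 : ({a.1, b.1} : ZFSet) ∈ p.1 := by rw [h, pair]; simp
    refine ⟨down h1, UP_iff.2 ?_, down h2, UP_iff.2 rfl, UP_iff.2 h⟩
    show ({a.1} : ZFSet) = {a.1, a.1}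
    simp

theorem App_iff {w a b : VS o} : App w a b ↔ pair a.1 b.1 ∈ w.1 := by
  constructor
  · rintro ⟨p, hp, h⟩
    rw [IsP_iff] at hp
    rwa [← hp]
  · intro h
    exact ⟨down h, IsP_iff.2 rfl, h⟩

theorem left_mem_pair (a b : ZFSet.{u}) : ({a} : ZFSet) ∈ pair a b := by rw [pair]; simp

theorem rank_left_lt (a b : ZFSet.{u}) : a.rank < (pair a b).rank :=
  (rank_lt_of_mem (mem_singleton.2 rfl)).trans (rank_lt_of_mem (left_mem_pair a b))

theorem rank_right_lt (a b : ZFSet.{u}) : b.rank < (pair a b).rank := by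
  have h : ({a, b} : ZFSet) ∈ pair a b := by rw [pair]; simp
  have h2 : b ∈ ({a, b} : ZFSet) := by simp
  exact (rank_lt_of_mem h2).trans (rank_lt_of_mem h)

/-- the function coded by `w` -/
noncomputable def ext (w X : VS o) : VS o :=
  ⟨ZFSet.sep (fun y => ∃ a b : ZFSet.{u}, a ⊆ X.1 ∧ pair a b ∈ w.1 ∧ y ∈ b) (ZFSet.vonNeumann o), by
    rw [← ZFSet.subset_vonNeumann]
    intro z hz
    exact (ZFSet.mem_sep.1 hz).1⟩

theorem mem_ext {w X : VS o} {y : ZFSet.{u}} :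
    y ∈ (ext w X).1 ↔ ∃ a b : ZFSet.{u}, a ⊆ X.1 ∧ pair a b ∈ w.1 ∧ y ∈ b := by
  unfold ext
  rw [ZFSet.mem_sep]
  constructor
  · exact fun h => h.2
  · rintro ⟨a, b, ha, hb, hy⟩
    refine ⟨?_, a, b, ha, hb, hy⟩
    rw [ZFSet.mem_vonNeumann]
    exact ((rank_lt_of_mem hy).trans (rank_right_lt a b)).trans_le
      ((rank_lt_of_mem hb).le.trans w.2)

theorem Ext_iff {w X Y : VS o} : Ext w X Y ↔ ext w X = Y := by
  have key : ∀ y : ZFSet.{u}, (∃ a b : ZFSet.{u}, a ⊆ X.1 ∧ pair a b ∈ w.1 ∧ y ∈ b) ↔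
      (∃ a : VS o, Sub a X ∧ ∃ b : VS o, App w a b ∧ y ∈ b.1) := by
    intro y
    constructor
    · rintro ⟨a, b, ha, hb, hy⟩
      have hp := (rank_lt_of_mem hb).le.trans w.2
      exact ⟨⟨a, (rank_left_lt a b).le.trans hp⟩, sub_iff.2 ha,
        ⟨b, (rank_right_lt a b).le.trans hp⟩, App_iff.2 hb, hy⟩
    · rintro ⟨a, ha, b, hb, hy⟩
      exact ⟨a.1, b.1, sub_iff.1 ha, App_iff.1 hb, hy⟩
  constructor
  · intro h
    apply vs_ext
    intro y
    rw [mem_ext, key]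
    constructor
    · intro hy
      have : y.rank ≤ o := by
        obtain ⟨a, ha, b, hb, hyb⟩ := hy
        exact vs_mem_rank hyb
      exact (h ⟨y, this⟩).2 hy
    · intro hy
      exact (h (down hy)).1 hy
  · rintro rfl y
    rw [mem_ext, key]

theorem Fix_iff {w F : VS o} : Fix w F ↔ ∀ a : VS o, a.1 ⊆ F.1 → ext w a = a := by
  unfold Fix
  simp only [sub_iff, Ext_iff]

theorem Inter_iff {X Y Z : VS o} : Inter X Y Z ↔ ∀ z : ZFSet.{u}, z ∈ Z.1 ↔ (z ∈ X.1 ∧ z ∈ Y.1) := by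
  constructor
  · intro h z
    constructor
    · intro hz; exact (h (down hz)).1 hz
    · intro hz; exact (h (down hz.1)).2 hz
  · intro h z
    exact h z.1

theorem Slice_iff {t C S : VS o} : Slice t C S ↔ ∀ x : ZFSet.{u}, x ∈ S.1 ↔ pair t.1 x ∈ C.1 := by
  constructor
  · intro h z
    constructor
    · intro hz; exact App_iff.1 ((h (down hz)).1 hz)
    · intro hz
      have : z.rank ≤ o := (rank_right_lt _ _).le.trans ((rank_lt_of_mem hz).le.trans C.2)
      exact (h ⟨z, this⟩).2 (App_iff.2 hz)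
  · intro h z
    rw [h z.1, App_iff]

theorem Emp_iff {x : VS o} : Emp x ↔ x.1 = ∅ := by
  rw [ZFSet.eq_empty]
  constructor
  · intro h y hy
    exact h (down hy) hy
  · intro h y hy
    exact h _ hy

theorem Pres_iff {Q : ∀ {o : Ordinal.{u}}, VS o → VS o → VS o → Prop} {w : VS o} :
    Pres Q w ↔ ∀ x y z : VS o, Q x y z ↔ Q (ext w x) (ext w y) (ext w z) := by
  constructor
  · intro h x y z
    exact h x _ y _ z _ (Ext_iff.2 rfl) (Ext_iff.2 rfl) (Ext_iff.2 rfl)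
  · intro h x x' y y' z z' h1 h2 h3
    rw [Ext_iff] at h1 h2 h3
    subst h1 h2 h3
    exact h x y z

theorem SS_iff {E : VS o → Prop} {Z X X' F : VS o} : SS E Z X X' F ↔
    ∃ k : VS o, E k ∧ ext k X = X' ∧ (∀ a : VS o, a.1 ⊆ F.1 → ext k a = a) ∧
      ∃ Z1 : VS o, ext k Z1 = Z := by
  unfold SS
  simp only [Ext_iff, Fix_iff]

theorem EE_succ_iff {n : ℕ} {w : VS o} : EE (n+1) w ↔ EE n w ∧ ∀ Z X X' F : VS o,
    SS (fun k => EE n k) (ext w Z) (ext w X) (ext w X') (ext w F) →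
      SS (fun k => EE n k) Z X X' F := by
  constructor
  · rintro ⟨h1, h2⟩
    exact ⟨h1, fun Z X X' F h => h2 Z _ (Ext_iff.2 rfl) X _ (Ext_iff.2 rfl) X' _ (Ext_iff.2 rfl)
      F _ (Ext_iff.2 rfl) h⟩
  · rintro ⟨h1, h2⟩
    refine ⟨h1, fun Z Z' hZ X Y hX X' Y' hX' F F' hF h => ?_⟩
    rw [Ext_iff] at hZ hX hX' hF
    subst hZ hX hX' hF
    exact h2 Z X X' F h

end SOCat
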