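import Pool.Agent.SOCat.Down2

namespace SOCat

universe u

variable {τ : Voc}

namespace SO

def imp (φ ψ : SO τ) : SO τ := .neg (.and φ (.neg ψ))
def ex (x : ℕ) (φ : SO τ) : SO τ := .neg (.all x (.neg φ))
def exR (r i : ℕ) (φ : SO τ) : SO τ := .neg (.allR r i (.neg φ))

section
variable {M : Type u} {S : Str τ M} {v : ℕ → M} {W : Asg M} {φ ψ : SO τ}

theorem sat_imp : (imp φ ψ).Sat S v W ↔ (φ.Sat S v W → ψ.Sat S v W) := by
  simp only [imp, Sat]; tauto

theorem sat_ex {x : ℕ} : (ex x φ).Sat S v W ↔ ∃ m : M, φ.Sat S (Function.update v x m) W := by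
  simp only [ex, Sat]; push Not; rfl

theorem sat_exR {r i : ℕ} : (exR r i φ).Sat S v W ↔ ∃ A, φ.Sat S v (W.upd r i A) := by
  simp only [exR, Sat]; push Not; rfl

/-- strict bound on the first-order variables -/
def bd : SO τ → ℕ
  | .eq x y => max x y + 1
  | .rel _ xs => Finset.univ.sup xs + 1
  | .fn _ xs y => max (Finset.univ.sup xs) y + 1
  | .var _ _ xs => Finset.univ.sup xs + 1
  | .neg φ => bd φ
  | .and φ ψ => max (bd φ) (bd ψ)
  | .all x φ => max (x+1) (bd φ)
  | .allR _ _ φ => bd φ

/-- conjunction of a list -/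
def conj : List (SO τ) → SO τ
  | [] => .eq 0 0
  | φ :: L => .and φ (conj L)

theorem sat_conj {L : List (SO τ)} : (conj L).Sat S v W ↔ ∀ φ ∈ L, φ.Sat S v W := by
  induction L with
  | nil => simp [conj, Sat]
  | cons φ L ih => simp [conj, Sat, ih]

/-- existential second-order quantification over a list of variables -/
def exL : List (ℕ × ℕ) → SO τ → SO τ
  | [], φ => φ
  | q :: L, φ => exR q.1 q.2 (exL L φ)

end

theorem sat_exL {M : Type u} {S : Str τ M} {v : ℕ → M} {φ : SO τ} (L : List (ℕ × ℕ)) :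
    ∀ (W : Asg M), (exL L φ).Sat S v W ↔
      ∃ W' : Asg M, (∀ r i, (r, i) ∉ L → W' r i = W r i) ∧ φ.Sat S v W' := by
  induction L with
  | nil =>
    intro W
    constructor
    · intro h; exact ⟨W, fun _ _ _ => rfl, h⟩
    · rintro ⟨W', h1, h2⟩
      have : W' = W := by funext r i; exact h1 r i (by simp)
      rwa [this] at h2
  | cons q L ih =>
    intro W
    show (exR q.1 q.2 (exL L φ)).Sat S v W ↔ _
    rw [sat_exR]
    constructor
    · rintro ⟨A, hA⟩
      rw [ih] at hA
      obtain ⟨W', h1, h2⟩ := hA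
      refine ⟨W', fun r i hri => ?_, h2⟩
      rw [List.mem_cons, not_or] at hri
      rw [h1 r i hri.2, W.upd_ne]
      rintro ⟨rfl, rfl⟩
      exact hri.1 rfl
    · rintro ⟨W', h1, h2⟩
      refine ⟨W' q.1 q.2, (ih _).2 ⟨W', fun r i hri => ?_, h2⟩⟩
      by_cases hq : r = q.1 ∧ i = q.2
      · obtain ⟨rfl, rfl⟩ := hq
        rw [W.upd_same]
      · rw [W.upd_ne _ _ _ hq, h1]
        rw [List.mem_cons, not_or]
        refine ⟨fun e => hq ?_, hri⟩
        rw [← e]
        exact ⟨rfl, rfl⟩

/-- `B x` -/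
def Bx (x : ℕ) : SO τ := .var 1 0 (fun _ => x)

/-- `∃ x_0 ... x_{n-1} ∈ B` -/
def exB : ℕ → SO τ → SO τ
  | 0, φ => φ
  | n + 1, φ => exB n (ex n (.and (Bx n) φ))

theorem sat_exB {M : Type u} {S : Str τ M} {v : ℕ → M} {W : Asg M} (n : ℕ) : ∀ (φ : SO τ),
    (exB n φ).Sat S v W ↔ ∃ v' : ℕ → M, (∀ k < n, W 1 0 (fun _ => v' k)) ∧ (∀ k, n ≤ k → v' k = v k) ∧
      φ.Sat S v' W := by
  induction n with
  | zero =>
    intro φ
    constructor
    · intro h; exact ⟨v, fun _ h => absurd h (by omega), fun _ _ => rfl, h⟩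
    · rintro ⟨v', _, h1, h2⟩
      have : v' = v := by funext k; exact h1 k (Nat.zero_le k)
      rwa [this] at h2
  | succ n ih =>
    intro φ
    show (exB n _).Sat S v W ↔ _
    rw [ih]
    constructor
    · rintro ⟨v', h1, h2, h3⟩
      rw [sat_ex] at h3
      obtain ⟨m, hm1, hm2⟩ := h3
      refine ⟨Function.update v' n m, fun k hk => ?_, fun k hk => ?_, hm2⟩
      · by_cases hkn : k = n
        · subst hkn; exact hm1
        · rw [Function.update_of_ne hkn]; exact h1 k (by omega)
      · rw [Function.update_of_ne (by omega)]; exact h2 k (by omega)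
    · rintro ⟨v', h1, h2, h3⟩
      refine ⟨Function.update v' n (v n), fun k hk => ?_, fun k hk => ?_, ?_⟩
      · rw [Function.update_of_ne (by omega)]; exact h1 k (by omega)
      · by_cases hkn : k = n
        · subst hkn; rw [Function.update_self]
        · rw [Function.update_of_ne hkn]; exact h2 k (by omega)
      · rw [sat_ex]
        refine ⟨v' n, ?_⟩
        rw [Function.update_idem, Function.update_eq_self]
        exact ⟨h1 n (by omega), h3⟩

/-- `∀ x_0 ... x_{n-1} ∈ B` -/
def allB (n : ℕ) (φ : SO τ) : SO τ := .neg (exB n (.neg φ))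

theorem sat_allB {M : Type u} {S : Str τ M} {v : ℕ → M} {W : Asg M} (n : ℕ) (φ : SO τ) :
    (allB n φ).Sat S v W ↔ ∀ v' : ℕ → M, (∀ k < n, W 1 0 (fun _ => v' k)) →
      (∀ k, n ≤ k → v' k = v k) → φ.Sat S v' W := by
  show ¬ (exB n _).Sat S v W ↔ _
  rw [sat_exB]
  push Not
  constructor
  · intro h v' h1 h2
    by_contra h3
    exact h v' h1 h2 h3
  · intro h v' h1 h2 h3
    exact h3 (h v' h1 h2)

/-- the shift of the second-order variables -/
abbrev cc (τ : Voc) : ℕ := τ.nR + τ.nF + 1

/-- relativisation to `B`, the symbols of the vocabulary being replaced by second-order variables -/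
def tr : SO τ → SO τ
  | .eq x y => .eq x y
  | .rel R xs => .var (τ.aR R) (R.val + 1) xs
  | .fn f xs y => .var (τ.aF f + 1) (τ.nR + f.val + 1) (Fin.cons y xs)
  | .var r i xs => .var r (i + cc τ) xs
  | .neg φ => .neg (tr φ)
  | .and φ ψ => .and (tr φ) (tr ψ)
  | .all x φ => .all x (imp (Bx x) (tr φ))
  | .allR r i φ => .allR r (i + cc τ) (tr φ)

structure RL {M N : Type u} (ι : N → M) (S' : Str τ N) (W' : Asg N) (W : Asg M) : Prop where
  B : ∀ m, W 1 0 (fun _ => m) ↔ ∃ n, ι n = m
  rel : ∀ R ys, S'.rel R ys ↔ W (τ.aR R) (R.val + 1) (fun k => ι (ys k))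
  fn : ∀ f ys y, S'.fn f ys = y ↔
    W (τ.aF f + 1) (τ.nR + f.val + 1) (Fin.cons (ι y) (fun k => ι (ys k)))
  var : ∀ r i ys, W' r i ys ↔ W r (i + cc τ) (fun k => ι (ys k))

theorem tr_iff {M N : Type u} {ι : N → M} (hι : Function.Injective ι) {S : Str τ M}
    {S' : Str τ N} (φ : SO τ) : ∀ (b : ℕ), bd φ ≤ b → ∀ (v : ℕ → M) (v' : ℕ → N) (W : Asg M)
      (W' : Asg N), RL ι S' W' W → (∀ k < b, v k = ι (v' k)) →
      ((tr φ).Sat S v W ↔ φ.Sat S' v' W') := by
  induction φ with
  | eq x y =>
    intro b hb v v' W W' h hv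
    simp only [bd] at hb
    show v x = v y ↔ v' x = v' y
    rw [hv x (by omega), hv y (by omega), hι.eq_iff]
  | rel R xs =>
    intro b hb v v' W W' h hv
    simp only [bd] at hb
    show W _ _ _ ↔ S'.rel R _
    rw [h.rel]
    have : (fun k => v (xs k)) = (fun k => ι (v' (xs k))) := by
      funext k
      apply hv
      have := Finset.le_sup (f := xs) (Finset.mem_univ k)
      omega
    rw [this]
  | fn f xs y =>
    intro b hb v v' W W' h hv
    simp only [bd] at hb
    show W _ _ _ ↔ S'.fn f _ = _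
    rw [h.fn]
    have : (fun k => v ((Fin.cons y xs : Fin (τ.aF f + 1) → ℕ) k)) =
        (Fin.cons (ι (v' y)) (fun k => ι (v' (xs k))) : Fin (τ.aF f + 1) → M) := by
      funext k
      refine Fin.cases ?_ (fun k => ?_) k
      · simp only [Fin.cons_zero]
        exact hv y (by omega)
      · simp only [Fin.cons_succ]
        apply hv
        have := Finset.le_sup (f := xs) (Finset.mem_univ k)
        omega
    rw [this]
  | var r i xs =>
    intro b hb v v' W W' h hv
    simp only [bd] at hb
    show W _ _ _ ↔ W' r i _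
    rw [h.var]
    have : (fun k => v (xs k)) = (fun k => ι (v' (xs k))) := by
      funext k
      apply hv
      have := Finset.le_sup (f := xs) (Finset.mem_univ k)
      omega
    rw [this]
  | neg φ ih =>
    intro b hb v v' W W' h hv
    exact not_congr (ih b hb v v' W W' h hv)
  | and φ ψ ih1 ih2 =>
    intro b hb v v' W W' h hv
    simp only [bd] at hb
    exact and_congr (ih1 b (by omega) v v' W W' h hv) (ih2 b (by omega) v v' W W' h hv)
  | all x φ ih =>
    intro b hb v v' W W' h hv
    simp only [bd] at hb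
    have key : ∀ n : N, ((tr φ).Sat S (Function.update v x (ι n)) W ↔
        φ.Sat S' (Function.update v' x n) W') := by
      intro n
      refine ih b (by omega) _ _ W W' h (fun k hk => ?_)
      by_cases hkx : k = x
      · subst hkx; rw [Function.update_self, Function.update_self]
      · rw [Function.update_of_ne hkx, Function.update_of_ne hkx]; exact hv k hk
    show (∀ m : M, (imp (Bx x) (tr φ)).Sat S (Function.update v x m) W) ↔
      ∀ n : N, φ.Sat S' (Function.update v' x n) W'
    constructor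
    · intro h1 n
      have h2 := h1 (ι n)
      rw [sat_imp] at h2
      refine (key n).1 (h2 ?_)
      show W 1 0 (fun _ => Function.update v x (ι n) x)
      rw [Function.update_self, h.B]
      exact ⟨n, rfl⟩
    · intro h1 m
      rw [sat_imp]
      intro h2
      have h3 : W 1 0 (fun _ => Function.update v x m x) := h2
      rw [Function.update_self, h.B] at h3
      obtain ⟨n, rfl⟩ := h3
      exact (key n).2 (h1 n)
  | allR r i φ ih =>
    intro b hb v v' W W' h hv
    simp only [bd] at hb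
    have hcc : cc τ = τ.nR + τ.nF + 1 := rfl
    have key : ∀ (A : (Fin r → M) → Prop) (A' : (Fin r → N) → Prop),
        (∀ ys, A' ys ↔ A (fun k => ι (ys k))) →
        ((tr φ).Sat S v (W.upd r (i + cc τ) A) ↔ φ.Sat S' v' (W'.upd r i A')) := by
      intro A A' hA
      refine ih b hb _ _ _ _ ⟨fun m => ?_, fun R ys => ?_, fun f ys y => ?_, fun r' i' ys => ?_⟩ hv
      · rw [W.upd_ne _ _ _ (by omega), h.B]
      · rw [W.upd_ne _ _ _ (by have := R.2; omega), h.rel]
      · rw [W.upd_ne _ _ _ (by have := f.2; omega), h.fn]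
      · by_cases hri : r' = r ∧ i' = i
        · obtain ⟨rfl, rfl⟩ := hri
          rw [W'.upd_same, W.upd_same, hA]
        · rw [W'.upd_ne _ _ _ hri, W.upd_ne _ _ _ (by omega), h.var]
    show (∀ A, _) ↔ (∀ A', _)
    constructor
    · intro h1 A'
      refine (key (fun xs => ∃ ys, A' ys ∧ xs = fun k => ι (ys k)) A' (fun ys => ?_)).1 (h1 _)
      constructor
      · intro h2; exact ⟨ys, h2, rfl⟩
      · rintro ⟨zs, h2, h3⟩
        have : ys = zs := by
          funext k
          exact hι (congrFun h3 k)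
        rwa [this]
    · intro h1 A
      exact (key A (fun ys => A (fun k => ι (ys k))) (fun _ => Iff.rfl)).2 (h1 _)

end SO

end SOCat
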