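import Pool.Agent.SOCat.Sigma

namespace SOCat

universe u

variable {τ : Voc}

namespace SO

/-- the symbols that `σ` quantifies over: the subset `B` and the symbols of the vocabulary -/
abbrev Sym (τ : Voc) := Option (Fin τ.nR ⊕ Fin τ.nF)

def sl : Sym τ → ℕ × ℕ
  | none => (1, 0)
  | some (.inl R) => (τ.aR R, R.val + 1)
  | some (.inr f) => (τ.aF f + 1, τ.nR + f.val + 1)

theorem sl_inj : Function.Injective (sl (τ := τ)) := by
  intro c d h
  have h2 := congrArg Prod.snd h
  match c, d with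
  | none, none => rfl
  | none, some (.inl R) => simp only [sl] at h2; omega
  | none, some (.inr f) => simp only [sl] at h2; omega
  | some (.inl R), none => simp only [sl] at h2; omega
  | some (.inr R), none => simp only [sl] at h2; omega
  | some (.inl R), some (.inl R') =>
    simp only [sl] at h2
    have : R = R' := Fin.ext (by omega)
    rw [this]
  | some (.inl R), some (.inr f) => simp only [sl] at h2; have := R.2; omega
  | some (.inr f), some (.inl R) => simp only [sl] at h2; have := R.2; omega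
  | some (.inr f), some (.inr f') =>
    simp only [sl] at h2
    have : f = f' := Fin.ext (by omega)
    rw [this]

theorem exists_asg {M : Type u} {κ : Type} {s : κ → ℕ × ℕ} (hs : Function.Injective s)
    (A : ∀ c, (Fin (s c).1 → M) → Prop) (W : Asg M) :
    ∃ W' : Asg M, (∀ r i, (∀ c, s c ≠ (r, i)) → W' r i = W r i) ∧
      ∀ c, W' (s c).1 (s c).2 = A c := by
  classical
  let V : ∀ q : ℕ × ℕ, (Fin q.1 → M) → Prop := fun q =>
    if h : ∃ c, s c = q then (h.choose_spec ▸ A h.choose : (Fin q.1 → M) → Prop) else W q.1 q.2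
  refine ⟨fun r i => V (r, i), fun r i h => ?_, fun c => ?_⟩
  · have : ¬ ∃ c, s c = (r, i) := by push Not; exact h
    simp only [V, dif_neg this]
  · show V (s c) = A c
    have h : ∃ c', s c' = s c := ⟨c, rfl⟩
    simp only [V, dif_pos h]
    have key : ∀ (c' : κ) (e : s c' = s c), c' = c → (e ▸ A c' : (Fin (s c).1 → M) → Prop) = A c := by
      intro c' e hc
      subst hc
      rfl
    exact key _ h.choose_spec (hs h.choose_spec)

def pr {α : Type*} (a b : α) : Fin 2 → α := fun k => if k = 0 then a else b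

theorem comp_pr {α β : Type*} (v : α → β) (a b : α) : (fun k => v (pr a b k)) = pr (v a) (v b) := by
  funext k
  unfold pr
  split <;> rfl

/-- there is no injection into `B` -/
def smallB : SO τ :=
  .neg (exR 2 0 (.and (.all 0 (ex 1 (.and (Bx 1) (.var 2 0 (pr 0 1)))))
    (.all 0 (.all 1 (.all 2 (imp (.var 2 0 (pr 0 2)) (imp (.var 2 0 (pr 1 2)) (.eq 0 1))))))))

theorem sat_smallB {M : Type u} {S : Str τ M} {v : ℕ → M} {W : Asg M} :
    (smallB (τ := τ)).Sat S v W ↔
      Cardinal.mk {m : M // W 1 0 (fun _ => m)} < Cardinal.mk M := by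
  have h1 : (smallB (τ := τ)).Sat S v W ↔ ¬ ∃ F : (Fin 2 → M) → Prop,
      (∀ a : M, ∃ b : M, W 1 0 (fun _ => b) ∧ F (pr a b)) ∧
      ∀ a b c : M, F (pr a c) → F (pr b c) → a = b := by
    unfold smallB
    simp only [Sat, sat_exR, sat_imp, sat_ex, Bx, comp_pr, Asg.upd_same]
    have : ∀ (F : (Fin 2 → M) → Prop), W.upd 2 0 F 1 0 = W 1 0 := fun F =>
      W.upd_ne _ _ _ (by omega)
    simp only [this]
    simp [Function.update]
  rw [h1, ← not_le]
  apply not_congr
  constructor
  · rintro ⟨F, hF1, hF2⟩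
    choose g hg1 hg2 using hF1
    refine ⟨⟨fun a => ⟨g a, hg1 a⟩, fun a b hab => ?_⟩⟩
    have : g a = g b := congrArg Subtype.val hab
    refine hF2 a b (g a) (hg2 a) ?_
    rw [this]
    exact hg2 b
  · rintro ⟨g⟩
    refine ⟨fun q => (g (q 0)).1 = q 1, fun a => ⟨(g a).1, (g a).2, rfl⟩, fun a b c ha hb => ?_⟩
    have h1 : (g a).1 = c := ha
    have h2 : (g b).1 = c := hb
    exact g.injective (Subtype.ext (h1.trans h2.symm))

/-- the graph variable of the function symbol `f` -/
def Gr (f : Fin τ.nF) (y : ℕ) : SO τ :=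
  .var (τ.aF f + 1) (τ.nR + f.val + 1) (Fin.cons y (fun k => k.val))

/-- the graph variable of `f` is the graph of a function on `B` -/
def fnc (f : Fin τ.nF) : SO τ :=
  allB (τ.aF f) (.and (ex (τ.aF f) (.and (Bx (τ.aF f)) (Gr f (τ.aF f))))
    (.all (τ.aF f) (.all (τ.aF f + 1) (imp (Bx (τ.aF f)) (imp (Bx (τ.aF f + 1))
      (imp (Gr f (τ.aF f)) (imp (Gr f (τ.aF f + 1)) (.eq (τ.aF f) (τ.aF f + 1)))))))))

theorem sat_Gr {M : Type u} {S : Str τ M} {v : ℕ → M} {W : Asg M} {f : Fin τ.nF} {y : ℕ} :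
    (Gr f y).Sat S v W ↔ W (τ.aF f + 1) (τ.nR + f.val + 1)
      (Fin.cons (v y) (fun k : Fin (τ.aF f) => v k.val)) := by
  show W _ _ _ ↔ _
  have : (fun k => v ((Fin.cons y (fun k => k.val) : Fin (τ.aF f + 1) → ℕ) k)) =
      (Fin.cons (v y) (fun k : Fin (τ.aF f) => v k.val) : Fin (τ.aF f + 1) → M) := by
    funext k
    refine Fin.cases ?_ (fun k => ?_) k
    · simp only [Fin.cons_zero]
    · simp only [Fin.cons_succ]
  rw [this]

theorem sat_Bx {M : Type u} {S : Str τ M} {v : ℕ → M} {W : Asg M} {x : ℕ} :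
    (Bx (τ := τ) x).Sat S v W ↔ W 1 0 (fun _ => v x) := Iff.rfl

theorem sat_fnc {M : Type u} {S : Str τ M} {v : ℕ → M} {W : Asg M} {f : Fin τ.nF} :
    (fnc f).Sat S v W ↔ ∀ xs : Fin (τ.aF f) → M, (∀ k, W 1 0 (fun _ => xs k)) →
      (∃ y, W 1 0 (fun _ => y) ∧ W (τ.aF f + 1) (τ.nR + f.val + 1) (Fin.cons y xs)) ∧
      ∀ y y', W 1 0 (fun _ => y) → W 1 0 (fun _ => y') →
        W (τ.aF f + 1) (τ.nR + f.val + 1) (Fin.cons y xs) →
        W (τ.aF f + 1) (τ.nR + f.val + 1) (Fin.cons y' xs) → y = y' := by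
  have hbody : ∀ v' : ℕ → M,
      ((SO.and (ex (τ.aF f) (.and (Bx (τ.aF f)) (Gr f (τ.aF f))))
    (.all (τ.aF f) (.all (τ.aF f + 1) (imp (Bx (τ.aF f)) (imp (Bx (τ.aF f + 1))
      (imp (Gr f (τ.aF f)) (imp (Gr f (τ.aF f + 1)) (.eq (τ.aF f) (τ.aF f + 1))))))))).Sat S v' W ↔
      (∃ y, W 1 0 (fun _ => y) ∧ W (τ.aF f + 1) (τ.nR + f.val + 1)
        (Fin.cons y (fun k : Fin (τ.aF f) => v' k.val))) ∧
      ∀ y y', W 1 0 (fun _ => y) → W 1 0 (fun _ => y') →
        W (τ.aF f + 1) (τ.nR + f.val + 1) (Fin.cons y (fun k : Fin (τ.aF f) => v' k.val)) →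
        W (τ.aF f + 1) (τ.nR + f.val + 1) (Fin.cons y' (fun k : Fin (τ.aF f) => v' k.val)) →
          y = y') := by
    intro v'
    have e1 : ∀ (m : M) (k : Fin (τ.aF f)), Function.update v' (τ.aF f) m k.val = v' k.val := by
      intro m k
      exact Function.update_of_ne (by have := k.2; omega) _ _
    have e2 : ∀ (m m' : M) (k : Fin (τ.aF f)),
        Function.update (Function.update v' (τ.aF f) m) (τ.aF f + 1) m' k.val = v' k.val := by
      intro m m' k
      rw [Function.update_of_ne (by have := k.2; omega)]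
      exact e1 m k
    have e3 : ∀ (m m' : M),
        Function.update (Function.update v' (τ.aF f) m) (τ.aF f + 1) m' (τ.aF f) = m := by
      intro m m'
      rw [Function.update_of_ne (by omega), Function.update_self]
    simp only [Sat, sat_ex, sat_imp, sat_Gr, sat_Bx, Function.update_self, e1, e2, e3]
  unfold fnc
  rw [sat_allB]
  constructor
  · intro h xs hxs
    have h1 := h (fun k => if hk : k < τ.aF f then xs ⟨k, hk⟩ else v k)
      (fun k hk => by simp only [hk, dif_pos]; exact hxs _)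
      (fun k hk => by simp only [dif_neg (not_lt.2 hk)])
    rw [hbody] at h1
    have : (fun k : Fin (τ.aF f) => (if hk : k.val < τ.aF f then xs ⟨k.val, hk⟩ else v k.val)) = xs := by
      funext k
      simp only [k.2, dif_pos]
    rw [this] at h1
    exact h1
  · intro h v' h1 _
    rw [hbody]
    exact h (fun k => v' k.val) (fun k => h1 _ k.2)

/-- there are a subset `B` of smaller cardinality and a structure on `B` that satisfies `θ` -/
noncomputable def sigma (θ : SO τ) : SO τ :=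
  exL ((Finset.univ : Finset (Sym τ)).toList.map sl)
    (.and smallB (.and (conj ((List.finRange τ.nF).map fnc)) (exB (bd θ + 1) (tr θ))))

theorem sat_sigma {θ : SO τ}
    (hθ : ∀ (N : Type u) (S : Str τ N) (v v' : ℕ → N) (W W' : Asg N), θ.Sat S v W → θ.Sat S v' W')
    {M : Type u} {S : Str τ M} {v : ℕ → M} {W : Asg M} :
    (sigma θ).Sat S v W ↔ ∃ (N : Type u) (S' : Str τ N) (v' : ℕ → N) (W' : Asg N),
      Cardinal.mk N < Cardinal.mk M ∧ θ.Sat S' v' W' := by
  unfold sigma
  rw [sat_exL]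
  have hL : ∀ r i, (r, i) ∉ (Finset.univ : Finset (Sym τ)).toList.map sl ↔
      ∀ c : Sym τ, sl c ≠ (r, i) := by
    intro r i
    simp
  constructor
  · rintro ⟨W1, _, h1, h2, h3⟩
    rw [sat_smallB] at h1
    rw [sat_conj] at h2
    rw [sat_exB] at h3
    obtain ⟨v1, hv1, _, h4⟩ := h3
    have h2' : ∀ f : Fin τ.nF, (fnc f).Sat S v W1 := by
      intro f
      apply h2
      rw [List.mem_map]
      exact ⟨f, List.mem_finRange f, rfl⟩
    have h5 : ∀ (f : Fin τ.nF) (ys : Fin (τ.aF f) → {m : M // W1 1 0 (fun _ => m)}),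
        ∃ z : {m : M // W1 1 0 (fun _ => m)}, ∀ y : {m : M // W1 1 0 (fun _ => m)}, (z = y ↔
          W1 (τ.aF f + 1) (τ.nR + f.val + 1) (Fin.cons y.1 (fun k => (ys k).1))) := by
      intro f ys
      have h6 := h2' f
      rw [sat_fnc] at h6
      obtain ⟨⟨y, hy1, hy2⟩, h7⟩ := h6 (fun k => (ys k).1) (fun k => (ys k).2)
      refine ⟨⟨y, hy1⟩, fun y' => ?_⟩
      constructor
      · rintro rfl; exact hy2
      · intro h8
        exact Subtype.ext (h7 y y'.1 hy1 y'.2 hy2 h8)
    choose F hF using h5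
    refine ⟨{m : M // W1 1 0 (fun _ => m)},
      ⟨fun R ys => W1 (τ.aR R) (R.val + 1) (fun k => (ys k).1), F⟩,
      fun k => if hk : k < bd θ + 1 then ⟨v1 k, hv1 k hk⟩ else ⟨v1 0, hv1 0 (by omega)⟩,
      fun r i ys => W1 r (i + cc τ) (fun k => (ys k).1), h1, ?_⟩
    rw [← tr_iff (ι := Subtype.val) Subtype.val_injective (S := S) θ (bd θ + 1) (by omega) v1]
    · exact h4
    · refine ⟨fun m => ?_, fun R ys => Iff.rfl, fun f ys y => hF f ys y, fun r i ys => Iff.rfl⟩
      constructor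
      · intro hm; exact ⟨⟨m, hm⟩, rfl⟩
      · rintro ⟨n, rfl⟩; exact n.2
    · intro k hk
      simp only [hk, dif_pos]
  · rintro ⟨N, S', v', W', h1, h2⟩
    obtain ⟨ι⟩ : Nonempty (N ↪ M) := (Cardinal.le_def N M).1 h1.le
    let A : ∀ c : Sym τ, (Fin (sl c).1 → M) → Prop := fun c => match c with
      | none => fun xs => ∃ n, ι n = xs ⟨0, Nat.one_pos⟩
      | some (.inl R) => fun xs => ∃ ys, S'.rel R ys ∧ xs = fun k => ι (ys k)
      | some (.inr f) => fun xs => ∃ ys, xs = Fin.cons (ι (S'.fn f ys)) (fun k => ι (ys k))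
    obtain ⟨W1, hW1, hW2⟩ := exists_asg sl_inj A W
    have hB : ∀ m, W1 1 0 (fun _ => m) ↔ ∃ n, ι n = m := by
      intro m
      have := hW2 none
      show W1 (sl (τ := τ) none).1 (sl (τ := τ) none).2 _ ↔ _
      rw [this]
    have hR : ∀ R (ys : Fin (τ.aR R) → N), S'.rel R ys ↔ W1 (τ.aR R) (R.val + 1) (fun k => ι (ys k)) := by
      intro R ys
      have := hW2 (some (.inl R))
      show _ ↔ W1 (sl (some (.inl R))).1 (sl (some (.inl R))).2 _
      rw [this]
      constructor
      · intro h; exact ⟨ys, h, rfl⟩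
      · rintro ⟨zs, hz1, hz2⟩
        have : ys = zs := by funext k; exact ι.injective (congrFun hz2 k)
        rwa [this]
    have hF : ∀ f (ys : Fin (τ.aF f) → N) (y : N), S'.fn f ys = y ↔
        W1 (τ.aF f + 1) (τ.nR + f.val + 1) (Fin.cons (ι y) (fun k => ι (ys k))) := by
      intro f ys y
      have := hW2 (some (.inr f))
      show _ ↔ W1 (sl (some (.inr f))).1 (sl (some (.inr f))).2 _
      rw [this]
      constructor
      · rintro rfl; exact ⟨ys, rfl⟩
      · rintro ⟨zs, hz⟩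
        have h3 := Fin.cons_injective2 hz
        have : ys = zs := by funext k; exact ι.injective (congrFun h3.2 k)
        rw [this]
        exact (ι.injective h3.1).symm
    refine ⟨W1, fun r i hri => hW1 r i ((hL r i).1 hri), ?_, ?_, ?_⟩
    · rw [sat_smallB]
      refine lt_of_le_of_lt ?_ h1
      have hsub : ∀ m : {m : M // W1 1 0 (fun _ => m)}, ∃ n, ι n = m.1 := fun m => (hB _).1 m.2
      choose g hg using hsub
      refine ⟨⟨g, fun a b hab => ?_⟩⟩
      apply Subtype.ext
      rw [← hg a, ← hg b, hab]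
    · rw [sat_conj]
      intro φ hφ
      rw [List.mem_map] at hφ
      obtain ⟨f, _, rfl⟩ := hφ
      rw [sat_fnc]
      intro xs hxs
      have hsub : ∀ k, ∃ n, ι n = xs k := fun k => (hB _).1 (hxs k)
      choose ys hys using hsub
      have exs : xs = fun k => ι (ys k) := by funext k; exact (hys k).symm
      subst exs
      refine ⟨⟨ι (S'.fn f ys), (hB _).2 ⟨_, rfl⟩, (hF f ys _).1 rfl⟩, ?_⟩
      intro y y' hy hy' hy2 hy2'
      obtain ⟨n, rfl⟩ := (hB _).1 hy
      obtain ⟨n', rfl⟩ := (hB _).1 hy'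
      rw [← hF] at hy2 hy2'
      rw [← hy2, ← hy2']
    · rw [sat_exB]
      refine ⟨fun k => if k < bd θ + 1 then ι (v' k) else v k, fun k hk => ?_, fun k hk => ?_, ?_⟩
      · simp only [hk, if_true]
        exact (hB _).2 ⟨_, rfl⟩
      · simp only [if_neg (not_lt.2 hk)]
      · rw [tr_iff (ι := ι) ι.injective (S' := S') θ (bd θ + 1) (by omega) _ v' W1
          (fun r i ys => W1 r (i + cc τ) (fun k => ι (ys k)))]
        · exact hθ N S' v' v' W' _ h2
        · exact ⟨hB, hR, hF, fun r i ys => Iff.rfl⟩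
        · intro k hk
          simp only [hk, if_true]

end SO

end SOCat
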