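import Pool.Agent.SOCat.Sem

namespace SOCat

universe u

open ZFSet

variable {o : Ordinal.{u}}

theorem EE_E0 : ∀ {n : ℕ} {w : VS o}, EE n w → E0 w
  | 0, _, h => h
  | n + 1, _, h => EE_E0 (n := n) h.1

section E0
variable {w : VS o} (hw : E0 w)
include hw

theorem ext_mem_iff (x y : VS o) : x.1 ∈ y.1 ↔ (ext w x).1 ∈ (ext w y).1 :=
  (Pres_iff (Q := fun x y _ => x.1 ∈ y.1)).1 hw.1 x y x

theorem ext_empty {x : VS o} (hx : x.1 = ∅) : (ext w x).1 = ∅ :=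
  Emp_iff.1 (((Pres_iff (Q := fun x _ _ => Emp x)).1 hw.2.1 x x x).1 (Emp_iff.2 hx))

theorem ext_inter {x y z : VS o} (h : ∀ t : ZFSet.{u}, t ∈ z.1 ↔ (t ∈ x.1 ∧ t ∈ y.1)) :
    ∀ t : ZFSet.{u}, t ∈ (ext w z).1 ↔ (t ∈ (ext w x).1 ∧ t ∈ (ext w y).1) :=
  Inter_iff.1 (((Pres_iff (Q := fun x y z => Inter x y z)).1 hw.2.2.1 x y z).1 (Inter_iff.2 h))

theorem ext_UP {d a b : VS o} (h : d.1 = {a.1, b.1}) :
    (ext w d).1 = {(ext w a).1, (ext w b).1} :=
  UP_iff.1 (((Pres_iff (Q := fun x y z => UP x y z)).1 hw.2.2.2.1 d a b).1 (UP_iff.2 h))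

theorem ext_slice {t C S : VS o} (h : ∀ x : ZFSet.{u}, x ∈ S.1 ↔ pair t.1 x ∈ C.1) :
    ∀ x : ZFSet.{u}, x ∈ (ext w S).1 ↔ pair (ext w t).1 x ∈ (ext w C).1 :=
  Slice_iff.1 (((Pres_iff (Q := fun x y z => Slice x y z)).1 hw.2.2.2.2 t C S).1 (Slice_iff.2 h))

theorem ext_inj {x y : VS o} (h : ext w x = ext w y) : x = y := by
  apply vs_ext
  intro z
  constructor
  · intro hz
    have := (ext_mem_iff hw (down hz) x).1 hz
    rw [h] at this
    exact (ext_mem_iff hw (down hz) y).2 this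
  · intro hz
    have := (ext_mem_iff hw (down hz) y).1 hz
    rw [← h] at this
    exact (ext_mem_iff hw (down hz) x).2 this

end E0

theorem ext_mono {w X Y : VS o} (h : X.1 ⊆ Y.1) : (ext w X).1 ⊆ (ext w Y).1 := by
  intro y hy
  rw [mem_ext] at hy ⊢
  obtain ⟨a, b, ha, hb, hy⟩ := hy
  exact ⟨a, b, fun _ hz => h (ha hz), hb, hy⟩

/-- continuity -/
theorem ext_cont {w X : VS o} {y : ZFSet.{u}} (h : y ∈ (ext w X).1) :
    ∃ a : VS o, a.1.rank < o ∧ a.1 ⊆ X.1 ∧ y ∈ (ext w a).1 := by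
  rw [mem_ext] at h
  obtain ⟨a, b, ha, hb, hy⟩ := h
  have h1 : a.rank < o := (rank_left_lt a b).trans_le ((rank_lt_of_mem hb).le.trans w.2)
  refine ⟨⟨a, h1.le⟩, h1, ha, ?_⟩
  rw [mem_ext]
  exact ⟨a, b, fun _ hz => hz, hb, hy⟩

/-- tags -/
noncomputable def tag : ℕ → ZFSet.{u}
  | 0 => ∅
  | n + 1 => {tag n}

theorem rank_tag (n : ℕ) : (tag.{u} n).rank = n := by
  induction n with
  | zero => simp [tag]
  | succ n ih => simp [tag, ih]

theorem tag_inj {n m : ℕ} (h : tag.{u} n = tag m) : n = m := by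
  have := congrArg ZFSet.rank h
  rw [rank_tag, rank_tag] at this
  exact_mod_cast this

/-- limit ordinal -/
def Lim (o : Ordinal.{u}) : Prop := 0 < o ∧ ∀ a < o, a + 1 < o

theorem Lim.nat_lt (ho : Lim o) (n : ℕ) : (n : Ordinal.{u}) < o := by
  induction n with
  | zero => exact_mod_cast ho.1
  | succ n ih => exact_mod_cast ho.2 _ ih

theorem Lim.rank_pair_lt (ho : Lim o) {a b : ZFSet.{u}} (ha : a.rank < o) (hb : b.rank < o) :
    (pair a b).rank < o := by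
  have h1 : ({a} : ZFSet.{u}).rank < o := by
    rw [rank_singleton]
    exact ho.2 _ ha
  have h2 : ({a, b} : ZFSet.{u}).rank < o := by
    rw [rank_insert, rank_singleton]
    exact max_lt (ho.2 _ ha) (ho.2 _ hb)
  rw [pair, rank_insert, rank_singleton ({a, b} : ZFSet.{u})]
  exact max_lt (ho.2 _ h1) (ho.2 _ h2)

noncomputable def tagv (ho : Lim o) (n : ℕ) : VS o := ⟨tag n, by rw [rank_tag]; exact (ho.nat_lt n).le⟩

theorem ext_tag (ho : Lim o) {w : VS o} (hw : E0 w) (n : ℕ) : ext w (tagv ho n) = tagv ho n := by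
  induction n with
  | zero =>
    apply Subtype.ext
    rw [ext_empty hw (x := tagv ho 0) rfl]
    rfl
  | succ n ih =>
    apply Subtype.ext
    have := ext_UP hw (d := tagv ho (n+1)) (a := tagv ho n) (b := tagv ho n) (by
      show ({tag n} : ZFSet.{u}) = {tag n, tag n}
      simp)
    rw [this, ih]
    show ({tag n, tag n} : ZFSet.{u}) = {tag n}
    simp

/-- family code -/
noncomputable def fam (s : ℕ → VS o) : VS o :=
  ⟨ZFSet.sep (fun p => ∃ n, ∃ x ∈ (s n).1, p = pair (tag n) x) (ZFSet.vonNeumann o), by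
    rw [← ZFSet.subset_vonNeumann]
    intro z hz
    exact (ZFSet.mem_sep.1 hz).1⟩

theorem mem_fam (ho : Lim o) (s : ℕ → VS o) (n : ℕ) (x : ZFSet.{u}) :
    x ∈ (s n).1 ↔ pair (tag n) x ∈ (fam s).1 := by
  unfold fam
  rw [ZFSet.mem_sep]
  constructor
  · intro h
    refine ⟨?_, n, x, h, rfl⟩
    rw [ZFSet.mem_vonNeumann]
    apply ho.rank_pair_lt
    · rw [rank_tag]; exact ho.nat_lt n
    · exact (rank_lt_of_mem h).trans_le (s n).2
  · rintro ⟨_, m, y, hy, h⟩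
    rw [ZFSet.pair_inj] at h
    obtain ⟨h1, rfl⟩ := h
    rw [tag_inj h1]
    exact hy

/-- one step of the extension -/
theorem step (ho : Lim o) {n : ℕ} {w : VS o} (hw : EE (n+1) w) (Z F : VS o)
    (hF : ∀ a : VS o, a.1 ⊆ F.1 → ext w a = a) (s : ℕ → VS o) :
    ∃ k : VS o, EE n k ∧ (∀ a : VS o, a.1 ⊆ F.1 → ext k a = a) ∧ (∃ Z1 : VS o, ext k Z1 = Z) ∧
      ∀ m, ext k (s m) = ext w (s m) := by
  obtain ⟨h1, h2⟩ := EE_succ_iff.1 hw
  have hFF : ext w F = F := hF F (fun _ h => h)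
  have h3 : SS (fun k => EE n k) Z (fam s) (ext w (fam s)) F := by
    apply h2
    rw [SS_iff]
    refine ⟨w, h1, rfl, ?_, Z, rfl⟩
    rw [hFF]
    exact hF
  rw [SS_iff] at h3
  obtain ⟨k, hk, hk1, hk2, hk3⟩ := h3
  refine ⟨k, hk, hk2, hk3, fun m => ?_⟩
  apply vs_ext
  intro x
  have e1 := ext_slice (EE_E0 hk) (t := tagv ho m) (C := fam s) (S := s m) (mem_fam ho s m) x
  have e2 := ext_slice (EE_E0 h1) (t := tagv ho m) (C := fam s) (S := s m) (mem_fam ho s m) x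
  rw [e1, e2, ext_tag ho (EE_E0 hk), ext_tag ho (EE_E0 h1), hk1]

end SOCat
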