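import Pool.Agent.SOCat.Step

namespace SOCat

universe u

open ZFSet

variable {o : Ordinal.{u}}

/-- composition `k 0 ∘ k 1 ∘ ... ∘ k (l-1)` -/
noncomputable def D : (ℕ → VS o) → ℕ → VS o → VS o
  | _, 0, X => X
  | k, l + 1, X => ext (k 0) (D (fun i => k (i+1)) l X)

/-- good system -/
structure Good (n : ℕ) (k F W : ℕ → VS o) : Prop where
  E : ∀ i, EE n (k i)
  fix : ∀ i, ∀ a : VS o, a.1 ⊆ (F i).1 → ext (k i) a = a
  cov : ∀ i, (W 0).1 ⊆ (ext (k i) (F (i+1))).1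
  Weq : ∀ i m, ext (k i) (W m) = W (m+1)
  trans : ∀ i, (F i).1.IsTransitive
  mono : ∀ i, (F i).1 ⊆ (F (i+1)).1
  Wtr : ∀ m, (W m).1.IsTransitive
  Wcof : ∀ x : ZFSet.{u}, x.rank < o → ∃ m, x ∈ (W m).1

def Thr (k X : ℕ → VS o) : Prop := ∀ i, ext (k i) (X (i+1)) = X i

theorem Thr.shift {k X : ℕ → VS o} (h : Thr k X) : Thr (fun i => k (i+1)) (fun i => X (i+1)) :=
  fun i => h (i+1)

variable {n : ℕ}

theorem Good.shift {k F W : ℕ → VS o} (h : Good n k F W) :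
    Good n (fun i => k (i+1)) (fun i => F (i+1)) W where
  E i := h.E (i+1)
  fix i := h.fix (i+1)
  cov i := h.cov (i+1)
  Weq i := h.Weq (i+1)
  trans i := h.trans (i+1)
  mono i := h.mono (i+1)
  Wtr := h.Wtr
  Wcof := h.Wcof

theorem Good.mono_le {k F W : ℕ → VS o} (h : Good n k F W) (i l : ℕ) :
    (F i).1 ⊆ (F (i+l)).1 := by
  induction l with
  | zero => exact fun _ hx => hx
  | succ l ih => exact fun _ hx => h.mono _ (ih hx)

theorem D_mem (l : ℕ) : ∀ {k F W : ℕ → VS o}, Good n k F W → ∀ x y : VS o,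
    (x.1 ∈ y.1 ↔ (D k l x).1 ∈ (D k l y).1) := by
  induction l with
  | zero => intro k F W _ x y; rfl
  | succ l ih =>
    intro k F W h x y
    rw [ih h.shift x y]
    exact ext_mem_iff (EE_E0 (h.E 0)) _ _

theorem D_mono (l : ℕ) : ∀ {k : ℕ → VS o} {x y : VS o}, x.1 ⊆ y.1 → (D k l x).1 ⊆ (D k l y).1 := by
  induction l with
  | zero => intro k x y h; exact h
  | succ l ih =>
    intro k x y h
    exact ext_mono (ih h)

theorem D_inter (l : ℕ) : ∀ {k F W : ℕ → VS o}, Good n k F W → ∀ {x y z : VS o},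
    (∀ t : ZFSet.{u}, t ∈ z.1 ↔ (t ∈ x.1 ∧ t ∈ y.1)) →
    ∀ t : ZFSet.{u}, t ∈ (D k l z).1 ↔ (t ∈ (D k l x).1 ∧ t ∈ (D k l y).1) := by
  induction l with
  | zero => intro k F W _ x y z h; exact h
  | succ l ih =>
    intro k F W h x y z hz
    exact ext_inter (EE_E0 (h.E 0)) (ih h.shift hz)

theorem D_fix (l : ℕ) : ∀ {k F W : ℕ → VS o}, Good n k F W → ∀ {a : VS o},
    a.1 ⊆ (F 0).1 → D k l a = a := by
  induction l with
  | zero => intro k F W _ a _; rfl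
  | succ l ih =>
    intro k F W h a ha
    show ext (k 0) _ = a
    rw [ih h.shift (fun _ hx => h.mono 0 (ha hx))]
    exact h.fix 0 a ha

theorem D_fix_mem (l : ℕ) {k F W : ℕ → VS o} (h : Good n k F W) {a : VS o}
    (ha : a.1 ∈ (F 0).1) : D k l a = a :=
  D_fix l h (fun _ hx => h.trans 0 _ ha hx)

theorem W_sub (l : ℕ) : ∀ {k F W : ℕ → VS o}, Good n k F W →
    (W l).1 ⊆ (D k (l+1) (F (l+1))).1 := by
  induction l with
  | zero =>
    intro k F W h
    exact h.cov 0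
  | succ l ih =>
    intro k F W h
    have := ih h.shift
    rw [← h.Weq 0 l]
    exact ext_mono this

theorem cof {k F W : ℕ → VS o} (h : Good n k F W) {x : ZFSet.{u}} (hx : x.rank < o) :
    ∃ l, x ∈ (D k (l+1) (F (l+1))).1 := by
  obtain ⟨m, hm⟩ := h.Wcof x hx
  exact ⟨m, W_sub m h hm⟩

theorem thr_D (l : ℕ) : ∀ {k X : ℕ → VS o}, Thr k X → X 0 = D k l (X l) := by
  induction l with
  | zero => intro k X _; rfl
  | succ l ih =>
    intro k X h
    show X 0 = ext (k 0) _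
    rw [← ih h.shift]
    exact (h 0).symm

/-- intersection -/
noncomputable def inter (x y : VS o) : VS o :=
  ⟨ZFSet.sep (fun t => t ∈ y.1) x.1, (rank_mono (fun _ h => (ZFSet.mem_sep.1 h).1)).trans x.2⟩

theorem mem_inter (x y : VS o) (t : ZFSet.{u}) : t ∈ (inter x y).1 ↔ (t ∈ x.1 ∧ t ∈ y.1) := by
  unfold inter
  rw [ZFSet.mem_sep]

theorem thr_eq {k F W X Y : ℕ → VS o} (h : Good n k F W) (hX : Thr k X) (hY : Thr k Y)
    (hXY : ∀ i, ∀ x ∈ (F i).1, (x ∈ (X i).1 ↔ x ∈ (Y i).1)) : X 0 = Y 0 := by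
  have key : ∀ {X Y : ℕ → VS o}, Thr k X → Thr k Y →
      (∀ i, ∀ x ∈ (F i).1, (x ∈ (X i).1 ↔ x ∈ (Y i).1)) → (X 0).1 ⊆ (Y 0).1 := by
    intro X Y hX hY hXY x hx
    obtain ⟨l, hl⟩ := cof h ((rank_lt_of_mem hx).trans_le (X 0).2)
    have e : inter (X (l+1)) (F (l+1)) = inter (Y (l+1)) (F (l+1)) := by
      apply vs_ext
      intro z
      rw [mem_inter, mem_inter]
      constructor
      · rintro ⟨h1, h2⟩; exact ⟨(hXY _ _ h2).1 h1, h2⟩
      · rintro ⟨h1, h2⟩; exact ⟨(hXY _ _ h2).2 h1, h2⟩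
    have h1 := (D_inter (l+1) h (mem_inter (X (l+1)) (F (l+1))) x).2 ⟨by rwa [← thr_D (l+1) hX], hl⟩
    rw [e] at h1
    have h2 := ((D_inter (l+1) h (mem_inter (Y (l+1)) (F (l+1))) x).1 h1).1
    rwa [← thr_D (l+1) hY] at h2
  apply vs_ext
  intro z
  exact ⟨fun hz => key hX hY hXY hz, fun hz => key hY hX (fun i x hx => (hXY i x hx).symm) hz⟩

theorem thr_eq_all {k F W X Y : ℕ → VS o} (h : Good n k F W) (hX : Thr k X) (hY : Thr k Y)
    (hXY : ∀ i, ∀ x ∈ (F i).1, (x ∈ (X i).1 ↔ x ∈ (Y i).1)) (i : ℕ) : X i = Y i := by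
  induction i generalizing k F X Y with
  | zero => exact thr_eq h hX hY hXY
  | succ i ih => exact ih h.shift hX.shift hY.shift (fun i => hXY (i+1))

theorem thr_mem_step {k F W X Y : ℕ → VS o} (h : Good n k F W) (hX : Thr k X) (hY : Thr k Y)
    (i : ℕ) : (X 0).1 ∈ (Y 0).1 ↔ (X i).1 ∈ (Y i).1 := by
  rw [thr_D i hX, thr_D i hY]
  exact (D_mem i h _ _).symm

/-- for `x ∈ F i`, membership in the thread does not change -/
theorem thr_inv {k F W X : ℕ → VS o} (h : Good n k F W) (hX : Thr k X) {i : ℕ} {x : ZFSet.{u}}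
    (hx : x ∈ (F i).1) : (x ∈ (X i).1 ↔ x ∈ (X (i+1)).1) := by
  have hxo : x.rank ≤ o := vs_mem_rank hx
  have e : ext (k i) ⟨x, hxo⟩ = ⟨x, hxo⟩ := h.fix i _ (fun _ hz => h.trans i _ hx hz)
  have h1 := ext_mem_iff (EE_E0 (h.E i)) ⟨x, hxo⟩ (X (i+1))
  rw [e, hX i] at h1
  exact h1.symm

theorem thr_inv_le {k F W X : ℕ → VS o} (h : Good n k F W) (hX : Thr k X) {i : ℕ} {x : ZFSet.{u}}
    (hx : x ∈ (F i).1) (l : ℕ) : (x ∈ (X i).1 ↔ x ∈ (X (i+l)).1) := by
  induction l with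
  | zero => rfl
  | succ l ih => rw [ih]; exact thr_inv h hX (h.mono_le i l hx)

section lim

variable {p : Ordinal.{u}}

/-- limit of a thread -/
noncomputable def lim (p : Ordinal.{u}) (F X : ℕ → VS o) : VS p :=
  ⟨ZFSet.sep (fun x => ∃ i, x ∈ (F i).1 ∧ x ∈ (X i).1) (ZFSet.vonNeumann p), by
    rw [← ZFSet.subset_vonNeumann]
    intro z hz
    exact (ZFSet.mem_sep.1 hz).1⟩

variable {k F W : ℕ → VS o} (hp : ∀ x : ZFSet.{u}, x.rank < p ↔ ∃ i, x ∈ (F i).1)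
include hp

theorem mem_lim {X : ℕ → VS o} {x : ZFSet.{u}} :
    x ∈ (lim p F X).1 ↔ ∃ i, x ∈ (F i).1 ∧ x ∈ (X i).1 := by
  unfold lim
  rw [ZFSet.mem_sep, ZFSet.mem_vonNeumann]
  constructor
  · exact fun h => h.2
  · rintro ⟨i, h1, h2⟩
    exact ⟨(hp x).2 ⟨i, h1⟩, i, h1, h2⟩

theorem mem_lim_of {X : ℕ → VS o} (h : Good n k F W) (hX : Thr k X) {i : ℕ} {x : ZFSet.{u}}
    (hx : x ∈ (F i).1) : x ∈ (lim p F X).1 ↔ x ∈ (X i).1 := by
  rw [mem_lim hp]
  constructor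
  · rintro ⟨j, h1, h2⟩
    rw [thr_inv_le h hX hx j]
    rw [thr_inv_le h hX h1 i] at h2
    rwa [add_comm i j]
  · intro h1
    exact ⟨i, hx, h1⟩

theorem lim_inj {X Y : ℕ → VS o} (h : Good n k F W) (hX : Thr k X) (hY : Thr k Y)
    (e : lim p F X = lim p F Y) (i : ℕ) : X i = Y i := by
  apply thr_eq_all h hX hY
  intro i x hx
  rw [← mem_lim_of hp h hX hx, e, mem_lim_of hp h hY hx]

theorem lim_small {X : ℕ → VS o} (h : Good n k F W) (hX : Thr k X) {l : ℕ}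
    (hl : (X l).1 ∈ (F l).1) : (lim p F X).1 = (X l).1 := by
  have h1 : ∀ m, X (l + m) = X l := by
    intro m
    induction m with
    | zero => rfl
    | succ m ih =>
      apply ext_inj (EE_E0 (h.E (l+m)))
      have e1 : ext (k (l+m)) (X (l + m + 1)) = X (l + m) := hX (l+m)
      have e2 : ext (k (l+m)) (X l) = X l := h.fix _ _
        (fun _ hz => h.trans _ _ (h.mono_le l m hl) hz)
      show ext (k (l+m)) (X (l + m + 1)) = _
      rw [e1, e2, ih]
  ext x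
  constructor
  · intro hx
    rw [mem_lim hp] at hx
    obtain ⟨i, hi, hxi⟩ := hx
    rw [thr_inv_le h hX hi l, add_comm i l, h1] at hxi
    exact hxi
  · intro hx
    have : x ∈ (F l).1 := h.trans l _ hl hx
    rw [mem_lim_of hp h hX this]
    exact hx

theorem lim_mem {X Y : ℕ → VS o} (h : Good n k F W) (hX : Thr k X) (hY : Thr k Y) :
    (X 0).1 ∈ (Y 0).1 ↔ (lim p F X).1 ∈ (lim p F Y).1 := by
  constructor
  · intro h1
    obtain ⟨l, hl⟩ := cof h ((rank_lt_of_mem h1).trans_le (Y 0).2)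
    rw [thr_D (l+1) hX] at hl
    have hl2 := (D_mem (l+1) h _ _).2 hl
    rw [lim_small hp h hX hl2, mem_lim_of hp h hY hl2, ← thr_mem_step h hX hY]
    exact h1
  · intro h1
    have h1' := h1
    rw [mem_lim hp] at h1
    obtain ⟨i, hi, hiY⟩ := h1
    rw [thr_mem_step h hX hY i]
    have hr : (lim p F X).1.rank ≤ o := vs_mem_rank hi
    have key : ∀ (i : ℕ) (k F X : ℕ → VS o), Good n k F W → Thr k X → ∀ c : VS o, c.1 ∈ (F i).1 →
        (∀ j, ∀ x ∈ (F j).1, x ∈ (X j).1 ↔ x ∈ c.1) → X i = c := by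
      intro i
      induction i with
      | zero =>
        intro k F X h hX c hc hj
        refine thr_eq (Y := fun _ => c) h hX (fun i => ?_) hj
        exact h.fix i _ (fun _ hz => h.trans i _ (by have := h.mono_le 0 i hc; rwa [zero_add] at this) hz)
      | succ i ih =>
        intro k F X h hX c hc hj
        exact ih _ _ _ h.shift hX.shift c hc (fun j => hj (j+1))
    rw [key i k F X h hX ⟨_, hr⟩ hi (fun j x hx => (mem_lim_of hp h hX hx).symm)]
    exact hiY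

end lim

end SOCat
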