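import Pool.Agent.SOCat.S1C

/-!
# Elementary correspondences and generic extensions of hulls
-/

namespace SOCat

universe u

open ZFSet

def fbd : Fml → ℕ
  | .mem i j => max (i+1) (j+1)
  | .eq i j => max (i+1) (j+1)
  | .neg φ => fbd φ
  | .and φ ψ => max (fbd φ) (fbd ψ)
  | .all φ => fbd φ

theorem sat_fbd {o : Ordinal.{u}} (φ : Fml) : ∀ v v' : ℕ → VS o, (∀ i < fbd φ, v i = v' i) →
    (Sat φ v ↔ Sat φ v') := by
  induction φ with
  | mem i j =>
    intro v v' h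
    have h1 := h i (lt_max_of_lt_left (Nat.lt_succ_self i))
    have h2 := h j (lt_max_of_lt_right (Nat.lt_succ_self j))
    show (v i).1 ∈ (v j).1 ↔ (v' i).1 ∈ (v' j).1
    rw [h1, h2]
  | eq i j =>
    intro v v' h
    have h1 := h i (lt_max_of_lt_left (Nat.lt_succ_self i))
    have h2 := h j (lt_max_of_lt_right (Nat.lt_succ_self j))
    show v i = v j ↔ v' i = v' j
    rw [h1, h2]
  | neg φ ih => intro v v' h; exact not_congr (ih v v' h)
  | and φ ψ ih1 ih2 =>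
    intro v v' h
    exact and_congr (ih1 v v' fun i hi => h i (lt_max_of_lt_left hi))
      (ih2 v v' fun i hi => h i (lt_max_of_lt_right hi))
  | all φ ih =>
    intro v v' h
    refine forall_congr' fun a => ih _ _ fun i hi => ?_
    cases i with
    | zero => rfl
    | succ i => exact h i (Nat.lt_of_succ_lt hi)

/-- the function with values `G c` -/
noncomputable def cdG (o : Ordinal.{u}) (G : ZFSet.{u} → ZFSet.{u}) : VS o :=
  ⟨ZFSet.sep (fun p => ∃ c x, p = pair c x ∧ x ∈ G c) (ZFSet.vonNeumann o), by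
    rw [← ZFSet.subset_vonNeumann]
    intro z hz
    exact (ZFSet.mem_sep.1 hz).1⟩

theorem mem_cdG {o : Ordinal.{u}} (ho : Lim o) {G : ZFSet.{u} → ZFSet.{u}} {c x : ZFSet.{u}}
    (hc : c.rank < o) (hx : x.rank < o) : pair c x ∈ (cdG o G).1 ↔ x ∈ G c := by
  unfold cdG
  rw [ZFSet.mem_sep, ZFSet.mem_vonNeumann]
  constructor
  · rintro ⟨_, c', x', h, hx'⟩
    obtain ⟨rfl, rfl⟩ := ZFSet.pair_injective h
    exact hx'
  · intro h
    exact ⟨ho.rank_pair_lt hc hx, c, x, rfl, h⟩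

theorem slice_cdG {o : Ordinal.{u}} (ho : Lim o) {G : ZFSet.{u} → ZFSet.{u}} {c : ZFSet.{u}}
    (hc : c.rank < o) (hG : (G c).rank ≤ o) : slice c (cdG o G) = ⟨G c, hG⟩ := by
  apply vs_ext
  intro x
  rw [mem_slice]
  constructor
  · intro h
    have hx : x.rank < o := (rank_right_lt c x).trans ((rank_lt_of_mem h).trans_le (cdG o G).2)
    exact (mem_cdG ho hc hx).1 h
  · intro h
    exact (mem_cdG ho hc ((rank_lt_of_mem h).trans_le hG)).2 h

/-- substituting slices -/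
theorem sl_tr (φ : Fml) : ∃ ψ : Fml, ∀ {o : Ordinal.{u}}, Lim o → ∀ v : ℕ → VS o,
    (v 0).1.rank < o → (Sat ψ v ↔ Sat φ (fun i => slice (v 0).1 (v (i+1)))) := by
  induction φ with
  | mem i j =>
    obtain ⟨ψ, hψ⟩ := ((d_Slice.{u} 1 (i+2) 0).and (d_App (j+2) 1 0)).ex
    refine ⟨ψ, fun {o} ho v hv => ?_⟩
    rw [hψ]
    show _ ↔ (slice (v 0).1 (v (i+1))).1 ∈ (slice (v 0).1 (v (j+1))).1
    rw [mem_slice]
    constructor
    · rintro ⟨a, h1, h2⟩
      have h1' : Slice (v 0) (v (i+1)) a := h1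
      have h2' : App (v (j+1)) (v 0) a := h2
      rw [Slice_iff] at h1'
      rw [App_iff] at h2'
      have : a = slice (v 0).1 (v (i+1)) := by
        apply vs_ext
        intro x
        rw [mem_slice, h1']
      rw [← this]
      exact h2'
    · intro h
      refine ⟨slice (v 0).1 (v (i+1)), ?_, ?_⟩
      · show Slice (v 0) (v (i+1)) _
        rw [Slice_iff]
        intro x
        exact mem_slice _ _ _
      · show App (v (j+1)) (v 0) _
        rw [App_iff]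
        exact h
  | eq i j =>
    obtain ⟨ψ, hψ⟩ := ((d_App.{u} (i+2) 1 0).iff (d_App (j+2) 1 0)).all
    refine ⟨ψ, fun {o} ho v hv => ?_⟩
    rw [hψ]
    show (∀ a, App (v (i+1)) (v 0) a ↔ App (v (j+1)) (v 0) a) ↔
      slice (v 0).1 (v (i+1)) = slice (v 0).1 (v (j+1))
    constructor
    · intro h
      apply vs_ext
      intro x
      rw [mem_slice, mem_slice]
      constructor
      · intro hx
        have hr : x.rank ≤ o := (rank_right_lt _ _).le.trans ((rank_lt_of_mem hx).le.trans (v (i+1)).2)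
        exact App_iff.1 ((h ⟨x, hr⟩).1 (App_iff.2 hx))
      · intro hx
        have hr : x.rank ≤ o := (rank_right_lt _ _).le.trans ((rank_lt_of_mem hx).le.trans (v (j+1)).2)
        exact App_iff.1 ((h ⟨x, hr⟩).2 (App_iff.2 hx))
    · intro h a
      rw [App_iff, App_iff, ← mem_slice, ← mem_slice, h]
  | neg φ ih =>
    obtain ⟨ψ, hψ⟩ := ih
    exact ⟨.neg ψ, fun ho v hv => not_congr (hψ ho v hv)⟩
  | and φ φ' ih ih' =>
    obtain ⟨ψ, hψ⟩ := ih
    obtain ⟨ψ', hψ'⟩ := ih'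
    exact ⟨.and ψ ψ', fun ho v hv => and_congr (hψ ho v hv) (hψ' ho v hv)⟩
  | all φ ih =>
    obtain ⟨ψ, hψ⟩ := ih
    refine ⟨.all (ren (fun n => if n = 0 then 1 else if n = 1 then 0 else n) ψ),
      fun {o} ho v hv => ?_⟩
    have key : ∀ a : VS o, (Sat (ren (fun n => if n = 0 then 1 else if n = 1 then 0 else n) ψ)
        (cons a v) ↔ Sat φ (cons (slice (v 0).1 a) (fun i => slice (v 0).1 (v (i+1))))) := by
      intro a
      rw [sat_ren, hψ ho]
      · apply iff_of_eq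
        congr 1
        funext i
        rcases i with _ | _ | i <;> rfl
      · exact hv
    constructor
    · intro h z
      have h1 := (key (cdG o (fun _ => z.1))).1 (h _)
      rw [slice_cdG ho hv z.2] at h1
      exact h1
    · intro h a
      exact (key a).2 (h _)

/-- an elementary correspondence between two elementary substructures of `(V_{o+1}, ∈)` -/
structure EI (o : Ordinal.{u}) (ρ : Set (ZFSet.{u} × ZFSet.{u})) : Prop where
  rk : ∀ p ∈ ρ, p.1.rank ≤ o ∧ p.2.rank ≤ o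
  cor : ∀ (φ : Fml) (v v' : ℕ → VS o), (∀ i, ((v i).1, (v' i).1) ∈ ρ) → (Sat φ v ↔ Sat φ v')
  wit : ∀ (φ : Fml) (v v' : ℕ → VS o), (∀ i, ((v i).1, (v' i).1) ∈ ρ) →
    (∃ z, Sat φ (cons z v)) → ∃ z z' : VS o, (z.1, z'.1) ∈ ρ ∧ Sat φ (cons z v)

theorem EI.get {o : Ordinal.{u}} {ρ : Set (ZFSet.{u} × ZFSet.{u})} (h : EI o ρ)
    {R : ∀ o : Ordinal.{u}, (ℕ → VS o) → Prop} (hR : Dfn R) (v v' : ℕ → VS o)
    (hv : ∀ i, ((v i).1, (v' i).1) ∈ ρ) (z z' : VS o) (hz : R o (cons z v))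
    (hu : ∀ y, R o (cons y v) → y = z) (hu' : ∀ y, R o (cons y v') → y = z') :
    (z.1, z'.1) ∈ ρ := by
  obtain ⟨φ, hφ⟩ := hR
  obtain ⟨y, y', h1, h2⟩ := h.wit φ v v' hv ⟨z, (hφ _ _).2 hz⟩
  have h3 := (h.cor φ (cons y v) (cons y' v') (by
    intro i
    cases i with
    | zero => exact h1
    | succ i => exact hv i)).1 h2
  rw [hφ] at h2 h3
  rw [← hu y h2, ← hu' y' h3]
  exact h1

/-- a measure -/
structure Ms where
  D : Ultrafilter ZFSet.{u}
  dom : ZFSet.{u}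
  hdom : ∀ᶠ c in D, c ∈ dom

/-- the set coding a measure -/
noncomputable def Ms.cd (M : Ms.{u}) : ZFSet.{u} :=
  ZFSet.sep (fun S => ∀ᶠ c in M.D, c ∈ S) (ZFSet.powerset M.dom)

theorem Ms.mem_cd {M : Ms.{u}} {S : ZFSet.{u}} : S ∈ M.cd ↔ S ⊆ M.dom ∧ ∀ᶠ c in M.D, c ∈ S := by
  unfold Ms.cd
  rw [ZFSet.mem_sep, ZFSet.mem_powerset]

/-- `g` is generic over `N` -/
def Gn (M : Ms.{u}) (N : Set ZFSet.{u}) (g : ZFSet.{u}) : Prop :=
  g ∈ M.dom ∧ ∀ S ∈ N, S ∈ M.cd → g ∈ S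

theorem los_tr (ψ : Fml) : ∃ χ : Fml, ∀ {o : Ordinal.{u}}, Lim o → ∀ (M : Ms.{u})
    (v : ℕ → VS o), (v 0).1 = M.cd → (v 1).1 = M.dom → M.dom.rank < o →
    (Sat χ v ↔ ∀ᶠ c in M.D, ∃ h : c.rank ≤ o, Sat ψ (cons ⟨c, h⟩ (fun i => v (i+2)))) := by
  have hD : Dfn.{u} fun o v => ∃ S : VS o, (∀ c : VS o, (c.1 ∈ S.1 ↔ (c.1 ∈ (v 1).1 ∧
      Sat ψ (cons c (fun i => v (i+2)))))) ∧ S.1 ∈ (v 0).1 := by
    have h1 : Dfn.{u} fun o v => Sat ψ v := ⟨ψ, fun _ _ => Iff.rfl⟩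
    have h2 := h1.ren (fun n => if n = 0 then 0 else n + 3)
    have h3 := (((Dfn.mem 0 1).iff ((Dfn.mem 0 3).and h2)).all.and (Dfn.mem 0 1)).ex
    obtain ⟨χ, hχ⟩ := h3
    refine ⟨χ, fun o v => ?_⟩
    rw [hχ]
    apply exists_congr
    intro S
    apply and_congr_left'
    apply forall_congr'
    intro c
    have e : (fun n => cons c (cons S v) (if n = 0 then 0 else n + 3)) =
        cons c (fun i => v (i+2)) := by
      funext n
      cases n <;> rfl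
    show (_ ↔ (_ ∧ Sat ψ (fun n => cons c (cons S v) (if n = 0 then 0 else n + 3)))) ↔ _
    rw [e]
    rfl
  obtain ⟨χ, hχ⟩ := hD
  refine ⟨χ, fun {o} ho M v h0 h1 hr => ?_⟩
  rw [hχ]
  constructor
  · rintro ⟨S, hS, hS2⟩
    rw [h0, Ms.mem_cd] at hS2
    filter_upwards [hS2.2] with c hc
    have hcr : c.rank ≤ o := (rank_lt_of_mem hc).le.trans S.2
    exact ⟨hcr, ((hS ⟨c, hcr⟩).1 hc).2⟩
  · intro h
    obtain ⟨S, hS⟩ : ∃ S : ZFSet.{u}, ∀ c, c ∈ S ↔ (c ∈ M.dom ∧ ∃ h : c.rank ≤ o,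
        Sat ψ (cons ⟨c, h⟩ (fun i => v (i+2)))) :=
      ⟨ZFSet.sep (fun c => ∃ h : c.rank ≤ o, Sat ψ (cons ⟨c, h⟩ (fun i => v (i+2)))) M.dom,
        fun c => ZFSet.mem_sep⟩
    refine ⟨⟨S, (ZFSet.rank_mono (fun z hz => ((hS z).1 hz).1)).trans hr.le⟩, ?_, ?_⟩
    · intro c
      show c.1 ∈ S ↔ _
      rw [hS, h1]
      constructor
      · rintro ⟨h2, h3, h4⟩
        exact ⟨h2, h4⟩
      · rintro ⟨h2, h4⟩
        exact ⟨h2, c.2, h4⟩
    · rw [h0, Ms.mem_cd]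
      constructor
      · intro z hz
        exact ((hS z).1 hz).1
      · filter_upwards [h, M.hdom] with c h2 h3
        exact (hS c).2 ⟨h3, h2⟩

/-- Los for a generic point -/
theorem EI.los {o : Ordinal.{u}} (ho : Lim o) {ρ : Set (ZFSet.{u} × ZFSet.{u})} (h : EI o ρ)
    {M M' : Ms.{u}} (hM : (M.cd, M'.cd) ∈ ρ) (hd : (M.dom, M'.dom) ∈ ρ) (hr : M.dom.rank < o)
    {g : ZFSet.{u}} (hg : Gn M {z | ∃ z', (z, z') ∈ ρ} g) (hgo : g.rank ≤ o) (ψ : Fml)
    (w w' : ℕ → VS o) (hw : ∀ i, ((w i).1, (w' i).1) ∈ ρ) :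
    Sat ψ (cons ⟨g, hgo⟩ w) ↔ ∀ᶠ c in M.D, ∃ h : c.rank ≤ o, Sat ψ (cons ⟨c, h⟩ w) := by
  have key : ∀ ψ : Fml, (∀ᶠ c in M.D, ∃ h : c.rank ≤ o, Sat ψ (cons ⟨c, h⟩ w)) →
      Sat ψ (cons ⟨g, hgo⟩ w) := by
    intro ψ hψ
    let v : ℕ → VS o := cons ⟨M.cd, (h.rk _ hM).1⟩ (cons ⟨M.dom, hr.le⟩ w)
    let v' : ℕ → VS o := cons ⟨M'.cd, (h.rk _ hM).2⟩ (cons ⟨M'.dom, (h.rk _ hd).2⟩ w')
    have hv : ∀ i, ((v i).1, (v' i).1) ∈ ρ := by
      intro i
      rcases i with _ | _ | i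
      · exact hM
      · exact hd
      · exact hw i
    have h1 : Dfn.{u} fun o v => (∀ c : VS o, (c.1 ∈ (v 0).1 ↔ (c.1 ∈ (v 2).1 ∧
        Sat ψ (cons c (fun i => v (i+3)))))) := by
      have h1 : Dfn.{u} fun o v => Sat ψ v := ⟨ψ, fun _ _ => Iff.rfl⟩
      have h2 := h1.ren (fun n => if n = 0 then 0 else n + 3)
      have h3 := (((Dfn.mem 0 1).iff ((Dfn.mem 0 3).and h2)).all)
      obtain ⟨χ, hχ⟩ := h3
      refine ⟨χ, fun o v => ?_⟩
      rw [hχ]
      apply forall_congr'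
      intro c
      have e : (fun n => cons c v (if n = 0 then 0 else n + 3)) =
          cons c (fun i => v (i+3)) := by
        funext n
        cases n <;> rfl
      show (_ ↔ (_ ∧ Sat ψ (fun n => cons c v (if n = 0 then 0 else n + 3)))) ↔ _
      rw [e]
      rfl
    obtain ⟨χ, hχ⟩ := h1
    obtain ⟨S, hS⟩ : ∃ S : ZFSet.{u}, ∀ c, c ∈ S ↔ (c ∈ M.dom ∧ ∃ h : c.rank ≤ o,
        Sat ψ (cons ⟨c, h⟩ w)) :=
      ⟨ZFSet.sep (fun c => ∃ h : c.rank ≤ o, Sat ψ (cons ⟨c, h⟩ w)) M.dom, fun c => ZFSet.mem_sep⟩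
    have hSr : S.rank ≤ o := (ZFSet.rank_mono (fun z hz => ((hS z).1 hz).1)).trans hr.le
    obtain ⟨z, z', hz, hz2⟩ := h.wit χ v v' hv ⟨⟨S, hSr⟩, by
      rw [hχ]
      intro c
      show c.1 ∈ S ↔ _
      rw [hS]
      constructor
      · rintro ⟨h2, h3, h4⟩
        exact ⟨h2, h4⟩
      · rintro ⟨h2, h4⟩
        exact ⟨h2, c.2, h4⟩⟩
    rw [hχ] at hz2
    have hzc : z.1 ∈ M.cd := by
      rw [Ms.mem_cd]
      constructor
      · intro t ht
        exact ((hz2 (down ht)).1 ht).1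
      · filter_upwards [hψ, M.hdom] with c h2 h3
        obtain ⟨h4, h5⟩ := h2
        exact (hz2 ⟨c, h4⟩).2 ⟨h3, h5⟩
    have hgz := hg.2 z.1 ⟨_, hz⟩ hzc
    exact ((hz2 ⟨g, hgo⟩).1 hgz).2
  constructor
  · intro h1
    by_contra h2
    rw [← Ultrafilter.eventually_not] at h2
    have h3 := key (.neg ψ) (by
      filter_upwards [h2, M.hdom] with c h4 h5
      have h6 : c.rank ≤ o := (rank_lt_of_mem h5).le.trans hr.le
      exact ⟨h6, fun h7 => h4 ⟨h6, h7⟩⟩)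
    exact h3 h1
  · exact key ψ

/-- slices as a set operation -/
noncomputable def sl (c w : ZFSet.{u}) : ZFSet.{u} :=
  ZFSet.sep (fun x => pair c x ∈ w) (ZFSet.vonNeumann w.rank)

theorem mem_sl {c w x : ZFSet.{u}} : x ∈ sl c w ↔ pair c x ∈ w := by
  unfold sl
  rw [ZFSet.mem_sep, ZFSet.mem_vonNeumann]
  constructor
  · exact fun h => h.2
  · intro h
    exact ⟨(rank_right_lt _ _).trans (rank_lt_of_mem h), h⟩

theorem rank_sl (c w : ZFSet.{u}) : (sl c w).rank ≤ w.rank := by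
  rw [← ZFSet.subset_vonNeumann]
  intro z hz
  exact (ZFSet.mem_sep.1 hz).1

theorem slice_val {o : Ordinal.{u}} (c : ZFSet.{u}) (w : VS o) : (slice c w).1 = sl c w.1 := by
  ext x
  rw [mem_slice, mem_sl]

/-- the generic extension of a correspondence -/
def extR (ρ : Set (ZFSet.{u} × ZFSet.{u})) (g g' : ZFSet.{u}) : Set (ZFSet.{u} × ZFSet.{u}) :=
  {p | ∃ w w', (w, w') ∈ ρ ∧ p = (sl g w, sl g' w')}

theorem EI.ext {o : Ordinal.{u}} (ho : Lim o) {ρ : Set (ZFSet.{u} × ZFSet.{u})} (h : EI o ρ)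
    {M M' : Ms.{u}} (hM : (M.cd, M'.cd) ∈ ρ) (hd : (M.dom, M'.dom) ∈ ρ) (hr : M.dom.rank < o)
    (hr' : M'.dom.rank < o)
    {g g' : ZFSet.{u}} (hg : Gn M {z | ∃ z', (z, z') ∈ ρ} g)
    (hg' : Gn M' {z' | ∃ z, (z, z') ∈ ρ} g') : EI o (extR ρ g g') := by
  have hgo : g.rank < o := (rank_lt_of_mem hg.1).trans hr
  have hgo' : g'.rank < o := (rank_lt_of_mem hg'.1).trans hr'
  have hrev : EI o {p | (p.2, p.1) ∈ ρ} := by
    constructor
    · intro p hp
      exact ⟨(h.rk _ hp).2, (h.rk _ hp).1⟩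
    · intro φ v v' hv
      exact (h.cor φ v' v hv).symm
    · rintro φ v v' hv ⟨z, hz⟩
      have h1 : Sat (.neg (.all (.neg φ))) v := fun h2 => h2 z hz
      have h2 := (h.cor _ v' v hv).2 h1
      have h3 : ∃ z, Sat φ (cons z v') := by
        by_contra h4
        push Not at h4
        exact h2 h4
      obtain ⟨z1, z1', h4, h5⟩ := h.wit φ v' v hv h3
      refine ⟨z1', z1, h4, ?_⟩
      refine (h.cor φ (cons z1 v') (cons z1' v) ?_).1 h5
      intro i
      cases i with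
      | zero => exact h4
      | succ i => exact hv i
  constructor
  · rintro _ ⟨w, w', hw, rfl⟩
    exact ⟨(rank_sl _ _).trans (h.rk _ hw).1, (rank_sl _ _).trans (h.rk _ hw).2⟩
  · intro φ v v' hv
    obtain ⟨ψ, hψ⟩ := sl_tr.{u} φ
    have hv2 : ∀ i, ∃ w w' : VS o, (w.1, w'.1) ∈ ρ ∧ v i = slice g w ∧ v' i = slice g' w' := by
      intro i
      obtain ⟨w, w', hw, he⟩ := hv i
      obtain ⟨h1, h2⟩ := Prod.mk.inj he
      refine ⟨⟨w, (h.rk _ hw).1⟩, ⟨w', (h.rk _ hw).2⟩, hw, Subtype.ext ?_, Subtype.ext ?_⟩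
      · rw [slice_val]; exact h1
      · rw [slice_val]; exact h2
    choose w w' hw hvw hvw' using hv2
    obtain ⟨χ, hχ⟩ := los_tr.{u} ψ
    have e1 : Sat φ v ↔ Sat ψ (cons ⟨g, hgo.le⟩ w) := by
      rw [hψ ho _ hgo]
      apply iff_of_eq
      congr 1
      funext i
      exact hvw i
    have e2 : Sat φ v' ↔ Sat ψ (cons ⟨g', hgo'.le⟩ w') := by
      rw [hψ ho _ hgo']
      apply iff_of_eq
      congr 1
      funext i
      exact hvw' i
    rw [e1, e2, h.los ho hM hd hr hg hgo.le ψ w w' hw,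
      hrev.los ho (M := M') (M' := M) hM hd hr' hg' hgo'.le ψ w' w hw]
    have c1 := hχ ho M (cons ⟨M.cd, (h.rk _ hM).1⟩ (cons ⟨M.dom, hr.le⟩ w)) rfl rfl hr
    have c2 := hχ ho M' (cons ⟨M'.cd, (h.rk _ hM).2⟩ (cons ⟨M'.dom, hr'.le⟩ w')) rfl rfl hr'
    refine c1.symm.trans (Iff.trans ?_ c2)
    apply h.cor
    intro i
    rcases i with _ | _ | i
    · exact hM
    · exact hd
    · exact hw i
  · rintro φ v v' hv ⟨z, hz⟩
    obtain ⟨ψ, hψ⟩ := sl_tr.{u} φ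
    have hv2 : ∀ i, ∃ w w' : VS o, (w.1, w'.1) ∈ ρ ∧ v i = slice g w ∧ v' i = slice g' w' := by
      intro i
      obtain ⟨w, w', hw, he⟩ := hv i
      obtain ⟨h1, h2⟩ := Prod.mk.inj he
      refine ⟨⟨w, (h.rk _ hw).1⟩, ⟨w', (h.rk _ hw).2⟩, hw, Subtype.ext ?_, Subtype.ext ?_⟩
      · rw [slice_val]; exact h1
      · rw [slice_val]; exact h2
    choose w w' hw hvw hvw' using hv2
    -- the formula saying that `u` is a witnessing function
    have hΘ : Dfn.{u} fun o v => ∀ c : VS o, sm c → (∃ u' : VS o, Sat ψ (cons c (cons u' (fun i =>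
        v (i+1))))) → Sat ψ (cons c v) := by
      have h1 : Dfn.{u} fun o v => Sat ψ v := ⟨ψ, fun _ _ => Iff.rfl⟩
      have h2 := h1.ren (fun n => if n = 0 then 1 else if n = 1 then 0 else n + 1)
      obtain ⟨χ, hχ⟩ := ((d_sm 0).imp (h2.ex.imp h1)).all
      refine ⟨χ, fun o v => ?_⟩
      rw [hχ]
      apply forall_congr'
      intro c
      apply imp_congr Iff.rfl
      apply imp_congr _ Iff.rfl
      apply exists_congr
      intro u'
      apply iff_of_eq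
      congr 1
      funext n
      rcases n with _ | _ | n <;> rfl
    obtain ⟨Θ, hΘ⟩ := hΘ
    have hG : ∃ G : ZFSet.{u} → VS o, ∀ c : ZFSet.{u}, ∀ hc : c.rank < o,
        (∃ u' : VS o, Sat ψ (cons ⟨c, hc.le⟩ (cons u' w))) →
        Sat φ (cons (G c) (fun i => slice c (w i))) := by
      have h1 : ∀ c : ZFSet.{u}, ∃ z : VS o, ∀ hc : c.rank < o,
          (∃ u' : VS o, Sat ψ (cons ⟨c, hc.le⟩ (cons u' w))) →
          Sat φ (cons z (fun i => slice c (w i))) := by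
        intro c
        by_cases hc : c.rank < o ∧ ∃ hc : c.rank < o,
          (∃ u' : VS o, Sat ψ (cons ⟨c, hc.le⟩ (cons u' w)))
        · obtain ⟨_, hc, u', hu'⟩ := hc
          rw [hψ ho _ hc] at hu'
          refine ⟨slice c u', fun _ _ => ?_⟩
          convert hu' using 1
          funext i
          cases i <;> rfl
        · refine ⟨z, fun h2 h3 => absurd ⟨h2, h2, h3⟩ hc⟩
      choose G hG using h1
      exact ⟨G, hG⟩
    obtain ⟨G, hG⟩ := hG
    obtain ⟨u', u'', hu, hu2⟩ := h.wit Θ w w' hw ⟨cdG o (fun c => (G c).1), by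
      rw [hΘ]
      rintro c hc hcu
      rw [sm_iff] at hc
      have h1 := hG c.1 hc hcu
      rw [hψ ho _ hc]
      convert h1 using 1
      funext i
      cases i with
      | zero => exact slice_cdG ho hc (G c.1).2
      | succ i => rfl⟩
    rw [hΘ] at hu2
    have h1 := hu2 ⟨g, hgo.le⟩ (sm_iff.2 hgo) ⟨cdG o (fun _ => z.1), by
      rw [hψ ho _ hgo]
      convert hz using 1
      funext i
      cases i with
      | zero => exact slice_cdG ho hgo z.2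
      | succ i => exact (hvw i).symm⟩
    rw [hψ ho _ hgo] at h1
    refine ⟨slice g u', slice g' u'', ⟨u'.1, u''.1, hu, ?_⟩, ?_⟩
    · rw [slice_val, slice_val]
    · convert h1 using 1
      funext i
      cases i with
      | zero => rfl
      | succ i => exact hvw i

end SOCat
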