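import Pool.Agent.SOCat.S1Defs

/-!
# Supercompactness, and `Σ_1`-definability from the sequence of the cardinals
-/

namespace SOCat

universe u

/-- The sequence `(κ n : n < ω)` as a set: the set of the ordered pairs `(n, κ n)`. -/
noncomputable def seqSet (κ : ℕ → Ordinal.{u}) : ZFSet.{u} :=
  ZFSet.range (fun n : ℕ => ZFSet.pair (n : Ordinal.{u}).toZFSet (κ n).toZFSet)

/-- `X ⊆ P(o)` is definable by a `Σ_1`-formula (evaluated in the universe `V = ZFSet` of all sets)
with finitely many parameters `z 0, ..., z (k-1)` from `V_o ∪ {(κ n : n < ω)}`: the variable `0`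
stands for the element `A` of `P(o)`, the variable `i + 1` for the parameter `z i`. -/
def SigmaOneDefSeq (κ : ℕ → Ordinal.{u}) {o : Ordinal.{u}} (X : Set (Pow o)) : Prop :=
  ∃ (φ : S1) (k : ℕ) (z : Fin k → ZFSet.{u}), (∀ i, (z i).rank < o ∨ z i = seqSet κ) ∧
    X = {A | φ.Sat (fun x y : ZFSet.{u} => x ∈ y)
      (cons A.1.1 (fun i => if h : i < k then z ⟨i, h⟩ else ∅))}

/-- `D` is a `κ`-complete normal fine ultrafilter on the set of the subsets of `γ` of size less
than `κ`. -/
structure IsNormalFine (κ : Cardinal.{u}) (γ : Ordinal.{u}) (D : Ultrafilter (Set (Set.Iio γ))) :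
    Prop where
  /-- `D` concentrates on the subsets of size less than `κ` -/
  small : ∀ᶠ s : Set (Set.Iio γ) in D, Cardinal.mk s < Cardinal.lift.{u+1} κ
  /-- intersections of fewer than `κ` members of `D` are in `D` -/
  complete : ∀ (ι : Type (u+1)) (P : ι → Set (Set.Iio γ) → Prop),
    Cardinal.mk ι < Cardinal.lift.{u+1} κ → (∀ i, ∀ᶠ s in D, P i s) → ∀ᶠ s in D, ∀ i, P i s
  /-- fineness -/
  fine : ∀ a : Set.Iio γ, ∀ᶠ s : Set (Set.Iio γ) in D, a ∈ s
  /-- normality: every choice function is constant on a member of `D` -/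
  normal : ∀ f : Set (Set.Iio γ) → Set.Iio γ, (∀ᶠ s in D, f s ∈ s) → ∃ a, ∀ᶠ s in D, f s = a

/-- `κ` is `γ`-supercompact: `κ` is uncountable and there is a `κ`-complete normal fine
ultrafilter on the set of the subsets of `γ` of size less than `κ`. (For `γ ≥ κ` this is the usual
notion; for `γ < κ` the second part is void.) -/
def IsSupercompact (κ : Cardinal.{u}) (γ : Ordinal.{u}) : Prop :=
  Cardinal.aleph0 < κ ∧ ∃ D : Ultrafilter (Set (Set.Iio γ)), IsNormalFine κ γ D

end SOCat
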