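import Pool.Agent.SOCat.T9
import Pool.Agent.SOCat.TDefs

/-!
# The perfect set theorem from the measures
-/

namespace SOCat

universe u

open ZFSet Cardinal

variable {θ : Ordinal.{u}} {κ σ : ℕ → Ordinal.{u}} {U : ℕ → Ms.{u}} {W : ℕ → ℕ → Ms.{u}}

theorem Ctx.up (C : Ctx θ κ σ U W) {θ' : Ordinal.{u}} (h1 : Lim θ') (h2 : θ ≤ θ') :
    Ctx θ' κ σ U W :=
  { C with
    lim := h1
    σθ := fun m => (C.σθ m).trans_le h2
    Wr := fun n m h => (C.Wr n m h).trans_le h2 }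

theorem col_insert {H : Set ZFSet.{u}} {a b : ZFSet.{u}} (ha : a ∈ H) (hb : b ∈ H) :
    col H {a, b} = {col H a, col H b} := by
  ext t
  rw [mem_col, ZFSet.mem_pair]
  constructor
  · rintro ⟨y, hy, _, rfl⟩
    rw [ZFSet.mem_pair] at hy
    rcases hy with rfl | rfl
    · exact Or.inl rfl
    · exact Or.inr rfl
  · rintro (rfl | rfl)
    · exact ⟨a, ZFSet.mem_pair.2 (Or.inl rfl), ha, rfl⟩
    · exact ⟨b, ZFSet.mem_pair.2 (Or.inr rfl), hb, rfl⟩

theorem El.upair {H : Set ZFSet.{u}} (h : El θ H)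
    {a b : ZFSet.{u}} (ha : a ∈ H) (hb : b ∈ H) (har : a.rank < θ) (hbr : b.rank < θ) :
    ({a, b} : ZFSet.{u}) ∈ H := by
  have hr : ({a, b} : ZFSet.{u}).rank ≤ θ := by
    rw [ZFSet.rank_le_iff]
    intro x hx
    rw [ZFSet.mem_pair] at hx
    rcases hx with rfl | rfl
    · exact har
    · exact hbr
  refine h.get (d_UP 0 1 2) (cons ⟨a, har.le⟩ (fun _ => ⟨b, hbr.le⟩)) (by
    intro i
    cases i with
    | zero => exact ha
    | succ i => exact hb) ⟨{a, b}, hr⟩ (UP_iff.2 rfl) ?_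
  intro y hy
  exact Subtype.ext (UP_iff.1 hy)

theorem pair_self_eq (a : ZFSet.{u}) : ({a, a} : ZFSet.{u}) = {a} := by
  ext t
  rw [ZFSet.mem_pair, ZFSet.mem_singleton, or_self]

theorem El.col_pair {H : Set ZFSet.{u}} (ho : Lim θ) (h : El θ H)
    {a b : ZFSet.{u}} (ha : a ∈ H) (hb : b ∈ H) (har : a.rank < θ) (hbr : b.rank < θ) :
    col H (pair a b) = pair (col H a) (col H b) := by
  have h1 := h.upair ha ha har har
  have h2 := h.upair ha hb har hbr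
  have h3 : pair a b = {{a, a}, {a, b}} := by
    rw [pair_self_eq]
    rfl
  have h4 : pair (col H a) (col H b) = {{col H a, col H a}, {col H a, col H b}} := by
    rw [pair_self_eq]
    rfl
  rw [h3, h4, col_insert h1 h2, col_insert ha ha, col_insert ha hb]

theorem nat_lt_unc {κ : Ordinal.{u}} (h1 : κ.card.ord = κ) (h2 : ℵ₀ < κ.card) (n : ℕ) :
    (n : Ordinal.{u}) < κ := by
  rw [← h1, Cardinal.lt_ord, Ordinal.card_nat]
  exact (Cardinal.natCast_lt_aleph0).trans h2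

theorem col_seqSet {H : Set ZFSet.{u}} (ho : Lim θ) (h : El θ H) (hκθ : ∀ l, κ l < θ)
    (hn : ∀ n : ℕ, (n : Ordinal.{u}).toZFSet ∈ H)
    (hn' : ∀ n : ℕ, col H (n : Ordinal.{u}).toZFSet = (n : Ordinal.{u}).toZFSet)
    (hκ : ∀ l, (κ l).toZFSet ∈ H) (hκ' : ∀ l, col H (κ l).toZFSet = (κ l).toZFSet) :
    col H (seqSet κ) = seqSet κ := by
  have hp : ∀ l : ℕ, pair (l : Ordinal.{u}).toZFSet (κ l).toZFSet ∈ H ∧
      col H (pair (l : Ordinal.{u}).toZFSet (κ l).toZFSet) =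
        pair (l : Ordinal.{u}).toZFSet (κ l).toZFSet := by
    intro l
    have r1 : ((l : Ordinal.{u}).toZFSet).rank < θ := by
      rw [Ordinal.rank_toZFSet]; exact ho.nat_lt l
    have r2 : ((κ l).toZFSet).rank < θ := by
      rw [Ordinal.rank_toZFSet]; exact hκθ l
    refine ⟨h.pair' ho (hn l) (hκ l) r1 r2, ?_⟩
    rw [h.col_pair ho (hn l) (hκ l) r1 r2, hn', hκ']
  ext t
  rw [mem_col]
  unfold seqSet
  constructor
  · rintro ⟨y, hy, _, rfl⟩
    obtain ⟨l, rfl⟩ := ZFSet.mem_range.1 hy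
    rw [(hp l).2]
    exact ZFSet.mem_range.2 ⟨l, rfl⟩
  · intro ht
    obtain ⟨l, rfl⟩ := ZFSet.mem_range.1 ht
    exact ⟨_, ZFSet.mem_range.2 ⟨l, rfl⟩, (hp l).1, (hp l).2⟩

theorem lim_add_omega (a : Ordinal.{u}) : Lim (a + Ordinal.omega0) := by
  have h := Ordinal.isSuccLimit_add a Ordinal.isSuccLimit_omega0
  refine ⟨?_, fun b hb => h.succ_lt hb⟩
  have h1 : (0 : Ordinal.{u}) < Ordinal.omega0 := Ordinal.omega0_pos
  exact h1.trans_le le_add_self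

theorem Ctx.perfect (C : Ctx θ κ σ U W) (hWr : ∀ n m, (W n m).dom.rank < θ)
    {lam : Ordinal.{u}} (hlam : ∀ a, a < lam ↔ ∃ n, a < κ n)
    (φ : S1) (p : ℕ → ZFSet.{u}) (n₁ : ℕ)
    (hp : ∀ i, (p i).rank < κ n₁ ∨ p i = seqSet κ)
    (X : Set (Pow lam)) (hXd : ∀ A : Pow lam, A ∈ X ↔
      φ.Sat (fun x y : ZFSet.{u} => x ∈ y) (cons A.1.1 p))
    (hX : Cardinal.lift.{u+1} lam.card < #X) :
    ∃ ι : (ℕ → Set.Iio lam) → Pow lam, IsPerfectEmbedding ι ∧ Set.range ι ⊆ X := by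
  obtain ⟨A, hAX, hAg⟩ := exists_good C hlam X hX
  have hφ := (hXd A).1 hAX
  -- reflection
  have hbd : ∃ θ₀ : Ordinal.{u}, θ ≤ θ₀ ∧ ∀ i, ((cons A.1.1 p : ℕ → ZFSet.{u}) i).rank < θ₀ := by
    refine ⟨max θ (max (A.1.1.rank + 1) (max ((seqSet κ).rank + 1) (κ n₁))), le_max_left _ _, ?_⟩
    intro i
    rcases i with _ | i
    · exact (Order.lt_succ A.1.1.rank).trans_le ((le_max_left _ _).trans (le_max_right _ _))
    · show (p i).rank < _
      rcases hp i with h | h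
      · exact h.trans_le ((le_max_right _ _).trans ((le_max_right _ _).trans (le_max_right _ _)))
      · rw [h]
        exact (Order.lt_succ (seqSet κ).rank).trans_le
          ((le_max_left _ _).trans ((le_max_right _ _).trans (le_max_right _ _)))
  obtain ⟨θ₀, hθ₀, hr⟩ := hbd
  obtain ⟨θ₁, hθ₁, ht⟩ := φ.reflect (cons A.1.1 p) θ₀ hr hφ
  obtain ⟨θ', hθ'⟩ : ∃ θ' : Ordinal.{u}, θ' = θ₁ + Ordinal.omega0 := ⟨_, rfl⟩
  have hlim : Lim θ' := by rw [hθ']; exact lim_add_omega θ₁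
  have hle : θ₁ ≤ θ' := by rw [hθ']; exact le_self_add
  have hv1 : ∀ i, ((cons A.1.1 p : ℕ → ZFSet.{u}) i).rank < θ₁ := fun i => (hr i).trans_le hθ₁
  have hθθ : θ ≤ θ' := hθ₀.trans (hθ₁.trans hle)
  have C' := C.up hlim hθθ
  have ht' : φ.Sat (fun a b : VS θ' => a.1 ∈ b.1)
      (fun i => ⟨(cons A.1.1 p : ℕ → ZFSet.{u}) i, (hv1 i).le.trans hle⟩) := by
    have hi : IniEmb (fun x y : {x : ZFSet.{u} // x.rank < θ₁} => x.1 ∈ y.1)
        (fun a b : VS θ' => a.1 ∈ b.1) (fun x => ⟨x.1, x.2.le.trans hle⟩) :=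
      ⟨fun x y h => Subtype.ext (Subtype.mk.inj h), fun a b => Iff.rfl,
        fun b x hx => ⟨⟨x.1, (ZFSet.rank_lt_of_mem hx).trans b.2⟩, Subtype.ext rfl⟩⟩
    exact φ.sat_up hi _ (ht hv1)
  -- the blocks
  choose f hf1 hf2 using hAg
  obtain ⟨n, hn0, hn1⟩ : ∃ n : ℕ → ℕ, n 0 = n₁ + 1 ∧ ∀ s, n (s+1) = f (n s) + 1 :=
    ⟨fun s => Nat.rec (motive := fun _ => ℕ) (n₁+1) (fun _ a => f a + 1) s, rfl, fun _ => rfl⟩
  obtain ⟨m, hm⟩ : ∃ m : ℕ → ℕ, ∀ s, m s = f (n s) := ⟨fun s => f (n s), fun _ => rfl⟩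
  obtain ⟨y, hy⟩ : ∃ y : ℕ → ZFSet.{u}, ∀ s, y s = A.1.1 ∩ (κ (m s)).toZFSet :=
    ⟨fun s => A.1.1 ∩ (κ (m s)).toZFSet, fun _ => rfl⟩
  have hnm : ∀ s, n s ≤ m s := fun s => by rw [hm]; exact hf1 _
  have hns : ∀ s, n (s+1) = m s + 1 := fun s => by rw [hm, hn1]
  have hyκ : ∀ s, y s ⊆ (κ (m s)).toZFSet := fun s t ht => by
    rw [hy] at ht
    exact (ZFSet.mem_inter.1 ht).2
  have hyr : ∀ s, (y s).rank ≤ σ (m s) := fun s => by
    refine (ZFSet.rank_mono (hyκ s)).trans ?_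
    rw [Ordinal.rank_toZFSet]
    exact (C.κσ _).le
  obtain ⟨q, hq⟩ := exists_tree' C' n m hnm hns y hyr hyκ (fun s => by
    rw [hy, hm]; exact hf2 _)
  -- the countable hull
  let P : Set ZFSet.{u} := Set.range (cons A.1.1 p : ℕ → ZFSet.{u}) ∪ Set.range y ∪
    Set.range (fun r : ℕ × ℕ => (q r.1 r.2).1) ∪ Set.range (fun l => (U l).cd) ∪
    Set.range (fun l => (U l).dom) ∪ Set.range (fun r : ℕ × ℕ => (W r.1 r.2).cd) ∪
    Set.range (fun r : ℕ × ℕ => (W r.1 r.2).dom) ∪ Set.range (fun l => KK (σ l)) ∪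
    Set.range (fun l => ZFSet.vonNeumann (σ l)) ∪ {(cdG θ' (fun c => c)).1}
  have hPc : P.Countable := by
    refine Set.Countable.union (Set.Countable.union (Set.Countable.union (Set.Countable.union
      (Set.Countable.union (Set.Countable.union (Set.Countable.union (Set.Countable.union
      (Set.Countable.union ?_ ?_) ?_) ?_) ?_) ?_) ?_) ?_) ?_) (Set.countable_singleton _) <;>
    exact Set.countable_range _
  have hκσθ : ∀ l, κ l < θ' := fun l => (C'.κσ l).trans (C'.σθ l)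
  have hB : ∀ b ∈ {x : ZFSet.{u} | x.rank < κ n₁} ∪ P, b.rank ≤ θ' := by
    rintro b (hb | hb)
    · exact (LT.lt.trans hb (hκσθ n₁)).le
    · rcases hb with ((((((((⟨i, rfl⟩ | ⟨i, rfl⟩) | ⟨i, rfl⟩) | ⟨i, rfl⟩) | ⟨i, rfl⟩) | ⟨i, rfl⟩) |
        ⟨i, rfl⟩) | ⟨i, rfl⟩) | ⟨i, rfl⟩) | rfl
      · exact (hv1 i).le.trans hle
      · exact (hyr i).trans (C'.σθ _).le
      · exact (q i.1 i.2).2
      · refine (rank_cd _).trans (Order.succ_le_of_lt ?_)
        rw [C.Ud, Ordinal.rank_toZFSet]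
        exact hκσθ i
      · show (U i).dom.rank ≤ _
        rw [C.Ud, Ordinal.rank_toZFSet]
        exact (hκσθ i).le
      · exact (rank_cd _).trans (Order.succ_le_of_lt ((hWr _ _).trans_le hθθ))
      · exact ((hWr _ _).trans_le hθθ).le
      · show (KK (σ i)).rank ≤ _
        unfold KK
        rw [ZFSet.rank_vonNeumann]
        exact Order.succ_le_of_lt (C'.σθ i)
      · show (ZFSet.vonNeumann (σ i)).rank ≤ _
        rw [ZFSet.rank_vonNeumann]
        exact (C'.σθ i).le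
      · exact (cdG θ' (fun c => c)).2
  obtain ⟨N, hN, hBN, hNc⟩ := exists_El _ hB (by
    refine (aleph0_le_Sm hlim).trans ?_
    refine Cardinal.mk_le_of_injective (f := fun x => ⟨x.1, x.2.le⟩) ?_
    intro x x' hxx
    exact Subtype.ext (Subtype.mk.inj hxx))
  have hω : ℵ₀ < Cardinal.lift.{u+1} (κ (n 0)).card := Cardinal.aleph0_lt_lift.2 (C.unc _)
  have hNc' : #N < Cardinal.lift.{u+1} (κ (n 0)).card := by
    refine lt_of_le_of_lt hNc (max_lt ?_ hω)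
    refine lt_of_le_of_lt (Cardinal.mk_union_le _ _) (Cardinal.add_lt_of_lt hω.le ?_ ?_)
    · rw [hn0]
      exact (C.ms (n₁+1)).card_Sm (κ n₁) (C.mono (Nat.lt_succ_self _))
    · exact lt_of_le_of_lt (Cardinal.le_aleph0_iff_set_countable.2 hPc) hω
  have hPN : ∀ x ∈ P, x ∈ N := fun x hx => hBN (Or.inr hx)
  have hpn : PN κ σ U W θ' N := by
    refine ⟨fun l => hPN _ ?_, fun l => hPN _ ?_, fun a b => hPN _ ?_, fun a b => hPN _ ?_,
      fun l => hPN _ ?_, fun l => hPN _ ?_, hPN _ (Or.inr rfl)⟩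
    · exact Or.inl (Or.inl (Or.inl (Or.inl (Or.inl (Or.inl (Or.inr ⟨l, rfl⟩))))))
    · exact Or.inl (Or.inl (Or.inl (Or.inl (Or.inl (Or.inr ⟨l, rfl⟩)))))
    · exact Or.inl (Or.inl (Or.inl (Or.inl (Or.inr ⟨(a, b), rfl⟩))))
    · exact Or.inl (Or.inl (Or.inl (Or.inr ⟨(a, b), rfl⟩)))
    · exact Or.inl (Or.inl (Or.inr ⟨l, rfl⟩))
    · exact Or.inl (Or.inr ⟨l, rfl⟩)
  have hvN : ∀ i, (cons A.1.1 p : ℕ → ZFSet.{u}) i ∈ N := fun i => hPN _
    (Or.inl (Or.inl (Or.inl (Or.inl (Or.inl (Or.inl (Or.inl (Or.inl (Or.inl ⟨i, rfl⟩)))))))))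
  have hyN : ∀ s, y s ∈ N := fun s => hPN _
    (Or.inl (Or.inl (Or.inl (Or.inl (Or.inl (Or.inl (Or.inl (Or.inl (Or.inr ⟨s, rfl⟩)))))))))
  have hqN : ∀ s i, (q s i).1 ∈ N := fun s i => hPN _
    (Or.inl (Or.inl (Or.inl (Or.inl (Or.inl (Or.inl (Or.inl (Or.inr ⟨(s, i), rfl⟩))))))))
  obtain ⟨H, hH⟩ := hq N hN hpn hqN hyN hNc'
  -- the fixed points
  have hsm : ∀ z, (∀ s, z s < κ (n s)) → ∀ x : ZFSet.{u}, x.rank < κ n₁ → x ∈ H z :=
    fun z hz x hx => (hH z hz).2.1 (hBN (Or.inl hx))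
  have hfix : ∀ z, (∀ s, z s < κ (n s)) → ∀ x : ZFSet.{u}, x.rank ≤ κ n₁ → col (H z) x = x :=
    fun z hz x hx => col_id (T := fun t => t.rank < κ n₁)
      (fun a b ha hb => (rank_lt_of_mem hb).trans ha) (fun a ha => hsm z hz a ha) x
      (fun b hb => (rank_lt_of_mem hb).trans_le hx)
  have hκN : ∀ l, (κ l).toZFSet ∈ N := fun l => by
    rw [← C.Ud]; exact hpn.Ud l
  have hκfix : ∀ z, (∀ s, z s < κ (n s)) → ∀ l, col (H z) (κ l).toZFSet = (κ l).toZFSet := by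
    intro z hz l
    rcases le_or_gt (n 0) l with h1 | h1
    · exact (hH z hz).2.2.1 l h1
    · apply hfix z hz
      rw [Ordinal.rank_toZFSet]
      exact C.mono.monotone (by omega)
  have hseq : ∀ z, (∀ s, z s < κ (n s)) → col (H z) (seqSet κ) = seqSet κ := by
    intro z hz
    have hnr : ∀ k : ℕ, ((k : Ordinal.{u}).toZFSet).rank < κ n₁ := by
      intro k
      rw [Ordinal.rank_toZFSet]
      exact nat_lt_unc (C.ord _) (C.unc _) k
    exact col_seqSet hlim (hH z hz).1 hκσθ (fun k => hsm z hz _ (hnr k))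
      (fun k => hfix z hz _ (hnr k).le) (fun l => (hH z hz).2.1 (hκN l)) (hκfix z hz)
  have hsub : ∀ z, (∀ s, z s < κ (n s)) → col (H z) A.1.1 ⊆ lam.toZFSet := by
    intro z hz t ht
    obtain ⟨x, hx, hxH, rfl⟩ := mem_col.1 ht
    obtain ⟨ζ, hζ, rfl⟩ := Ordinal.mem_toZFSet_iff.1 (A.2 hx)
    obtain ⟨l, hl⟩ := (hlam ζ).1 hζ
    have h1 : col (H z) ζ.toZFSet ∈ (κ l).toZFSet := by
      rw [← hκfix z hz l]
      exact mem_col.2 ⟨_, Ordinal.toZFSet_mem_toZFSet_iff.2 hl, hxH, rfl⟩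
    obtain ⟨ζ', hζ', he⟩ := Ordinal.mem_toZFSet_iff.1 h1
    rw [← he]
    exact Ordinal.toZFSet_mem_toZFSet_iff.2 ((hlam ζ').2 ⟨l, hζ'⟩)
  have hcut : ∀ z, (∀ s, z s < κ (n s)) → ∀ s t, t ∈ col (H z) (y s) ↔
      (t ∈ col (H z) A.1.1 ∧ t ∈ (κ (m s)).toZFSet) := by
    intro z hz s t
    rw [mem_col, mem_col]
    constructor
    · rintro ⟨x, hx, hxH, rfl⟩
      rw [hy, ZFSet.mem_inter] at hx
      refine ⟨⟨x, hx.1, hxH, rfl⟩, ?_⟩
      rw [← hκfix z hz (m s)]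
      exact mem_col.2 ⟨x, hx.2, hxH, rfl⟩
    · rintro ⟨⟨x, hx, hxH, rfl⟩, h2⟩
      rw [← hκfix z hz (m s), (hH z hz).1.col_mem_iff hxH ((hH z hz).2.1 (hκN _))] at h2
      exact ⟨x, by rw [hy]; exact ZFSet.mem_inter.2 ⟨hx, h2⟩, hxH, rfl⟩
  -- the coding
  have hnmono : StrictMono n := strictMono_nat_of_lt_succ (fun s => by
    rw [hns]; exact Nat.lt_succ_of_le (hnm s))
  have hlle : ∀ l, κ l < lam := fun l => (hlam _).2 ⟨l+1, C.mono (Nat.lt_succ_self l)⟩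
  have hlamlim : Lim lam := by
    refine ⟨(bot_le.trans_lt (hlle 0)), fun a ha => ?_⟩
    obtain ⟨l, hl⟩ := (hlam a).1 ha
    exact (Order.succ_le_of_lt hl).trans_lt (hlle l)
  obtain ⟨e, he1, he2⟩ := exists_coding (o := lam) (κ := fun s => κ (n s)) hlamlim
    (C.mono.comp hnmono) (by
      intro a ha
      obtain ⟨l, hl⟩ := (hlam a).1 ha
      exact ⟨l, hl.trans_le (C.mono.monotone (hnmono.id_le l))⟩) (by
      have := nat_lt_unc (C.ord (n 0)) (C.unc (n 0)) 0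
      exact bot_le.trans_lt this)
  have hz : ∀ x : ℕ → Set.Iio lam, ∀ s, (fun s => (e x s).1) s < κ (n s) := fun x s => (e x s).2
  let ι : (ℕ → Set.Iio lam) → Pow lam := fun x =>
    ⟨⟨col (H (fun s => (e x s).1)) A.1.1, (col_rank _ _).trans A.1.2⟩, hsub _ (hz x)⟩
  have hιcut : ∀ x s t, t ∈ col (H (fun s => (e x s).1)) (y s) ↔
      (t ∈ (ι x).1.1 ∧ t ∈ (κ (m s)).toZFSet) := fun x => hcut _ (hz x)
  have hmle : ∀ s, s ≤ m s := fun s => (hnmono.id_le s).trans (hnm s)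
  refine ⟨ι, isPerfect_of_metric ι ?_ ?_, ?_⟩
  · intro x η hη
    obtain ⟨l, hl⟩ := (hlam η).1 hη
    refine ⟨l + 1, fun x' hx' t ht => ?_⟩
    have h1 : ∀ i < l + 1, e x i = e x' i := he1 x x' (l+1) (fun k hk => (hx' k hk).symm)
    have h2 := ((hH _ (hz x)).2.2.2 _ (hz x') l (fun i hi => by
      show (e x i).1 = (e x' i).1
      rw [h1 i (Nat.lt_succ_of_lt hi)])).1 (by
      show (e x l).1 = (e x' l).1
      rw [h1 l (Nat.lt_succ_self l)])
    have htκ : t ∈ (κ (m l)).toZFSet := by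
      obtain ⟨ζ, hζ, rfl⟩ := Ordinal.mem_toZFSet_iff.1 ht
      exact Ordinal.toZFSet_mem_toZFSet_iff.2 ((hζ.trans hl).trans_le
        (C.mono.monotone (hmle l)))
    constructor
    · intro h3
      have h4 := (hιcut x' l t).2 ⟨h3, htκ⟩
      rw [← h2] at h4
      exact ((hιcut x l t).1 h4).1
    · intro h3
      have h4 := (hιcut x l t).2 ⟨h3, htκ⟩
      rw [h2] at h4
      exact ((hιcut x' l t).1 h4).1
  · intro x k
    obtain ⟨Q, hQ⟩ := he2 x k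
    refine ⟨κ (m Q), hlle _, fun x' hx' => hQ x' ?_⟩
    intro i
    induction i using Nat.strong_induction_on with
    | _ i ih =>
      intro hi
      apply Subtype.ext
      have h1 := (hH _ (hz x')).2.2.2 _ (hz x) i (fun j hj => by
        show (e x' j).1 = (e x j).1
        rw [ih j hj (hj.trans hi)])
      apply h1.2
      ext t
      rw [hιcut, hιcut]
      apply and_congr_left
      intro ht
      apply hx'
      obtain ⟨ζ, hζ, rfl⟩ := Ordinal.mem_toZFSet_iff.1 ht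
      refine Ordinal.toZFSet_mem_toZFSet_iff.2 (hζ.trans_le (C.mono.monotone ?_))
      have h2 : n (i+1) ≤ n Q := hnmono.monotone hi
      have h3 := hns i
      have h4 := hnm Q
      omega
  · rintro _ ⟨x, rfl⟩
    rw [hXd]
    have h1 := (hH _ (hz x)).1.truth φ _ (fun i => (hH _ (hz x)).2.1 (hvN i)) ht'
    have h2 : (cons (ι x).1.1 p : ℕ → ZFSet.{u}) =
        fun i => col (H (fun s => (e x s).1)) ((cons A.1.1 p : ℕ → ZFSet.{u}) i) := by
      funext i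
      rcases i with _ | i
      · rfl
      · show p i = col _ (p i)
        rcases hp i with h | h
        · exact (hfix _ (hz x) _ h.le).symm
        · rw [h, hseq _ (hz x)]
    rw [h2]
    exact h1

end SOCat
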