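import Pool.Agent.SOCat.T10

/-!
# The measures from supercompactness
-/

namespace SOCat

universe u

open ZFSet Cardinal

def Fml.cod : Fml → ℕ
  | .mem i j => 5 * Nat.pair i j
  | .eq i j => 5 * Nat.pair i j + 1
  | .neg φ => 5 * φ.cod + 2
  | .and φ ψ => 5 * Nat.pair φ.cod ψ.cod + 3
  | .all φ => 5 * φ.cod + 4

theorem Fml.cod_inj : ∀ φ ψ : Fml, φ.cod = ψ.cod → φ = ψ := by
  intro φ
  induction φ with
  | mem i j =>
    intro ψ h
    cases ψ with
    | mem i' j' =>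
      simp only [Fml.cod] at h
      obtain ⟨rfl, rfl⟩ := Nat.pair_eq_pair.1 (show Nat.pair i j = Nat.pair i' j' by omega)
      rfl
    | _ => simp only [Fml.cod] at h; omega
  | eq i j =>
    intro ψ h
    cases ψ with
    | eq i' j' =>
      simp only [Fml.cod] at h
      obtain ⟨rfl, rfl⟩ := Nat.pair_eq_pair.1 (show Nat.pair i j = Nat.pair i' j' by omega)
      rfl
    | _ => simp only [Fml.cod] at h; omega
  | neg φ ih =>
    intro ψ h
    cases ψ with
    | neg ψ =>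
      simp only [Fml.cod] at h
      rw [ih ψ (by omega)]
    | _ => simp only [Fml.cod] at h; omega
  | and φ1 φ2 ih1 ih2 =>
    intro ψ h
    cases ψ with
    | and ψ1 ψ2 =>
      simp only [Fml.cod] at h
      obtain ⟨h1, h2⟩ := Nat.pair_eq_pair.1
        (show Nat.pair φ1.cod φ2.cod = Nat.pair ψ1.cod ψ2.cod by omega)
      rw [ih1 _ h1, ih2 _ h2]
    | _ => simp only [Fml.cod] at h; omega
  | all φ ih =>
    intro ψ h
    cases ψ with
    | all ψ =>
      simp only [Fml.cod] at h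
      rw [ih ψ (by omega)]
    | _ => simp only [Fml.cod] at h; omega

theorem exists_U {κ : Ordinal.{u}} (hord : κ.card.ord = κ) (h : ∃ D : Ultrafilter (Set (Set.Iio κ)), IsNormalFine κ.card κ D) :
    ∃ M : Ms.{u}, MsU κ M := by
  obtain ⟨D, hD⟩ := h
  have h1 : ∀ s : Set (Set.Iio κ), ∃ a : Ordinal.{u}, #s < Cardinal.lift.{u+1} κ.card →
      ∃ h : a < κ, (⟨a, h⟩ : Set.Iio κ) ∉ s := by
    intro s
    by_cases hs : #s < Cardinal.lift.{u+1} κ.card
    · by_contra hc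
      push Not at hc
      obtain ⟨_, h2⟩ := hc 0
      apply not_le.2 hs
      rw [← Cardinal.mk_Iio_ordinal]
      refine Cardinal.mk_le_of_injective (f := fun a : Set.Iio κ => (⟨a, (hc a.1).2 a.2⟩ : s)) ?_
      intro a a' haa
      exact congrArg Subtype.val haa
    · exact ⟨0, fun h => absurd h hs⟩
  choose f hf using h1
  refine ⟨⟨D.map (fun s => (f s).toZFSet), κ.toZFSet, ?_⟩, rfl, ?_, ?_, hord⟩
  · show ∀ᶠ s in (D : Filter (Set (Set.Iio κ))), (f s).toZFSet ∈ κ.toZFSet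
    filter_upwards [hD.small] with s hs
    obtain ⟨h2, _⟩ := hf s hs
    exact Ordinal.toZFSet_mem_toZFSet_iff.2 h2
  · intro ι P hι hP
    exact hD.complete ι (fun i s => P i (f s).toZFSet) hι hP
  · intro c
    show ∀ᶠ s in (D : Filter (Set (Set.Iio κ))), (f s).toZFSet ≠ c
    by_contra hc
    have hc' : ∀ᶠ s in (D : Filter (Set (Set.Iio κ))), (f s).toZFSet = c := by
      have h2 := Ultrafilter.eventually_not.2 hc
      filter_upwards [h2] with s hs
      exact not_not.1 hs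
    obtain ⟨s0, hs0, hs0'⟩ := (hc'.and hD.small).exists
    obtain ⟨ha, _⟩ := hf s0 hs0'
    obtain ⟨s, ⟨hs1, hs2⟩, hs3⟩ := ((hc'.and hD.small).and (hD.fine ⟨f s0, ha⟩)).exists
    obtain ⟨hb, hb'⟩ := hf s hs2
    have he : f s = f s0 := Ordinal.toZFSet_injective (hs1.trans hs0.symm)
    apply hb'
    have : (⟨f s, hb⟩ : Set.Iio κ) = ⟨f s0, ha⟩ := Subtype.ext he
    rw [this]
    exact hs3

theorem exists_W {κ σ γ : Ordinal.{u}} (hω : ℵ₀ < κ.card) (b : Set.Iio γ ≃ VS σ)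
    (h : ∃ D : Ultrafilter (Set (Set.Iio γ)), IsNormalFine κ.card γ D) : ∃ M : Ms.{u}, M.dom.rank ≤ Order.succ (Order.succ σ) ∧ Cpl κ M ∧
      Nrm M ∧ (∀ z : ZFSet.{u}, z.rank ≤ σ → ∀ᶠ c : ZFSet.{u} in M.D, z ∈ c) ∧
      ∀ c ∈ M.dom, El σ {z | z ∈ c} ∧ #{z : ZFSet.{u} // z ∈ c} < Cardinal.lift.{u+1} κ.card := by
  classical
  obtain ⟨D, hD⟩ := h
  have hω' : ℵ₀ < Cardinal.lift.{u+1} κ.card := Cardinal.aleph0_lt_lift.2 hω
  obtain ⟨F, hF⟩ : ∃ F : Set (Set.Iio γ) → ZFSet.{u}, ∀ s z, z ∈ F s ↔ ∃ a ∈ s, (b a).1 = z := by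
    refine ⟨fun s => ZFSet.sep (fun z => ∃ a ∈ s, (b a).1 = z) (KK σ), fun s z => ?_⟩
    rw [ZFSet.mem_sep, mem_KK]
    constructor
    · exact fun h => h.2
    · rintro ⟨a, ha, rfl⟩
      exact ⟨(b a).2, a, ha, rfl⟩
  have hFr : ∀ s z, z ∈ F s → z.rank ≤ σ := by
    intro s z hz
    obtain ⟨a, _, rfl⟩ := (hF s z).1 hz
    exact (b a).2
  have hFb : ∀ s (z : VS σ), z.1 ∈ F s ↔ b.symm z ∈ s := by
    intro s z
    rw [hF]
    constructor
    · rintro ⟨a, ha, he⟩
      have : b a = z := Subtype.ext he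
      rw [← this, Equiv.symm_apply_apply]
      exact ha
    · intro hz
      exact ⟨_, hz, by rw [Equiv.apply_symm_apply]⟩
  have hcard : ∀ᶠ s in (D : Filter (Set (Set.Iio γ))),
      #{z : ZFSet.{u} // z ∈ F s} < Cardinal.lift.{u+1} κ.card := by
    filter_upwards [hD.small] with s hs
    refine lt_of_le_of_lt ?_ hs
    refine Cardinal.mk_le_of_injective (f := fun z => (⟨b.symm ⟨z.1, hFr s z.1 z.2⟩,
      (hFb s ⟨z.1, hFr s z.1 z.2⟩).1 z.2⟩ : s)) ?_
    intro z z' hzz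
    have h1 := congrArg Subtype.val hzz
    exact Subtype.ext (Subtype.mk.inj (b.symm.injective h1))
  have hEl : ∀ᶠ s in (D : Filter (Set (Set.Iio γ))), El σ {z | z ∈ F s} := by
    have key : ∀ᶠ s in (D : Filter (Set (Set.Iio γ))), ∀ (φ : Fml) (v : ℕ → VS σ),
        (∀ i, (v i).1 ∈ F s) → (∃ z, Sat φ (cons z v)) → ∃ z : VS σ, z.1 ∈ F s ∧
          Sat φ (cons z v) := by
      by_contra hc
      have h2 := Ultrafilter.eventually_not.2 hc
      have h3 : ∀ s : Set (Set.Iio γ), ∃ (φ : Fml) (v : ℕ → VS σ),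
          (¬ ∀ (φ : Fml) (v : ℕ → VS σ),
          (∀ i, (v i).1 ∈ F s) → (∃ z, Sat φ (cons z v)) → ∃ z : VS σ, z.1 ∈ F s ∧
            Sat φ (cons z v)) → (∀ i, (v i).1 ∈ F s) ∧ (∃ z, Sat φ (cons z v)) ∧
            ¬ ∃ z : VS σ, z.1 ∈ F s ∧ Sat φ (cons z v) := by
        intro s
        by_cases h4 : ∀ (φ : Fml) (v : ℕ → VS σ),
          (∀ i, (v i).1 ∈ F s) → (∃ z, Sat φ (cons z v)) → ∃ z : VS σ, z.1 ∈ F s ∧
            Sat φ (cons z v)
        · exact ⟨.mem 0 0, fun _ => ⟨∅, by rw [ZFSet.rank_empty]; exact bot_le⟩,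
            fun h => absurd h4 h⟩
        · have h5 := h4
          push Not at h5
          obtain ⟨φ, v, h6, h7, h8⟩ := h5
          refine ⟨φ, v, fun _ => ⟨h6, h7, ?_⟩⟩
          rintro ⟨z, hz1, hz2⟩
          exact h8 z hz1 hz2
      choose φ v hv using h3
      -- the formula is constant
      have h4 : ∃ φ0, ∀ᶠ s in (D : Filter (Set (Set.Iio γ))), φ s = φ0 := by
        by_contra h5
        push Not at h5
        have h6 := hD.complete (ULift.{u+1} ℕ) (fun k s => (φ s).cod ≠ k.down) (by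
          rw [Cardinal.mk_uLift, Cardinal.mk_nat, Cardinal.lift_aleph0]
          exact hω') (by
          intro k
          by_contra h7
          have h8 := Ultrafilter.eventually_not.2 h7
          obtain ⟨s0, hs0⟩ := h8.exists
          obtain ⟨s, hs, hs'⟩ := (h8.and (h5 (φ s0))).exists
          exact hs' (Fml.cod_inj _ _ ((not_not.1 hs).trans (not_not.1 hs0).symm)))
        obtain ⟨s, hs⟩ := h6.exists
        exact hs ⟨(φ s).cod⟩ rfl
      obtain ⟨φ0, hφ0⟩ := h4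
      have h5 : ∀ i, ∃ a, ∀ᶠ s in (D : Filter (Set (Set.Iio γ))), b.symm (v s i) = a := by
        intro i
        refine hD.normal (fun s => b.symm (v s i)) ?_
        filter_upwards [h2] with s hs
        exact (hFb s _).1 ((hv s hs).1 i)
      choose w hw using h5
      have h6 := hD.complete (ULift.{u+1} ℕ) (fun i s => b.symm (v s i.down) = w i.down) (by
          rw [Cardinal.mk_uLift, Cardinal.mk_nat, Cardinal.lift_aleph0]
          exact hω') (fun i => hw i.down)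
      have h7 : ∀ᶠ s in (D : Filter (Set (Set.Iio γ))), v s = fun i => b (w i) := by
        filter_upwards [h6] with s hs
        funext i
        rw [← hs ⟨i⟩, Equiv.apply_symm_apply]
      obtain ⟨s0, ⟨hs1, hs2⟩, hs3⟩ := ((h2.and hφ0).and h7).exists
      obtain ⟨z, hz⟩ := (hv s0 hs1).2.1
      rw [hs2, hs3] at hz
      obtain ⟨s, ⟨⟨ht1, ht2⟩, ht3⟩, ht4⟩ :=
        (((h2.and hφ0).and h7).and (hD.fine (b.symm z))).exists
      apply (hv s ht1).2.2
      rw [ht2, ht3]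
      exact ⟨z, (hFb s z).2 ht4, hz⟩
    filter_upwards [key] with s hs
    constructor
    · rintro ⟨z, z'⟩ ⟨h1, h2⟩
      have h1' : z = z' := h1
      subst h1'
      exact ⟨hFr s _ h2, hFr s _ h2⟩
    · intro φ v v' hv
      have : v = v' := by
        funext i
        exact Subtype.ext (hv i).1
      rw [this]
    · rintro φ v v' hv hz
      obtain ⟨z, hz1, hz2⟩ := hs φ v (fun i => (hv i).2) hz
      exact ⟨z, z, ⟨rfl, hz1⟩, hz2⟩
  refine ⟨⟨D.map F, ZFSet.sep (fun c => El σ {z | z ∈ c} ∧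
    #{z : ZFSet.{u} // z ∈ c} < Cardinal.lift.{u+1} κ.card) (ZFSet.powerset (KK σ)), ?_⟩,
    ?_, ?_, ?_, ?_, ?_⟩
  · show ∀ᶠ s in (D : Filter (Set (Set.Iio γ))), F s ∈ _
    filter_upwards [hcard, hEl] with s h1 h2
    rw [ZFSet.mem_sep, ZFSet.mem_powerset]
    exact ⟨fun z hz => mem_KK.2 (hFr s z hz), h2, h1⟩
  · rw [ZFSet.rank_le_iff]
    intro c hc
    have hc' : c ∈ ZFSet.sep (fun c => El σ {z | z ∈ c} ∧
      #{z : ZFSet.{u} // z ∈ c} < Cardinal.lift.{u+1} κ.card) (ZFSet.powerset (KK σ)) := hc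
    rw [ZFSet.mem_sep, ZFSet.mem_powerset] at hc'
    refine Order.lt_succ_of_le ((ZFSet.rank_mono hc'.1).trans ?_)
    unfold KK
    rw [ZFSet.rank_vonNeumann]
  · intro ι P hι hP
    exact hD.complete ι (fun i s => P i (F s)) hι hP
  · intro f hf
    have hf' : ∀ᶠ s in (D : Filter (Set (Set.Iio γ))), f (F s) ∈ F s := hf
    obtain ⟨z0⟩ : Nonempty (Set.Iio γ) :=
      ⟨b.symm ⟨∅, by rw [ZFSet.rank_empty]; exact bot_le⟩⟩
    have h1 : ∀ s : Set (Set.Iio γ), ∃ a : Set.Iio γ, f (F s) ∈ F s → a ∈ s ∧ (b a).1 = f (F s) := by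
      intro s
      by_cases h2 : f (F s) ∈ F s
      · obtain ⟨a, ha, he⟩ := (hF _ _).1 h2
        exact ⟨a, fun _ => ⟨ha, he⟩⟩
      · exact ⟨z0, fun h => absurd h h2⟩
    choose g hg using h1
    obtain ⟨a, ha⟩ := hD.normal g (by
      filter_upwards [hf'] with s hs
      exact (hg s hs).1)
    refine ⟨(b a).1, ?_⟩
    show ∀ᶠ s in (D : Filter (Set (Set.Iio γ))), f (F s) = (b a).1
    filter_upwards [hf', ha] with s hs1 hs2
    rw [← hs2]
    exact (hg s hs1).2.symm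
  · intro z hz
    show ∀ᶠ s in (D : Filter (Set (Set.Iio γ))), z ∈ F s
    filter_upwards [hD.fine (b.symm ⟨z, hz⟩)] with s hs
    exact (hFb s ⟨z, hz⟩).2 hs
  · intro c hc
    have hc' : c ∈ ZFSet.sep (fun c => El σ {z | z ∈ c} ∧
      #{z : ZFSet.{u} // z ∈ c} < Cardinal.lift.{u+1} κ.card) (ZFSet.powerset (KK σ)) := hc
    rw [ZFSet.mem_sep] at hc'
    exact hc'.2

theorem exists_Ctx {lam : Ordinal.{u}} {κ : ℕ → Ordinal.{u}} (hmono : StrictMono κ)
    (hlam : ∀ a, a < lam ↔ ∃ n, a < κ n) (hord : ∀ n, (κ n).card.ord = κ n)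
    (hunc : ∀ n, ℵ₀ < (κ n).card) (hsc : ∀ n, ∀ γ < lam,
      ∃ D : Ultrafilter (Set (Set.Iio γ)), IsNormalFine (κ n).card γ D) :
    ∃ (σ : ℕ → Ordinal.{u}) (U : ℕ → Ms.{u}) (W : ℕ → ℕ → Ms.{u}), Ctx lam κ σ U W ∧
      ∀ n m, (W n m).dom.rank < lam := by
  have hlle : ∀ l, κ l < lam := fun l => (hlam _).2 ⟨l+1, hmono (Nat.lt_succ_self l)⟩
  have hlamlim : Lim lam := by
    refine ⟨(bot_le.trans_lt (hlle 0)), fun a ha => ?_⟩
    obtain ⟨l, hl⟩ := (hlam a).1 ha
    exact (Order.succ_le_of_lt hl).trans_lt (hlle l)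
  have h1 : ∀ l, ∃ M : Ms.{u}, MsU (κ l) M := fun l => exists_U (hord l) (hsc l _ (hlle l))
  choose U hU using h1
  have hσκ : ∀ m, κ m + Ordinal.omega0 < κ (m+1) := by
    intro m
    refine add_lt_card (hord _) (hunc _) (hmono (Nat.lt_succ_self m)) ?_
    rw [← hord (m+1), Cardinal.lt_ord, Ordinal.card_omega0]
    exact hunc _
  have h2 : ∀ n m, ∃ M : Ms.{u}, M.dom.rank < lam ∧ (n ≤ m → (Cpl (κ n) M ∧
      Nrm M ∧ (∀ z : ZFSet.{u}, z.rank ≤ κ m + Ordinal.omega0 →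
        ∀ᶠ c : ZFSet.{u} in M.D, z ∈ c) ∧
      ∀ c ∈ M.dom, El (κ m + Ordinal.omega0) {z | z ∈ c} ∧
        #{z : ZFSet.{u} // z ∈ c} < Cardinal.lift.{u+1} (κ n).card)) := by
    intro n m
    have h3 : #(VS (κ m + Ordinal.omega0)) < Cardinal.lift.{u+1} (κ (m+1)).card :=
      (card_VS_le_set _).trans_lt ((hU (m+1)).powerset ((hU (m+1)).card_Sm _ (hσκ m)))
    obtain ⟨c, hc2, hc1⟩ := Cardinal.lt_lift_iff.1 h3
    have h4 : c.ord < lam := by
      have : c.ord < κ (m+1) := by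
        rw [← hord (m+1)]
        exact Cardinal.ord_lt_ord.2 hc2
      exact this.trans (hlle _)
    have h5 : #(Set.Iio c.ord) = #(VS (κ m + Ordinal.omega0)) := by
      rw [Cardinal.mk_Iio_ordinal, Cardinal.card_ord, hc1]
    obtain ⟨b⟩ := Cardinal.eq.1 h5
    obtain ⟨M, hM1, hM2, hM3, hM4, hM5⟩ := exists_W (hunc n) b (hsc n _ h4)
    refine ⟨M, hM1.trans_lt ?_, fun _ => ⟨hM2, hM3, hM4, hM5⟩⟩
    exact hlamlim.2 _ (hlamlim.2 _ ((hσκ m).trans (hlle _)))
  choose W hW1 hW2 using h2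
  refine ⟨fun m => κ m + Ordinal.omega0, U, W, ?_, hW1⟩
  exact {
    lim := hlamlim
    sl := fun m => lim_add_omega _
    κσ := fun m => lt_add_of_pos_right _ Ordinal.omega0_pos
    σκ := hσκ
    σθ := fun m => (hσκ m).trans (hlle _)
    mono := hmono
    ord := hord
    unc := hunc
    Ud := fun l => (hU l).dom
    Uc := fun l => (hU l).cpl
    Un := fun l => (hU l).np
    Wc := fun n m h => (hW2 n m h).1
    Wn := fun n m h => (hW2 n m h).2.1
    Wf := fun n m h => (hW2 n m h).2.2.1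
    Wd := fun n m h => (hW2 n m h).2.2.2
    Wr := fun n m _ => hW1 n m }

/-- the perfect set theorem for `Σ_1`-sets at limits of supercompact cardinals -/
theorem perfect_of_supercompact (κ : ℕ → Cardinal.{u}) (hmono : StrictMono κ) (lam : Cardinal.{u})
    (hlam : lam = ⨆ n, κ n) (hsc : ∀ n, ∀ γ < lam.ord, IsSupercompact (κ n) γ)
    (X : Set (Pow lam.ord)) (hdef : SigmaOneDefSeq (fun n => (κ n).ord) X)
    (hX : Cardinal.lift.{u+1} lam < #X) :
    ∃ ι : (ℕ → Set.Iio lam.ord) → Pow lam.ord, IsPerfectEmbedding ι ∧ Set.range ι ⊆ X := by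
  have hlt : ∀ a : Ordinal.{u}, a < lam.ord ↔ ∃ n, a < (κ n).ord := by
    intro a
    rw [Cardinal.lt_ord, hlam, lt_ciSup_iff Cardinal.bddAbove_of_small]
    exact exists_congr fun n => Cardinal.lt_ord.symm
  have hpos : 0 < lam.ord := by
    have h1 : κ 0 < lam := by
      rw [hlam]
      exact (hmono (Nat.lt_succ_self 0)).trans_le (le_ciSup Cardinal.bddAbove_of_small 1)
    exact bot_le.trans_lt (Cardinal.ord_lt_ord.2 h1)
  have hunc : ∀ n, ℵ₀ < κ n := fun n => (hsc n 0 hpos).1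
  have hmono' : StrictMono (fun n => (κ n).ord) := fun a b h => Cardinal.ord_lt_ord.2 (hmono h)
  obtain ⟨σ, U, W, C, hW⟩ := exists_Ctx (lam := lam.ord) (κ := fun n => (κ n).ord) hmono' hlt
    (fun n => by rw [Cardinal.card_ord]) (fun n => by rw [Cardinal.card_ord]; exact hunc n)
    (fun n γ hγ => by
      rw [Cardinal.card_ord]
      exact (hsc n γ hγ).2)
  obtain ⟨φ, k, z, hz, hXd⟩ := hdef
  -- a bound for the ranks of the small parameters
  have hbd : ∀ k' : ℕ, ∃ n₁ : ℕ, ∀ i : Fin k, i.1 < k' → ((z i).rank < (κ n₁).ord ∨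
      z i = seqSet (fun n => (κ n).ord)) := by
    intro k'
    induction k' with
    | zero => exact ⟨0, fun i hi => absurd hi (Nat.not_lt_zero _)⟩
    | succ k' ih =>
      obtain ⟨n₁, hn₁⟩ := ih
      by_cases hk : k' < k
      · rcases hz ⟨k', hk⟩ with h | h
        · obtain ⟨n₂, hn₂⟩ := (hlt _).1 h
          refine ⟨max n₁ n₂, fun i hi => ?_⟩
          rcases Nat.lt_succ_iff_lt_or_eq.1 hi with h1 | h1
          · rcases hn₁ i h1 with h2 | h2
            · exact Or.inl (h2.trans_le (hmono'.monotone (le_max_left n₁ n₂)))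
            · exact Or.inr h2
          · have : i = ⟨k', hk⟩ := Fin.ext h1
            rw [this]
            exact Or.inl (hn₂.trans_le (hmono'.monotone (le_max_right n₁ n₂)))
        · refine ⟨n₁, fun i hi => ?_⟩
          rcases Nat.lt_succ_iff_lt_or_eq.1 hi with h1 | h1
          · exact hn₁ i h1
          · have : i = ⟨k', hk⟩ := Fin.ext h1
            rw [this]
            exact Or.inr h
      · refine ⟨n₁, fun i hi => hn₁ i ?_⟩
        have := i.2
        omega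
  obtain ⟨n₁, hn₁⟩ := hbd k
  refine C.perfect hW hlt φ (fun i => if h : i < k then z ⟨i, h⟩ else ∅) n₁ ?_ X ?_ ?_
  · intro i
    show (if h : i < k then z ⟨i, h⟩ else ∅).rank < (κ n₁).ord ∨
      (if h : i < k then z ⟨i, h⟩ else ∅) = _
    by_cases h : i < k
    · rw [dif_pos h]
      exact hn₁ ⟨i, h⟩ h
    · rw [dif_neg h, ZFSet.rank_empty]
      left
      have h1 : (0 : Cardinal.{u}) < κ n₁ := Cardinal.aleph0_pos.trans (hunc n₁)
      exact bot_le.trans_lt (Cardinal.ord_lt_ord.2 h1)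
  · intro A
    rw [hXd]
    exact Iff.rfl
  · rw [Cardinal.card_ord]
    exact hX

end SOCat
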