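import Pool.Agent.SOCat.T1

/-!
# Generic sequences and collapses
-/

namespace SOCat

universe u

open ZFSet

abbrev RR := Set (ZFSet.{u} × ZFSet.{u})

/-- stages of the hull of a correspondence and two sequences -/
noncomputable def stR (ρ : RR.{u}) (g g' : Ordinal.{u} → ZFSet.{u}) (ξ : Ordinal.{u}) : RR.{u} :=
  ρ ∪ ⋃ ζ : Set.Iio ξ, extR (stR ρ g g' ζ.1) (g ζ.1) (g' ζ.1)
termination_by ξ
decreasing_by exact ζ.2

theorem mem_stR {ρ : RR.{u}} {g g' : Ordinal.{u} → ZFSet.{u}} {ξ : Ordinal.{u}}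
    {p : ZFSet.{u} × ZFSet.{u}} : p ∈ stR ρ g g' ξ ↔
      (p ∈ ρ ∨ ∃ ζ < ξ, p ∈ extR (stR ρ g g' ζ) (g ζ) (g' ζ)) := by
  rw [stR, Set.mem_union, Set.mem_iUnion]
  constructor
  · rintro (h | ⟨ζ, h⟩)
    · exact Or.inl h
    · exact Or.inr ⟨ζ.1, ζ.2, h⟩
  · rintro (h | ⟨ζ, h1, h⟩)
    · exact Or.inl h
    · exact Or.inr ⟨⟨ζ, h1⟩, h⟩

theorem stR_mono {ρ : RR.{u}} {g g' : Ordinal.{u} → ZFSet.{u}} {ξ ξ' : Ordinal.{u}}
    (h : ξ ≤ ξ') : stR ρ g g' ξ ⊆ stR ρ g g' ξ' := by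
  intro p hp
  rw [mem_stR] at hp ⊢
  rcases hp with h1 | ⟨ζ, h1, h2⟩
  · exact Or.inl h1
  · exact Or.inr ⟨ζ, h1.trans_le h, h2⟩

theorem stR_base {ρ : RR.{u}} {g g' : Ordinal.{u} → ZFSet.{u}} {ξ : Ordinal.{u}} :
    ρ ⊆ stR ρ g g' ξ := fun _ hp => mem_stR.2 (Or.inl hp)

/-- stages of the hull of a set and a sequence -/
noncomputable def st (N : Set ZFSet.{u}) (g : Ordinal.{u} → ZFSet.{u}) (ξ : Ordinal.{u}) :
    Set ZFSet.{u} :=
  N ∪ ⋃ ζ : Set.Iio ξ, {z | ∃ w ∈ st N g ζ.1, z = sl (g ζ.1) w}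
termination_by ξ
decreasing_by exact ζ.2

theorem mem_st {N : Set ZFSet.{u}} {g : Ordinal.{u} → ZFSet.{u}} {ξ : Ordinal.{u}}
    {z : ZFSet.{u}} : z ∈ st N g ξ ↔ (z ∈ N ∨ ∃ ζ < ξ, ∃ w ∈ st N g ζ, z = sl (g ζ) w) := by
  rw [st, Set.mem_union, Set.mem_iUnion]
  constructor
  · rintro (h | ⟨ζ, h⟩)
    · exact Or.inl h
    · exact Or.inr ⟨ζ.1, ζ.2, h⟩
  · rintro (h | ⟨ζ, h1, h⟩)
    · exact Or.inl h
    · exact Or.inr ⟨⟨ζ, h1⟩, h⟩

theorem st_mono {N : Set ZFSet.{u}} {g : Ordinal.{u} → ZFSet.{u}} {ξ ξ' : Ordinal.{u}}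
    (h : ξ ≤ ξ') : st N g ξ ⊆ st N g ξ' := by
  intro p hp
  rw [mem_st] at hp ⊢
  rcases hp with h1 | ⟨ζ, h1, h2⟩
  · exact Or.inl h1
  · exact Or.inr ⟨ζ, h1.trans_le h, h2⟩

theorem st_base {N : Set ZFSet.{u}} {g : Ordinal.{u} → ZFSet.{u}} {ξ : Ordinal.{u}} :
    N ⊆ st N g ξ := fun _ hp => mem_st.2 (Or.inl hp)

theorem st_congr {N : Set ZFSet.{u}} {g g' : Ordinal.{u} → ZFSet.{u}} : ∀ {ξ : Ordinal.{u}},
    (∀ ζ < ξ, g ζ = g' ζ) → st N g ξ = st N g' ξ := by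
  intro ξ
  induction ξ using WellFoundedLT.induction with
  | _ ξ ih =>
    intro h
    ext z
    rw [mem_st, mem_st]
    apply or_congr Iff.rfl
    apply exists_congr
    intro ζ
    apply and_congr_right
    intro hζ
    rw [ih ζ hζ (fun η hη => h η (hη.trans hζ)), h ζ hζ]

def dm (ρ : RR.{u}) : Set ZFSet.{u} := {z | ∃ z', (z, z') ∈ ρ}
def rn (ρ : RR.{u}) : Set ZFSet.{u} := {z' | ∃ z, (z, z') ∈ ρ}
def dg (N : Set ZFSet.{u}) : RR.{u} := {p | p.1 = p.2 ∧ p.1 ∈ N}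

theorem mem_dg {N : Set ZFSet.{u}} {a b : ZFSet.{u}} : (a, b) ∈ dg N ↔ a = b ∧ a ∈ N := Iff.rfl

theorem dm_dg (N : Set ZFSet.{u}) : dm (dg N) = N := by
  ext z
  constructor
  · rintro ⟨z', _, h⟩; exact h
  · intro h; exact ⟨z, rfl, h⟩

theorem rn_dg (N : Set ZFSet.{u}) : rn (dg N) = N := by
  ext z
  constructor
  · rintro ⟨z', h1, h⟩
    have h1' : z' = z := h1
    rw [← h1']; exact h
  · intro h; exact ⟨z, rfl, h⟩

theorem dm_stR (ρ : RR.{u}) (g g' : Ordinal.{u} → ZFSet.{u}) (ξ : Ordinal.{u}) :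
    dm (stR ρ g g' ξ) = st (dm ρ) g ξ := by
  induction ξ using WellFoundedLT.induction with
  | _ ξ ih =>
    ext z
    rw [mem_st]
    constructor
    · rintro ⟨z', h⟩
      rw [mem_stR] at h
      rcases h with h | ⟨ζ, hζ, w, w', hw, he⟩
      · exact Or.inl ⟨z', h⟩
      · refine Or.inr ⟨ζ, hζ, w, ?_, (Prod.mk.inj he).1⟩
        rw [← ih ζ hζ]
        exact ⟨w', hw⟩
    · rintro (⟨z', h⟩ | ⟨ζ, hζ, w, hw, rfl⟩)
      · exact ⟨z', mem_stR.2 (Or.inl h)⟩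
      · rw [← ih ζ hζ] at hw
        obtain ⟨w', hw⟩ := hw
        exact ⟨sl (g' ζ) w', mem_stR.2 (Or.inr ⟨ζ, hζ, w, w', hw, rfl⟩)⟩

theorem rn_stR (ρ : RR.{u}) (g g' : Ordinal.{u} → ZFSet.{u}) (ξ : Ordinal.{u}) :
    rn (stR ρ g g' ξ) = st (rn ρ) g' ξ := by
  induction ξ using WellFoundedLT.induction with
  | _ ξ ih =>
    ext z
    rw [mem_st]
    constructor
    · rintro ⟨z', h⟩
      rw [mem_stR] at h
      rcases h with h | ⟨ζ, hζ, w, w', hw, he⟩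
      · exact Or.inl ⟨z', h⟩
      · refine Or.inr ⟨ζ, hζ, w', ?_, (Prod.mk.inj he).2⟩
        rw [← ih ζ hζ]
        exact ⟨w, hw⟩
    · rintro (⟨z', h⟩ | ⟨ζ, hζ, w, hw, rfl⟩)
      · exact ⟨z', mem_stR.2 (Or.inl h)⟩
      · rw [← ih ζ hζ] at hw
        obtain ⟨w', hw⟩ := hw
        exact ⟨sl (g ζ) w', mem_stR.2 (Or.inr ⟨ζ, hζ, w', w, hw, rfl⟩)⟩

theorem stR_dg (N : Set ZFSet.{u}) (g : Ordinal.{u} → ZFSet.{u}) (ξ : Ordinal.{u}) :
    stR (dg N) g g ξ = dg (st N g ξ) := by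
  induction ξ using WellFoundedLT.induction with
  | _ ξ ih =>
    ext ⟨z, z'⟩
    rw [mem_stR, mem_dg, mem_dg, mem_st]
    constructor
    · rintro (h | ⟨ζ, hζ, w, w', hw, he⟩)
      · exact ⟨h.1, Or.inl h.2⟩
      · rw [ih ζ hζ] at hw
        obtain ⟨h1, h2⟩ := Prod.mk.inj he
        obtain ⟨h3, h4⟩ := mem_dg.1 hw
        subst h3
        exact ⟨h1.trans h2.symm, Or.inr ⟨ζ, hζ, w, h4, h1⟩⟩
    · rintro ⟨rfl, h | ⟨ζ, hζ, w, hw, rfl⟩⟩
      · exact Or.inl ⟨rfl, h⟩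
      · refine Or.inr ⟨ζ, hζ, w, w, ?_, rfl⟩
        rw [ih ζ hζ]
        exact ⟨rfl, hw⟩

/-- the code of the constant function with value `z` -/
theorem EI.const {o : Ordinal.{u}} (ho : Lim o) {ρ : RR.{u}} (h : EI o ρ) {z z' : ZFSet.{u}}
    (hz : (z, z') ∈ ρ) : ((cdG o (fun _ => z)).1, (cdG o (fun _ => z')).1) ∈ ρ := by
  have hD : Dfn.{u} fun o v => ∀ p : VS o, (p.1 ∈ (v 0).1 ↔ ∃ c x : VS o, sm c ∧ x.1 ∈ (v 1).1 ∧
      IsP p c x) :=
    ((Dfn.mem 0 1).iff (((d_sm 1).and ((Dfn.mem 0 4).and (d_IsP 2 1 0))).ex.ex)).all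
  have key : ∀ (z u : VS o), (∀ p : VS o, (p.1 ∈ u.1 ↔ ∃ c x : VS o, sm c ∧ x.1 ∈ z.1 ∧
      IsP p c x)) ↔ u = cdG o (fun _ => z.1) := by
    intro z u
    have h1 : ∀ p : ZFSet.{u}, p ∈ (cdG o (fun _ => z.1)).1 ↔ ∃ c x : VS o, sm c ∧ x.1 ∈ z.1 ∧
        p = pair c.1 x.1 := by
      intro p
      unfold cdG
      rw [ZFSet.mem_sep, ZFSet.mem_vonNeumann]
      constructor
      · rintro ⟨hp, c, x, rfl, hx⟩
        have hc := (rank_left_lt c x).trans hp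
        have hx' := (rank_right_lt c x).trans hp
        exact ⟨⟨c, hc.le⟩, ⟨x, hx'.le⟩, sm_iff.2 hc, hx, rfl⟩
      · rintro ⟨c, x, hc, hx, rfl⟩
        rw [sm_iff] at hc
        exact ⟨ho.rank_pair_lt hc ((rank_lt_of_mem hx).trans_le z.2), c.1, x.1, rfl, hx⟩
    constructor
    · intro h2
      apply vs_ext
      intro p
      rw [h1]
      constructor
      · intro hp
        obtain ⟨c, x, hc, hx, hpe⟩ := (h2 (down hp)).1 hp
        exact ⟨c, x, hc, hx, IsP_iff.1 hpe⟩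
      · rintro ⟨c, x, hc, hx, rfl⟩
        have hc' := sm_iff.1 hc
        have hr : (pair c.1 x.1).rank ≤ o :=
          (ho.rank_pair_lt hc' ((rank_lt_of_mem hx).trans_le z.2)).le
        exact (h2 ⟨_, hr⟩).2 ⟨c, x, hc, hx, IsP_iff.2 rfl⟩
    · rintro rfl p
      rw [h1]
      apply exists_congr
      intro c
      apply exists_congr
      intro x
      rw [IsP_iff]
  refine h.get hD (fun _ => ⟨z, (h.rk _ hz).1⟩) (fun _ => ⟨z', (h.rk _ hz).2⟩) (fun _ => hz) _ _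
    ?_ ?_ ?_
  · exact (key ⟨z, (h.rk _ hz).1⟩ _).2 rfl
  · exact fun y hy => (key ⟨z, (h.rk _ hz).1⟩ y).1 hy
  · exact fun y hy => (key ⟨z', (h.rk _ hz).2⟩ y).1 hy

theorem EI.sub_ext {o : Ordinal.{u}} (ho : Lim o) {ρ : RR.{u}} (h : EI o ρ) {g g' : ZFSet.{u}}
    (hg : g.rank < o) (hg' : g'.rank < o) : ρ ⊆ extR ρ g g' := by
  rintro ⟨z, z'⟩ hz
  refine ⟨_, _, h.const ho hz, ?_⟩
  have h1 := slice_cdG ho (G := fun _ => z) hg (h.rk _ hz).1
  have h2 := slice_cdG ho (G := fun _ => z') hg' (h.rk _ hz).2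
  rw [← slice_val, ← slice_val, h1, h2]

theorem EI.stR {o : Ordinal.{u}} (ho : Lim o) {ρ : RR.{u}} (h : EI o ρ)
    (M M' : Ordinal.{u} → Ms.{u}) (g g' : Ordinal.{u} → ZFSet.{u}) (Θ : Ordinal.{u})
    (hM : ∀ ζ < Θ, ((M ζ).cd, (M' ζ).cd) ∈ ρ) (hd : ∀ ζ < Θ, ((M ζ).dom, (M' ζ).dom) ∈ ρ)
    (hr : ∀ ζ < Θ, (M ζ).dom.rank < o) (hr' : ∀ ζ < Θ, (M' ζ).dom.rank < o)
    (hg : ∀ ζ < Θ, Gn (M ζ) (st (dm ρ) g ζ) (g ζ))
    (hg' : ∀ ζ < Θ, Gn (M' ζ) (st (rn ρ) g' ζ) (g' ζ)) :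
    ∀ ξ ≤ Θ, EI o (SOCat.stR ρ g g' ξ) := by
  intro ξ
  induction ξ using WellFoundedLT.induction with
  | _ ξ ih =>
    intro hξ
    have hE : ∀ ζ < ξ, EI o (extR (SOCat.stR ρ g g' ζ) (g ζ) (g' ζ)) := by
      intro ζ hζ
      have hζΘ := hζ.trans_le hξ
      refine (ih ζ hζ hζΘ.le).ext ho (M := M ζ) (M' := M' ζ) (stR_base (hM ζ hζΘ))
        (stR_base (hd ζ hζΘ)) (hr ζ hζΘ) (hr' ζ hζΘ) ?_ ?_
      · have := hg ζ hζΘ
        rw [← dm_stR ρ g g'] at this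
        exact this
      · have := hg' ζ hζΘ
        rw [← rn_stR ρ g g'] at this
        exact this
    have hsub : ∀ ζ < ξ, SOCat.stR ρ g g' ζ ⊆ extR (SOCat.stR ρ g g' ζ) (g ζ) (g' ζ) := by
      intro ζ hζ
      have hζΘ := hζ.trans_le hξ
      exact (ih ζ hζ hζΘ.le).sub_ext ho ((rank_lt_of_mem (hg ζ hζΘ).1).trans (hr ζ hζΘ))
        ((rank_lt_of_mem (hg' ζ hζΘ).1).trans (hr' ζ hζΘ))
    have hEst : ∀ ζ < ξ, extR (SOCat.stR ρ g g' ζ) (g ζ) (g' ζ) ⊆ SOCat.stR ρ g g' ξ :=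
      fun ζ hζ p hp => mem_stR.2 (Or.inr ⟨ζ, hζ, hp⟩)
    have hEE : ∀ ζ ζ', ζ ≤ ζ' → ζ' < ξ → extR (SOCat.stR ρ g g' ζ) (g ζ) (g' ζ) ⊆
        extR (SOCat.stR ρ g g' ζ') (g ζ') (g' ζ') := by
      intro ζ ζ' h1 h2
      rcases h1.lt_or_eq with h3 | rfl
      · exact fun p hp => hsub ζ' h2 (mem_stR.2 (Or.inr ⟨ζ, h3, hp⟩))
      · exact fun p hp => hp
    have hfin : ∀ (f : ℕ → ZFSet.{u} × ZFSet.{u}), (∀ i, f i ∈ SOCat.stR ρ g g' ξ) → ∀ k : ℕ,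
        ∃ τ : RR.{u}, EI o τ ∧ τ ⊆ SOCat.stR ρ g g' ξ ∧ (τ = ρ ∨ ∃ ζ < ξ,
          τ = extR (SOCat.stR ρ g g' ζ) (g ζ) (g' ζ)) ∧ ∀ i < k, f i ∈ τ := by
      intro f hf k
      induction k with
      | zero => exact ⟨ρ, h, stR_base, Or.inl rfl, fun i hi => absurd hi (Nat.not_lt_zero i)⟩
      | succ k ihk =>
        obtain ⟨τ, h1, h2, h3, h4⟩ := ihk
        rcases mem_stR.1 (hf k) with h5 | ⟨ζ', h5, h6⟩
        · refine ⟨τ, h1, h2, h3, fun i hi => ?_⟩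
          rcases Nat.lt_succ_iff_lt_or_eq.1 hi with h7 | rfl
          · exact h4 i h7
          · rcases h3 with rfl | ⟨ζ, h8, rfl⟩
            · exact h5
            · exact hsub ζ h8 (stR_base h5)
        · rcases h3 with rfl | ⟨ζ, h8, rfl⟩
          · refine ⟨_, hE ζ' h5, hEst ζ' h5, Or.inr ⟨ζ', h5, rfl⟩, fun i hi => ?_⟩
            rcases Nat.lt_succ_iff_lt_or_eq.1 hi with h7 | rfl
            · exact hsub ζ' h5 (stR_base (h4 i h7))
            · exact h6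
          · rcases le_total ζ ζ' with h9 | h9
            · refine ⟨_, hE ζ' h5, hEst ζ' h5, Or.inr ⟨ζ', h5, rfl⟩, fun i hi => ?_⟩
              rcases Nat.lt_succ_iff_lt_or_eq.1 hi with h7 | rfl
              · exact hEE ζ ζ' h9 h5 (h4 i h7)
              · exact h6
            · refine ⟨_, hE ζ h8, hEst ζ h8, Or.inr ⟨ζ, h8, rfl⟩, fun i hi => ?_⟩
              rcases Nat.lt_succ_iff_lt_or_eq.1 hi with h7 | rfl
              · exact h4 i h7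
              · exact hEE ζ' ζ h9 h8 h6
    constructor
    · intro p hp
      obtain ⟨τ, h1, _, _, h4⟩ := hfin (fun _ => p) (fun _ => hp) 1
      exact h1.rk _ (h4 0 Nat.one_pos)
    · intro φ v v' hv
      obtain ⟨τ, h1, _, _, h4⟩ := hfin (fun i => ((v i).1, (v' i).1)) hv (fbd φ + 1)
      have h5 := h1.cor φ (fun i => if i < fbd φ then v i else v 0)
        (fun i => if i < fbd φ then v' i else v' 0) (by
          intro i
          by_cases hi : i < fbd φ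
          · simp only [if_pos hi]
            exact h4 i (by omega)
          · simp only [if_neg hi]
            exact h4 0 (by omega))
      rw [sat_fbd φ v (fun i => if i < fbd φ then v i else v 0) (fun i hi => (if_pos hi).symm),
        sat_fbd φ v' (fun i => if i < fbd φ then v' i else v' 0) (fun i hi => (if_pos hi).symm)]
      exact h5
    · rintro φ v v' hv ⟨z, hz⟩
      obtain ⟨τ, h1, h2, _, h4⟩ := hfin (fun i => ((v i).1, (v' i).1)) hv (fbd φ + 1)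
      have h5 := h1.wit φ (fun i => if i < fbd φ then v i else v 0)
        (fun i => if i < fbd φ then v' i else v' 0) (by
          intro i
          by_cases hi : i < fbd φ
          · simp only [if_pos hi]
            exact h4 i (by omega)
          · simp only [if_neg hi]
            exact h4 0 (by omega)) ⟨z, by
          refine (sat_fbd φ _ _ ?_).1 hz
          intro i hi
          cases i with
          | zero => rfl
          | succ i => exact (if_pos (by omega)).symm⟩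
      obtain ⟨y, y', h6, h7⟩ := h5
      refine ⟨y, y', h2 h6, ?_⟩
      refine (sat_fbd φ _ _ ?_).2 h7
      intro i hi
      cases i with
      | zero => rfl
      | succ i => exact (if_pos (by omega)).symm

/-- elementary substructures -/
abbrev El (o : Ordinal.{u}) (N : Set ZFSet.{u}) : Prop := EI o (dg N)

theorem El.rank {o : Ordinal.{u}} {N : Set ZFSet.{u}} (h : El o N) {z : ZFSet.{u}} (hz : z ∈ N) :
    z.rank ≤ o := (h.rk (z, z) ⟨rfl, hz⟩).1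

theorem El.get {o : Ordinal.{u}} {N : Set ZFSet.{u}} (h : El o N)
    {R : ∀ o : Ordinal.{u}, (ℕ → VS o) → Prop} (hR : Dfn R) (v : ℕ → VS o)
    (hv : ∀ i, (v i).1 ∈ N) (z : VS o) (hz : R o (cons z v))
    (hu : ∀ y, R o (cons y v) → y = z) : z.1 ∈ N :=
  (EI.get h hR v v (fun i => ⟨rfl, hv i⟩) z z hz hu hu).2

theorem El.wit' {o : Ordinal.{u}} {N : Set ZFSet.{u}} (h : El o N) (φ : Fml)
    (v : ℕ → VS o) (hv : ∀ i, (v i).1 ∈ N) (hz : ∃ z, Sat φ (cons z v)) :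
    ∃ z : VS o, z.1 ∈ N ∧ Sat φ (cons z v) := by
  obtain ⟨z, z', h1, h2⟩ := h.wit φ v v (fun i => ⟨rfl, hv i⟩) hz
  exact ⟨z, h1.2, h2⟩

/-- collapses -/
theorem exists_col (H : Set ZFSet.{u}) : ∃ π : ZFSet.{u} → ZFSet.{u},
    ∀ z x, x ∈ π z ↔ ∃ y ∈ z, y ∈ H ∧ π y = x := by
  have hsm : ∀ z : ZFSet.{u}, Small.{u} {y : ZFSet.{u} // y ∈ z ∧ y ∈ H} := by
    intro z
    refine small_of_injective (β := z) (f := fun y => ⟨y.1, y.2.1⟩) ?_
    intro x y hxy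
    exact Subtype.ext (Subtype.mk.inj hxy)
  let π : ZFSet.{u} → ZFSet.{u} := ZFSet.mem_wf.fix
    (fun z ih => ZFSet.range (fun y : {y : ZFSet.{u} // y ∈ z ∧ y ∈ H} => ih y.1 y.2.1))
  refine ⟨π, fun z x => ?_⟩
  have e : π z = ZFSet.range (fun y : {y : ZFSet.{u} // y ∈ z ∧ y ∈ H} => π y.1) :=
    ZFSet.mem_wf.fix_eq _ z
  rw [e, ZFSet.mem_range]
  constructor
  · rintro ⟨y, hy⟩
    exact ⟨y.1, y.2.1, y.2.2, hy⟩
  · rintro ⟨y, h1, h2, hx⟩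
    exact ⟨⟨y, h1, h2⟩, hx⟩

noncomputable def col (H : Set ZFSet.{u}) : ZFSet.{u} → ZFSet.{u} := (exists_col H).choose

theorem mem_col {H : Set ZFSet.{u}} {z x : ZFSet.{u}} :
    x ∈ col H z ↔ ∃ y ∈ z, y ∈ H ∧ col H y = x := (exists_col H).choose_spec z x

theorem EI.mem_iff {o : Ordinal.{u}} {ρ : RR.{u}} (h : EI o ρ) {a a' b b' : ZFSet.{u}}
    (ha : (a, a') ∈ ρ) (hb : (b, b') ∈ ρ) : a ∈ b ↔ a' ∈ b' := by
  have := h.cor (.mem 0 1) (cons ⟨a, (h.rk _ ha).1⟩ (fun _ => ⟨b, (h.rk _ hb).1⟩))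
    (cons ⟨a', (h.rk _ ha).2⟩ (fun _ => ⟨b', (h.rk _ hb).2⟩)) (by
      intro i
      cases i with
      | zero => exact ha
      | succ i => exact hb)
  exact this

/-- corresponding elements have the same collapse -/
theorem EI.col_eq {o : Ordinal.{u}} {ρ : RR.{u}} (h : EI o ρ) : ∀ {z z' : ZFSet.{u}},
    (z, z') ∈ ρ → col (dm ρ) z = col (rn ρ) z' := by
  intro z
  induction z using ZFSet.inductionOn with
  | _ z ih =>
    intro z' hz
    ext x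
    rw [mem_col, mem_col]
    constructor
    · rintro ⟨y, hy, ⟨y', hyy⟩, rfl⟩
      exact ⟨y', (h.mem_iff hyy hz).1 hy, ⟨y, hyy⟩, (ih y hy hyy).symm⟩
    · rintro ⟨y', hy', ⟨y, hyy⟩, rfl⟩
      have hy := (h.mem_iff hyy hz).2 hy'
      exact ⟨y, hy, ⟨y', hyy⟩, ih y hy hyy⟩

theorem col_congr {H H' : Set ZFSet.{u}} {T : ZFSet.{u} → Prop}
    (hT : ∀ x y, T x → y ∈ x → T y) (hH : ∀ x, T x → (x ∈ H ↔ x ∈ H')) :
    ∀ z : ZFSet.{u}, (∀ y ∈ z, T y) → col H z = col H' z := by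
  intro z
  induction z using ZFSet.inductionOn with
  | _ z ih =>
    intro hz
    ext x
    rw [mem_col, mem_col]
    apply exists_congr
    intro y
    apply and_congr_right
    intro hy
    rw [hH y (hz y hy), ih y hy (fun t ht => hT y t (hz y hy) ht)]

theorem col_id {H : Set ZFSet.{u}} {T : ZFSet.{u} → Prop}
    (hT : ∀ x y, T x → y ∈ x → T y) (hH : ∀ x, T x → x ∈ H) :
    ∀ z : ZFSet.{u}, (∀ y ∈ z, T y) → col H z = z := by
  intro z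
  induction z using ZFSet.inductionOn with
  | _ z ih =>
    intro hz
    ext x
    rw [mem_col]
    constructor
    · rintro ⟨y, hy, _, rfl⟩
      rw [ih y hy (fun t ht => hT y t (hz y hy) ht)]
      exact hy
    · intro hx
      exact ⟨x, hx, hH x (hz x hx), ih x hx (fun t ht => hT x t (hz x hx) ht)⟩

/-- extensionality of elementary substructures -/
theorem El.ext_iff {o : Ordinal.{u}} {N : Set ZFSet.{u}} (h : El o N) {a b : ZFSet.{u}}
    (ha : a ∈ N) (hb : b ∈ N) (hab : ∀ x ∈ N, x ∈ a ↔ x ∈ b) : a = b := by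
  by_contra hne
  have h1 : ∃ z : VS o, ¬ (z.1 ∈ a ↔ z.1 ∈ b) := by
    by_contra h2
    push Not at h2
    apply hne
    ext t
    constructor
    · intro ht
      exact (h2 ⟨t, (rank_lt_of_mem ht).le.trans (h.rank ha)⟩).1 ht
    · intro ht
      exact (h2 ⟨t, (rank_lt_of_mem ht).le.trans (h.rank hb)⟩).2 ht
  obtain ⟨φ, hφ⟩ := ((Dfn.mem.{u} 0 1).iff (Dfn.mem 0 2)).not
  obtain ⟨z, hz1, hz2⟩ := h.wit' φ (cons ⟨a, h.rank ha⟩ (fun _ => ⟨b, h.rank hb⟩)) (by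
    intro i
    cases i with
    | zero => exact ha
    | succ i => exact hb) (by
      obtain ⟨z, hz⟩ := h1
      exact ⟨z, (hφ _ _).2 hz⟩)
  rw [hφ] at hz2
  exact hz2 (hab z.1 hz1)

theorem El.col_inj {o : Ordinal.{u}} {N : Set ZFSet.{u}} (h : El o N) : ∀ {a b : ZFSet.{u}},
    a ∈ N → b ∈ N → col N a = col N b → a = b := by
  intro a
  induction a using ZFSet.inductionOn with
  | _ a ih =>
    intro b ha hb hab
    apply h.ext_iff ha hb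
    intro x hx
    constructor
    · intro hxa
      have h1 : col N x ∈ col N b := by
        rw [← hab]; exact mem_col.2 ⟨x, hxa, hx, rfl⟩
      obtain ⟨y, hy, hyN, hyx⟩ := mem_col.1 h1
      rw [ih x hxa hx hyN hyx.symm]
      exact hy
    · intro hxb
      have h1 : col N x ∈ col N a := by
        rw [hab]; exact mem_col.2 ⟨x, hxb, hx, rfl⟩
      obtain ⟨y, hy, hyN, hyx⟩ := mem_col.1 h1
      rw [← ih y hy hyN hx hyx]
      exact hy

/-- collapse of a collapse -/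
theorem col_col {H H' : Set ZFSet.{u}} (h1 : ∀ z, z ∈ H → z ∈ H' → col H' z ∈ H)
    (h2 : ∀ z, z ∈ H' → col H' z ∈ H → z ∈ H) :
    ∀ z, z ∈ H → z ∈ H' → col H (col H' z) = col (H ∩ H') z := by
  intro z
  induction z using ZFSet.inductionOn with
  | _ z ih =>
    intro hz hz'
    ext x
    rw [mem_col, mem_col]
    constructor
    · rintro ⟨t, ht, htH, rfl⟩
      obtain ⟨y, hy, hyH', rfl⟩ := mem_col.1 ht
      have hyH := h2 y hyH' htH
      exact ⟨y, hy, ⟨hyH, hyH'⟩, (ih y hy hyH hyH').symm⟩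
    · rintro ⟨y, hy, ⟨hyH, hyH'⟩, rfl⟩
      exact ⟨col H' y, mem_col.2 ⟨y, hy, hyH', rfl⟩, h1 y hyH hyH', ih y hy hyH hyH'⟩

end SOCat
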