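import Pool.Agent.SOCat.T2

/-!
# Measures and generic points
-/

namespace SOCat

universe u

open ZFSet Cardinal

variable {o : Ordinal.{u}} {M : Ms.{u}} {N : Set ZFSet.{u}} {g : ZFSet.{u}}

/-- `κ`-completeness -/
def Cpl (κ : Ordinal.{u}) (M : Ms.{u}) : Prop :=
  ∀ (ι : Type (u+1)) (P : ι → ZFSet.{u} → Prop), #ι < Cardinal.lift.{u+1} κ.card →
    (∀ i, ∀ᶠ c in M.D, P i c) → ∀ᶠ c in M.D, ∀ i, P i c

/-- normality -/
def Nrm (M : Ms.{u}) : Prop :=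
  ∀ f : ZFSet.{u} → ZFSet.{u}, (∀ᶠ c in M.D, f c ∈ c) → ∃ z, ∀ᶠ c in M.D, f c = z

theorem Gn.los (ho : Lim o) (h : El o N) (hcd : M.cd ∈ N) (hdom : M.dom ∈ N)
    (hr : M.dom.rank < o) (hg : Gn M N g) (hgo : g.rank ≤ o)
    {R : ∀ o : Ordinal.{u}, (ℕ → VS o) → Prop} (hR : Dfn R) (v : ℕ → VS o)
    (hv : ∀ i, (v i).1 ∈ N) :
    R o (cons ⟨g, hgo⟩ v) ↔ ∀ᶠ c in M.D, ∃ h : c.rank ≤ o, R o (cons ⟨c, h⟩ v) := by
  obtain ⟨φ, hφ⟩ := hR
  have := EI.los ho h (M := M) (M' := M) ⟨rfl, hcd⟩ ⟨rfl, hdom⟩ hr (g := g) (by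
    have e : {z | ∃ z', (z, z') ∈ dg N} = N := dm_dg N
    rw [e]
    exact hg) hgo φ v v (fun i => ⟨rfl, hv i⟩)
  rw [hφ] at this
  rw [this]
  constructor
  · intro h1
    filter_upwards [h1] with c hc
    obtain ⟨h2, h3⟩ := hc
    exact ⟨h2, (hφ _ _).1 h3⟩
  · intro h1
    filter_upwards [h1] with c hc
    obtain ⟨h2, h3⟩ := hc
    exact ⟨h2, (hφ _ _).2 h3⟩

theorem Slice_val {c w z : VS o} : Slice c w z ↔ sl c.1 w.1 = z.1 := by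
  rw [Slice_iff]
  constructor
  · intro h
    ext x
    rw [mem_sl, h]
  · intro h x
    rw [← h, mem_sl]

theorem Gn.of_const (ho : Lim o) (h : El o N) (hcd : M.cd ∈ N) (hdom : M.dom ∈ N)
    (hr : M.dom.rank < o) (hg : Gn M N g) {w : ZFSet.{u}} (hw : w ∈ N) {z : ZFSet.{u}}
    (hz : ∀ᶠ c in M.D, sl c w = z) : sl g w = z ∧ z ∈ N := by
  have hgo : g.rank < o := (rank_lt_of_mem hg.1).trans hr
  have hwr : w.rank ≤ o := h.rank hw
  have hcr : M.cd.rank ≤ o := h.rank hcd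
  have hzr : z.rank ≤ o := by
    obtain ⟨c, hc⟩ := hz.exists
    rw [← hc]
    exact (rank_sl _ _).trans hwr
  obtain ⟨ψ, hψ⟩ := d_Slice.{u} 0 2 1
  obtain ⟨χ, hχ⟩ := los_tr.{u} ψ
  have hcr2 : ∀ᶠ c : ZFSet.{u} in M.D, c.rank ≤ o := by
    filter_upwards [M.hdom] with c hc
    exact (rank_lt_of_mem hc).le.trans hr.le
  have key : ∀ y : VS o, (Sat χ (cons ⟨M.cd, hcr⟩ (cons ⟨M.dom, hr.le⟩ (cons y
      (fun _ => ⟨w, hwr⟩)))) ↔ ∀ᶠ c in M.D, sl c w = y.1) := by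
    intro y
    rw [hχ ho M _ rfl rfl hr]
    constructor
    · intro h1
      filter_upwards [h1] with c hc
      obtain ⟨h2, h3⟩ := hc
      rw [hψ] at h3
      exact Slice_val.1 h3
    · intro h1
      filter_upwards [h1, hcr2] with c hc h2
      refine ⟨h2, ?_⟩
      rw [hψ]
      exact Slice_val.2 hc
  have hN : z ∈ N := by
    have hD : Dfn.{u} fun o v => Sat χ (cons (v 1) (cons (v 2) (cons (v 0) (fun _ => v 3)))) := by
      have h1 : Dfn.{u} fun o v => Sat χ v := ⟨χ, fun _ _ => Iff.rfl⟩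
      obtain ⟨χ', hχ'⟩ := h1.ren (fun n => if n = 0 then 1 else if n = 1 then 2 else
        if n = 2 then 0 else 3)
      refine ⟨χ', fun o v => ?_⟩
      rw [hχ']
      have e : (fun n => v (if n = 0 then 1 else if n = 1 then 2 else if n = 2 then 0 else 3)) =
          cons (v 1) (cons (v 2) (cons (v 0) (fun _ => v 3))) := by
        funext n
        rcases n with _ | _ | _ | n <;> rfl
      show Sat χ (fun n => v (if n = 0 then 1 else if n = 1 then 2 else if n = 2 then 0 else 3)) ↔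
        _
      rw [e]
    refine h.get hD (cons ⟨M.cd, hcr⟩ (cons ⟨M.dom, hr.le⟩ (fun _ => ⟨w, hwr⟩))) ?_ ⟨z, hzr⟩ ?_ ?_
    · intro i
      rcases i with _ | _ | i
      · exact hcd
      · exact hdom
      · exact hw
    · exact (key ⟨z, hzr⟩).2 hz
    · intro y hy
      have h1 := (key y).1 hy
      obtain ⟨c, hc1, hc2⟩ := (h1.and hz).exists
      exact Subtype.ext (hc1.symm.trans hc2)
  refine ⟨?_, hN⟩
  have h1 := (Gn.los ho h hcd hdom hr hg hgo.le (d_Slice 0 2 1)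
    (cons ⟨z, hzr⟩ (fun _ => ⟨w, hwr⟩)) (by
      intro i
      rcases i with _ | i
      · exact hN
      · exact hw)).2 (by
    filter_upwards [hz, hcr2] with c hc h2
    exact ⟨h2, Slice_val.2 hc⟩)
  exact Slice_val.1 h1

/-- no new elements in small sets -/
theorem Gn.no_new (ho : Lim o) (h : El o N) (hcd : M.cd ∈ N) (hdom : M.dom ∈ N)
    (hr : M.dom.rank < o) {κ : Ordinal.{u}} (hκ : Cpl κ M) (hg : Gn M N g)
    {S : ZFSet.{u}} (hS : S ∈ N) (hSc : #{x : ZFSet.{u} // x ∈ S} < Cardinal.lift.{u+1} κ.card)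
    {w : ZFSet.{u}} (hw : w ∈ N) (hwS : sl g w ∈ S) : sl g w ∈ N := by
  have hgo : g.rank < o := (rank_lt_of_mem hg.1).trans hr
  have h1 := (Gn.los ho h hcd hdom hr hg hgo.le
    (((d_Slice 1 2 0).and (Dfn.mem 0 3)).ex) (cons ⟨w, h.rank hw⟩ (fun _ => ⟨S, h.rank hS⟩)) (by
      intro i
      rcases i with _ | i
      · exact hw
      · exact hS)).1
    ⟨⟨sl g w, (rank_sl _ _).trans (h.rank hw)⟩, Slice_val.2 rfl, hwS⟩
  have h2 : ∀ᶠ c in M.D, sl c w ∈ S := by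
    filter_upwards [h1] with c hc
    obtain ⟨_, z, hz, hzS⟩ := hc
    have hz' : sl c w = z.1 := Slice_val.1 hz
    have hzS' : z.1 ∈ S := hzS
    rw [← hz'] at hzS'
    exact hzS'
  have h3 : ∃ z ∈ S, ∀ᶠ c in M.D, sl c w = z := by
    by_contra h4
    push Not at h4
    have h5 := hκ {x : ZFSet.{u} // x ∈ S} (fun z c => ¬ sl c w = z.1) hSc (by
      intro z
      exact h4 z.1 z.2)
    obtain ⟨c, hc1, hc2⟩ := (h2.and h5).exists
    exact hc2 ⟨_, hc1⟩ rfl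
  obtain ⟨z, _, hz⟩ := h3
  obtain ⟨h6, h7⟩ := Gn.of_const ho h hcd hdom hr hg hw hz
  rw [h6]
  exact h7

/-- normality for generic points -/
theorem Gn.normal (ho : Lim o) (h : El o N) (hcd : M.cd ∈ N) (hdom : M.dom ∈ N)
    (hr : M.dom.rank < o) (hn : Nrm M) (hg : Gn M N g)
    {w : ZFSet.{u}} (hw : w ∈ N) (hwS : sl g w ∈ g) : sl g w ∈ N := by
  have hgo : g.rank < o := (rank_lt_of_mem hg.1).trans hr
  have h1 := (Gn.los ho h hcd hdom hr hg hgo.le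
    (((d_Slice 1 2 0).and (Dfn.mem 0 1)).ex) (fun _ => ⟨w, h.rank hw⟩) (fun _ => hw)).1
    ⟨⟨sl g w, (rank_sl _ _).trans (h.rank hw)⟩, Slice_val.2 rfl, hwS⟩
  have h2 : ∀ᶠ c in M.D, sl c w ∈ c := by
    filter_upwards [h1] with c hc
    obtain ⟨hcr, z, hz, hzS⟩ := hc
    have hz' : sl c w = z.1 := Slice_val.1 hz
    have hzS' : z.1 ∈ c := hzS
    rw [← hz'] at hzS'
    exact hzS'
  obtain ⟨z, hz⟩ := hn (fun c => sl c w) h2
  obtain ⟨h6, h7⟩ := Gn.of_const ho h hcd hdom hr hg hw hz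
  rw [h6]
  exact h7

/-- fineness for generic points -/
theorem Gn.fine (ho : Lim o) (h : El o N) (hcd : M.cd ∈ N) (hdom : M.dom ∈ N)
    (hr : M.dom.rank < o) (hg : Gn M N g) {z : ZFSet.{u}} (hz : z ∈ N)
    (hzf : ∀ᶠ c : ZFSet.{u} in M.D, z ∈ c) : z ∈ g := by
  have hgo : g.rank < o := (rank_lt_of_mem hg.1).trans hr
  refine (Gn.los ho h hcd hdom hr hg hgo.le (Dfn.mem 1 0) (fun _ => ⟨z, h.rank hz⟩)
    (fun _ => hz)).2 ?_
  filter_upwards [hzf, M.hdom] with c hc h2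
  exact ⟨(rank_lt_of_mem h2).le.trans hr.le, hc⟩

theorem El.st {M : Ordinal.{u} → Ms.{u}} {g : Ordinal.{u} → ZFSet.{u}} (ho : Lim o) (h : El o N)
    (Θ : Ordinal.{u}) (hM : ∀ ζ < Θ, (M ζ).cd ∈ N) (hd : ∀ ζ < Θ, (M ζ).dom ∈ N)
    (hr : ∀ ζ < Θ, (M ζ).dom.rank < o) (hg : ∀ ζ < Θ, Gn (M ζ) (SOCat.st N g ζ) (g ζ)) :
    ∀ ξ ≤ Θ, El o (SOCat.st N g ξ) := by
  intro ξ hξ
  have := EI.stR ho h M M g g Θ (fun ζ hζ => ⟨rfl, hM ζ hζ⟩) (fun ζ hζ => ⟨rfl, hd ζ hζ⟩) hr hr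
    (by rw [dm_dg]; exact hg) (by rw [rn_dg]; exact hg) ξ hξ
  rw [stR_dg] at this
  exact this

/-- closure under slices -/
theorem El.sl {N : Set ZFSet.{u}} (h : El o N) {c w : ZFSet.{u}} (hc : c ∈ N) (hw : w ∈ N) :
    SOCat.sl c w ∈ N := by
  refine h.get (d_Slice 1 2 0) (cons ⟨c, h.rank hc⟩ (fun _ => ⟨w, h.rank hw⟩)) (by
    intro i
    rcases i with _ | i
    · exact hc
    · exact hw) ⟨SOCat.sl c w, (rank_sl _ _).trans (h.rank hw)⟩ (Slice_val.2 rfl) ?_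
  intro y hy
  exact Subtype.ext (Slice_val.1 hy).symm

theorem st_no_new {M : Ordinal.{u} → Ms.{u}} {g : Ordinal.{u} → ZFSet.{u}} (ho : Lim o)
    (h : El o N) (Θ : Ordinal.{u}) (hM : ∀ ζ < Θ, (M ζ).cd ∈ N) (hd : ∀ ζ < Θ, (M ζ).dom ∈ N)
    (hr : ∀ ζ < Θ, (M ζ).dom.rank < o) (hg : ∀ ζ < Θ, Gn (M ζ) (SOCat.st N g ζ) (g ζ))
    {κ : Ordinal.{u}} (hκ : ∀ ζ < Θ, Cpl κ (M ζ))
    {S : ZFSet.{u}} (hS : S ∈ N) (hSc : #{x : ZFSet.{u} // x ∈ S} < Cardinal.lift.{u+1} κ.card) :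
    ∀ ξ ≤ Θ, ∀ z ∈ SOCat.st N g ξ, z ∈ S → z ∈ N := by
  intro ξ
  induction ξ using WellFoundedLT.induction with
  | _ ξ ih =>
    intro hξ z hz hzS
    rcases mem_st.1 hz with h1 | ⟨ζ, hζ, w, hw, rfl⟩
    · exact h1
    · have hζΘ := hζ.trans_le hξ
      have h2 := Gn.no_new ho (El.st ho h Θ hM hd hr hg ζ hζΘ.le) (st_base (hM ζ hζΘ))
        (st_base (hd ζ hζΘ)) (hr ζ hζΘ) (hκ ζ hζΘ) (hg ζ hζΘ) (st_base hS) hSc hw hzS
      exact ih ζ hζ hζΘ.le _ h2 hzS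

/-- existence of generic points -/
theorem exists_Gn {κ : Ordinal.{u}} (hκ : Cpl κ M) (hN : #N < Cardinal.lift.{u+1} κ.card) :
    ∃ g, Gn M N g := by
  have h1 := hκ {S : ZFSet.{u} // S ∈ N ∧ S ∈ M.cd} (fun S c => c ∈ S.1)
    ((Cardinal.mk_le_of_injective (f := fun S => (⟨S.1, S.2.1⟩ : N)) (by
      intro S S' hSS
      exact Subtype.ext (Subtype.mk.inj hSS))).trans_lt hN) (fun S => (Ms.mem_cd.1 S.2.2).2)
  obtain ⟨c, hc1, hc2⟩ := (h1.and M.hdom).exists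
  exact ⟨c, hc2, fun S hS hS2 => hc1 ⟨S, hS, hS2⟩⟩

theorem exists_seq (N : Set ZFSet.{u}) (M : Ordinal.{u} → Ms.{u}) :
    ∃ g : Ordinal.{u} → ZFSet.{u}, ∀ ξ, (∃ c, Gn (M ξ) (st N g ξ) c) →
      Gn (M ξ) (st N g ξ) (g ξ) := by
  classical
  let NN : ∀ ξ : Ordinal.{u}, (∀ ζ, ζ < ξ → Set ZFSet.{u} × ZFSet.{u}) → Set ZFSet.{u} :=
    fun ξ ih => N ∪ ⋃ ζ : Set.Iio ξ, {z | ∃ w ∈ (ih ζ.1 ζ.2).1, z = sl (ih ζ.1 ζ.2).2 w}
  have hF : ∃ F : Ordinal.{u} → Set ZFSet.{u} × ZFSet.{u}, ∀ ξ, F ξ = (NN ξ (fun ζ _ => F ζ),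
      if h : ∃ c, Gn (M ξ) (NN ξ (fun ζ _ => F ζ)) c then h.choose else ∅) :=
    ⟨(Ordinal.lt_wf.{u}).fix (fun ξ ih => (NN ξ ih,
      if h : ∃ c, Gn (M ξ) (NN ξ ih) c then h.choose else ∅)),
      fun ξ => (Ordinal.lt_wf.{u}).fix_eq _ ξ⟩
  obtain ⟨F, hF⟩ := hF
  have h1 : ∀ ξ, (F ξ).1 = st N (fun ζ => (F ζ).2) ξ := by
    intro ξ
    induction ξ using WellFoundedLT.induction with
    | _ ξ ih =>
      rw [hF ξ]
      show NN ξ (fun ζ _ => F ζ) = _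
      rw [st]
      show N ∪ _ = N ∪ _
      congr 1
      apply Set.iUnion_congr
      intro ζ
      rw [ih ζ.1 ζ.2]
  refine ⟨fun ζ => (F ζ).2, fun ξ hc => ?_⟩
  have h2 : NN ξ (fun ζ _ => F ζ) = st N (fun ζ => (F ζ).2) ξ := by
    rw [← h1 ξ, hF ξ]
  have h3 : ∃ c, Gn (M ξ) (NN ξ (fun ζ _ => F ζ)) c := by
    rw [h2]; exact hc
  have h4 : (F ξ).2 = h3.choose := by
    rw [hF ξ]
    exact dif_pos h3
  show Gn (M ξ) (st N (fun ζ => (F ζ).2) ξ) (F ξ).2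
  rw [h4, ← h2]
  exact h3.choose_spec

theorem card_st_le (N : Set ZFSet.{u}) (g : Ordinal.{u} → ZFSet.{u}) (μ : Cardinal.{u+1})
    (hμ : ℵ₀ ≤ μ) (hN : #N ≤ μ) : ∀ ξ : Ordinal.{u}, Cardinal.lift.{u+1} ξ.card ≤ μ →
    #(st N g ξ) ≤ μ := by
  intro ξ
  induction ξ using WellFoundedLT.induction with
  | _ ξ ih =>
    intro hξ
    rw [st]
    refine (Cardinal.mk_union_le _ _).trans ?_
    rw [← Cardinal.add_eq_self hμ]
    refine add_le_add hN ?_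
    refine (Cardinal.mk_iUnion_le _).trans ?_
    rw [← Cardinal.mul_eq_self hμ]
    refine mul_le_mul' ?_ ?_
    · rw [Cardinal.mk_Iio_ordinal]
      exact hξ
    · apply ciSup_le'
      intro ζ
      have h1 : #(st N g ζ.1) ≤ μ := ih ζ.1 ζ.2 (le_trans (Cardinal.lift_le.2
        (Ordinal.card_le_card (le_of_lt ζ.2))) hξ)
      refine le_trans ?_ h1
      refine Cardinal.mk_le_of_surjective (f := fun w : st N g ζ.1 => ⟨sl (g ζ.1) w.1,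
        w.1, w.2, rfl⟩) ?_
      rintro ⟨z, w, hw, rfl⟩
      exact ⟨⟨w, hw⟩, rfl⟩

theorem card_st_lt (N : Set ZFSet.{u}) (g : Ordinal.{u} → ZFSet.{u}) {κ : Ordinal.{u}}
    (hκ : κ.card.ord = κ) (hω : ℵ₀ < κ.card) (hN : #N < Cardinal.lift.{u+1} κ.card)
    {ξ : Ordinal.{u}} (hξ : ξ < κ) : #(st N g ξ) < Cardinal.lift.{u+1} κ.card := by
  have h1 : Cardinal.lift.{u+1} ξ.card < Cardinal.lift.{u+1} κ.card := by
    rw [Cardinal.lift_lt, ← Cardinal.lt_ord, hκ]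
    exact hξ
  have h2 : ℵ₀ < Cardinal.lift.{u+1} κ.card := by
    rw [← Cardinal.lift_aleph0.{u+1, u}]
    exact Cardinal.lift_lt.2 hω
  refine (card_st_le N g (max #N (max (Cardinal.lift.{u+1} ξ.card) ℵ₀)) ?_ (le_max_left _ _) ξ
    ?_).trans_lt (max_lt hN (max_lt h1 h2))
  · exact (le_max_right _ _).trans (le_max_right _ _)
  · exact (le_max_left _ _).trans (le_max_right _ _)

end SOCat
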