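import Pool.Agent.SOCat.T3

/-!
# Relativization and the main comparison lemma
-/

namespace SOCat

universe u

open ZFSet Cardinal

/-- `V_{σ+1}` as a set -/
noncomputable def KK (σ : Ordinal.{u}) : ZFSet.{u} := ZFSet.vonNeumann (Order.succ σ)

theorem mem_KK {σ : Ordinal.{u}} {z : ZFSet.{u}} : z ∈ KK σ ↔ z.rank ≤ σ := by
  unfold KK
  rw [ZFSet.mem_vonNeumann, Order.lt_succ_iff]

theorem rel_tr (φ : Fml) : ∃ ψ : Fml, ∀ {θ σ : Ordinal.{u}}, σ ≤ θ → ∀ (v : ℕ → VS θ)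
    (v' : ℕ → VS σ), (v 0).1 = KK σ → (∀ i, (v (i+1)).1 = (v' i).1) → (Sat ψ v ↔ Sat φ v') := by
  induction φ with
  | mem i j =>
    refine ⟨.mem (i+1) (j+1), fun {θ σ} _ v v' _ h => ?_⟩
    show (v (i+1)).1 ∈ (v (j+1)).1 ↔ (v' i).1 ∈ (v' j).1
    rw [h, h]
  | eq i j =>
    refine ⟨.eq (i+1) (j+1), fun {θ σ} _ v v' _ h => ?_⟩
    show v (i+1) = v (j+1) ↔ v' i = v' j
    rw [Subtype.ext_iff, Subtype.ext_iff, h, h]
  | neg φ ih =>
    obtain ⟨ψ, hψ⟩ := ih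
    exact ⟨.neg ψ, fun hσ v v' h0 h => not_congr (hψ hσ v v' h0 h)⟩
  | and φ φ' ih ih' =>
    obtain ⟨ψ, hψ⟩ := ih
    obtain ⟨ψ', hψ'⟩ := ih'
    exact ⟨.and ψ ψ', fun hσ v v' h0 h => and_congr (hψ hσ v v' h0 h) (hψ' hσ v v' h0 h)⟩
  | all φ ih =>
    obtain ⟨ψ, hψ⟩ := ih
    refine ⟨.all (.neg (.and (.mem 0 1) (.neg
      (ren (fun n => if n = 0 then 1 else if n = 1 then 0 else n) ψ)))),
      fun {θ σ} hσ v v' h0 h => ?_⟩
    have key : ∀ (a : VS θ) (a' : VS σ), a.1 = a'.1 →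
        (Sat (ren (fun n => if n = 0 then 1 else if n = 1 then 0 else n) ψ)
        (cons a v) ↔ Sat φ (cons a' v')) := by
      intro a a' ha
      rw [sat_ren]
      apply hψ hσ
      · exact h0
      · intro i
        cases i with
        | zero => exact ha
        | succ i => exact h i
    constructor
    · intro h1 a'
      have h2 := h1 ⟨a'.1, a'.2.trans hσ⟩
      by_contra h3
      apply h2
      refine ⟨?_, fun h4 => h3 ((key _ _ rfl).1 h4)⟩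
      show a'.1 ∈ (v 0).1
      rw [h0, mem_KK]
      exact a'.2
    · rintro h1 a ⟨h2, h3⟩
      have h2' : a.1 ∈ (v 0).1 := h2
      rw [h0, mem_KK] at h2'
      exact h3 ((key a ⟨a.1, h2'⟩ rfl).2 (h1 _))

theorem El.rel {θ σ : Ordinal.{u}} (hσ : σ ≤ θ) {N : Set ZFSet.{u}} (h : El θ N)
    (hK : KK σ ∈ N) : El σ (N ∩ {z | z.rank ≤ σ}) := by
  constructor
  · rintro ⟨z, z'⟩ ⟨h1, h2⟩
    have h1' : z = z' := h1
    subst h1'
    exact ⟨h2.2, h2.2⟩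
  · intro φ v v' hv
    have : v = v' := by
      funext i
      exact Subtype.ext (hv i).1
    rw [this]
  · rintro φ v v' hv ⟨z, hz⟩
    obtain ⟨ψ, hψ⟩ := rel_tr.{u} φ
    let v1 : ℕ → VS θ := cons ⟨KK σ, h.rank hK⟩ (fun i => ⟨(v i).1, (v i).2.trans hσ⟩)
    have hv1 : ∀ i, (v1 i).1 ∈ N := by
      intro i
      cases i with
      | zero => exact hK
      | succ i => exact (hv i).2.1
    have key : ∀ (a : VS θ) (a' : VS σ), a.1 = a'.1 →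
        (Sat (ren (fun n => if n = 0 then 1 else if n = 1 then 0 else n) ψ)
        (cons a v1) ↔ Sat φ (cons a' v)) := by
      intro a a' ha
      rw [sat_ren]
      apply hψ hσ
      · rfl
      · intro i
        cases i with
        | zero => exact ha
        | succ i => rfl
    obtain ⟨y, hy1, hy2, hy3⟩ := h.wit' (.and (.mem 0 1)
      (ren (fun n => if n = 0 then 1 else if n = 1 then 0 else n) ψ)) v1 hv1
      ⟨⟨z.1, z.2.trans hσ⟩, (mem_KK.2 z.2 : z.1 ∈ KK σ), (key _ z rfl).2 hz⟩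
    have hy2' : y.1 ∈ KK σ := hy2
    rw [mem_KK] at hy2'
    exact ⟨⟨y.1, hy2'⟩, ⟨y.1, hy2'⟩, ⟨rfl, hy1, hy2'⟩, (key y ⟨y.1, hy2'⟩ rfl).1 hy3⟩

/-- stages of the hull and the set `V_{σ+1}` -/
theorem st_inter {θ σ : Ordinal.{u}} (hσl : Lim σ) {N : Set ZFSet.{u}}
    {g : Ordinal.{u} → ZFSet.{u}} {Θ : Ordinal.{u}} (hEl : ∀ ζ ≤ Θ, El θ (st N g ζ))
    (hg : ∀ ζ < Θ, (g ζ).rank < σ) (hV : ZFSet.vonNeumann σ ∈ N) : ∀ ξ ≤ Θ,
    st N g ξ ∩ {z | z.rank ≤ σ} = st (N ∩ {z | z.rank ≤ σ}) g ξ := by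
  intro ξ
  induction ξ using WellFoundedLT.induction with
  | _ ξ ih =>
    intro hξ
    ext z
    constructor
    · rintro ⟨h1, h2⟩
      rw [mem_st] at h1 ⊢
      rcases h1 with h1 | ⟨ζ, hζ, w, hw, rfl⟩
      · exact Or.inl ⟨h1, h2⟩
      · right
        have hζΘ := hζ.trans_le hξ
        have hE := hEl ζ hζΘ.le
        have hwr := hE.rank hw
        have hw' : w ∩ ZFSet.vonNeumann σ ∈ st N g ζ := by
          refine hE.get (d_Inter 1 2 0) (cons ⟨w, hwr⟩ (fun _ => ⟨_, hE.rank (st_base hV)⟩)) (by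
            intro i
            cases i with
            | zero => exact hw
            | succ i => exact st_base hV) ⟨w ∩ ZFSet.vonNeumann σ,
              (ZFSet.rank_mono (fun t ht => (ZFSet.mem_inter.1 ht).1)).trans hwr⟩ ?_ ?_
          · intro t
            exact ZFSet.mem_inter
          · intro y hy
            have hy' := Inter_iff.1 hy
            apply Subtype.ext
            ext t
            exact (hy' t).trans ZFSet.mem_inter.symm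
        refine ⟨ζ, hζ, w ∩ ZFSet.vonNeumann σ, ?_, ?_⟩
        · rw [← ih ζ hζ hζΘ.le]
          refine ⟨hw', ?_⟩
          show (w ∩ ZFSet.vonNeumann σ).rank ≤ σ
          rw [← ZFSet.subset_vonNeumann]
          exact fun t ht => (ZFSet.mem_inter.1 ht).2
        · ext x
          rw [mem_sl, mem_sl, ZFSet.mem_inter, ZFSet.mem_vonNeumann]
          constructor
          · intro hx
            refine ⟨hx, hσl.rank_pair_lt (hg ζ hζΘ) ?_⟩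
            exact (rank_lt_of_mem (mem_sl.2 hx)).trans_le h2
          · exact fun hx => hx.1
    · intro h1
      rw [mem_st] at h1
      rcases h1 with h1 | ⟨ζ, hζ, w, hw, rfl⟩
      · exact ⟨st_base h1.1, h1.2⟩
      · have hζΘ := hζ.trans_le hξ
        rw [← ih ζ hζ hζΘ.le] at hw
        exact ⟨mem_st.2 (Or.inr ⟨ζ, hζ, w, hw.1, rfl⟩), (rank_sl _ _).trans hw.2⟩

theorem col_rank (H : Set ZFSet.{u}) (z : ZFSet.{u}) : (col H z).rank ≤ z.rank := by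
  induction z using ZFSet.inductionOn with
  | _ z ih =>
    rw [ZFSet.rank_le_iff]
    intro x hx
    obtain ⟨y, hy, _, rfl⟩ := mem_col.1 hx
    exact (ih y hy).trans_lt (rank_lt_of_mem hy)

theorem El.col_mem_iff {o : Ordinal.{u}} {N : Set ZFSet.{u}} (h : El o N) {a b : ZFSet.{u}}
    (ha : a ∈ N) (hb : b ∈ N) : col N a ∈ col N b ↔ a ∈ b := by
  rw [mem_col]
  constructor
  · rintro ⟨y, hy, hyN, he⟩
    rw [← h.col_inj hyN ha he]
    exact hy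
  · intro hab
    exact ⟨a, hab, ha, rfl⟩

/-- the comparison lemma -/
theorem dist {θ σ μ : Ordinal.{u}} (hσl : Lim σ) (hσ : σ ≤ θ) {κ : Ordinal.{u}}
    {N H : Set ZFSet.{u}} (hN : El θ N) (hH : El θ H) (hNH : N ⊆ H) (hKN : KK σ ∈ N)
    (hVN : ZFSet.vonNeumann σ ∈ N)
    {a y : ZFSet.{u}} (hyN : y ∈ N) (hyr : y.rank ≤ σ)
    (hNa : ∀ z ∈ N, z.rank ≤ σ → z ∈ a) (haN : ∀ z ∈ a, z ∈ H → z ∈ N)
    (haE : El σ {z | z ∈ a}) (hac : #{z : ZFSet.{u} // z ∈ a} < Cardinal.lift.{u+1} κ.card)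
    (Mu : Ordinal.{u} → Ms.{u}) (hMc : ∀ ζ < μ, (Mu ζ).cd ∈ N) (hMd : ∀ ζ < μ, (Mu ζ).dom ∈ N)
    (hMcr : ∀ ζ < μ, (Mu ζ).cd.rank ≤ σ)
    (hMr : ∀ ζ < μ, (Mu ζ).dom.rank < σ)
    (g : Ordinal.{u} → ZFSet.{u}) (hg : ∀ ζ < μ, Gn (Mu ζ) (st N g ζ) (g ζ))
    (hEl : ∀ ζ ≤ μ, El θ (st N g ζ))
    (g' : Ordinal.{u} → ZFSet.{u}) (hg' : ∀ ζ < μ, Gn (Mu ζ) (st {z | z ∈ a} g' ζ) (g' ζ))
    (hμH : col H μ.toZFSet = μ.toZFSet)
    (hlab : ∀ ζ < μ, ζ.toZFSet ∈ H → ∀ j, col H ζ.toZFSet = j.toZFSet → Mu ζ = Mu j)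
    (c1 : ∀ ζ < μ, ζ.toZFSet ∈ H → g' ζ ∈ H)
    (c2 : ∀ z ∈ H, z ∈ st {z | z ∈ a} g' μ → col (st {z | z ∈ a} g' μ) z ∈ H)
    (c3 : ∀ z ∈ st {z | z ∈ a} g' μ, col (st {z | z ∈ a} g' μ) z ∈ H → z ∈ H)
    (c4 : ∀ z ∈ H, ∀ ξ ≤ μ, z ∈ st {z | z ∈ a} g' ξ → z ∉ a → ∃ ζ < ξ, ζ.toZFSet ∈ H ∧
      ∃ w ∈ H, w ∈ st {z | z ∈ a} g' ζ ∧ z = sl (g' ζ) w)
    (hns : col (st {z | z ∈ a} g' μ) y ≠ y) :
    col (st N g μ) y ≠ col H y := by
  classical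
  -- the enumeration of `H ∩ μ`
  have hord : ∀ j : Ordinal.{u}, j < μ → ∃ ζ < μ, ζ.toZFSet ∈ H ∧ col H ζ.toZFSet = j.toZFSet := by
    intro j hj
    have h1 : j.toZFSet ∈ col H μ.toZFSet := by
      rw [hμH]
      exact Ordinal.toZFSet_mem_toZFSet_iff.2 hj
    obtain ⟨t, ht, htH, he⟩ := mem_col.1 h1
    obtain ⟨ζ, hζ, rfl⟩ := Ordinal.mem_toZFSet_iff.1 ht
    exact ⟨ζ, hζ, htH, he⟩
  have hex : ∃ e : Ordinal.{u} → Ordinal.{u}, ∀ j < μ, e j < μ ∧ (e j).toZFSet ∈ H ∧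
      col H (e j).toZFSet = j.toZFSet := by
    refine ⟨fun j => if h : j < μ then (hord j h).choose else 0, fun j hj => ?_⟩
    simp only [dif_pos hj]
    exact (hord j hj).choose_spec
  obtain ⟨e, he⟩ := hex
  have hback : ∀ ζ < μ, ζ.toZFSet ∈ H → ∃ j < μ, e j = ζ := by
    intro ζ hζ hζH
    have h1 : col H ζ.toZFSet ∈ μ.toZFSet := by
      rw [← hμH]
      exact mem_col.2 ⟨_, Ordinal.toZFSet_mem_toZFSet_iff.2 hζ, hζH, rfl⟩
    obtain ⟨j, hj, hj2⟩ := Ordinal.mem_toZFSet_iff.1 h1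
    refine ⟨j, hj, ?_⟩
    obtain ⟨h3, h4, h5⟩ := he j hj
    exact Ordinal.toZFSet_injective (hH.col_inj h4 hζH (h5.trans hj2))
  have hmono : ∀ i j, i < μ → j < μ → (e i < e j ↔ i < j) := by
    intro i j hi hj
    obtain ⟨_, h4, h5⟩ := he i hi
    obtain ⟨_, h4', h5'⟩ := he j hj
    rw [← Ordinal.toZFSet_mem_toZFSet_iff, ← hH.col_mem_iff h4 h4', h5, h5',
      Ordinal.toZFSet_mem_toZFSet_iff]
  have hMe : ∀ j < μ, Mu (e j) = Mu j := fun j hj =>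
    hlab (e j) (he j hj).1 (he j hj).2.1 j (he j hj).2.2
  let A : Set ZFSet.{u} := {z | z ∈ a}
  let NK : Set ZFSet.{u} := N ∩ {z | z.rank ≤ σ}
  have hNKA : NK ⊆ A := fun z hz => hNa z hz.1 hz.2
  have hArk : ∀ z ∈ A, z.rank ≤ σ := fun z hz => haE.rank hz
  -- upper inclusion
  have up1 : ∀ j ≤ μ, ∀ ξ ≤ μ, (∀ i < j, e i < ξ) →
      ∀ z ∈ st NK (fun j => g' (e j)) j, z ∈ H ∧ z ∈ st A g' ξ := by
    intro j
    induction j using WellFoundedLT.induction with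
    | _ j ih =>
      intro hj ξ hξ hjξ z hz
      rcases mem_st.1 hz with h1 | ⟨i, hi, w, hw, rfl⟩
      · exact ⟨hNH h1.1, st_base (hNKA h1)⟩
      · have hiμ := hi.trans_le hj
        obtain ⟨h2, h3⟩ := ih i hi hiμ.le (e i) (he i hiμ).1.le
          (fun i' hi' => (hmono i' i (hi'.trans hiμ) hiμ).2 hi') w hw
        refine ⟨hH.sl (c1 _ (he i hiμ).1 (he i hiμ).2.1) h2, ?_⟩
        exact mem_st.2 (Or.inr ⟨e i, hjξ i hi, w, h3, rfl⟩)
  -- lower inclusion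
  have lo1 : ∀ ξ ≤ μ, ∀ j ≤ μ, (∀ ζ < ξ, ζ.toZFSet ∈ H → ∃ i < j, e i = ζ) →
      ∀ z ∈ H, z ∈ st A g' ξ → z ∈ st NK (fun j => g' (e j)) j := by
    intro ξ
    induction ξ using WellFoundedLT.induction with
    | _ ξ ih =>
      intro hξ j hj hξj z hzH hz
      by_cases hza : z ∈ a
      · exact st_base ⟨haN z hza hzH, hArk z hza⟩
      · obtain ⟨ζ, hζ, hζH, w, hwH, hw, rfl⟩ := c4 z hzH ξ hξ hz hza
        obtain ⟨i, hi, rfl⟩ := hξj ζ hζ hζH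
        have hiμ := hi.trans_le hj
        refine mem_st.2 (Or.inr ⟨i, hi, w, ?_, rfl⟩)
        refine ih (e i) hζ (hζ.le.trans hξ) i hiμ.le ?_ w hwH hw
        intro ζ' hζ' hζH'
        obtain ⟨i', hi', rfl⟩ := hback ζ' (hζ'.trans (he i hiμ).1) hζH'
        exact ⟨i', (hmono i' i hi' hiμ).1 hζ', rfl⟩
  have hHH : H ∩ st A g' μ = st NK (fun j => g' (e j)) μ := by
    ext z
    constructor
    · rintro ⟨h1, h2⟩
      exact lo1 μ le_rfl μ le_rfl hback z h1 h2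
    · intro h1
      exact up1 μ le_rfl μ le_rfl (fun i hi => (he i hi).1) z h1
  have hgr : ∀ ζ < μ, (g ζ).rank < σ := fun ζ hζ =>
    (rank_lt_of_mem (hg ζ hζ).1).trans (hMr ζ hζ)
  have hgNK := st_inter hσl hEl hgr hVN
  -- the isomorphism
  have hiso := EI.stR hσl (hN.rel hσ hKN) (fun j => Mu (e j)) Mu (fun j => g' (e j)) g μ
    (fun ζ hζ => by
      show ((Mu (e ζ)).cd, (Mu ζ).cd) ∈ _
      rw [hMe ζ hζ]
      exact ⟨rfl, hMc ζ hζ, hMcr ζ hζ⟩)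
    (fun ζ hζ => by
      show ((Mu (e ζ)).dom, (Mu ζ).dom) ∈ _
      rw [hMe ζ hζ]
      exact ⟨rfl, hMd ζ hζ, (hMr ζ hζ).le⟩)
    (fun ζ hζ => hMr _ (he ζ hζ).1) hMr
    (fun ζ hζ => by
      rw [dm_dg]
      obtain ⟨h1, h2⟩ := hg' (e ζ) (he ζ hζ).1
      refine ⟨h1, fun S hS hS2 => h2 S ?_ hS2⟩
      exact (up1 ζ hζ.le (e ζ) (he ζ hζ).1.le
        (fun i hi => (hmono i ζ (hi.trans hζ) hζ).2 hi) S hS).2)
    (fun ζ hζ => by
      rw [rn_dg]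
      obtain ⟨h1, h2⟩ := hg ζ hζ
      refine ⟨h1, fun S hS hS2 => h2 S ?_ hS2⟩
      rw [← hgNK ζ hζ.le] at hS
      exact hS.1) μ le_rfl
  have hyρ : (y, y) ∈ dg (N ∩ {z | z.rank ≤ σ}) := ⟨rfl, hyN, hyr⟩
  have hcol := hiso.col_eq (stR_base hyρ)
  rw [dm_stR, rn_stR, dm_dg, rn_dg] at hcol
  have h1 : col (st N g μ) y = col (st NK g μ) y := by
    rw [← hgNK μ le_rfl]
    refine col_congr (H := st N g μ) (H' := st N g μ ∩ {z | z.rank ≤ σ})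
      (T := fun x => x.rank ≤ σ) (fun x t hx ht => (rank_lt_of_mem ht).le.trans hx)
      (fun x hx => ⟨fun h => ⟨h, hx⟩, fun h => h.1⟩) y
      (fun x hx => (rank_lt_of_mem hx).le.trans hyr)
  have hyH' : y ∈ st A g' μ := st_base (hNa y hyN hyr)
  have h2 := col_col (H := H) (H' := st A g' μ) (fun z h h' => c2 z h h')
    (fun z h h' => c3 z h h') y (hNH hyN) hyH'
  rw [h1, ← hcol]
  rw [← hHH, ← h2]
  intro h3
  exact hns (hH.col_inj (c2 y (hNH hyN) hyH') (hNH hyN) h3)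

end SOCat
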