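import Pool.Agent.SOCat.T4

/-!
# Parameters for the comparison lemma; ordinals and collapses
-/

namespace SOCat

universe u

open ZFSet Cardinal

theorem El.pair' {θ : Ordinal.{u}} (ho : Lim θ) {H : Set ZFSet.{u}} (h : El θ H)
    {a b : ZFSet.{u}} (ha : a ∈ H) (hb : b ∈ H) (har : a.rank < θ) (hbr : b.rank < θ) :
    pair a b ∈ H := by
  refine h.get (d_IsP 0 1 2) (cons ⟨a, har.le⟩ (fun _ => ⟨b, hbr.le⟩)) (by
    intro i
    cases i with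
    | zero => exact ha
    | succ i => exact hb) ⟨pair a b, (ho.rank_pair_lt har hbr).le⟩ (IsP_iff.2 rfl) ?_
  intro y hy
  exact Subtype.ext (IsP_iff.1 hy)

theorem exists_par {θ : Ordinal.{u}} (ho : Lim θ) (f : ZFSet.{u} → ZFSet.{u} → ZFSet.{u}) :
    ∃ q : VS θ, ∀ H : Set ZFSet.{u}, El θ H → q.1 ∈ H → ∀ a z, a ∈ H → z ∈ H → a.rank < θ →
      z.rank < θ → (f a z).rank ≤ θ → f a z ∈ H := by
  classical
  have hQ : ∃ Q : ZFSet.{u} → ZFSet.{u}, ∀ a z, Q (pair a z) = f a z := by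
    refine ⟨fun p => if h : ∃ a z, p = pair a z then f h.choose h.choose_spec.choose else ∅,
      fun a z => ?_⟩
    have h : ∃ a' z', pair a z = pair a' z' := ⟨a, z, rfl⟩
    simp only [dif_pos h]
    obtain ⟨h1, h2⟩ := ZFSet.pair_injective h.choose_spec.choose_spec
    exact (congrArg₂ f h1 h2).symm
  obtain ⟨Q, hQ⟩ := hQ
  refine ⟨cdG θ Q, fun H hH hq a z ha hz har hzr hf => ?_⟩
  have h1 := hH.sl (hH.pair' ho ha hz har hzr) hq
  have h2 := slice_cdG ho (G := Q) (ho.rank_pair_lt har hzr) (by rw [hQ]; exact hf)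
  have h3 : sl (pair a z) (cdG θ Q).1 = f a z := by
    rw [← slice_val, h2]
    exact hQ a z
  rw [h3] at h1
  exact h1

/-- `a` is (the set of elements of) a small elementary substructure of `V_{σ+1}` and `g` is a
generic sequence over `a` -/
structure Goo (σ κ μ : Ordinal.{u}) (Mu : Ordinal.{u} → Ms.{u}) (a : ZFSet.{u})
    (g : Ordinal.{u} → ZFSet.{u}) : Prop where
  el : El σ {z | z ∈ a}
  card : #{z : ZFSet.{u} // z ∈ a} < Cardinal.lift.{u+1} κ.card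
  cd : ∀ ζ < μ, (Mu ζ).cd ∈ a
  dom : ∀ ζ < μ, (Mu ζ).dom ∈ a
  gen : ∀ ζ < μ, Gn (Mu ζ) (st {z | z ∈ a} g ζ) (g ζ)

theorem exists_G (σ κ μ : Ordinal.{u}) (Mu : Ordinal.{u} → Ms.{u}) :
    ∃ G : ZFSet.{u} → Ordinal.{u} → ZFSet.{u}, ∀ a, (∃ g, Goo σ κ μ Mu a g) →
      Goo σ κ μ Mu a (G a) := by
  classical
  refine ⟨fun a => if h : ∃ g, Goo σ κ μ Mu a g then h.choose else fun _ => ∅, fun a h => ?_⟩
  simp only [dif_pos h]
  exact h.choose_spec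

/-- the parameters for the comparison lemma -/
theorem exists_pars {θ σ : Ordinal.{u}} (ho : Lim θ) (hσl : Lim σ) (hσ : σ < θ)
    (κ μ : Ordinal.{u}) (hμ : μ ≤ σ)
    (Mu : Ordinal.{u} → Ms.{u}) (hMr : ∀ ζ < μ, (Mu ζ).dom.rank < σ)
    (G : ZFSet.{u} → Ordinal.{u} → ZFSet.{u}) :
    ∃ q : ℕ → VS θ, ∀ H : Set ZFSet.{u}, El θ H → (∀ i, (q i).1 ∈ H) → ∀ a ∈ H, a.rank < θ →
      Goo σ κ μ Mu a (G a) →
      (∀ ζ < μ, ζ.toZFSet ∈ H → G a ζ ∈ H) ∧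
      (∀ z ∈ H, z ∈ st {z | z ∈ a} (G a) μ → col (st {z | z ∈ a} (G a) μ) z ∈ H) ∧
      (∀ z ∈ st {z | z ∈ a} (G a) μ, col (st {z | z ∈ a} (G a) μ) z ∈ H → z ∈ H) ∧
      (∀ z ∈ H, ∀ ξ ≤ μ, z ∈ st {z | z ∈ a} (G a) ξ → z ∉ a → ∃ ζ < ξ, ζ.toZFSet ∈ H ∧
        ∃ w ∈ H, w ∈ st {z | z ∈ a} (G a) ζ ∧ z = sl (G a ζ) w) := by
  classical
  have hrep : ∀ a z : ZFSet.{u}, ∃ w : ZFSet.{u}, ∃ ζ : Ordinal.{u}, ∀ ξ : Ordinal.{u},
      z ∈ st {z | z ∈ a} (G a) ξ → z ∉ a → ζ < ξ ∧ w ∈ st {z | z ∈ a} (G a) ζ ∧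
        z = sl (G a ζ) w := by
    intro a z
    by_cases h : ∃ ξ, z ∈ st {z | z ∈ a} (G a) ξ
    · by_cases hza : z ∈ a
      · exact ⟨∅, 0, fun ξ _ h2 => absurd hza h2⟩
      · obtain ⟨ξ0, h1, h2⟩ := WellFounded.has_min (Ordinal.lt_wf.{u})
          {ξ | z ∈ st {z | z ∈ a} (G a) ξ} h
        rcases mem_st.1 h1 with h3 | ⟨ζ, hζ, w, hw, he⟩
        · exact absurd h3 hza
        · refine ⟨w, ζ, fun ξ hξ _ => ⟨?_, hw, he⟩⟩
          exact hζ.trans_le (not_lt.1 (h2 ξ hξ))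
    · exact ⟨∅, 0, fun ξ h1 _ => absurd ⟨ξ, h1⟩ h⟩
  choose fw fζ hfr using hrep
  have hinv : ∀ a t : ZFSet.{u}, ∃ z : ZFSet.{u}, (∃ z ∈ st {z | z ∈ a} (G a) μ,
      col (st {z | z ∈ a} (G a) μ) z = t) → (z ∈ st {z | z ∈ a} (G a) μ ∧
      col (st {z | z ∈ a} (G a) μ) z = t) := by
    intro a t
    by_cases h : ∃ z ∈ st {z | z ∈ a} (G a) μ, col (st {z | z ∈ a} (G a) μ) z = t
    · obtain ⟨z, h1, h2⟩ := h
      exact ⟨z, fun _ => ⟨h1, h2⟩⟩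
    · exact ⟨∅, fun h2 => absurd h2 h⟩
  choose fi hfi using hinv
  obtain ⟨q0, hq0⟩ := exists_par ho (fun a t => G a t.rank)
  obtain ⟨q1, hq1⟩ := exists_par ho (fun a z => col (st {z | z ∈ a} (G a) μ) z)
  obtain ⟨q2, hq2⟩ := exists_par ho fi
  obtain ⟨q3, hq3⟩ := exists_par ho fw
  obtain ⟨q4, hq4⟩ := exists_par ho (fun a z => (fζ a z).toZFSet)
  refine ⟨fun i => if i = 0 then q0 else if i = 1 then q1 else if i = 2 then q2 else
    if i = 3 then q3 else q4, fun H hH hq a ha har hG => ?_⟩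
  have e0 : q0.1 ∈ H := hq 0
  have e1 : q1.1 ∈ H := hq 1
  have e2 : q2.1 ∈ H := hq 2
  have e3 : q3.1 ∈ H := hq 3
  have e4 : q4.1 ∈ H := hq 4
  have hEl : ∀ ξ ≤ μ, El σ (st {z | z ∈ a} (G a) ξ) :=
    El.st hσl hG.el μ hG.cd hG.dom hMr hG.gen
  refine ⟨?_, ?_, ?_, ?_⟩
  · intro ζ hζ hζH
    have hr : (G a ζ).rank < σ := (rank_lt_of_mem (hG.gen ζ hζ).1).trans (hMr ζ hζ)
    have := hq0 H hH e0 a ζ.toZFSet ha hζH har (by
      rw [Ordinal.rank_toZFSet]; exact hζ.trans_le (hμ.trans hσ.le)) (by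
      rw [Ordinal.rank_toZFSet]; exact (hr.trans hσ).le)
    simp only [Ordinal.rank_toZFSet] at this
    exact this
  · intro z hz hz2
    have hr := (hEl μ le_rfl).rank hz2
    exact hq1 H hH e1 a z ha hz har (hr.trans_lt hσ) ((col_rank _ _).trans (hr.trans hσ.le))
  · intro z hz ht
    have hr := (hEl μ le_rfl).rank hz
    obtain ⟨h1, h2⟩ := hfi a _ ⟨z, hz, rfl⟩
    have h3 := (hEl μ le_rfl).col_inj h1 hz h2
    have := hq2 H hH e2 a _ ha ht har ((col_rank _ _).trans_lt (hr.trans_lt hσ)) (by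
      rw [h3]
      exact hr.trans hσ.le)
    rw [h3] at this
    exact this
  · intro z hz ξ hξ hzξ hza
    obtain ⟨h1, h2, h3⟩ := hfr a z ξ hzξ hza
    have hzr := (hEl ξ hξ).rank hzξ
    refine ⟨fζ a z, h1, ?_, fw a z, ?_, h2, h3⟩
    · refine hq4 H hH e4 a z ha hz har (hzr.trans_lt hσ) ?_
      rw [Ordinal.rank_toZFSet]
      exact (h1.trans_le (hξ.trans (hμ.trans hσ.le))).le
    · exact hq3 H hH e3 a z ha hz har (hzr.trans_lt hσ)
        (((hEl _ (h1.le.trans hξ)).rank h2).trans hσ.le)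

/-! ### ordinals -/

theorem isOrdinal_col (H : Set ZFSet.{u}) : ∀ z : ZFSet.{u}, z.IsOrdinal →
    (col H z).IsOrdinal := by
  intro z
  induction z using ZFSet.inductionOn with
  | _ z ih =>
    intro hz
    rw [ZFSet.isOrdinal_iff_forall_mem_isOrdinal]
    constructor
    · intro x hx t ht
      obtain ⟨y, hy, _, rfl⟩ := mem_col.1 hx
      obtain ⟨s, hs, hsH, rfl⟩ := mem_col.1 ht
      exact mem_col.2 ⟨s, hz.mem_trans hs hy, hsH, rfl⟩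
    · intro x hx
      obtain ⟨y, hy, _, rfl⟩ := mem_col.1 hx
      exact ih y hy (hz.mem hy)

theorem col_ord (H : Set ZFSet.{u}) (α : Ordinal.{u}) : ∃ β ≤ α, col H α.toZFSet = β.toZFSet := by
  have h1 := isOrdinal_col H _ (ZFSet.isOrdinal_toZFSet α)
  refine ⟨(col H α.toZFSet).rank, ?_, h1.toZFSet_rank_eq.symm⟩
  have := col_rank H α.toZFSet
  rwa [Ordinal.rank_toZFSet] at this

theorem col_card {θ : Ordinal.{u}} {H : Set ZFSet.{u}} (hH : El θ H) {κ : Ordinal.{u}}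
    (hκ : κ.card.ord = κ)
    (hc : Cardinal.lift.{u+1} κ.card ≤ #{ζ : Ordinal.{u} // ζ < κ ∧ ζ.toZFSet ∈ H}) :
    col H κ.toZFSet = κ.toZFSet := by
  obtain ⟨β, hβ, he⟩ := col_ord H κ
  rcases hβ.lt_or_eq with h1 | rfl
  · exfalso
    have h2 : ∀ ζ : {ζ : Ordinal.{u} // ζ < κ ∧ ζ.toZFSet ∈ H}, ∃ η : Set.Iio β,
        col H ζ.1.toZFSet = η.1.toZFSet := by
      intro ζ
      have h3 : col H ζ.1.toZFSet ∈ β.toZFSet := by
        rw [← he]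
        exact mem_col.2 ⟨_, Ordinal.toZFSet_mem_toZFSet_iff.2 ζ.2.1, ζ.2.2, rfl⟩
      obtain ⟨η, hη, he2⟩ := Ordinal.mem_toZFSet_iff.1 h3
      exact ⟨⟨η, hη⟩, he2.symm⟩
    choose f hf using h2
    have h3 : #{ζ : Ordinal.{u} // ζ < κ ∧ ζ.toZFSet ∈ H} ≤ #(Set.Iio β) := by
      refine Cardinal.mk_le_of_injective (f := f) ?_
      intro ζ ζ' h4
      have h5 : col H ζ.1.toZFSet = col H ζ'.1.toZFSet := by rw [hf, hf, h4]
      exact Subtype.ext (Ordinal.toZFSet_injective (hH.col_inj ζ.2.2 ζ'.2.2 h5))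
    rw [Cardinal.mk_Iio_ordinal] at h3
    have h4 := Cardinal.lift_le.1 (hc.trans h3)
    have h5 : β.card < κ.card := by
      rw [← Cardinal.lt_ord, hκ]
      exact h1
    exact absurd h4 (not_le.2 h5)
  · exact he

end SOCat
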