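import Pool.Agent.SOCat.T5

/-!
# One block of the construction
-/

namespace SOCat

universe u

open ZFSet Cardinal

theorem Cpl.mono {κ κ' : Ordinal.{u}} (h : κ ≤ κ') {M : Ms.{u}} (hM : Cpl κ' M) : Cpl κ M :=
  fun ι P hι hP => hM ι P (hι.trans_le (Cardinal.lift_le.2 (Ordinal.card_le_card h))) hP

theorem exists_gseq {N : Set ZFSet.{u}} (M : Ordinal.{u} → Ms.{u}) (k : Ordinal.{u} → Ordinal.{u})
    (Θ : Ordinal.{u}) (hM : ∀ ξ < Θ, Cpl (k ξ) (M ξ))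
    (hk : ∀ ξ < Θ, ((k ξ).card.ord = k ξ ∧ ℵ₀ < (k ξ).card ∧
      #N < Cardinal.lift.{u+1} (k ξ).card ∧ ξ < k ξ)) :
    ∃ g : Ordinal.{u} → ZFSet.{u}, ∀ ξ < Θ, Gn (M ξ) (st N g ξ) (g ξ) := by
  obtain ⟨g, hg⟩ := exists_seq N M
  refine ⟨g, fun ξ hξ => hg ξ ?_⟩
  obtain ⟨h1, h2, h3, h4⟩ := hk ξ hξ
  exact exists_Gn (hM ξ hξ) (card_st_lt N g h1 h2 h3 h4)

theorem st_no_new' {o : Ordinal.{u}} {N : Set ZFSet.{u}} {M : Ordinal.{u} → Ms.{u}}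
    {g : Ordinal.{u} → ZFSet.{u}} (ho : Lim o)
    (h : El o N) (Θ : Ordinal.{u}) (hM : ∀ ζ < Θ, (M ζ).cd ∈ N) (hd : ∀ ζ < Θ, (M ζ).dom ∈ N)
    (hr : ∀ ζ < Θ, (M ζ).dom.rank < o) (hg : ∀ ζ < Θ, Gn (M ζ) (SOCat.st N g ζ) (g ζ))
    {κ : Ordinal.{u}} (hκ : ∀ ζ < Θ, Cpl κ (M ζ)) {ξ0 : Ordinal.{u}}
    {S : ZFSet.{u}} (hS : S ∈ st N g ξ0)
    (hSc : #{x : ZFSet.{u} // x ∈ S} < Cardinal.lift.{u+1} κ.card) :
    ∀ ξ ≤ Θ, ∀ z ∈ SOCat.st N g ξ, z ∈ S → z ∈ st N g ξ0 := by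
  intro ξ
  induction ξ using WellFoundedLT.induction with
  | _ ξ ih =>
    intro hξ z hz hzS
    rcases mem_st.1 hz with h1 | ⟨ζ, hζ, w, hw, rfl⟩
    · exact st_base h1
    · rcases lt_or_ge ζ ξ0 with h3 | h3
      · exact mem_st.2 (Or.inr ⟨ζ, h3, w, hw, rfl⟩)
      · have hζΘ := hζ.trans_le hξ
        have h2 := Gn.no_new ho (El.st ho h Θ hM hd hr hg ζ hζΘ.le) (st_base (hM ζ hζΘ))
          (st_base (hd ζ hζΘ)) (hr ζ hζΘ) (hκ ζ hζΘ) (hg ζ hζΘ) (st_mono h3 hS) hSc hw hzS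
        exact ih ζ hζ hζΘ.le _ h2 hzS

/-- the context: a sequence of large cardinals with measures -/
structure Ctx (θ : Ordinal.{u}) (κ σ : ℕ → Ordinal.{u}) (U : ℕ → Ms.{u}) (W : ℕ → ℕ → Ms.{u}) :
    Prop where
  lim : Lim θ
  sl : ∀ m, Lim (σ m)
  κσ : ∀ m, κ m < σ m
  σκ : ∀ m, σ m < κ (m+1)
  σθ : ∀ m, σ m < θ
  mono : StrictMono κ
  ord : ∀ n, (κ n).card.ord = κ n
  unc : ∀ n, ℵ₀ < (κ n).card
  Ud : ∀ l, (U l).dom = (κ l).toZFSet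
  Uc : ∀ l, Cpl (κ l) (U l)
  Un : ∀ l (c : ZFSet.{u}), ∀ᶠ x : ZFSet.{u} in (U l).D, x ≠ c
  Wc : ∀ n m, n ≤ m → Cpl (κ n) (W n m)
  Wn : ∀ n m, n ≤ m → Nrm (W n m)
  Wf : ∀ n m, n ≤ m → ∀ z : ZFSet.{u}, z.rank ≤ σ m → ∀ᶠ c : ZFSet.{u} in (W n m).D, z ∈ c
  Wd : ∀ n m, n ≤ m → ∀ c ∈ (W n m).dom, El (σ m) {z | z ∈ c} ∧
    #{z : ZFSet.{u} // z ∈ c} < Cardinal.lift.{u+1} (κ n).card
  Wr : ∀ n m, n ≤ m → (W n m).dom.rank < θ

/-- the label of `ζ`: the least `l ≥ n` with `ζ < κ l` -/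
noncomputable def lab (κ : ℕ → Ordinal.{u}) (n : ℕ) (ζ : Ordinal.{u}) : ℕ :=
  open Classical in if h : ∃ l, n ≤ l ∧ ζ < κ l then Nat.find h else n

theorem lab_spec {κ : ℕ → Ordinal.{u}} {n m : ℕ} {ζ : Ordinal.{u}} (hnm : n ≤ m) (h : ζ < κ m) :
    n ≤ lab κ n ζ ∧ ζ < κ (lab κ n ζ) ∧ lab κ n ζ ≤ m ∧
      ∀ l, n ≤ l → ζ < κ l → lab κ n ζ ≤ l := by
  classical
  have h1 : ∃ l, n ≤ l ∧ ζ < κ l := ⟨m, hnm, h⟩
  unfold lab
  rw [dif_pos h1]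
  exact ⟨(Nat.find_spec h1).1, (Nat.find_spec h1).2, Nat.find_min' h1 ⟨hnm, h⟩,
    fun l h2 h3 => Nat.find_min' h1 ⟨h2, h3⟩⟩

theorem rank_cd (M : Ms.{u}) : M.cd.rank ≤ Order.succ M.dom.rank := by
  rw [ZFSet.rank_le_iff]
  intro S hS
  exact Order.lt_succ_of_le (ZFSet.rank_mono (Ms.mem_cd.1 hS).1)

variable {θ : Ordinal.{u}} {κ σ : ℕ → Ordinal.{u}} {U : ℕ → Ms.{u}} {W : ℕ → ℕ → Ms.{u}}

/-- the measures used in the block starting at `n` -/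
noncomputable def MU (κ : ℕ → Ordinal.{u}) (U : ℕ → Ms.{u}) (n : ℕ) (ζ : Ordinal.{u}) : Ms.{u} :=
  U (lab κ n ζ)

/-- `y` is small -/
def Sml (σ κ μ : Ordinal.{u}) (Mu : Ordinal.{u} → Ms.{u}) (y : ZFSet.{u}) : Prop :=
  ∃ a g, Goo σ κ μ Mu a g ∧ y ∈ a ∧ col (st {z | z ∈ a} g μ) y = y

/-- the parameters -/
structure PN (κ σ : ℕ → Ordinal.{u}) (U : ℕ → Ms.{u}) (W : ℕ → ℕ → Ms.{u}) (θ : Ordinal.{u})
    (N : Set ZFSet.{u}) : Prop where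
  Uc : ∀ l, (U l).cd ∈ N
  Ud : ∀ l, (U l).dom ∈ N
  Wc : ∀ n m, (W n m).cd ∈ N
  Wd : ∀ n m, (W n m).dom ∈ N
  K : ∀ m, KK (σ m) ∈ N
  V : ∀ m, ZFSet.vonNeumann (σ m) ∈ N
  id' : (cdG θ (fun c => c)).1 ∈ N

theorem PN.mono {N N' : Set ZFSet.{u}} (h : PN κ σ U W θ N) (hN : N ⊆ N') : PN κ σ U W θ N' :=
  ⟨fun l => hN (h.Uc l), fun l => hN (h.Ud l), fun n m => hN (h.Wc n m), fun n m => hN (h.Wd n m),
    fun m => hN (h.K m), fun m => hN (h.V m), hN h.id'⟩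

theorem sl_id {θ : Ordinal.{u}} (ho : Lim θ) {g : ZFSet.{u}} (hg : g.rank < θ) :
    sl g (cdG θ (fun c => c)).1 = g := by
  have h1 := slice_cdG ho (G := fun c => c) hg hg.le
  rw [← slice_val, h1]

theorem add_lt_card {κ a b : Ordinal.{u}} (hκ : κ.card.ord = κ) (hω : ℵ₀ < κ.card) (ha : a < κ)
    (hb : b < κ) : a + b < κ := by
  rw [← hκ, Cardinal.lt_ord, Ordinal.card_add]
  apply Cardinal.add_lt_of_lt hω.le
  · rw [← Cardinal.lt_ord, hκ]; exact ha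
  · rw [← Cardinal.lt_ord, hκ]; exact hb

theorem block_step (C : Ctx θ κ σ U W) {n m : ℕ} (hnm : n ≤ m)
    (G : ZFSet.{u} → Ordinal.{u} → ZFSet.{u})
    (hG : ∀ a, (∃ g, Goo (σ m) (κ n) (κ m) (MU κ U n) a g) →
      Goo (σ m) (κ n) (κ m) (MU κ U n) a (G a))
    (q : ℕ → VS θ) (hq : ∀ H : Set ZFSet.{u}, El θ H → (∀ i, (q i).1 ∈ H) → ∀ a ∈ H,
      a.rank < θ → Goo (σ m) (κ n) (κ m) (MU κ U n) a (G a) →
      (∀ ζ < κ m, ζ.toZFSet ∈ H → G a ζ ∈ H) ∧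
      (∀ z ∈ H, z ∈ st {z | z ∈ a} (G a) (κ m) → col (st {z | z ∈ a} (G a) (κ m)) z ∈ H) ∧
      (∀ z ∈ st {z | z ∈ a} (G a) (κ m), col (st {z | z ∈ a} (G a) (κ m)) z ∈ H → z ∈ H) ∧
      (∀ z ∈ H, ∀ ξ ≤ κ m, z ∈ st {z | z ∈ a} (G a) ξ → z ∉ a → ∃ ζ < ξ, ζ.toZFSet ∈ H ∧
        ∃ w ∈ H, w ∈ st {z | z ∈ a} (G a) ζ ∧ z = sl (G a ζ) w))
    {N : Set ZFSet.{u}} (hN : El θ N) (hP : PN κ σ U W θ N) (hqN : ∀ i, (q i).1 ∈ N)
    (hNc : #N < Cardinal.lift.{u+1} (κ n).card) {y : ZFSet.{u}} (hy : y ∈ N)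
    (hyr : y.rank ≤ σ m) (hns : ¬ Sml (σ m) (κ n) (κ m) (MU κ U n) y) :
    ∃ Hf : Ordinal.{u} → Set ZFSet.{u}, (∀ α < κ n, El θ (Hf α) ∧ N ⊆ Hf α ∧
      #(Hf α) < Cardinal.lift.{u+1} (κ (m+1)).card ∧
      (∀ S ∈ N, #{x : ZFSet.{u} // x ∈ S} < Cardinal.lift.{u+1} (κ n).card →
        ∀ z ∈ Hf α, z ∈ S → z ∈ N) ∧
      (∀ l, n ≤ l → l ≤ m → Cardinal.lift.{u+1} (κ l).card ≤
        #{ζ : Ordinal.{u} // ζ < κ l ∧ ζ.toZFSet ∈ Hf α})) ∧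
      ∀ α β, α < β → β < κ n → col (Hf α) y ≠ col (Hf β) y := by
  have hMc : ∀ ζ < κ m, Cpl (κ n) (MU κ U n ζ) := fun ζ hζ =>
    Cpl.mono (C.mono.monotone (lab_spec hnm hζ).1) (C.Uc _)
  have hMr : ∀ ζ < κ m, (MU κ U n ζ).dom.rank < σ m := by
    intro ζ hζ
    unfold MU
    rw [C.Ud, Ordinal.rank_toZFSet]
    exact (C.mono.monotone (lab_spec hnm hζ).2.2.1).trans_lt (C.κσ m)
  have hMcr : ∀ ζ < κ m, (MU κ U n ζ).cd.rank ≤ σ m := by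
    intro ζ hζ
    exact (rank_cd _).trans (Order.succ_le_of_lt (hMr ζ hζ))
  have hMrθ : ∀ ζ < κ m, (MU κ U n ζ).dom.rank < θ := fun ζ hζ => (hMr ζ hζ).trans (C.σθ m)
  -- the sequence of `W`-generic points
  obtain ⟨a, ha⟩ := exists_gseq (N := N) (fun _ => W n m) (fun _ => κ n) (κ n)
    (fun _ _ => C.Wc n m hnm) (fun ξ hξ => ⟨C.ord n, C.unc n, hNc, hξ⟩)
  have hEa : ∀ ξ ≤ κ n, El θ (st N a ξ) := El.st C.lim hN (κ n) (fun _ _ => hP.Wc n m)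
    (fun _ _ => hP.Wd n m) (fun _ _ => C.Wr n m hnm) ha
  have hca : ∀ ξ < κ n, #(st N a ξ) < Cardinal.lift.{u+1} (κ n).card := fun ξ hξ =>
    card_st_lt N a (C.ord n) (C.unc n) hNc hξ
  -- generic sequences over small sets
  have hgs : ∀ A : Set ZFSet.{u}, #A < Cardinal.lift.{u+1} (κ n).card →
      ∃ g : Ordinal.{u} → ZFSet.{u}, ∀ ξ < κ m, Gn (MU κ U n ξ) (st A g ξ) (g ξ) := by
    intro A hA
    refine exists_gseq (MU κ U n) (fun ξ => κ (lab κ n ξ)) (κ m) (fun ξ _ => C.Uc _) ?_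
    intro ξ hξ
    refine ⟨C.ord _, C.unc _, hA.trans_le ?_, (lab_spec hnm hξ).2.1⟩
    exact Cardinal.lift_le.2 (Ordinal.card_le_card (C.mono.monotone (lab_spec hnm hξ).1))
  have hex : ∀ α : Ordinal.{u}, ∃ g : Ordinal.{u} → ZFSet.{u}, α < κ n → ∀ ξ < κ m,
      Gn (MU κ U n ξ) (st (st N a α) g ξ) (g ξ) := by
    intro α
    by_cases hα : α < κ n
    · obtain ⟨g, hg⟩ := hgs _ (hca α hα)
      exact ⟨g, fun _ => hg⟩
    · exact ⟨fun _ => ∅, fun h => absurd h hα⟩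
  choose g hg using hex
  have hEH : ∀ α < κ n, ∀ ξ ≤ κ m, El θ (st (st N a α) (g α) ξ) := fun α hα =>
    El.st C.lim (hEa α hα.le) (κ m) (fun ζ _ => st_base (hP.Uc _)) (fun ζ _ => st_base (hP.Ud _))
      hMrθ (hg α hα)
  have hcard : ∀ α < κ n, ∀ l, n ≤ l → l ≤ m → Cardinal.lift.{u+1} (κ l).card ≤
      #{ζ : Ordinal.{u} // ζ < κ l ∧ ζ.toZFSet ∈ st (st N a α) (g α) (κ m)} := by
    intro α hα l hnl hlm
    -- a starting point
    obtain ⟨b, hb, hbl⟩ : ∃ b < κ l, ∀ η < κ l, lab κ n (b + η) = l := by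
      rcases hnl.eq_or_lt with rfl | h1
      · have h0 : (0 : Ordinal.{u}) < κ n := by
          rw [← C.ord n, Cardinal.lt_ord, Ordinal.card_zero]
          exact Cardinal.aleph0_pos.trans (C.unc n)
        refine ⟨0, h0, fun η hη => ?_⟩
        rw [zero_add]
        have h2 := lab_spec (κ := κ) (le_refl n) hη
        exact le_antisymm h2.2.2.1 h2.1
      · obtain ⟨l', rfl⟩ : ∃ l', l = l' + 1 := ⟨l - 1, by omega⟩
        refine ⟨κ l', C.mono (Nat.lt_succ_self l'), fun η hη => ?_⟩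
        have h3 := add_lt_card (C.ord _) (C.unc _) (C.mono (Nat.lt_succ_self l')) hη
        have h2 := lab_spec (κ := κ) hnl h3
        refine le_antisymm h2.2.2.1 ?_
        by_contra h4
        have h5 : κ (lab κ n (κ l' + η)) ≤ κ l' := C.mono.monotone (by omega)
        exact absurd (h2.2.1.trans_le h5) (not_lt.2 le_self_add)
    have hlt : ∀ η < κ l, b + η < κ m := fun η hη =>
      (add_lt_card (C.ord _) (C.unc _) hb hη).trans_le (C.mono.monotone hlm)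
    have h1 : ∀ η : Set.Iio (κ l), ∃ ζ : Ordinal.{u}, ζ < κ l ∧ ζ.toZFSet = g α (b + η.1) := by
      intro η
      have h2 := (hg α hα (b + η.1) (hlt η.1 η.2)).1
      unfold MU at h2
      rw [hbl η.1 η.2, C.Ud] at h2
      obtain ⟨ζ, h3, h4⟩ := Ordinal.mem_toZFSet_iff.1 h2
      exact ⟨ζ, h3, h4⟩
    choose f hf1 hf2 using h1
    have hmem : ∀ η < κ l, ∀ ξ, b + η < ξ → g α (b + η) ∈ st (st N a α) (g α) ξ := by
      intro η hη ξ hξ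
      refine mem_st.2 (Or.inr ⟨b + η, hξ, (cdG θ (fun c => c)).1, st_base (st_base hP.id'), ?_⟩)
      exact (sl_id C.lim ((rank_lt_of_mem (hg α hα _ (hlt η hη)).1).trans
        (hMrθ _ (hlt η hη)))).symm
    have hnew : ∀ η < κ l, g α (b + η) ∉ st (st N a α) (g α) (b + η) := by
      intro η hη h2
      have h3 := hg α hα _ (hlt η hη)
      have hE := hEH α hα _ (hlt η hη).le
      have h4 := (Gn.los C.lim hE (st_base (st_base (hP.Uc _))) (st_base (st_base (hP.Ud _)))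
        (hMrθ _ (hlt η hη)) h3 (hE.rank h2) (Dfn.eq 0 1).not (fun _ => ⟨_, hE.rank h2⟩)
        (fun _ => h2)).2 (by
          have h5 := C.Un (lab κ n (b + η)) (g α (b + η))
          filter_upwards [h5, (MU κ U n (b + η)).hdom] with x hx hx2
          refine ⟨(rank_lt_of_mem hx2).le.trans (hMrθ _ (hlt η hη)).le, fun h6 => hx ?_⟩
          exact congrArg Subtype.val h6)
      exact h4 rfl
    rw [← Cardinal.mk_Iio_ordinal]
    refine Cardinal.mk_le_of_injective (f := fun η => ⟨f η, hf1 η, by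
      rw [hf2]; exact hmem η.1 η.2 _ (hlt η.1 η.2)⟩) ?_
    intro η η' h2
    have h3 : f η = f η' := congrArg Subtype.val h2
    have h4 : g α (b + η.1) = g α (b + η'.1) := by rw [← hf2, ← hf2, h3]
    rcases lt_trichotomy η.1 η'.1 with h5 | h5 | h5
    · exfalso
      apply hnew η'.1 η'.2
      rw [← h4]
      exact hmem η.1 η.2 _ (add_lt_add_right h5 b)
    · exact Subtype.ext h5
    · exfalso
      apply hnew η.1 η.2
      rw [h4]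
      exact hmem η'.1 η'.2 _ (add_lt_add_right h5 b)
  refine ⟨fun α => st (st N a α) (g α) (κ m), ?_, ?_⟩
  · intro α hα
    refine ⟨hEH α hα _ le_rfl, st_base.trans st_base, ?_, ?_, hcard α hα⟩
    · refine card_st_lt _ _ (C.ord _) (C.unc _) ((hca α hα).trans_le ?_)
        (C.mono (Nat.lt_succ_self m))
      exact Cardinal.lift_le.2 (Ordinal.card_le_card (C.mono.monotone (by omega)))
    · intro S hS hSc z hz hzS
      have h1 := st_no_new C.lim (hEa α hα.le) (κ m) (fun ζ _ => st_base (hP.Uc _))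
        (fun ζ _ => st_base (hP.Ud _)) hMrθ (hg α hα) hMc (st_base hS) hSc _ le_rfl z hz hzS
      exact st_no_new C.lim hN (κ n) (fun _ _ => hP.Wc n m) (fun _ _ => hP.Wd n m)
        (fun _ _ => C.Wr n m hnm) ha (fun _ _ => C.Wc n m hnm) hS hSc _ hα.le z h1 hzS
  · intro α β hαβ hβ
    have hα := hαβ.trans hβ
    have hβ1 : α + 1 ≤ β := Order.succ_le_of_lt hαβ
    have haα := ha α hα
    obtain ⟨hw1, hw2⟩ := C.Wd n m hnm (a α) haα.1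
    have haθ : (a α).rank < θ := (rank_lt_of_mem haα.1).trans (C.Wr n m hnm)
    have hNa : ∀ z ∈ st N a α, z.rank ≤ σ m → z ∈ a α := fun z hz hzr =>
      Gn.fine C.lim (hEa α hα.le) (st_base (hP.Wc n m)) (st_base (hP.Wd n m)) (C.Wr n m hnm) haα hz
        (C.Wf n m hnm z hzr)
    have haN1 : a α ∈ st N a (α + 1) := mem_st.2 (Or.inr ⟨α, Order.lt_succ α, _, st_base hP.id',
      (sl_id C.lim haθ).symm⟩)
    have haH : a α ∈ st (st N a β) (g β) (κ m) := st_base (st_mono hβ1 haN1)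
    have hgoo : ∃ g', Goo (σ m) (κ n) (κ m) (MU κ U n) (a α) g' := by
      obtain ⟨g', hg'⟩ := hgs {z | z ∈ a α} hw2
      exact ⟨g', hw1, hw2, fun ζ hζ => hNa _ (st_base (hP.Uc _)) (hMcr ζ hζ),
        fun ζ hζ => hNa _ (st_base (hP.Ud _)) (hMr ζ hζ).le, hg'⟩
    have hGa := hG _ hgoo
    have hEβ := hEH β hβ _ le_rfl
    obtain ⟨c1, c2, c3, c4⟩ := hq _ hEβ (fun i => st_base (st_base (hqN i))) (a α) haH haθ hGa
    have hcol : ∀ l, n ≤ l → l ≤ m → col (st (st N a β) (g β) (κ m)) (κ l).toZFSet =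
        (κ l).toZFSet := fun l h1 h2 => col_card hEβ (C.ord l) (hcard β hβ l h1 h2)
    refine dist (C.sl m) (C.σθ m).le (κ := κ n) (hEa α hα.le) hEβ
      ((st_mono hαβ.le).trans st_base) (st_base (hP.K m)) (st_base (hP.V m)) (a := a α)
      (st_base hy) hyr hNa ?_ hw1 hw2 (MU κ U n) (fun ζ _ => st_base (hP.Uc _))
      (fun ζ _ => st_base (hP.Ud _)) hMcr hMr (g α) (hg α hα) (hEH α hα) (G (a α)) hGa.gen
      (hcol m hnm le_rfl) ?_ c1 c2 c3 c4 ?_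
    · intro z hz hzH
      have h1 := st_no_new C.lim (hEa β hβ.le) (κ m) (fun ζ _ => st_base (hP.Uc _))
        (fun ζ _ => st_base (hP.Ud _)) hMrθ (hg β hβ) hMc (st_mono hβ1 haN1) hw2 _ le_rfl z hzH hz
      have h2 := st_no_new' C.lim hN (κ n) (fun _ _ => hP.Wc n m) (fun _ _ => hP.Wd n m)
        (fun _ _ => C.Wr n m hnm) ha (fun _ _ => C.Wc n m hnm) haN1 hw2 _ hβ.le z h1 hz
      rcases mem_st.1 h2 with h3 | ⟨ζ, hζ, w, hw, rfl⟩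
      · exact st_base h3
      · rcases (Order.lt_succ_iff.1 hζ).lt_or_eq with h4 | rfl
        · exact mem_st.2 (Or.inr ⟨ζ, h4, w, hw, rfl⟩)
        · exact Gn.normal C.lim (hEa ζ hα.le) (st_base (hP.Wc n m)) (st_base (hP.Wd n m))
            (C.Wr n m hnm) (C.Wn n m hnm) haα hw hz
    · intro ζ hζ hζH j hj
      have hkey : ∀ l, n ≤ l → l ≤ m → (ζ < κ l ↔ j < κ l) := by
        intro l h1 h2
        have hκH : (κ l).toZFSet ∈ st (st N a β) (g β) (κ m) := by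
          rw [← C.Ud]
          exact st_base (st_base (hP.Ud l))
        rw [← Ordinal.toZFSet_mem_toZFSet_iff, ← hEβ.col_mem_iff hζH hκH, hj, hcol l h1 h2,
          Ordinal.toZFSet_mem_toZFSet_iff]
      have hjm : j < κ m := (hkey m hnm le_rfl).1 hζ
      have s1 := lab_spec (κ := κ) hnm hζ
      have s2 := lab_spec (κ := κ) hnm hjm
      have e : lab κ n ζ = lab κ n j := by
        apply le_antisymm
        · exact s1.2.2.2 _ s2.1 ((hkey _ s2.1 s2.2.2.1).2 s2.2.1)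
        · exact s2.2.2.2 _ s1.1 ((hkey _ s1.1 s1.2.2.1).1 s1.2.1)
      unfold MU
      rw [e]
    · intro h1
      exact hns ⟨a α, G (a α), hGa, hNa y (st_base hy) hyr, h1⟩

end SOCat
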