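import Pool.Agent.SOCat.T6
import Pool.Agent.SOCat.P4

/-!
# The perfect tree of hulls
-/

namespace SOCat

universe u

open ZFSet Cardinal

theorem Sat_iff_GSat {o : Ordinal.{u}} (φ : Fml) : ∀ v : ℕ → VS o,
    Sat φ v ↔ GSat (fun a b : VS o => a.1 ∈ b.1) φ v := by
  induction φ with
  | mem i j => intro v; exact Iff.rfl
  | eq i j => intro v; exact Iff.rfl
  | neg φ ih => intro v; exact not_congr (ih v)
  | and φ ψ ih1 ih2 => intro v; exact and_congr (ih1 v) (ih2 v)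
  | all φ ih => intro v; exact forall_congr' fun a => ih _

theorem El.gsat {θ : Ordinal.{u}} {H : Set ZFSet.{u}} (h : El θ H) (φ : Fml) :
    ∀ v : ℕ → {z : ZFSet.{u} // z ∈ H}, GSat (fun a b : {z : ZFSet.{u} // z ∈ H} => a.1 ∈ b.1) φ v ↔
      Sat φ (fun i => (⟨(v i).1, h.rank (v i).2⟩ : VS θ)) := by
  induction φ with
  | mem i j => intro v; exact Iff.rfl
  | eq i j =>
    intro v
    show v i = v j ↔ (⟨(v i).1, _⟩ : VS θ) = ⟨(v j).1, _⟩
    rw [Subtype.ext_iff, Subtype.ext_iff]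
  | neg φ ih => intro v; exact not_congr (ih v)
  | and φ ψ ih1 ih2 => intro v; exact and_congr (ih1 v) (ih2 v)
  | all φ ih =>
    intro v
    have e : ∀ a : {z : ZFSet.{u} // z ∈ H}, (fun i => (⟨(cons a v i).1,
        h.rank (cons a v i).2⟩ : VS θ)) = cons ⟨a.1, h.rank a.2⟩
          (fun i => (⟨(v i).1, h.rank (v i).2⟩ : VS θ)) := by
      intro a
      funext i
      cases i <;> rfl
    constructor
    · intro h1
      by_contra h2
      have h3 : ∃ z : VS θ, Sat (.neg φ) (cons z (fun i => (⟨(v i).1, h.rank (v i).2⟩ : VS θ))) := by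
        by_contra h4
        push Not at h4
        apply h2
        intro z
        by_contra h5
        exact h4 z h5
      obtain ⟨z, hz1, hz2⟩ := h.wit' (.neg φ) _ (fun i => (v i).2) h3
      apply hz2
      have h6 := (ih (cons ⟨z.1, hz1⟩ v)).1 (h1 ⟨z.1, hz1⟩)
      rw [e] at h6
      exact h6
    · intro h1 a
      have h2 := h1 ⟨a.1, h.rank a.2⟩
      show GSat _ φ (cons a v)
      rw [ih, e]
      exact h2

/-- the truth of a `Σ_1`-formula at the collapse -/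
theorem El.truth {θ : Ordinal.{u}} {H : Set ZFSet.{u}} (h : El θ H) (φ : S1) (v : ℕ → VS θ)
    (hv : ∀ i, (v i).1 ∈ H) (ht : φ.Sat (fun a b : VS θ => a.1 ∈ b.1) v) :
    φ.Sat (fun x y : ZFSet.{u} => x ∈ y) (fun i => col H (v i).1) := by
  have h1 : φ.Sat (fun a b : {z : ZFSet.{u} // z ∈ H} => a.1 ∈ b.1) (fun i => ⟨(v i).1, hv i⟩) := by
    rw [← φ.toF_iff, h.gsat, Sat_iff_GSat, φ.toF_iff]
    exact ht
  have h2 : IniEmb (fun a b : {z : ZFSet.{u} // z ∈ H} => a.1 ∈ b.1)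
      (fun x y : ZFSet.{u} => x ∈ y) (fun z => col H z.1) := by
    constructor
    · intro a b hab
      exact Subtype.ext (h.col_inj a.2 b.2 hab)
    · intro a b
      exact (h.col_mem_iff a.2 b.2).symm
    · intro b x hx
      obtain ⟨y, hy, hyH, rfl⟩ := mem_col.1 hx
      exact ⟨⟨y, hyH⟩, rfl⟩
  exact φ.sat_up h2 _ h1

theorem El.iUnion {θ : Ordinal.{u}} (F : ℕ → Set ZFSet.{u}) (hF : ∀ s, El θ (F s))
    (hm : Monotone F) : El θ (⋃ s, F s) := by
  have hfin : ∀ (f : ℕ → ZFSet.{u}), (∀ i, f i ∈ ⋃ s, F s) → ∀ k : ℕ, ∃ s, ∀ i < k, f i ∈ F s := by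
    intro f hf k
    induction k with
    | zero => exact ⟨0, fun i hi => absurd hi (Nat.not_lt_zero i)⟩
    | succ k ih =>
      obtain ⟨s, hs⟩ := ih
      obtain ⟨t, ht⟩ := Set.mem_iUnion.1 (hf k)
      refine ⟨max s t, fun i hi => ?_⟩
      rcases Nat.lt_succ_iff_lt_or_eq.1 hi with h | rfl
      · exact hm (le_max_left s t) (hs i h)
      · exact hm (le_max_right s t) ht
  constructor
  · rintro ⟨z, z'⟩ ⟨h1, h2⟩
    have h1' : z = z' := h1
    subst h1'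
    obtain ⟨s, hs⟩ := Set.mem_iUnion.1 h2
    exact ⟨(hF s).rank hs, (hF s).rank hs⟩
  · intro φ v v' hv
    have : v = v' := by
      funext i
      exact Subtype.ext (hv i).1
    rw [this]
  · rintro φ v v' hv ⟨z, hz⟩
    obtain ⟨s, hs⟩ := hfin (fun i => (v i).1) (fun i => (hv i).2) (fbd φ + 1)
    obtain ⟨y, h6, h7⟩ := (hF s).wit' φ (fun i => if i < fbd φ then v i else v 0) (by
      intro i
      by_cases hi : i < fbd φ
      · simp only [if_pos hi]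
        exact hs i (by omega)
      · simp only [if_neg hi]
        exact hs 0 (by omega)) ⟨z, by
        refine (sat_fbd φ _ _ ?_).1 hz
        intro i hi
        cases i with
        | zero => rfl
        | succ i => exact (if_pos (by omega)).symm⟩
    refine ⟨y, y, ⟨rfl, Set.mem_iUnion.2 ⟨s, h6⟩⟩, ?_⟩
    refine (sat_fbd φ _ _ ?_).2 h7
    intro i hi
    cases i with
    | zero => rfl
    | succ i => exact (if_pos (by omega)).symm

variable {θ : Ordinal.{u}} {κ σ : ℕ → Ordinal.{u}} {U : ℕ → Ms.{u}} {W : ℕ → ℕ → Ms.{u}}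

theorem card_toZ (α : Ordinal.{u}) : #{x : ZFSet.{u} // x ∈ α.toZFSet} =
    Cardinal.lift.{u+1} α.card := by
  rw [← Cardinal.mk_Iio_ordinal]
  apply Cardinal.mk_congr
  refine (Equiv.ofBijective (fun ζ : Set.Iio α => ⟨ζ.1.toZFSet,
    Ordinal.toZFSet_mem_toZFSet_iff.2 ζ.2⟩) ⟨?_, ?_⟩).symm
  · intro ζ ζ' h
    exact Subtype.ext (Ordinal.toZFSet_injective (congrArg Subtype.val h))
  · rintro ⟨x, hx⟩
    obtain ⟨ζ, hζ, rfl⟩ := Ordinal.mem_toZFSet_iff.1 hx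
    exact ⟨⟨ζ, hζ⟩, rfl⟩

/-- the tree of hulls -/
theorem exists_tree' (C : Ctx θ κ σ U W) (n m : ℕ → ℕ) (hnm : ∀ s, n s ≤ m s)
    (hns : ∀ s, n (s+1) = m s + 1) (y : ℕ → ZFSet.{u}) (hyr : ∀ s, (y s).rank ≤ σ (m s))
    (hyκ : ∀ s, y s ⊆ (κ (m s)).toZFSet)
    (hy : ∀ s, ¬ Sml (σ (m s)) (κ (n s)) (κ (m s)) (MU κ U (n s)) (y s)) :
    ∃ q : ℕ → ℕ → VS θ, ∀ N : Set ZFSet.{u}, El θ N → PN κ σ U W θ N → (∀ s i, (q s i).1 ∈ N) →
      (∀ s, y s ∈ N) → #N < Cardinal.lift.{u+1} (κ (n 0)).card →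
      ∃ H : (ℕ → Ordinal.{u}) → Set ZFSet.{u}, ∀ z, (∀ s, z s < κ (n s)) → El θ (H z) ∧ N ⊆ H z ∧
        (∀ l, n 0 ≤ l → col (H z) (κ l).toZFSet = (κ l).toZFSet) ∧
        ∀ z', (∀ s, z' s < κ (n s)) → ∀ s, (∀ t < s, z t = z' t) →
          (z s = z' s ↔ col (H z) (y s) = col (H z') (y s)) := by
  classical
  have h1 : ∀ s, ∃ G : ZFSet.{u} → Ordinal.{u} → ZFSet.{u}, ∃ q : ℕ → VS θ,
      (∀ a, (∃ g, Goo (σ (m s)) (κ (n s)) (κ (m s)) (MU κ U (n s)) a g) →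
        Goo (σ (m s)) (κ (n s)) (κ (m s)) (MU κ U (n s)) a (G a)) ∧
      (∀ H : Set ZFSet.{u}, El θ H → (∀ i, (q i).1 ∈ H) → ∀ a ∈ H,
        a.rank < θ → Goo (σ (m s)) (κ (n s)) (κ (m s)) (MU κ U (n s)) a (G a) →
        (∀ ζ < κ (m s), ζ.toZFSet ∈ H → G a ζ ∈ H) ∧
        (∀ z ∈ H, z ∈ st {z | z ∈ a} (G a) (κ (m s)) →
          col (st {z | z ∈ a} (G a) (κ (m s))) z ∈ H) ∧
        (∀ z ∈ st {z | z ∈ a} (G a) (κ (m s)),
          col (st {z | z ∈ a} (G a) (κ (m s))) z ∈ H → z ∈ H) ∧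
        (∀ z ∈ H, ∀ ξ ≤ κ (m s), z ∈ st {z | z ∈ a} (G a) ξ → z ∉ a → ∃ ζ < ξ, ζ.toZFSet ∈ H ∧
          ∃ w ∈ H, w ∈ st {z | z ∈ a} (G a) ζ ∧ z = sl (G a ζ) w)) := by
    intro s
    obtain ⟨G, hG⟩ := exists_G (σ (m s)) (κ (n s)) (κ (m s)) (MU κ U (n s))
    obtain ⟨q, hq⟩ := exists_pars C.lim (C.sl (m s)) (C.σθ (m s)) (κ (n s)) (κ (m s))
      (C.κσ (m s)).le (MU κ U (n s)) (by
        intro ζ hζ
        unfold MU
        rw [C.Ud, Ordinal.rank_toZFSet]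
        exact (C.mono.monotone (lab_spec (hnm s) hζ).2.2.1).trans_lt (C.κσ (m s))) G
    exact ⟨G, q, hG, hq⟩
  choose G q hG hq using h1
  refine ⟨q, fun N hN hP hqN hyN hNc => ?_⟩
  let Inv : ℕ → Set ZFSet.{u} → Prop := fun s N' => El θ N' ∧ N ⊆ N' ∧
    #N' < Cardinal.lift.{u+1} (κ (n s)).card
  have hstep : ∀ s (N' : Set ZFSet.{u}), ∃ Hf : Ordinal.{u} → Set ZFSet.{u}, Inv s N' →
      ((∀ α < κ (n s), El θ (Hf α) ∧ N' ⊆ Hf α ∧
      #(Hf α) < Cardinal.lift.{u+1} (κ (m s+1)).card ∧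
      (∀ S ∈ N', #{x : ZFSet.{u} // x ∈ S} < Cardinal.lift.{u+1} (κ (n s)).card →
        ∀ z ∈ Hf α, z ∈ S → z ∈ N') ∧
      (∀ l, n s ≤ l → l ≤ m s → Cardinal.lift.{u+1} (κ l).card ≤
        #{ζ : Ordinal.{u} // ζ < κ l ∧ ζ.toZFSet ∈ Hf α})) ∧
      ∀ α β, α < β → β < κ (n s) → col (Hf α) (y s) ≠ col (Hf β) (y s)) := by
    intro s N'
    by_cases hI : Inv s N'
    · obtain ⟨h1, h2, h3⟩ := hI
      obtain ⟨Hf, hHf⟩ := block_step C (hnm s) (G s) (hG s) (q s) (hq s) h1 (hP.mono h2)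
        (fun i => h2 (hqN s i)) h3 (h2 (hyN s)) (hyr s) (hy s)
      exact ⟨Hf, fun _ => hHf⟩
    · exact ⟨fun _ => ∅, fun h => absurd h hI⟩
  choose F hF using hstep
  let Hs : (ℕ → Ordinal.{u}) → ℕ → Set ZFSet.{u} := fun z s =>
    Nat.rec (motive := fun _ => Set ZFSet.{u}) N (fun s N' => F s N' (z s)) s
  have hHs0 : ∀ z, Hs z 0 = N := fun _ => rfl
  have hHs1 : ∀ z s, Hs z (s+1) = F s (Hs z s) (z s) := fun _ _ => rfl
  have hInv : ∀ z, (∀ s, z s < κ (n s)) → ∀ s, Inv s (Hs z s) := by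
    intro z hz s
    induction s with
    | zero => exact ⟨hN, subset_rfl, hNc⟩
    | succ s ih =>
      obtain ⟨h1, h2, h3, _, _⟩ := (hF s _ ih).1 (z s) (hz s)
      rw [hHs1]
      refine ⟨h1, ih.2.1.trans h2, ?_⟩
      rw [hns s]
      exact h3
  have hsub : ∀ z, (∀ s, z s < κ (n s)) → Monotone (Hs z) := by
    intro z hz
    apply monotone_nat_of_le_succ
    intro s
    exact ((hF s _ (hInv z hz s)).1 (z s) (hz s)).2.1
  have hnmono : StrictMono n := strictMono_nat_of_lt_succ (fun s => by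
    rw [hns]; exact Nat.lt_succ_of_le (hnm s))
  have hno : ∀ z, (∀ s, z s < κ (n s)) → ∀ s, ∀ S ∈ Hs z s,
      #{x : ZFSet.{u} // x ∈ S} < Cardinal.lift.{u+1} (κ (n s)).card → ∀ t, s ≤ t →
      ∀ x ∈ Hs z t, x ∈ S → x ∈ Hs z s := by
    intro z hz s S hS hSc t hst
    induction t, hst using Nat.le_induction with
    | base => exact fun x hx _ => hx
    | succ t hst ih =>
      intro x hx hxS
      obtain ⟨_, _, _, h4, _⟩ := (hF t _ (hInv z hz t)).1 (z t) (hz t)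
      exact ih x (h4 S (hsub z hz hst hS) (hSc.trans_le (Cardinal.lift_le.2
        (Ordinal.card_le_card (C.mono.monotone (hnmono.monotone hst))))) x hx hxS) hxS
  have hcong : ∀ z z' : ℕ → Ordinal.{u}, ∀ s, (∀ t < s, z t = z' t) → Hs z s = Hs z' s := by
    intro z z' s
    induction s with
    | zero => intro _; rfl
    | succ s ih =>
      intro h
      rw [hHs1, hHs1, ih (fun t ht => h t (Nat.lt_succ_of_lt ht)), h s (Nat.lt_succ_self s)]
  have hEl : ∀ z, (∀ s, z s < κ (n s)) → El θ (⋃ s, Hs z s) := fun z hz =>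
    El.iUnion _ (fun s => (hInv z hz s).1) (hsub z hz)
  have hcoly : ∀ z, (∀ s, z s < κ (n s)) → ∀ s, col (⋃ s, Hs z s) (y s) =
      col (Hs z (s+1)) (y s) := by
    intro z hz s
    refine col_congr (H := ⋃ s, Hs z s) (H' := Hs z (s+1)) (T := fun x => x ∈ (κ (m s)).toZFSet)
      (fun x t hx ht => (ZFSet.isOrdinal_toZFSet _).mem_trans ht hx) ?_ (y s)
      (fun x hx => hyκ s hx)
    intro x hx
    constructor
    · intro h
      obtain ⟨t, ht⟩ := Set.mem_iUnion.1 h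
      have hmem : (κ (m s)).toZFSet ∈ Hs z (s+1) := by
        rw [← C.Ud]
        exact (hInv z hz (s+1)).2.1 (hP.Ud _)
      refine hno z hz (s+1) _ hmem ?_ (max t (s+1)) (le_max_right _ _) x
        (hsub z hz (le_max_left _ _) ht) hx
      rw [card_toZ, Cardinal.lift_lt, ← Cardinal.lt_ord, C.ord, hns]
      exact C.mono (Nat.lt_succ_self _)
    · intro h
      exact Set.mem_iUnion.2 ⟨s+1, h⟩
  refine ⟨fun z => ⋃ s, Hs z s, fun z hz => ⟨hEl z hz, fun x hx => Set.mem_iUnion.2 ⟨0, hx⟩,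
    ?_, ?_⟩⟩
  · intro l hl
    have hblk : ∃ s, n s ≤ l ∧ l ≤ m s := by
      have h2 : ∃ s, l < n (s+1) := ⟨l, (Nat.lt_succ_self l).trans_le (hnmono.id_le _)⟩
      refine ⟨Nat.find h2, ?_, ?_⟩
      · rcases Nat.eq_zero_or_pos (Nat.find h2) with h3 | h3
        · rw [h3]; exact hl
        · have h4 := Nat.find_min h2 (Nat.sub_lt h3 Nat.one_pos)
          rw [Nat.sub_add_cancel h3] at h4
          exact not_lt.1 h4
      · have h4 := Nat.find_spec h2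
        rw [hns] at h4
        omega
    obtain ⟨s, hs1, hs2⟩ := hblk
    obtain ⟨_, _, _, _, h5⟩ := (hF s _ (hInv z hz s)).1 (z s) (hz s)
    refine col_card (hEl z hz) (C.ord l) ((h5 l hs1 hs2).trans ?_)
    refine Cardinal.mk_le_of_injective (f := fun ζ => ⟨ζ.1, ζ.2.1,
      Set.mem_iUnion.2 ⟨s+1, ζ.2.2⟩⟩) ?_
    intro ζ ζ' h
    exact Subtype.ext (Subtype.mk.inj h)
  · intro z' hz' s hzz
    rw [hcoly z hz s, hcoly z' hz' s]
    constructor
    · intro h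
      rw [hcong z z' (s+1) (fun t ht => by
        rcases Nat.lt_succ_iff_lt_or_eq.1 ht with h2 | rfl
        · exact hzz t h2
        · exact h)]
    · intro h
      by_contra hne
      rw [hHs1, hHs1, hcong z z' s hzz] at h
      rcases lt_or_gt_of_ne hne with h2 | h2
      · exact (hF s _ (hInv z' hz' s)).2 _ _ h2 (hz' s) h
      · exact (hF s _ (hInv z' hz' s)).2 _ _ h2 (hz s) h.symm

end SOCat
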