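import Pool.Agent.SOCat.T7

/-!
# Cardinality arguments
-/

namespace SOCat

universe u

open ZFSet Cardinal

/-! ### Löwenheim–Skolem -/

theorem exists_El {θ : Ordinal.{u}} (B : Set ZFSet.{u}) (hB : ∀ b ∈ B, b.rank ≤ θ)
    (hinf : ℵ₀ ≤ #(VS θ)) : ∃ N : Set ZFSet.{u}, El θ N ∧ B ⊆ N ∧ #N ≤ max #B ℵ₀ := by
  let _ : FirstOrder.Language.order.Structure (VS θ) := relStr (fun x y : VS θ => x.1 ∈ y.1)
  let s : Set (VS θ) := {x | x.1 ∈ B}
  have hsB : #s ≤ #B := by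
    refine Cardinal.mk_le_of_injective (f := fun x => ⟨x.1.1, x.2⟩) ?_
    intro x y hxy
    exact Subtype.ext (Subtype.ext (Subtype.mk.inj hxy))
  have hBV : #B ≤ #(VS θ) := by
    refine Cardinal.mk_le_of_injective (f := fun x => ⟨x.1, hB x.1 x.2⟩) ?_
    intro x y hxy
    exact Subtype.ext (Subtype.mk.inj hxy)
  obtain ⟨S, hsS, hS⟩ := FirstOrder.Language.exists_elementarySubstructure_card_eq
    FirstOrder.Language.order (M := VS θ) s (max #B ℵ₀) (le_max_right _ _)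
    (by simpa using Or.inl hsB) (by
      rw [FirstOrder.Language.order.card_eq_one]
      simp only [Cardinal.lift_one]
      rw [← Cardinal.lift_one.{u+1, 0}]
      exact Cardinal.lift_le.2 ((Cardinal.one_le_aleph0).trans (le_max_right _ _))) (by
      apply Cardinal.lift_le.2
      exact max_le hBV hinf)
  rw [Cardinal.lift_id, Cardinal.lift_id] at hS
  have key : ∀ (ψ : Fml) (w : ℕ → S), GSat (fun a b : S => a.1.1 ∈ b.1.1) ψ w ↔
      Sat ψ (fun i => (w i).1) := by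
    intro ψ w
    have h3 := S.subtype.map_formula ψ.toL w
    rw [ψ.toL_iff, ψ.toL_iff] at h3
    rw [Sat_iff_GSat]
    refine (GSat_congr ?_ _ _).trans (h3.symm.trans (GSat_congr ?_ _ _))
    · intro a b
      exact Iff.rfl
    · intro a b
      exact Iff.rfl
  refine ⟨{z | ∃ x : S, x.1.1 = z}, ⟨?_, ?_, ?_⟩, ?_, ?_⟩
  · rintro ⟨z, z'⟩ ⟨h1, x, h2⟩
    have h1' : z = z' := h1
    subst h1'
    have h2' : x.1.1 = z := h2
    rw [← h2']
    exact ⟨x.1.2, x.1.2⟩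
  · intro φ v v' hv
    have : v = v' := by
      funext i
      exact Subtype.ext (hv i).1
    rw [this]
  · rintro φ v v' hv ⟨z, hz⟩
    have h1 : ∀ i, ∃ x : S, x.1 = v i := by
      intro i
      obtain ⟨_, x, hx⟩ := hv i
      exact ⟨x, Subtype.ext hx⟩
    choose w hw using h1
    have h2 : Sat (.neg (.all (.neg φ))) (fun i => (w i).1) := by
      intro h3
      apply h3 z
      have e : (fun i => (w i).1) = v := funext hw
      rw [e]
      exact hz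
    rw [← key] at h2
    have h3 : ∃ x : S, GSat (fun a b : S => a.1.1 ∈ b.1.1) φ (cons x w) := by
      by_contra h4
      push Not at h4
      exact h2 h4
    obtain ⟨x, hx⟩ := h3
    rw [key] at hx
    refine ⟨x.1, x.1, ⟨rfl, x, rfl⟩, ?_⟩
    convert hx using 1
    funext i
    cases i with
    | zero => rfl
    | succ i => exact (hw i).symm
  · intro b hb
    have : (⟨b, hB b hb⟩ : VS θ) ∈ S := hsS hb
    exact ⟨⟨_, this⟩, rfl⟩
  · rw [← hS]
    refine Cardinal.mk_le_of_surjective (f := fun x : S => ⟨x.1.1, x, rfl⟩) ?_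
    rintro ⟨z, x, rfl⟩
    exact ⟨x, rfl⟩

/-! ### consequences of the existence of a measure -/

/-- `M` is a `κ`-complete nonprincipal ultrafilter on `κ` -/
structure MsU (κ : Ordinal.{u}) (M : Ms.{u}) : Prop where
  dom : M.dom = κ.toZFSet
  cpl : Cpl κ M
  np : ∀ c : ZFSet.{u}, ∀ᶠ x : ZFSet.{u} in M.D, x ≠ c
  ord : κ.card.ord = κ

variable {κ : Ordinal.{u}} {M : Ms.{u}}

theorem MsU.mem (h : MsU κ M) : ∀ᶠ c : ZFSet.{u} in M.D, c.rank < κ ∧ c = c.rank.toZFSet := by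
  filter_upwards [M.hdom] with c hc
  rw [h.dom] at hc
  obtain ⟨ζ, hζ, rfl⟩ := Ordinal.mem_toZFSet_iff.1 hc
  rw [Ordinal.rank_toZFSet]
  exact ⟨hζ, rfl⟩

theorem MsU.const (h : MsU κ M) {X : Type (u+1)} (hX : #X < Cardinal.lift.{u+1} κ.card)
    (f : ZFSet.{u} → X) : ∃ x, ∀ᶠ c in M.D, f c = x := by
  by_contra h1
  push Not at h1
  have h2 := h.cpl X (fun x c => f c ≠ x) hX h1
  obtain ⟨c, hc⟩ := h2.exists
  exact hc (f c) rfl

theorem MsU.gt (h : MsU κ M) {α : Ordinal.{u}} (hα : α < κ) :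
    ∀ᶠ c : ZFSet.{u} in M.D, α < c.rank := by
  have h0 : (Order.succ α).card < κ.card ∨ Order.succ α = κ := by
    rcases (Order.succ_le_of_lt hα).lt_or_eq with h1 | h1
    · left
      rw [← Cardinal.lt_ord, h.ord]
      exact h1
    · right; exact h1
  have h1 : ∀ β : Ordinal.{u}, ∀ᶠ c : ZFSet.{u} in M.D, c.rank ≠ β := by
    intro β
    filter_upwards [h.np β.toZFSet, h.mem] with c h2 h3 h4
    apply h2
    rw [h3.2, h4]
  have h2 := h.cpl (Set.Iio α) (fun β c => c.rank ≠ β.1) (by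
    rw [Cardinal.mk_Iio_ordinal, Cardinal.lift_lt, ← Cardinal.lt_ord, h.ord]
    exact hα) (fun β => h1 β.1)
  filter_upwards [h2, h1 α] with c h3 h4
  rcases lt_trichotomy c.rank α with h5 | h5 | h5
  · exact absurd rfl (h3 ⟨c.rank, h5⟩)
  · exact absurd h5 h4
  · exact h5

theorem MsU.inj (h : MsU κ M) {X : Type (u+1)} (hX : Cardinal.lift.{u+1} κ.card ≤ #X) :
    ∃ e : ZFSet.{u} → X, ∀ x, ∀ᶠ c in M.D, e c ≠ x := by
  rw [← Cardinal.mk_Iio_ordinal] at hX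
  obtain ⟨e⟩ := (Cardinal.le_def _ _).1 hX
  have h0 : ∃ c : ZFSet.{u}, c.rank < κ := by
    obtain ⟨c, hc⟩ := h.mem.exists
    exact ⟨c, hc.1⟩
  obtain ⟨c0, hc0⟩ := h0
  classical
  refine ⟨fun c => if hc : c.rank < κ then e ⟨c.rank, hc⟩ else e ⟨c0.rank, hc0⟩, fun x => ?_⟩
  by_cases hx : ∃ β : Set.Iio κ, e β = x
  · obtain ⟨β, rfl⟩ := hx
    filter_upwards [h.np β.1.toZFSet, h.mem] with c h2 h3 h4
    rw [dif_pos h3.1] at h4
    have h5 := congrArg Subtype.val (e.injective h4)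
    have h5' : c.rank = β.1 := h5
    apply h2
    rw [h3.2, h5']
  · filter_upwards [h.mem] with c h3 h4
    rw [dif_pos h3.1] at h4
    exact hx ⟨_, h4⟩

/-- strong limit -/
theorem MsU.powerset (h : MsU κ M) {X : Type (u+1)} (hX : #X < Cardinal.lift.{u+1} κ.card) :
    #(Set X) < Cardinal.lift.{u+1} κ.card := by
  by_contra h1
  obtain ⟨e, he⟩ := h.inj (not_lt.1 h1)
  have h2 := h.cpl X (fun i c => i ∈ e c ↔ ∀ᶠ c in M.D, i ∈ e c) hX (by
    intro i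
    by_cases h3 : ∀ᶠ c in M.D, i ∈ e c
    · filter_upwards [h3] with c hc
      exact ⟨fun _ => h3, fun _ => hc⟩
    · have h4 := h3
      rw [← Ultrafilter.eventually_not] at h4
      filter_upwards [h4] with c hc
      exact ⟨fun h5 => absurd h5 hc, fun h5 => absurd h5 h3⟩)
  obtain ⟨c, hc1, hc2⟩ := (h2.and (he {i | ∀ᶠ c in M.D, i ∈ e c})).exists
  apply hc2
  ext i
  exact hc1 i

/-- regularity -/
theorem MsU.union (h : MsU κ M) {ι X : Type (u+1)} (hι : #ι < Cardinal.lift.{u+1} κ.card)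
    (A : ι → Set X) (hA : ∀ i, #(A i) < Cardinal.lift.{u+1} κ.card) (hU : ∀ x, ∃ i, x ∈ A i) :
    #X < Cardinal.lift.{u+1} κ.card := by
  by_contra h1
  obtain ⟨e, he⟩ := h.inj (not_lt.1 h1)
  choose f hf using hU
  obtain ⟨i, hi⟩ := h.const hι (fun c => f (e c))
  have h2 := h.cpl (A i) (fun a c => e c ≠ a.1) (hA i) (fun a => he a.1)
  obtain ⟨c, hc1, hc2⟩ := (h2.and hi).exists
  have h3 := hf (e c)
  rw [hc2] at h3
  exact hc1 ⟨e c, h3⟩ rfl

theorem card_VS_le_set (α : Ordinal.{u}) : #(VS α) ≤ #(Set (Sm α)) := by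
  refine Cardinal.mk_le_of_injective (f := fun x => {y | y.1 ∈ x.1}) ?_
  intro x y hxy
  apply vs_ext
  intro z
  constructor
  · intro hz
    have hr : z.rank < α := (rank_lt_of_mem hz).trans_le x.2
    have : (⟨z, hr⟩ : Sm α) ∈ {y : Sm α | y.1 ∈ x.1} := hz
    have hxy' : {y : Sm α | y.1 ∈ x.1} = {z : Sm α | z.1 ∈ y.1} := hxy
    rw [hxy'] at this
    exact this
  · intro hz
    have hr : z.rank < α := (rank_lt_of_mem hz).trans_le y.2
    have : (⟨z, hr⟩ : Sm α) ∈ {z : Sm α | z.1 ∈ y.1} := hz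
    have hxy' : {y : Sm α | y.1 ∈ x.1} = {z : Sm α | z.1 ∈ y.1} := hxy
    rw [← hxy'] at this
    exact this

theorem MsU.card_Sm (h : MsU κ M) : ∀ α < κ, #(Sm α) < Cardinal.lift.{u+1} κ.card := by
  intro α
  induction α using WellFoundedLT.induction with
  | _ α ih =>
    intro hα
    refine h.union (ι := Set.Iio α) ?_ (fun β => {x | x.1.rank ≤ β.1}) ?_ ?_
    · rw [Cardinal.mk_Iio_ordinal, Cardinal.lift_lt, ← Cardinal.lt_ord, h.ord]
      exact hα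
    · intro β
      have h1 := h.powerset (ih β.1 β.2 (lt_trans β.2 hα))
      refine lt_of_le_of_lt ?_ (lt_of_le_of_lt (card_VS_le_set β.1) h1)
      refine Cardinal.mk_le_of_injective (f := fun x => ⟨x.1.1, x.2⟩) ?_
      intro x y hxy
      exact Subtype.ext (Subtype.ext (Subtype.mk.inj hxy))
    · intro x
      exact ⟨⟨x.1.rank, x.2⟩, le_refl x.1.rank⟩

/-- ranks of collapses of small sets -/
theorem MsU.rank_col (h : MsU κ M) (A : Set ZFSet.{u}) (hA : #A < Cardinal.lift.{u+1} κ.card) :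
    ∀ z : ZFSet.{u}, (col A z).rank < κ := by
  intro z
  induction z using ZFSet.inductionOn with
  | _ z ih =>
    by_contra h1
    have h1 := not_lt.1 h1
    have h2 : ∀ c : ZFSet.{u}, ∃ y : ZFSet.{u}, c.rank < κ → (y ∈ z ∧ y ∈ A ∧
        c.rank ≤ (col A y).rank) := by
      intro c
      by_cases hc : c.rank < κ
      · obtain ⟨t, ht, htr⟩ := lt_rank_iff'.1 (hc.trans_le h1)
        obtain ⟨y, hy, hyA, rfl⟩ := mem_col.1 ht
        exact ⟨y, fun _ => ⟨hy, hyA, htr⟩⟩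
      · exact ⟨∅, fun h => absurd h hc⟩
    choose f hf using h2
    obtain ⟨c0, hc0⟩ := h.mem.exists
    obtain ⟨_, hA0, _⟩ := hf c0 hc0.1
    classical
    obtain ⟨x, hx⟩ := h.const hA (fun c => if hc : f c ∈ A then (⟨f c, hc⟩ : A) else ⟨f c0, hA0⟩)
    have h3 : ∀ᶠ c : ZFSet.{u} in M.D, x.1 ∈ z ∧ c.rank ≤ (col A x.1).rank := by
      filter_upwards [hx, h.mem] with c hc hc2
      obtain ⟨h4, h5, h6⟩ := hf c hc2.1
      rw [dif_pos h5] at hc
      have : f c = x.1 := congrArg Subtype.val hc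
      rw [← this]
      exact ⟨h4, h6⟩
    obtain ⟨c1, hc1⟩ := h3.exists
    obtain ⟨c, hc, hc2⟩ := (h3.and (h.gt (ih x.1 hc1.1))).exists
    exact absurd hc.2 (not_le.2 hc2)

/-! ### small sets are few -/

theorem EI.of_col {σ : Ordinal.{u}} {A A' : Set ZFSet.{u}} (hA : El σ A) (hA' : El σ A')
    (hK : col A (KK σ) = col A' (KK σ)) :
    EI σ {p | p.1 ∈ A ∧ p.2 ∈ A' ∧ col A p.1 = col A' p.2} := by
  have iso : ∀ (B : Set ZFSet.{u}) (hB : El σ B) (φ : Fml) (v : ℕ → VS σ)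
      (hv : ∀ i, (v i).1 ∈ B), (Sat φ v ↔ GSat (fun a b : {t : ZFSet.{u} // t ∈ col B (KK σ)} =>
        a.1 ∈ b.1) φ (fun i => ⟨col B (v i).1, mem_col.2 ⟨_, mem_KK.2 (v i).2, hv i, rfl⟩⟩)) := by
    intro B hB φ v hv
    have h1 := hB.gsat φ (fun i => ⟨(v i).1, hv i⟩)
    have h2 := GSat_iso (R := fun a b : {z : ZFSet.{u} // z ∈ B} => a.1 ∈ b.1)
      (R' := fun a b : {t : ZFSet.{u} // t ∈ col B (KK σ)} => a.1 ∈ b.1)
      (f := fun z => ⟨col B z.1, mem_col.2 ⟨_, mem_KK.2 (hB.rank z.2), z.2, rfl⟩⟩)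
      (by
        intro a b hab
        exact Subtype.ext (hB.col_inj a.2 b.2 (Subtype.mk.inj hab)))
      (by
        rintro ⟨t, ht⟩
        obtain ⟨z, hz, hzB, rfl⟩ := mem_col.1 ht
        exact ⟨⟨z, hzB⟩, rfl⟩)
      (by
        intro a b
        exact (hB.col_mem_iff a.2 b.2).symm) φ (fun i => ⟨(v i).1, hv i⟩)
    exact h1.symm.trans h2
  have hcor : ∀ (φ : Fml) (v v' : ℕ → VS σ), (∀ i, ((v i).1 ∈ A ∧ (v' i).1 ∈ A' ∧
      col A (v i).1 = col A' (v' i).1)) → (Sat φ v ↔ Sat φ v') := by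
    intro φ v v' hv
    rw [iso A hA φ v (fun i => (hv i).1), iso A' hA' φ v' (fun i => (hv i).2.1)]
    have gen : ∀ (Z Z' : ZFSet.{u}) (hZ : Z = Z') (w : ℕ → ZFSet.{u}) (hw : ∀ i, w i ∈ Z)
        (w' : ℕ → ZFSet.{u}) (hw' : ∀ i, w' i ∈ Z'), w = w' →
        (GSat (fun a b : {t : ZFSet.{u} // t ∈ Z} => a.1 ∈ b.1) φ (fun i => ⟨w i, hw i⟩) ↔
        GSat (fun a b : {t : ZFSet.{u} // t ∈ Z'} => a.1 ∈ b.1) φ (fun i => ⟨w' i, hw' i⟩)) := by
      intro Z Z' hZ w hw w' hw' hww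
      subst hZ hww
      rfl
    exact gen _ _ hK _ _ _ _ (funext fun i => (hv i).2.2)
  constructor
  · rintro ⟨z, z'⟩ ⟨h1, h2, _⟩
    exact ⟨hA.rank h1, hA'.rank h2⟩
  · exact hcor
  · rintro φ v v' hv ⟨z, hz⟩
    obtain ⟨y, hy1, hy2⟩ := hA.wit' φ v (fun i => (hv i).1) ⟨z, hz⟩
    have h1 : col A y.1 ∈ col A' (KK σ) := by
      rw [← hK]
      exact mem_col.2 ⟨_, mem_KK.2 y.2, hy1, rfl⟩
    obtain ⟨y', hy', hyA', he⟩ := mem_col.1 h1
    exact ⟨y, ⟨y', mem_KK.1 hy'⟩, ⟨hy1, hyA', he.symm⟩, hy2⟩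

theorem sml_inj {σ κ μ : Ordinal.{u}} (hσ : Lim σ) {Mu : Ordinal.{u} → Ms.{u}}
    (hMr : ∀ ζ < μ, (Mu ζ).dom.rank < σ)
    {a a' y y' : ZFSet.{u}} {g g' : Ordinal.{u} → ZFSet.{u}} (h : Goo σ κ μ Mu a g)
    (h' : Goo σ κ μ Mu a' g') (hy : y ∈ a) (hy' : y' ∈ a')
    (e : col (st {z | z ∈ a} g μ) y = y) (e' : col (st {z | z ∈ a'} g' μ) y' = y')
    (hK : col {z | z ∈ a} (KK σ) = col {z | z ∈ a'} (KK σ))
    (hyy : col {z | z ∈ a} y = col {z | z ∈ a'} y')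
    (hcd : ∀ ζ < μ, col {z | z ∈ a} (Mu ζ).cd = col {z | z ∈ a'} (Mu ζ).cd)
    (hdom : ∀ ζ < μ, col {z | z ∈ a} (Mu ζ).dom = col {z | z ∈ a'} (Mu ζ).dom) : y = y' := by
  have hρ := EI.of_col h.el h'.el hK
  set ρ : RR.{u} := {p | p.1 ∈ {z | z ∈ a} ∧ p.2 ∈ {z | z ∈ a'} ∧
    col {z | z ∈ a} p.1 = col {z | z ∈ a'} p.2} with hρdef
  have hdm : dm ρ = {z | z ∈ a} := by
    ext z
    constructor
    · rintro ⟨z', h1⟩
      exact h1.1
    · intro hz
      have h1 : col {z | z ∈ a} z ∈ col {z | z ∈ a'} (KK σ) := by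
        rw [← hK]
        exact mem_col.2 ⟨_, mem_KK.2 (h.el.rank hz), hz, rfl⟩
      obtain ⟨z', _, hz', he⟩ := mem_col.1 h1
      exact ⟨z', hz, hz', he.symm⟩
  have hrn : rn ρ = {z | z ∈ a'} := by
    ext z
    constructor
    · rintro ⟨z', h1⟩
      exact h1.2.1
    · intro hz
      have h1 : col {z | z ∈ a'} z ∈ col {z | z ∈ a} (KK σ) := by
        rw [hK]
        exact mem_col.2 ⟨_, mem_KK.2 (h'.el.rank hz), hz, rfl⟩
      obtain ⟨z', _, hz', he⟩ := mem_col.1 h1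
      exact ⟨z', hz', hz, he⟩
  have hst := EI.stR hσ hρ Mu Mu g g' μ (fun ζ hζ => ⟨h.cd ζ hζ, h'.cd ζ hζ, hcd ζ hζ⟩)
    (fun ζ hζ => ⟨h.dom ζ hζ, h'.dom ζ hζ, hdom ζ hζ⟩) hMr hMr
    (by rw [hdm]; exact h.gen) (by rw [hrn]; exact h'.gen) μ le_rfl
  have hyρ : (y, y') ∈ ρ := ⟨hy, hy', hyy⟩
  have h1 := hst.col_eq (stR_base hyρ)
  rw [dm_stR, rn_stR, hdm, hrn, e, e'] at h1
  exact h1

end SOCat
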