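import Pool.Agent.SOCat.T8

/-!
# Counting
-/

namespace SOCat

universe u

open ZFSet Cardinal

variable {θ : Ordinal.{u}} {κ σ : ℕ → Ordinal.{u}} {U : ℕ → Ms.{u}} {W : ℕ → ℕ → Ms.{u}}

theorem Ctx.ms (C : Ctx θ κ σ U W) (l : ℕ) : MsU (κ l) (U l) := ⟨C.Ud l, C.Uc l, C.Un l, C.ord l⟩

theorem card_code {T : Type (u+1)} {κ : Ordinal.{u}} {M : Ms.{u}} (h : MsU κ M)
    (hω : ℵ₀ < κ.card) (hT : #T < Cardinal.lift.{u+1} κ.card) :
    #(ℕ × ℕ × ℕ → T) < Cardinal.lift.{u+1} κ.card := by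
  have hω' : ℵ₀ < Cardinal.lift.{u+1} κ.card := Cardinal.aleph0_lt_lift.2 hω
  have h1 : #((ℕ × ℕ × ℕ) × T) < Cardinal.lift.{u+1} κ.card := by
    rw [Cardinal.mk_prod]
    refine Cardinal.mul_lt_of_lt hω'.le ?_ ?_
    · have h2 : #(ℕ × ℕ × ℕ) = ℵ₀ := Cardinal.mk_eq_aleph0 _
      rw [h2, Cardinal.lift_aleph0]
      exact hω'
    · rw [Cardinal.lift_id'.{0, u+1}]
      exact hT
  refine lt_of_le_of_lt ?_ (h.powerset h1)
  refine Cardinal.mk_le_of_injective (f := fun f => {p | f p.1 = p.2}) ?_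
  intro f f' hf
  funext i
  have : (i, f i) ∈ {p : (ℕ × ℕ × ℕ) × T | f p.1 = p.2} := rfl
  have hf' : {p : (ℕ × ℕ × ℕ) × T | f p.1 = p.2} = {p | f' p.1 = p.2} := hf
  rw [hf'] at this
  exact (show f' i = f i from this).symm

/-- the data coded -/
noncomputable def cde (κ σ : ℕ → Ordinal.{u}) (U : ℕ → Ms.{u}) (a : ℕ → ZFSet.{u})
    (x : ZFSet.{u}) (p : ℕ × ℕ × ℕ) : ZFSet.{u} :=
  col {z | z ∈ a p.1} (if p.2.1 = 0 then KK (σ p.1) else if p.2.1 = 1 then x ∩ (κ p.1).toZFSet else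
    if p.2.1 = 2 then (U p.2.2).cd else (U p.2.2).dom)

theorem exists_good (C : Ctx θ κ σ U W) {lam : Ordinal.{u}} (hlam : ∀ a, a < lam ↔ ∃ n, a < κ n)
    (X : Set (Pow lam)) (hX : Cardinal.lift.{u+1} lam.card < #X) :
    ∃ A ∈ X, ∀ n, ∃ m, n ≤ m ∧
      ¬ Sml (σ m) (κ n) (κ m) (MU κ U n) (A.1.1 ∩ (κ m).toZFSet) := by
  by_contra hcon
  push Not at hcon
  have hle : ∀ n, κ n ≤ lam := by
    intro n
    by_contra h
    have h1 := (hlam lam).2 ⟨n, not_le.1 h⟩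
    exact lt_irrefl _ h1
  have hinf : ℵ₀ ≤ Cardinal.lift.{u+1} lam.card := by
    rw [Cardinal.aleph0_le_lift]
    exact (C.unc 0).le.trans (Ordinal.card_le_card (hle 0))
  -- the bad sets
  have hbad : ∀ n : ℕ, ∃ e : Pow lam → Set.Iio lam, ∀ A A' : Pow lam,
      (∀ m, n ≤ m → Sml (σ m) (κ n) (κ m) (MU κ U n) (A.1.1 ∩ (κ m).toZFSet)) →
      (∀ m, n ≤ m → Sml (σ m) (κ n) (κ m) (MU κ U n) (A'.1.1 ∩ (κ m).toZFSet)) →
      e A = e A' → A = A' := by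
    intro n
    have h1 : ∀ A : Pow lam, ∃ a : ℕ → ZFSet.{u}, ∃ g : ℕ → Ordinal.{u} → ZFSet.{u},
        (∀ m, n ≤ m → Sml (σ m) (κ n) (κ m) (MU κ U n) (A.1.1 ∩ (κ m).toZFSet)) →
        ∀ m, n ≤ m → Goo (σ m) (κ n) (κ m) (MU κ U n) (a m) (g m) ∧
          (A.1.1 ∩ (κ m).toZFSet) ∈ a m ∧
          col (st {z | z ∈ a m} (g m) (κ m)) (A.1.1 ∩ (κ m).toZFSet) =
            A.1.1 ∩ (κ m).toZFSet := by
      intro A
      by_cases hA : ∀ m, n ≤ m → Sml (σ m) (κ n) (κ m) (MU κ U n) (A.1.1 ∩ (κ m).toZFSet)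
      · have h2 : ∀ m, ∃ a g, n ≤ m → Goo (σ m) (κ n) (κ m) (MU κ U n) a g ∧
          (A.1.1 ∩ (κ m).toZFSet) ∈ a ∧
          col (st {z | z ∈ a} g (κ m)) (A.1.1 ∩ (κ m).toZFSet) = A.1.1 ∩ (κ m).toZFSet := by
          intro m
          by_cases hm : n ≤ m
          · obtain ⟨a, g, h3⟩ := hA m hm
            exact ⟨a, g, fun _ => h3⟩
          · exact ⟨∅, fun _ => ∅, fun h => absurd h hm⟩
        choose a g h3 using h2
        exact ⟨a, g, fun _ => h3⟩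
      · exact ⟨fun _ => ∅, fun _ _ => ∅, fun h => absurd h hA⟩
    choose a g hag using h1
    have hT := card_code (C.ms (n+1)) (C.unc (n+1)) ((C.ms (n+1)).card_Sm (κ n)
      (C.mono (Nat.lt_succ_self n)))
    have hT2 : #(ℕ × ℕ × ℕ → Sm (κ n)) ≤ #(Set.Iio lam) := by
      rw [Cardinal.mk_Iio_ordinal]
      exact hT.le.trans (Cardinal.lift_le.2 (Ordinal.card_le_card (hle _)))
    obtain ⟨e⟩ := (Cardinal.le_def _ _).1 hT2
    classical
    have h0 : (0 : Ordinal.{u}) < κ n := by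
      rw [← C.ord n, Cardinal.lt_ord, Ordinal.card_zero]
      exact Cardinal.aleph0_pos.trans (C.unc n)
    let cc : Pow lam → (ℕ × ℕ × ℕ → Sm (κ n)) := fun A p =>
      if h : (cde κ σ U (a A) A.1.1 p).rank < κ n ∧ n ≤ p.1 then ⟨_, h.1⟩ else ⟨∅, by
        rw [ZFSet.rank_empty]; exact h0⟩
    refine ⟨fun A => e (cc A), fun A A' hA hA' hee => ?_⟩
    have hcc := e.injective hee
    have hag1 := hag A hA
    have hag2 := hag A' hA'
    have hcd : ∀ p : ℕ × ℕ × ℕ, n ≤ p.1 → cde κ σ U (a A) A.1.1 p = cde κ σ U (a A') A'.1.1 p := by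
      intro p hp
      have h2 : ∀ B : Pow lam, (∀ m, n ≤ m → Goo (σ m) (κ n) (κ m) (MU κ U n) (a B m) (g B m) ∧
          (B.1.1 ∩ (κ m).toZFSet) ∈ a B m ∧
          col (st {z | z ∈ a B m} (g B m) (κ m)) (B.1.1 ∩ (κ m).toZFSet) =
            B.1.1 ∩ (κ m).toZFSet) → ((cc B) p).1 = cde κ σ U (a B) B.1.1 p := by
        intro B hB
        have h3 : (cde κ σ U (a B) B.1.1 p).rank < κ n :=
          (C.ms n).rank_col _ (hB p.1 hp).1.card _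
        simp only [cc]
        rw [dif_pos ⟨h3, hp⟩]
      rw [← h2 A hag1, ← h2 A' hag2, hcc]
    have hmain : ∀ m, n ≤ m → A.1.1 ∩ (κ m).toZFSet = A'.1.1 ∩ (κ m).toZFSet := by
      intro m hm
      obtain ⟨g1, g2, g3⟩ := hag1 m hm
      obtain ⟨g1', g2', g3'⟩ := hag2 m hm
      refine sml_inj (C.sl m) ?_ g1 g1' g2 g2' g3 g3' ?_ ?_ ?_ ?_
      · intro ζ hζ
        unfold MU
        rw [C.Ud, Ordinal.rank_toZFSet]
        exact (C.mono.monotone (lab_spec hm hζ).2.2.1).trans_lt (C.κσ m)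
      · exact hcd (m, 0, 0) hm
      · exact hcd (m, 1, 0) hm
      · intro ζ hζ
        exact hcd (m, 2, lab κ n ζ) hm
      · intro ζ hζ
        exact hcd (m, 3, lab κ n ζ) hm
    apply Subtype.ext
    apply Subtype.ext
    ext t
    have hsym : ∀ B B' : Pow lam, (∀ m, n ≤ m → B.1.1 ∩ (κ m).toZFSet = B'.1.1 ∩ (κ m).toZFSet) →
        t ∈ B.1.1 → t ∈ B'.1.1 := by
      intro B B' h2 ht
      obtain ⟨ζ, hζ, rfl⟩ := Ordinal.mem_toZFSet_iff.1 (B.2 ht)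
      obtain ⟨k, hk⟩ := (hlam ζ).1 hζ
      have h3 : ζ < κ (max n k) := hk.trans_le (C.mono.monotone (le_max_right _ _))
      have h4 : ζ.toZFSet ∈ B.1.1 ∩ (κ (max n k)).toZFSet :=
        ZFSet.mem_inter.2 ⟨ht, Ordinal.toZFSet_mem_toZFSet_iff.2 h3⟩
      rw [h2 _ (le_max_left _ _)] at h4
      exact (ZFSet.mem_inter.1 h4).1
    exact ⟨hsym A A' hmain, hsym A' A (fun m hm => (hmain m hm).symm)⟩
  choose e he using hbad
  choose nn hnn using hcon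
  apply not_le.2 hX
  rw [← Cardinal.mk_Iio_ordinal]
  have hinf' : ℵ₀ ≤ #(Set.Iio lam) := by
    rw [Cardinal.mk_Iio_ordinal]; exact hinf
  have h5 : #(ℕ × Set.Iio lam) = #(Set.Iio lam) := by
    rw [Cardinal.mk_prod, Cardinal.lift_id'.{0, u+1}, Cardinal.mk_nat, Cardinal.lift_aleph0]
    exact Cardinal.aleph0_mul_eq hinf'
  rw [← h5]
  refine Cardinal.mk_le_of_injective (f := fun A : X => (nn A.1 A.2, e (nn A.1 A.2) A.1)) ?_
  intro A A' hAA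
  have h6 : nn A.1 A.2 = nn A'.1 A'.2 := (Prod.mk.inj hAA).1
  have h7 : e (nn A.1 A.2) A.1 = e (nn A'.1 A'.2) A'.1 := (Prod.mk.inj hAA).2
  have h8 := hnn A'.1 A'.2
  rw [← h6] at h7 h8
  exact Subtype.ext (he _ A.1 A'.1 (hnn A.1 A.2) h8 h7)

end SOCat
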